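import Pool.Agent.H50.RC.Def

/-!
S05864 [H50 RC DT]: the inner product `dt` and the directions `dir m k = e^(iπk/m)`.
`dt` is bilinear and `dt u u = ‖u‖²`; everything by `Complex.ext`, `simp [dt]`, `ring`, `Complex.normSq`, Cauchy-Schwarz `(ac+bd)² ≤ (a²+b²)(c²+d²)`.
`dir m k = cos(πk/m) + i sin(πk/m)` (`Complex.exp_mul_I`). `I * dir m (k+1) = cos(π/m) I dir m k - sin(π/m) dir m k` (addition theorem).
`sum_dir`: over `m ≥ 2` consecutive indices `∑ (l . J n_j) J n_j = (m/2) l`. Proof: with `J n_j = e^(iθ_j)`, `(l . e)e = (l + conj l e²)/2` as complex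
numbers (`dt l e = (conj l e + l conj e)/2`, times `e`, `e conj e = 1`), and `∑ e^(2iθ_j) = 0` is a geometric sum with ratio `e^(2πi/m) ≠ 1` and `m` terms.
`bad_unique`: if `‖u‖ = 1` and `|dt (I u) n_k|, |dt (I u) n_k'| < 2ε` with `4ε ≤ sin(π/m)` and `k < k' < k + m` then contradiction: `dt (I n_k) n_k' = sin(π(k-k')/m)` up to sign,
`|sin| ≥ sin(π/m)` for `1 ≤ k'-k ≤ m-1`, and `dt (I n) n' = dt (I n) u dt u n' + dt (I n) (I u) dt (I u) n'`, `dt (I n) u = - dt n (I u)`, `|dt u n'| ≤ 1`, `|dt (I n) (I u)| = |dt n u| ≤ 1`.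
-/

set_option autoImplicit false

namespace H50RC

theorem dt_comm (u v : ℂ) : dt u v = dt v u := by
  simp [dt, mul_comm]

theorem dt_add_right (u v w : ℂ) : dt u (v + w) = dt u v + dt u w := by
  simp [dt]; ring

theorem dt_add_left (u v w : ℂ) : dt (u + v) w = dt u w + dt v w := by
  simp [dt]; ring

theorem dt_sub_right (u v w : ℂ) : dt u (v - w) = dt u v - dt u w := by
  simp [dt]; ring

theorem dt_smul_right (c : ℝ) (u v : ℂ) : dt u (c • v) = c * dt u v := by
  simp [dt]; ring

theorem dt_smul_left (c : ℝ) (u v : ℂ) : dt (c • u) v = c * dt u v := by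
  simp [dt]; ring

theorem dt_neg_right (u v : ℂ) : dt u (-v) = -dt u v := by
  simp [dt]; ring

theorem dt_zero_right (u : ℂ) : dt u 0 = 0 := by
  simp [dt]

theorem dt_sum_right {ι : Type} (s : Finset ι) (u : ℂ) (f : ι → ℂ) :
    dt u (∑ i ∈ s, f i) = ∑ i ∈ s, dt u (f i) := by
  classical
  induction s using Finset.induction_on with
  | empty => simp [dt_zero_right]
  | insert a s ha ih => rw [Finset.sum_insert ha, Finset.sum_insert ha, dt_add_right, ih]

theorem dt_sum_left {ι : Type} (s : Finset ι) (u : ℂ) (f : ι → ℂ) :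
    dt (∑ i ∈ s, f i) u = ∑ i ∈ s, dt (f i) u := by
  rw [dt_comm, dt_sum_right]
  exact Finset.sum_congr rfl fun i _ => dt_comm _ _

theorem dt_self (u : ℂ) : dt u u = ‖u‖ ^ 2 := by
  rw [← Complex.normSq_eq_norm_sq, Complex.normSq_apply]
  rfl

theorem abs_dt_le (u v : ℂ) : |dt u v| ≤ ‖u‖ * ‖v‖ := by
  refine abs_le_of_sq_le_sq ?_ (mul_nonneg (norm_nonneg _) (norm_nonneg _))
  rw [mul_pow, ← dt_self, ← dt_self]
  unfold dt
  nlinarith [sq_nonneg (u.re * v.im - u.im * v.re)]

/-- Parseval for the basis `n, J n` -/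
theorem dt_basis {n : ℂ} (hn : ‖n‖ = 1) (u v : ℂ) :
    dt u v = dt n u * dt n v + dt (Complex.I * n) u * dt (Complex.I * n) v := by
  have h1 : n.re * n.re + n.im * n.im = 1 := by
    have := dt_self n
    rw [hn] at this
    unfold dt at this
    linarith
  simp only [dt, Complex.mul_re, Complex.mul_im, Complex.I_re, Complex.I_im]
  linear_combination (-(u.re * v.re + u.im * v.im)) * h1

theorem eq_basis {n : ℂ} (hn : ‖n‖ = 1) (u : ℂ) :
    u = dt n u • n + dt (Complex.I * n) u • (Complex.I * n) := by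
  have h1 : n.re * n.re + n.im * n.im = 1 := by
    have := dt_self n
    rw [hn] at this
    unfold dt at this
    linarith
  apply Complex.ext
  · simp only [dt, Complex.add_re, Complex.real_smul, Complex.mul_re, Complex.mul_im,
      Complex.ofReal_re, Complex.ofReal_im, Complex.I_re, Complex.I_im]
    linear_combination (-u.re) * h1
  · simp only [dt, Complex.add_im, Complex.real_smul, Complex.mul_re, Complex.mul_im,
      Complex.ofReal_re, Complex.ofReal_im, Complex.I_re, Complex.I_im]
    linear_combination (-u.im) * h1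

theorem dt_rot (u v : ℂ) : dt (Complex.I * u) (Complex.I * v) = dt u v := by
  simp only [dt, Complex.mul_re, Complex.mul_im, Complex.I_re, Complex.I_im]
  ring

theorem dt_rot_self (u : ℂ) : dt (Complex.I * u) u = 0 := by
  simp only [dt, Complex.mul_re, Complex.mul_im, Complex.I_re, Complex.I_im]
  ring

theorem norm_dir (m k : ℕ) : ‖dir m k‖ = 1 := by
  unfold dir
  rw [mul_comm]
  exact Complex.norm_exp_ofReal_mul_I _

theorem norm_I_dir (m k : ℕ) : ‖Complex.I * dir m k‖ = 1 := by
  rw [norm_mul, Complex.norm_I, norm_dir, mul_one]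

theorem dir_succ (m k : ℕ) : Complex.I * dir m (k + 1) =
    Real.cos (Real.pi / m) • (Complex.I * dir m k) - Real.sin (Real.pi / m) • dir m k := by
  have h1 : dir m (k + 1) = dir m k * Complex.exp (((Real.pi / m : ℝ) : ℂ) * Complex.I) := by
    unfold dir
    rw [← Complex.exp_add]
    congr 1
    push_cast
    ring
  have h2 : Complex.exp (((Real.pi / m : ℝ) : ℂ) * Complex.I) =
      ((Real.cos (Real.pi / m) : ℝ) : ℂ) + ((Real.sin (Real.pi / m) : ℝ) : ℂ) * Complex.I := by
    rw [Complex.exp_mul_I, Complex.ofReal_cos, Complex.ofReal_sin]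
  rw [h1, h2, Complex.real_smul, Complex.real_smul]
  linear_combination (((Real.sin (Real.pi / m) : ℝ) : ℂ) * dir m k) * Complex.I_mul_I

theorem sum_dir {m : ℕ} (hm : 2 ≤ m) (k : ℕ) (l : ℂ) :
    ∑ j ∈ Finset.range m, dt l (Complex.I * dir m (k + j)) • (Complex.I * dir m (k + j)) =
      ((m : ℝ) / 2) • l := by
  have hm0 : (m : ℝ) ≠ 0 := by
    have : 0 < m := by omega
    exact_mod_cast this.ne'
  have hmC : (m : ℂ) ≠ 0 := by exact_mod_cast (show (m : ℕ) ≠ 0 by omega)
  -- each term
  have hterm : ∀ j : ℕ, dt l (Complex.I * dir m (k + j)) • (Complex.I * dir m (k + j)) =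
      (1 / 2 : ℂ) * l + (-(1 / 2) * (starRingEnd ℂ) l * dir m k ^ 2) *
        (Complex.exp (2 * Real.pi * Complex.I / m)) ^ j := by
    intro j
    have e1 : ∀ (x e : ℂ), ‖e‖ = 1 → dt x e • e = (1 / 2 : ℂ) * x + (1 / 2 : ℂ) * (starRingEnd ℂ) x * e ^ 2 := by
      intro x e he
      have h1 : e.re * e.re + e.im * e.im = 1 := by
        have := dt_self e
        rw [he] at this
        unfold dt at this
        linarith
      apply Complex.ext
      · simp only [dt, Complex.real_smul, Complex.mul_re, Complex.mul_im, Complex.add_re,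
          Complex.ofReal_re, Complex.ofReal_im, Complex.conj_re, Complex.conj_im, sq]
        norm_num
        linear_combination (1 / 2 * x.re) * h1
      · simp only [dt, Complex.real_smul, Complex.mul_re, Complex.mul_im, Complex.add_im,
          Complex.ofReal_re, Complex.ofReal_im, Complex.conj_re, Complex.conj_im, sq]
        norm_num
        linear_combination (1 / 2 * x.im) * h1
    rw [e1 _ _ (norm_I_dir _ _)]
    have e2 : (Complex.I * dir m (k + j)) ^ 2 = -(dir m k ^ 2 *
        (Complex.exp (2 * Real.pi * Complex.I / m)) ^ j) := by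
      rw [mul_pow, Complex.I_sq]
      have : dir m (k + j) ^ 2 = dir m k ^ 2 * (Complex.exp (2 * Real.pi * Complex.I / m)) ^ j := by
        unfold dir
        rw [← Complex.exp_nat_mul, ← Complex.exp_nat_mul, ← Complex.exp_nat_mul, ← Complex.exp_add]
        congr 1
        push_cast
        field_simp
      rw [this]
      ring
    rw [e2]
    ring
  rw [Finset.sum_congr rfl fun j _ => hterm j, Finset.sum_add_distrib, Finset.sum_const,
    Finset.card_range]
  have hprim := Complex.isPrimitiveRoot_exp m (by omega)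
  rw [← Finset.mul_sum, hprim.geom_sum_eq_zero (by omega), mul_zero, add_zero, nsmul_eq_mul,
    Complex.real_smul]
  push_cast
  ring

theorem bad_unique {m : ℕ} (hm : 2 ≤ m) {ε : ℝ} (hε : 4 * ε ≤ Real.sin (Real.pi / m)) {u : ℂ} (hu : ‖u‖ = 1)
    {k k' : ℕ} (h1 : k < k') (h2 : k' < k + m) (h3 : |dt (Complex.I * u) (dir m k)| < 2 * ε)
    (h4 : |dt (Complex.I * u) (dir m k')| < 2 * ε) : False := by
  have hm0 : (0 : ℝ) < m := by
    have : 0 < m := by omega
    exact_mod_cast this
  have h5 : dt (Complex.I * dir m k) (dir m k') = Real.sin (Real.pi * ((k' - k : ℕ) : ℝ) / m) := by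
    have e1 : ∀ j : ℕ, dir m j = ((Real.cos (Real.pi * j / m) : ℝ) : ℂ) +
        ((Real.sin (Real.pi * j / m) : ℝ) : ℂ) * Complex.I := by
      intro j
      unfold dir
      rw [mul_comm, Complex.exp_mul_I, Complex.ofReal_cos, Complex.ofReal_sin]
    rw [e1 k, e1 k']
    have e2 : Real.pi * ((k' - k : ℕ) : ℝ) / m = Real.pi * k' / m - Real.pi * k / m := by
      rw [Nat.cast_sub h1.le]
      ring
    rw [e2, Real.sin_sub]
    simp only [dt, Complex.mul_re, Complex.mul_im, Complex.add_re, Complex.add_im,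
      Complex.ofReal_re, Complex.ofReal_im, Complex.I_re, Complex.I_im]
    ring
  have h6 : Real.sin (Real.pi / m) ≤ Real.sin (Real.pi * ((k' - k : ℕ) : ℝ) / m) := by
    have hd1 : (1 : ℝ) ≤ ((k' - k : ℕ) : ℝ) := by
      exact_mod_cast (show 1 ≤ k' - k by omega)
    have hd2 : ((k' - k : ℕ) : ℝ) + 1 ≤ m := by
      exact_mod_cast (show k' - k + 1 ≤ m by omega)
    have hpi := Real.pi_pos
    have hx : Real.pi / m ≤ Real.pi * ((k' - k : ℕ) : ℝ) / m := by
      rw [div_le_div_iff_of_pos_right hm0]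
      nlinarith
    have hy : Real.pi * ((k' - k : ℕ) : ℝ) / m ≤ Real.pi - Real.pi / m := by
      rw [le_sub_iff_add_le, ← add_div, div_le_iff₀ hm0]
      nlinarith
    have hm2 : (2 : ℝ) ≤ m := by exact_mod_cast hm
    have hz : Real.pi / m ≤ Real.pi / 2 := div_le_div_of_nonneg_left hpi.le (by norm_num) hm2
    have hz0 : 0 < Real.pi / m := by positivity
    rcases le_total (Real.pi * ((k' - k : ℕ) : ℝ) / m) (Real.pi / 2) with h | h
    · exact Real.sin_le_sin_of_le_of_le_pi_div_two (by linarith) h hx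
    · rw [← Real.sin_pi_sub (Real.pi * ((k' - k : ℕ) : ℝ) / m)]
      exact Real.sin_le_sin_of_le_of_le_pi_div_two (by linarith) (by linarith) (by linarith)
  have h7 := dt_basis hu (Complex.I * dir m k) (dir m k')
  have h8 : |dt u (Complex.I * dir m k)| < 2 * ε := by
    have : dt u (Complex.I * dir m k) = -dt (Complex.I * u) (dir m k) := by
      simp only [dt, Complex.mul_re, Complex.mul_im, Complex.I_re, Complex.I_im]
      ring
    rw [this, abs_neg]
    exact h3
  have h9 : |dt u (dir m k')| ≤ 1 := by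
    have := abs_dt_le u (dir m k')
    rwa [hu, norm_dir, one_mul] at this
  have h10 : |dt (Complex.I * u) (Complex.I * dir m k)| ≤ 1 := by
    have := abs_dt_le (Complex.I * u) (Complex.I * dir m k)
    rwa [norm_mul, Complex.norm_I, one_mul, hu, norm_I_dir, one_mul] at this
  have hε0 : 0 < ε := by
    have := (abs_nonneg _).trans_lt h3
    linarith
  have h11 : |dt u (Complex.I * dir m k) * dt u (dir m k')| < 2 * ε := by
    rw [abs_mul]
    calc |dt u (Complex.I * dir m k)| * |dt u (dir m k')| ≤ |dt u (Complex.I * dir m k)| * 1 :=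
          mul_le_mul_of_nonneg_left h9 (abs_nonneg _)
      _ < 2 * ε := by linarith
  have h12 : |dt (Complex.I * u) (Complex.I * dir m k) * dt (Complex.I * u) (dir m k')| < 2 * ε := by
    rw [abs_mul]
    calc |dt (Complex.I * u) (Complex.I * dir m k)| * |dt (Complex.I * u) (dir m k')| ≤
          1 * |dt (Complex.I * u) (dir m k')| :=
          mul_le_mul_of_nonneg_right h10 (abs_nonneg _)
      _ < 2 * ε := by linarith
  have h13 := (abs_lt.1 h11).2
  have h14 := (abs_lt.1 h12).2
  rw [h5] at h7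
  linarith

/-- the component orthogonal to a unit vector is small if `‖z‖ - u . z` is small -/
theorem perp_sq_le {u z : ℂ} (hu : ‖u‖ = 1) : dt (Complex.I * u) z ^ 2 ≤ 2 * ‖z‖ * (‖z‖ - dt u z) := by
  have h1 := dt_basis hu z z
  rw [dt_self] at h1
  have h2 := abs_dt_le u z
  rw [hu, one_mul] at h2
  have h3 := (abs_le.1 h2).2
  nlinarith [sq_nonneg (‖z‖ - dt u z)]

end H50RC
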