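import Pool.Agent.H50.RC.Bas
import Pool.Agent.H50.RC.Dt

/-!
S05864 [H50 RC NRM]: the `ℓ_1` norm `nr` and the variation `var K y w = ∑ ‖y g‖` over the leaves `g` below `w`.
`var` is additive over the children (`sum_lev_succ` in the other order, `sum_lev_add`; a leaf below `w` is a leaf below exactly one child), `‖y w‖ ≤ var K y w` for `y ∈ Vs`
by downward induction on the level (`K - w.length`), `var K y [] = nr K y`, `∑_{w ∈ lev k} var K y w = nr K y` for `k ≤ K` (`sum_lev_add`).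
-/

set_option autoImplicit false

namespace H50RC

variable {N K : ℕ}

/-- variation of `y` below `w` -/
noncomputable def var {N : ℕ} (K : ℕ) (y : Y N) (w : Nd N) : ℝ := ∑ g ∈ lev N (K - w.length), ‖y (g ++ w)‖

theorem nr_nonneg (y : Y N) : 0 ≤ nr K y := Finset.sum_nonneg fun _ _ => norm_nonneg _

theorem nr_zero : nr K (0 : Y N) = 0 := by simp [nr]

theorem nr_add_le (y z : Y N) : nr K (y + z) ≤ nr K y + nr K z := by
  unfold nr
  rw [← Finset.sum_add_distrib]
  exact Finset.sum_le_sum fun w _ => norm_add_le _ _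

theorem nr_neg (y : Y N) : nr K (-y) = nr K y := by simp [nr]

theorem nr_sub_le (y z : Y N) : nr K (y - z) ≤ nr K y + nr K z := by
  rw [sub_eq_add_neg, ← nr_neg z]
  exact nr_add_le _ _

theorem nr_smul (c : ℝ) (y : Y N) : nr K (c • y) = |c| * nr K y := by
  unfold nr
  rw [Finset.mul_sum]
  refine Finset.sum_congr rfl fun w _ => ?_
  rw [Pi.smul_apply, norm_smul, Real.norm_eq_abs]

theorem nr_sum_le {ι : Type} (s : Finset ι) (f : ι → Y N) : nr K (∑ i ∈ s, f i) ≤ ∑ i ∈ s, nr K (f i) := by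
  classical
  induction s using Finset.induction_on with
  | empty => simp [nr_zero]
  | insert a s ha ih =>
    rw [Finset.sum_insert ha, Finset.sum_insert ha]
    exact (nr_add_le _ _).trans (by linarith)

theorem var_nonneg (y : Y N) (w : Nd N) : 0 ≤ var K y w := Finset.sum_nonneg fun _ _ => norm_nonneg _

theorem var_nil (y : Y N) : var K y [] = nr K y := by
  simp [var, nr]

theorem var_children (y : Y N) {w : Nd N} (hw : w.length < K) : var K y w = ∑ a, var K y (a :: w) := by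
  obtain ⟨j, hj⟩ : ∃ j, K - w.length = j + 1 := ⟨K - w.length - 1, by omega⟩
  have h2 : ∀ a : Fin N, K - (a :: w).length = j := by
    intro a
    simp only [List.length_cons]
    omega
  have h3 := sum_lev_add (j := j) (k := 1) (fun g : Nd N => ‖y (g ++ w)‖)
  have h4 := sum_lev_succ (k := 0) (fun v : Nd N => ∑ g ∈ lev N j, ‖y (g ++ v ++ w)‖)
  unfold var
  simp only [h2]
  rw [hj, h3]
  refine h4.trans ?_
  simp [lev]

theorem norm_le_var {y : Y N} (hy : y ∈ Vs N K) {w : Nd N} (hw : w.length ≤ K) : ‖y w‖ ≤ var K y w := by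
  have hy' : ∀ w : Nd N, w.length < K → y w = ∑ a, y (a :: w) := hy
  obtain ⟨j, hj⟩ : ∃ j, K - w.length = j := ⟨_, rfl⟩
  induction j generalizing w with
  | zero =>
    have h1 : var K y w = ‖y w‖ := by
      unfold var
      rw [hj]
      simp [lev]
    rw [h1]
  | succ j ih =>
    have hlt : w.length < K := by omega
    rw [hy' w hlt, var_children y hlt]
    refine (norm_sum_le _ _).trans (Finset.sum_le_sum fun a _ => ih ?_ ?_)
    · simp only [List.length_cons]
      omega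
    · simp only [List.length_cons]
      omega

theorem sum_var_lev (y : Y N) {k : ℕ} (hk : k ≤ K) : ∑ w ∈ lev N k, var K y w = nr K y := by
  have h1 : ∑ w ∈ lev N k, var K y w = ∑ w ∈ lev N k, ∑ g ∈ lev N (K - k), ‖y (g ++ w)‖ := by
    refine Finset.sum_congr rfl fun w hw => ?_
    unfold var
    rw [mem_lev.1 hw]
  rw [h1, ← sum_lev_add (fun w : Nd N => ‖y w‖), Nat.sub_add_cancel hk]
  rfl

theorem var_le_nr (y : Y N) {w : Nd N} (hw : w.length ≤ K) : var K y w ≤ nr K y := by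
  rw [← sum_var_lev y hw]
  exact Finset.single_le_sum (f := fun w => var K y w) (fun v _ => var_nonneg y v) (mem_lev.2 rfl)

/-- the sum of `‖y‖` over a level -/
theorem sum_lev_norm_le {y : Y N} (hy : y ∈ Vs N K) {k : ℕ} (hk : k ≤ K) : ∑ w ∈ lev N k, ‖y w‖ ≤ nr K y := by
  rw [← sum_var_lev y hk]
  refine Finset.sum_le_sum fun w hw => norm_le_var hy ?_
  rw [mem_lev.1 hw]
  exact hk

theorem norm_le_nr {y : Y N} (hy : y ∈ Vs N K) {w : Nd N} (hw : w.length ≤ K) : ‖y w‖ ≤ nr K y := by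
  exact (norm_le_var hy hw).trans (var_le_nr y hw)

/-- all levels `1..K` together -/
theorem sum_nds_norm_le {y : Y N} (hy : y ∈ Vs N K) : ∑ w ∈ nds N K, ‖y w‖ ≤ K * nr K y := by
  rw [sum_nds]
  calc ∑ k ∈ Finset.range K, ∑ w ∈ lev N (k + 1), ‖y w‖ ≤ ∑ k ∈ Finset.range K, nr K y := by
        refine Finset.sum_le_sum fun k hk => sum_lev_norm_le hy ?_
        have := Finset.mem_range.1 hk
        omega
    _ = K * nr K y := by simp

/-- squares: `∑_{w ∈ nds} ‖y w‖² ≤ K (nr y)²` -/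
theorem sum_nds_sq_le {y : Y N} (hy : y ∈ Vs N K) : ∑ w ∈ nds N K, ‖y w‖ ^ 2 ≤ K * nr K y ^ 2 := by
  have h1 : ∀ w ∈ nds N K, ‖y w‖ ^ 2 ≤ nr K y * ‖y w‖ := by
    intro w hw
    have h2 := norm_le_nr hy (mem_nds.1 hw).2
    nlinarith [norm_nonneg (y w)]
  calc ∑ w ∈ nds N K, ‖y w‖ ^ 2 ≤ ∑ w ∈ nds N K, nr K y * ‖y w‖ := Finset.sum_le_sum h1
    _ = nr K y * ∑ w ∈ nds N K, ‖y w‖ := by rw [Finset.mul_sum]
    _ ≤ nr K y * (K * nr K y) := mul_le_mul_of_nonneg_left (sum_nds_norm_le hy) (nr_nonneg y)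
    _ = K * nr K y ^ 2 := by ring

/-- `ω ∈ BB(c)`: single values and the `ℓ_2` norm -/
theorem BB.abs_le {c : ℝ} {ω : Om N} (h : BB K c ω) {w : Nd N} (hw : w ∈ nds N K) : |ω w| ≤ c := by
  obtain ⟨h1, h2⟩ := mem_nds.1 hw
  have h3 : 0 < w.length := List.length_pos_of_ne_nil h1
  have h4 := h (w.length - 1) (by omega)
  refine le_trans ?_ h4
  refine Finset.single_le_sum (f := fun w => |ω w|) (fun v _ => abs_nonneg _) (mem_lev.2 ?_)
  omega

theorem BB.sq_le {c : ℝ} {ω : Om N} (h : BB K c ω) : ∑ w ∈ nds N K, ω w ^ 2 ≤ c ^ 2 * K := by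
  rw [sum_nds]
  calc ∑ k ∈ Finset.range K, ∑ w ∈ lev N (k + 1), ω w ^ 2 ≤ ∑ k ∈ Finset.range K, c ^ 2 := by
        refine Finset.sum_le_sum fun k hk => ?_
        have hk' := Finset.mem_range.1 hk
        have h1 := h k hk'
        have hc : 0 ≤ c := le_trans (Finset.sum_nonneg fun w _ => abs_nonneg (ω w)) h1
        have h2 : ∀ w ∈ lev N (k + 1), ω w ^ 2 ≤ c * |ω w| := by
          intro w hw
          have h3 : |ω w| ≤ c := by
            refine h.abs_le (mem_nds.2 ⟨?_, ?_⟩)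
            · intro h0
              have := mem_lev.1 hw
              rw [h0] at this
              simp at this
            · rw [mem_lev.1 hw]
              omega
          rw [← sq_abs, sq]
          exact mul_le_mul_of_nonneg_right h3 (abs_nonneg _)
        calc ∑ w ∈ lev N (k + 1), ω w ^ 2 ≤ ∑ w ∈ lev N (k + 1), c * |ω w| := Finset.sum_le_sum h2
          _ = c * ∑ w ∈ lev N (k + 1), |ω w| := by rw [Finset.mul_sum]
          _ ≤ c * c := mul_le_mul_of_nonneg_left h1 hc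
          _ = c ^ 2 := by ring
    _ = c ^ 2 * K := by
        rw [Finset.sum_const, Finset.card_range, nsmul_eq_mul, mul_comm]

theorem BB.sum_le {c : ℝ} {ω : Om N} (h : BB K c ω) : ∑ w ∈ nds N K, |ω w| ≤ c * K := by
  rw [sum_nds]
  calc ∑ k ∈ Finset.range K, ∑ w ∈ lev N (k + 1), |ω w| ≤ ∑ k ∈ Finset.range K, c :=
        Finset.sum_le_sum fun k hk => h k (Finset.mem_range.1 hk)
    _ = c * K := by
        rw [Finset.sum_const, Finset.card_range, nsmul_eq_mul, mul_comm]

theorem BB.add {c c' : ℝ} {ω ω' : Om N} (h : BB K c ω) (h' : BB K c' ω') : BB K (c + c') (ω + ω') := by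
  intro k hk
  calc ∑ w ∈ lev N (k + 1), |(ω + ω') w| ≤ ∑ w ∈ lev N (k + 1), (|ω w| + |ω' w|) :=
        Finset.sum_le_sum fun w _ => abs_add_le _ _
    _ = ∑ w ∈ lev N (k + 1), |ω w| + ∑ w ∈ lev N (k + 1), |ω' w| := Finset.sum_add_distrib
    _ ≤ c + c' := add_le_add (h k hk) (h' k hk)

theorem BB.smul {c : ℝ} {ω : Om N} (h : BB K c ω) (r : ℝ) : BB K (|r| * c) (r • ω) := by
  intro k hk
  calc ∑ w ∈ lev N (k + 1), |(r • ω) w| = ∑ w ∈ lev N (k + 1), |r| * |ω w| := by
        refine Finset.sum_congr rfl fun w _ => ?_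
        rw [Pi.smul_apply, smul_eq_mul, abs_mul]
    _ = |r| * ∑ w ∈ lev N (k + 1), |ω w| := by rw [Finset.mul_sum]
    _ ≤ |r| * c := mul_le_mul_of_nonneg_left (h k hk) (abs_nonneg r)

theorem BB.mono {c c' : ℝ} {ω : Om N} (h : BB K c ω) (h' : c ≤ c') : BB K c' ω :=
  fun k hk => (h k hk).trans h'

/-- the pairing is bilinear -/
theorem pr_add_right (m : ℕ) (ω : Om N) (y z : Y N) : pr K m ω (y + z) = pr K m ω y + pr K m ω z := by
  unfold pr
  rw [← Finset.sum_add_distrib]
  refine Finset.sum_congr rfl fun w _ => ?_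
  rw [Pi.add_apply, dt_add_right]
  ring

theorem pr_smul_right (m : ℕ) (c : ℝ) (ω : Om N) (y : Y N) : pr K m ω (c • y) = c * pr K m ω y := by
  unfold pr
  rw [Finset.mul_sum]
  refine Finset.sum_congr rfl fun w _ => ?_
  rw [Pi.smul_apply, dt_smul_right]
  ring

theorem pr_sub_right (m : ℕ) (ω : Om N) (y z : Y N) : pr K m ω (y - z) = pr K m ω y - pr K m ω z := by
  unfold pr
  rw [← Finset.sum_sub_distrib]
  refine Finset.sum_congr rfl fun w _ => ?_
  rw [Pi.sub_apply, dt_sub_right]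
  ring

theorem pr_add_left (m : ℕ) (ω ω' : Om N) (y : Y N) : pr K m (ω + ω') y = pr K m ω y + pr K m ω' y := by
  unfold pr
  rw [← Finset.sum_add_distrib]
  refine Finset.sum_congr rfl fun w _ => ?_
  rw [Pi.add_apply]
  ring

theorem pr_sub_left (m : ℕ) (ω ω' : Om N) (y : Y N) : pr K m (ω - ω') y = pr K m ω y - pr K m ω' y := by
  unfold pr
  rw [← Finset.sum_sub_distrib]
  refine Finset.sum_congr rfl fun w _ => ?_
  rw [Pi.sub_apply]
  ring

theorem pr_smul_left (m : ℕ) (c : ℝ) (ω : Om N) (y : Y N) : pr K m (c • ω) y = c * pr K m ω y := by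
  unfold pr
  rw [Finset.mul_sum]
  refine Finset.sum_congr rfl fun w _ => ?_
  rw [Pi.smul_apply, smul_eq_mul]
  ring

theorem pr_sum_right (m : ℕ) (ω : Om N) {ι : Type} (s : Finset ι) (f : ι → Y N) :
    pr K m ω (∑ i ∈ s, f i) = ∑ i ∈ s, pr K m ω (f i) := by
  classical
  induction s using Finset.induction_on with
  | empty => simp [pr, dt_zero_right]
  | insert a s ha ih =>
    rw [Finset.sum_insert ha, Finset.sum_insert ha, pr_add_right, ih]

theorem pr_sum_left (m : ℕ) (y : Y N) {ι : Type} (s : Finset ι) (f : ι → Om N) :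
    pr K m (∑ i ∈ s, f i) y = ∑ i ∈ s, pr K m (f i) y := by
  classical
  induction s using Finset.induction_on with
  | empty => simp [pr]
  | insert a s ha ih =>
    rw [Finset.sum_insert ha, Finset.sum_insert ha, pr_add_left, ih]

theorem pr_zero_left (m : ℕ) (y : Y N) : pr K m 0 y = 0 := by
  simp [pr]

theorem pr_zero_right (m : ℕ) (ω : Om N) : pr K m ω 0 = 0 := by
  simp [pr, dt_zero_right]

theorem abs_pr_le (m : ℕ) {c : ℝ} {ω : Om N} (h : BB K c ω) {y : Y N} (hy : y ∈ Vs N K) :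
    |pr K m ω y| ≤ c * K * nr K y := by
  have h1 : ∀ w ∈ nds N K, |ω w * dt (dir m w.length) (y w)| ≤ |ω w| * nr K y := by
    intro w hw
    rw [abs_mul]
    refine mul_le_mul_of_nonneg_left ?_ (abs_nonneg _)
    have h2 := abs_dt_le (dir m w.length) (y w)
    rw [norm_dir, one_mul] at h2
    exact h2.trans (norm_le_nr hy (mem_nds.1 hw).2)
  calc |pr K m ω y| ≤ ∑ w ∈ nds N K, |ω w * dt (dir m w.length) (y w)| := Finset.abs_sum_le_sum_abs _ _
    _ ≤ ∑ w ∈ nds N K, |ω w| * nr K y := Finset.sum_le_sum h1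
    _ = (∑ w ∈ nds N K, |ω w|) * nr K y := by rw [Finset.sum_mul]
    _ ≤ c * K * nr K y := mul_le_mul_of_nonneg_right h.sum_le (nr_nonneg y)

end H50RC
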