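import Pool.Agent.H50.RC.Def
import Pool.Agent.H50.LP.Defs

/-!
S05864: the two outer theorems (PART E and PART F of proofs 322) as propositions, the Cantor set.
-/

set_option autoImplicit false

namespace H50RC

/-- `a_i = 2^(-i(i+1)/2)`, so that `a_(i+1) = a_i 2^(-(i+1))` -/
noncomputable def aa (i : ℕ) : ℝ := (2 : ℝ)⁻¹ ^ (i * (i + 1) / 2)

/-- the Cantor set `A` of all sums `∑ e_i a_i`, `i ≥ 1` -/
def cA : Set ℝ := {t | ∃ e : ℕ → Bool, t = ∑' i, if e i then aa (i + 1) else 0}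

/-- `0 ∈ A` -/
def cA0 : cA := ⟨0, fun _ => false, by simp⟩

/-- PART E -/
def EmbStatement (N K m : ℕ) : Prop :=
  ∃ (j : Y N →ₗ[ℝ] H50LP.LX Set.univ H50LP.o1) (π : H50LP.LX Set.univ H50LP.o1 →ₗ[ℝ] Y N),
    (∀ f, π f ∈ Xs N K m) ∧
    (∀ F ∈ Xs N K m, ∀ c : ℝ, 0 ≤ c → (∀ g ∈ lev N K, ‖F g‖ ≤ c) → H50LP.lipB (2 * c) (j F).1) ∧
    (∀ (f : H50LP.LX Set.univ H50LP.o1) (c : ℝ), H50LP.lipB c f.1 → ∀ g ∈ lev N K, ‖π f g‖ ≤ 6 * c) ∧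
    (K : ℝ) / 2 ≤ tau K m (fun y => π (j y))

/-- the core theorem for `K, N, m` with the constant `κ` -/
def CoreStatement (N K m : ℕ) (κ : ℝ) : Prop :=
  ∀ (Q : Cell N) (ν : Om N), Q.WF K m 1 ν → Q.tot ∈ Xs N K m → |Q.Tot K m ν| ≤ κ * Q.mass K

/-- the inequality (M1) with the constant `C1` -/
def PairStatement (N K m : ℕ) (C1 : ℝ) : Prop :=
  ∀ ω : Om N, BB K 1 ω → ∀ χ ∈ Xs N K m, |pr K m ω χ| ≤ C1 * nr K χ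

/-- PART F with the constant `CF` -/
def RedStatement (CF : ℝ) : Prop :=
  ∀ (N K m : ℕ) (κ C1 : ℝ), 1 ≤ N → 1 ≤ m → CoreStatement N K m κ → PairStatement N K m C1 →
    ∀ (B : Y N →ₗ[ℝ] H50LP.LX cA cA0) (A : H50LP.LX cA cA0 →ₗ[ℝ] Y N) (a b : ℝ), 0 ≤ a → 0 ≤ b →
    (∀ f, A f ∈ Xs N K m) →
    (∀ F ∈ Xs N K m, ∀ c : ℝ, 0 ≤ c → (∀ g ∈ lev N K, ‖F g‖ ≤ c) → H50LP.lipB (b * c) (B F).1) →
    (∀ (f : H50LP.LX cA cA0) (c : ℝ), H50LP.lipB c f.1 → ∀ g ∈ lev N K, ‖A f g‖ ≤ a * c) →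
    |tau K m (fun y => A (B y))| ≤ a * b * CF * (κ + C1)

end H50RC
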