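import Pool.Agent.H50.RC.Exl

/-!
S05864 [H50 RC AFR]: frozen values. `c σ q ≥ 0` weights which do not change for marked nodes when further nodes are marked.
`submart` with `Ψ σ y = ∑_{q ∈ σ.M, q ≠ []} c σ q (‖y q‖ - ‖σ.v q‖)`. Adding `q0`: for `q ∈ σ.M` neither `c` nor the stored vector changes (`q ≠ q0`), the new term is `c (‖y q0‖ - ‖y q0‖) = 0`. Jump: `Jmp.norm_le`.
Start: no marks except the root. The second theorem: `c = 1` for `|q| = k` (`1 ≤ k ≤ K`): `EX ∑_{|q|=k} ‖v q‖ ≤ EX ∑ ‖y q‖ ≤ B` (`sum_lev_norm_le`), with `EX_mono`, `EX_const`. Third: sum over `k = 1..K`.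
-/

set_option autoImplicit false

namespace H50RC

variable {N K R0 : ℕ} {B : ℝ}

theorem frozen (c : St N → Nd N → ℝ) (hc0 : ∀ σ q, 0 ≤ c σ q)
    (hc : ∀ (σ : St N) (x : Nd N × Y N) (q : Nd N), x.1 ∉ σ.M → q ∈ σ.M → c (x :: σ) q = c σ q)
    (t : PT N) (y : Y N) (ht : t.WFP K B y) (hy : y ∈ Vs N K) (hyB : nr K y ≤ B) :
    t.EX R0 (fun s _ => ∑ q ∈ s.σ.M.filter (fun q => q ≠ []), c s.σ q * ‖s.σ.v q‖) (S.init N) y ≤
      t.EX R0 (fun s y' => ∑ q ∈ s.σ.M.filter (fun q => q ≠ []), c s.σ q * ‖y' q‖) (S.init N) y := by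
  classical
  have h := submart (K := K) (R0 := R0) (B := B)
    (fun σ y => ∑ q ∈ σ.M.filter (fun q => q ≠ []), c σ q * (‖y q‖ - ‖σ.v q‖))
    (fun σ y q0 hσ hy hB hq ht' _ => by
      have hPC := okh_PC hσ
      have hq0 : q0 ≠ [] := fun h0 => hq (h0 ▸ hPC.1)
      have hM : St.M ((q0, y) :: σ) = insert q0 σ.M := rfl
      rw [hM, Finset.filter_insert, if_pos hq0, Finset.sum_insert (fun h1 => hq (Finset.mem_filter.1 h1).1)]
      have hv0 : St.v ((q0, y) :: σ) q0 = y q0 := by simp [St.v]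
      rw [hv0, sub_self, mul_zero, zero_add]
      refine le_of_eq (Finset.sum_congr rfl fun q hq' => ?_)
      have hqM := (Finset.mem_filter.1 hq').1
      have hne : q ≠ q0 := fun h0 => hq (h0 ▸ hqM)
      rw [hc σ (q0, y) q hq hqM]
      have hv : St.v ((q0, y) :: σ) q = St.v σ q := by simp [St.v, hne]
      rw [hv])
    (fun σ y ι _ p y' _ _ _ hJ => by
      simp only [Finset.mul_sum]
      rw [Finset.sum_comm]
      refine Finset.sum_le_sum fun q _ => ?_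
      have h1 := hJ.norm_le q
      have h2 : ∑ i, p i * (c σ q * (‖y' i q‖ - ‖σ.v q‖)) = c σ q * (∑ i, p i * ‖y' i q‖ - ‖σ.v q‖) := by
        rw [mul_sub, Finset.mul_sum]
        have h3 : c σ q * ‖σ.v q‖ = ∑ i, p i * (c σ q * ‖σ.v q‖) := by
          rw [← Finset.sum_mul, hJ.one, one_mul]
        rw [h3, ← Finset.sum_sub_distrib]
        exact Finset.sum_congr rfl fun i _ => by ring
      rw [h2]
      exact mul_le_mul_of_nonneg_left (by linarith) (hc0 σ q))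
    t (S.init N) y ht inv_init hy hyB
  have h0 : ∑ q ∈ (S.init N).σ.M.filter (fun q => q ≠ []), c (S.init N).σ q * (‖y q‖ - ‖(S.init N).σ.v q‖) = 0 := by
    have : (S.init N).σ.M.filter (fun q => q ≠ []) = ∅ := by
      simp [S.init, St.M]
    rw [this, Finset.sum_empty]
  have h1 : t.EX R0 (fun s y => ∑ q ∈ s.σ.M.filter (fun q => q ≠ []), c s.σ q * (‖y q‖ - ‖s.σ.v q‖)) (S.init N) y =
      t.EX R0 (fun s y' => ∑ q ∈ s.σ.M.filter (fun q => q ≠ []), c s.σ q * ‖y' q‖) (S.init N) y -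
      t.EX R0 (fun s _ => ∑ q ∈ s.σ.M.filter (fun q => q ≠ []), c s.σ q * ‖s.σ.v q‖) (S.init N) y := by
    rw [← EX_sub]
    congr 1
    funext s y
    rw [← Finset.sum_sub_distrib]
    exact Finset.sum_congr rfl fun q _ => by ring
  rw [h0, h1] at h
  linarith

private theorem sum_ind {σ : St N} {k : ℕ} (hk : 1 ≤ k) (f : Nd N → ℝ) :
    ∑ q ∈ σ.M.filter (fun q => q ≠ []), (if q.length = k then (1 : ℝ) else 0) * f q =
      ∑ q ∈ σ.M.filter (fun q => q.length = k), f q := by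
  classical
  rw [Finset.sum_filter, Finset.sum_filter]
  refine Finset.sum_congr rfl fun q _ => ?_
  by_cases h : q.length = k
  · have hq : q ≠ [] := fun h0 => by rw [h0] at h; simp at h; omega
    rw [if_pos hq, if_pos h, if_pos h, one_mul]
  · rw [if_neg h, if_neg h, zero_mul]
    split_ifs <;> rfl

theorem frozen_lev (k : ℕ) (hk : 1 ≤ k) (hkK : k ≤ K)
    (t : PT N) (y : Y N) (ht : t.WFP K B y) (hy : y ∈ Vs N K) (hyB : nr K y ≤ B) :
    t.EX R0 (fun s _ => ∑ q ∈ s.σ.M.filter (fun q => q.length = k), ‖s.σ.v q‖) (S.init N) y ≤ B := by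
  classical
  have h := frozen (K := K) (R0 := R0) (B := B) (fun _ q => if q.length = k then (1 : ℝ) else 0)
    (fun _ q => by split_ifs <;> norm_num) (fun _ _ _ _ _ => rfl) t y ht hy hyB
  have e1 : (fun (s : S N) (_ : Y N) => ∑ q ∈ s.σ.M.filter (fun q => q ≠ []),
      (if q.length = k then (1 : ℝ) else 0) * ‖s.σ.v q‖) =
      fun s _ => ∑ q ∈ s.σ.M.filter (fun q => q.length = k), ‖s.σ.v q‖ := by
    funext s _
    exact sum_ind hk _
  rw [e1] at h
  refine h.trans ?_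
  have h1 : t.EX R0 (fun s y' => ∑ q ∈ s.σ.M.filter (fun q => q ≠ []),
      (if q.length = k then (1 : ℝ) else 0) * ‖y' q‖) (S.init N) y ≤ t.EX R0 (fun _ _ => B) (S.init N) y := by
    refine EX_mono (K := K) (B := B) _ _ (fun s y _ hy hB' => ?_) t _ y ht inv_init hy hyB
    rw [sum_ind hk]
    calc ∑ q ∈ s.σ.M.filter (fun q => q.length = k), ‖y q‖ ≤ ∑ q ∈ lev N k, ‖y q‖ :=
          Finset.sum_le_sum_of_subset_of_nonneg
            (fun q hq => mem_lev.2 (Finset.mem_filter.1 hq).2) fun _ _ _ => norm_nonneg _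
      _ ≤ nr K y := sum_lev_norm_le hy hkK
      _ ≤ B := hB'
  rwa [EX_const _ t _ y ht] at h1

theorem frozen_all (t : PT N) (y : Y N) (ht : t.WFP K B y) (hy : y ∈ Vs N K) (hyB : nr K y ≤ B) :
    t.EX R0 (fun s _ => ∑ q ∈ s.σ.M.filter (fun q => q ≠ []), ‖s.σ.v q‖) (S.init N) y ≤ K * B := by
  classical
  have h1 : t.EX R0 (fun s _ => ∑ q ∈ s.σ.M.filter (fun q => q ≠ []), ‖s.σ.v q‖) (S.init N) y ≤
      t.EX R0 (fun s _ => ∑ k ∈ Finset.Icc 1 K, ∑ q ∈ s.σ.M.filter (fun q => q.length = k), ‖s.σ.v q‖)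
        (S.init N) y := by
    refine EX_mono (K := K) (B := B) _ _ (fun s y hs hy hB' => ?_) t _ y ht inv_init hy hyB
    have h2 : ∑ k ∈ Finset.Icc 1 K, ∑ q ∈ s.σ.M.filter (fun q => q.length = k), ‖s.σ.v q‖ =
        ∑ q ∈ s.σ.M, ∑ k ∈ Finset.Icc 1 K, if q.length = k then ‖s.σ.v q‖ else 0 := by
      rw [Finset.sum_comm]
      exact Finset.sum_congr rfl fun k _ => Finset.sum_filter _ _
    rw [h2, Finset.sum_filter]
    refine Finset.sum_le_sum fun q hq => ?_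
    rw [Finset.sum_ite_eq]
    have hlen := okh_len hs.ok q hq
    by_cases h0 : q = []
    · rw [if_neg (not_not.2 h0)]
      split_ifs
      · exact norm_nonneg _
      · exact le_refl _
    · rw [if_pos h0, if_pos (Finset.mem_Icc.2 ⟨List.length_pos_iff.2 h0, hlen⟩)]
  refine h1.trans ?_
  rw [EX_sum]
  have h2 : ∀ k ∈ Finset.Icc 1 K,
      t.EX R0 (fun s _ => ∑ q ∈ s.σ.M.filter (fun q => q.length = k), ‖s.σ.v q‖) (S.init N) y ≤ B := by
    intro k hk
    rw [Finset.mem_Icc] at hk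
    exact frozen_lev k hk.1 hk.2 t y ht hy hyB
  refine (Finset.sum_le_sum h2).trans (le_of_eq ?_)
  rw [Finset.sum_const, Nat.card_Icc, nsmul_eq_mul]
  simp

/-- `EX G_k ≤ B` -/
theorem EX_G_le (hB : 0 ≤ B) (k : ℕ) (hk : 1 ≤ k) (hkK : k ≤ K)
    (t : PT N) (y : Y N) (ht : t.WFP K B y) (hy : y ∈ Vs N K) (hyB : nr K y ≤ B) :
    t.EX R0 (fun s y => Gg k s.σ y) (S.init N) y ≤ B := by
  classical
  have h := frozen (K := K) (R0 := R0) (B := B) (fun _ q => if q.length = k then (1 : ℝ) else 0)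
    (fun _ q => by split_ifs <;> norm_num) (fun _ _ _ _ _ => rfl) t y ht hy hyB
  have e1 : (fun (s : S N) (_ : Y N) => ∑ q ∈ s.σ.M.filter (fun q => q ≠ []),
      (if q.length = k then (1 : ℝ) else 0) * ‖s.σ.v q‖) =
      fun s _ => ∑ q ∈ s.σ.M.filter (fun q => q.length = k), ‖s.σ.v q‖ := by
    funext s _
    exact sum_ind hk _
  have e2 : (fun (s : S N) (y' : Y N) => ∑ q ∈ s.σ.M.filter (fun q => q ≠ []),
      (if q.length = k then (1 : ℝ) else 0) * ‖y' q‖) =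
      fun s y' => ∑ q ∈ s.σ.M.filter (fun q => q.length = k), ‖y' q‖ := by
    funext s y'
    exact sum_ind hk _
  rw [e1, e2] at h
  have h1 : t.EX R0 (fun s y => Gg k s.σ y) (S.init N) y =
      t.EX R0 (fun s y => ∑ q ∈ s.σ.M.filter (fun q => q.length < k), ‖zz s.σ.M y q‖) (S.init N) y +
      t.EX R0 (fun s _ => ∑ q ∈ s.σ.M.filter (fun q => q.length = k), ‖s.σ.v q‖) (S.init N) y := by
    rw [← EX_add]
    rfl
  have h2 : t.EX R0 (fun s y => ∑ q ∈ s.σ.M.filter (fun q => q.length < k), ‖zz s.σ.M y q‖ +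
      ∑ q ∈ s.σ.M.filter (fun q => q.length = k), ‖y q‖) (S.init N) y =
      t.EX R0 (fun s y => ∑ q ∈ s.σ.M.filter (fun q => q.length < k), ‖zz s.σ.M y q‖) (S.init N) y +
      t.EX R0 (fun s y' => ∑ q ∈ s.σ.M.filter (fun q => q.length = k), ‖y' q‖) (S.init N) y := EX_add _ _ _ _ _
  have h3 : t.EX R0 (fun s y => ∑ q ∈ s.σ.M.filter (fun q => q.length < k), ‖zz s.σ.M y q‖ +
      ∑ q ∈ s.σ.M.filter (fun q => q.length = k), ‖y q‖) (S.init N) y ≤ t.EX R0 (fun _ _ => B) (S.init N) y :=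
    EX_mono (K := K) (B := B) _ _ (fun s y hs hy hB' =>
      (sum_zz_norm_le_nr hy _ (okh_PC hs.ok) hkK).trans hB') t _ y ht inv_init hy hyB
  rw [EX_const _ t _ y ht] at h3
  linarith

theorem EX_G_nonneg (k : ℕ) (t : PT N) (s : S N) (y : Y N) (ht : t.WFP K B y) :
    0 ≤ t.EX R0 (fun s y => Gg k s.σ y) s y := by
  induction t generalizing s y with
  | nil =>
    simp only [PT.EX, Gg]
    exact add_nonneg (Finset.sum_nonneg fun _ _ => norm_nonneg _) (Finset.sum_nonneg fun _ _ => norm_nonneg _)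
  | note a t ih => simp only [PT.EX]; exact ih _ _ ht.2
  | jump ι hι p y' t ih =>
    simp only [PT.EX]
    exact Finset.sum_nonneg fun i _ => mul_nonneg (ht.1.nn i) (ih i s (y' i) (ht.2 i))

end H50RC
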