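import Pool.Agent.H50.RC.Axb
import Pool.Agent.H50.RC.Afr

/-!
S05864 [H50 RC ABD]: (f): energy of the bad nodes.
`energy_bad1`: `dynkinS` with `Ψ σ y = ∑_{p ∈ bdn σ} XX(p)² + (8B/L) ∑_{p ∈ bdn σ} ∑_{q ∈ wn L σ p} ‖v q‖`. Adding `q0`: for old `p` (bad stays bad): `|XX' - XX| ≤ (2/L) ‖y q0‖ [p <:+ q0, |q0| ≤ |p| + L]` (`XX_add`, `ll = dir`, norm 1), `|XX|, |XX'| ≤ 2B` (`abs_XX_bad`);
loss `≤ (8B/L)‖y q0‖`, exactly the gain. A new bad node `q0` adds terms `≥ 0`. Jump as in AEG. End: `XX² ≤ 2B |XX| ≤ 4B ∑_q ‖zz‖`, `∑_{p} ∑_q ‖zz‖ ≤ L nr` (`sum_sum_zz_le`).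
`count_bad` (pointwise): for `q ∈ σ.M`, `q ≠ []`, the nodes `p ∈ bdn` with `q ∈ wn p` have different lengths `|p| ∈ {|q|-L, …, |q|-1}`. For each: if `‖uu (v p) - uu (v q)‖ ≤ ε` then `|dt (I uu(v q)) n_|p|| ≤ |dt (I uu(v p)) n_|p|| + ε < 2ε`; by `bad_unique` any two such
lengths differ by at least `m`, so there are at most `L/m` of them (`m ∣ L`; the `L` consecutive lengths are `L/m` blocks of `m` consecutive ones, at most one in each). Otherwise `‖v q‖ - dt (uu (v p)) (v q) = ‖v q‖ ‖uu(v p) - uu(v q)‖²/2 ≥ ‖v q‖ ε²/2`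
(`norm_smul_uu`), and `∑_{q, |q| = |p| + i} (‖v q‖ - dt (uu (v p)) (v q)) ≤ Dd i σ y p`. Sum over `i = |q| - |p| ∈ [1, L]` and over all `p ∈ M`, `1 ≤ |p| ≤ K - L`.
`energy_bad`: `EX ∑_{q≠[]}‖v q‖ ≤ KB` (`frozen_all`), `EX ∑_{k=1}^{K-L} ∑_p Dd i ≤ iB` (`EX_Dd`, `sum_G_tel`, `EX_G_le`, `EX_G_nonneg`), `∑_{i ≤ L} i ≤ L²`.
-/

set_option autoImplicit false

namespace H50RC

variable {N K R0 m L : ℕ} {B ε : ℝ}

private theorem abd_v_old (σ : St N) {q0 q : Nd N} (z : Y N) (h : q ≠ q0) : St.v ((q0, z) :: σ) q = σ.v q := by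
  show (if q = q0 then z q0 else St.v σ q) = _
  rw [if_neg h]

private theorem abd_v_new (σ : St N) (q0 : Nd N) (z : Y N) : St.v ((q0, z) :: σ) q0 = z q0 := by
  show (if q0 = q0 then z q0 else St.v σ q0) = _
  rw [if_pos rfl]

/-- the function of the Dynkin principle -/
private noncomputable def abd_f (K m L : ℕ) (ε c : ℝ) (σ : St N) (y : Y N) : ℝ :=
  ∑ p ∈ bdn K m L ε σ, (XX m L ε σ.M σ.v p y ^ 2 + c * ∑ q ∈ wn L σ p, ‖σ.v q‖)

private theorem abd_wn_add {σ : St N} {y : Y N} {q0 p : Nd N} (h0 : q0 ∉ σ.M) (hp : p ∈ σ.M) :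
    ∑ q ∈ wn L ((q0, y) :: σ) p, ‖St.v ((q0, y) :: σ) q‖ = ∑ q ∈ wn L σ p, ‖σ.v q‖ +
      if (p <:+ q0 ∧ q0.length ≤ p.length + L) then ‖y q0‖ else 0 := by
  classical
  have e1 : St.M ((q0, y) :: σ) = insert q0 σ.M := rfl
  unfold wn
  rw [e1, Finset.sum_filter, Finset.sum_insert h0, abd_v_new, Finset.sum_filter, add_comm]
  congr 1
  · refine Finset.sum_congr rfl fun q hq => ?_
    rw [abd_v_old σ y (by
      rintro rfl
      exact h0 hq)]
  · by_cases h : p <:+ q0 ∧ q0.length ≤ p.length + L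
    · have h2 : p.length < q0.length := by
        have h3 := h.1.length_le
        rcases Nat.lt_or_ge p.length q0.length with h4 | h4
        · exact h4
        · have h5 := h.1.eq_of_length (by omega)
          rw [h5] at hp
          exact absurd hp h0
      rw [if_pos h, if_pos ⟨h.1, h2, h.2⟩]
    · rw [if_neg h, if_neg (fun h2 => h ⟨h2.1, h2.2.2⟩)]

private theorem abd_f_add (hB : 0 ≤ B) (hL : 0 < L) {σ : St N} (hσ : OKh K B σ) {y : Y N}
    (hy : y ∈ Vs N K) (hyB : nr K y ≤ B) {q0 : Nd N} (h0 : q0 ∉ σ.M) (h1 : q0.tail ∈ σ.M) (h2 : q0.length ≤ K) :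
    abd_f K m L ε (8 * B / L) σ y ≤ abd_f K m L ε (8 * B / L) ((q0, y) :: σ) y := by
  classical
  have hPC := okh_PC hσ
  have hσ' : OKh K B ((q0, y) :: σ) := ⟨h0, h1, h2, hy, hyB, hσ⟩
  have hLp : (0 : ℝ) < L := by exact_mod_cast hL
  have hc : 0 ≤ 8 * B / L := by positivity
  unfold abd_f
  have hsub : bdn K m L ε σ ⊆ bdn K m L ε ((q0, y) :: σ) := by
    intro p hp
    unfold bdn at hp ⊢
    rw [Finset.mem_filter] at hp ⊢
    refine ⟨Finset.mem_insert_of_mem hp.1, hp.2.1, hp.2.2.1, ?_⟩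
    rw [abd_v_old σ y (by
      rintro rfl
      exact h0 hp.1)]
    exact hp.2.2.2
  refine le_trans (Finset.sum_le_sum fun p hp => ?_) (Finset.sum_le_sum_of_subset_of_nonneg hsub
    fun p _ _ => add_nonneg (sq_nonneg _) (mul_nonneg hc (Finset.sum_nonneg fun _ _ => norm_nonneg _)))
  unfold bdn at hp
  rw [Finset.mem_filter] at hp
  obtain ⟨hpM, hp1, hp2, hp3⟩ := hp
  have hpq : p ≠ q0 := by
    rintro rfl
    exact h0 hpM
  rw [abd_wn_add h0 hpM]
  have h3 := XX_add (m := m) (L := L) (ε := ε) hPC (y := y) h0 h1 hpM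
  rw [ll_bad hp3, norm_dir, mul_one] at h3
  have h4 := (abs_XX_bad hL hσ hy hyB hpM hp2 hp3).1
  have h5 := (abs_XX_bad (m := m) (ε := ε) hL hσ' hy hyB (p := p) (Finset.mem_insert_of_mem hpM) hp2 (by
    rw [abd_v_old σ y hpq]
    exact hp3)).1
  obtain ⟨a, ha⟩ : ∃ a : ℝ, a = XX m L ε σ.M σ.v p y := ⟨_, rfl⟩
  obtain ⟨b, hb⟩ : ∃ b : ℝ, b = XX m L ε (St.M ((q0, y) :: σ)) (St.v ((q0, y) :: σ)) p y := ⟨_, rfl⟩
  obtain ⟨w, hw⟩ : ∃ w : ℝ, w = if (p <:+ q0 ∧ q0.length ≤ p.length + L) then ‖y q0‖ else 0 := ⟨_, rfl⟩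
  rw [← ha, ← hb, ← hw] at h3
  rw [← ha] at h4
  rw [← hb] at h5
  rw [← ha, ← hb, ← hw]
  have h6 : a ^ 2 - b ^ 2 ≤ (8 * B / L) * w := by
    calc a ^ 2 - b ^ 2 = -((a + b) * (b - a)) := by ring
      _ ≤ |(a + b) * (b - a)| := neg_le_abs _
      _ = |a + b| * |b - a| := abs_mul _ _
      _ ≤ (4 * B) * (2 / L * w) := by
          refine mul_le_mul ((abs_add_le a b).trans (by linarith)) h3 (abs_nonneg _) (by positivity)
      _ = (8 * B / L) * w := by ring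
  rw [mul_add]
  linarith

private theorem abd_f_jump (c : ℝ) (σ : St N) {ι : Type} [Fintype ι] {y : Y N} {p : ι → ℝ}
    {y' : ι → Y N} (h : Jmp K B y p y') :
    abd_f K m L ε c σ y + ∑ i, p i * ∑ q ∈ bdn K m L ε σ, XX m L ε σ.M σ.v q (y' i - y) ^ 2 ≤
      ∑ i, p i * abd_f K m L ε c σ (y' i) := by
  classical
  have e1 : ∑ i, p i * abd_f K m L ε c σ (y' i) = ∑ q ∈ bdn K m L ε σ,
      (∑ i, p i * XX m L ε σ.M σ.v q (y' i) ^ 2 + c * ∑ q' ∈ wn L σ q, ‖σ.v q'‖) := by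
    unfold abd_f
    simp only [Finset.mul_sum (bdn K m L ε σ)]
    rw [Finset.sum_comm]
    refine Finset.sum_congr rfl fun q _ => ?_
    simp only [mul_add, Finset.sum_add_distrib]
    rw [← Finset.sum_mul, h.one, one_mul]
  have e2 : ∑ i, p i * ∑ q ∈ bdn K m L ε σ, XX m L ε σ.M σ.v q (y' i - y) ^ 2 =
      ∑ q ∈ bdn K m L ε σ, ∑ i, p i * XX m L ε σ.M σ.v q (y' i - y) ^ 2 := by
    simp only [Finset.mul_sum]
    rw [Finset.sum_comm]
  rw [e1, e2]
  unfold abd_f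
  rw [← Finset.sum_add_distrib]
  refine Finset.sum_le_sum fun q _ => ?_
  have h1 : XX m L ε σ.M σ.v q y = ∑ i, p i * XX m L ε σ.M σ.v q (y' i) := by
    rw [← XX_sum, h.mean]
  have h2 := sq_jump h.one (fun i => XX m L ε σ.M σ.v q (y' i)) h1
  have h3 : ∑ i, p i * XX m L ε σ.M σ.v q (y' i - y) ^ 2 =
      ∑ i, p i * (XX m L ε σ.M σ.v q (y' i) - XX m L ε σ.M σ.v q y) ^ 2 := by
    refine Finset.sum_congr rfl fun i _ => ?_
    rw [XX_sub]
  rw [h3]
  linarith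

theorem energy_bad1 (hB : 0 ≤ B) (hm : 2 ≤ m) (hL : 0 < L) (hε : 0 < ε) (hε1 : ε ≤ 1)
    (t : PT N) (y : Y N) (ht : t.WFP K B y) (hy : y ∈ Vs N K) (hyB : nr K y ≤ B) :
    t.ES R0 (eB K m L ε) (S.init N) y ≤ 4 * L * B ^ 2 + 8 * B / L *
      t.EX R0 (fun s _ => ∑ p ∈ bdn K m L ε s.σ, ∑ q ∈ wn L s.σ p, ‖s.σ.v q‖) (S.init N) y := by
  classical
  have h1 := dynkinS (K := K) (R0 := R0) (B := B) (fun σ y => abd_f K m L ε (8 * B / L) σ y)
    (fun σ y y' => ∑ q ∈ bdn K m L ε σ, XX m L ε σ.M σ.v q (y' - y) ^ 2)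
    (fun σ y q hσ hy hyB h0 h1 h2 => abd_f_add hB hL hσ hy hyB h0 h1 h2)
    (fun σ y ι _ p y' _ _ _ hj => abd_f_jump _ σ hj) t (S.init N) y ht inv_init hy hyB
  have h0 : abd_f K m L ε (8 * B / L) (S.init N).σ y = 0 := by
    unfold abd_f
    refine Finset.sum_eq_zero fun p hp => ?_
    unfold bdn at hp
    rw [Finset.mem_filter] at hp
    have h2 : p ∈ ({[]} : Finset (Nd N)) := hp.1
    exact absurd (Finset.mem_singleton.1 h2) hp.2.1
  have h2 : t.ES R0 (eB K m L ε) (S.init N) y ≤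
      t.EX R0 (fun s y => abd_f K m L ε (8 * B / L) s.σ y) (S.init N) y := by
    have h3 : abd_f K m L ε (8 * B / L) (S.init N).σ y + t.ES R0 (eB K m L ε) (S.init N) y ≤
      t.EX R0 (fun s y => abd_f K m L ε (8 * B / L) s.σ y) (S.init N) y := h1
    rw [h0, zero_add] at h3
    exact h3
  refine h2.trans ?_
  have h3 : t.EX R0 (fun s y => abd_f K m L ε (8 * B / L) s.σ y) (S.init N) y ≤
      t.EX R0 (fun s _ => 4 * L * B ^ 2 + 8 * B / L *
        ∑ p ∈ bdn K m L ε s.σ, ∑ q ∈ wn L s.σ p, ‖s.σ.v q‖) (S.init N) y := by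
    refine EX_mono (K := K) (B := B) _ _ (fun s y hs hy hyB => ?_) t _ y ht inv_init hy hyB
    unfold abd_f
    rw [Finset.sum_add_distrib, ← Finset.mul_sum]
    refine add_le_add ?_ le_rfl
    have hP : ∀ p ∈ bdn K m L ε s.σ, p ∈ s.σ.M ∧ p.length + L ≤ K := fun p hp => by
      unfold bdn at hp
      rw [Finset.mem_filter] at hp
      exact ⟨hp.1, hp.2.2.1⟩
    have h4 := sum_sum_zz_le (L := L) hy s.σ.M (okh_PC hs.ok) (bdn K m L ε s.σ) hP
    have h5 : ∑ p ∈ bdn K m L ε s.σ, XX m L ε s.σ.M s.σ.v p y ^ 2 ≤ ∑ p ∈ bdn K m L ε s.σ,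
        (4 * B) * ∑ q ∈ s.σ.M.filter (fun q => p <:+ q ∧ q.length < p.length + L), ‖zz s.σ.M y q‖ := by
      refine Finset.sum_le_sum fun p hp => ?_
      have hp' := hp
      unfold bdn at hp'
      rw [Finset.mem_filter] at hp'
      obtain ⟨h6, h7⟩ := abs_XX_bad hL hs.ok hy hyB hp'.1 hp'.2.2.1 hp'.2.2.2
      rw [← sq_abs, sq]
      calc |XX m L ε s.σ.M s.σ.v p y| * |XX m L ε s.σ.M s.σ.v p y| ≤ (2 * B) *
            (2 * ∑ q ∈ s.σ.M.filter (fun q => p <:+ q ∧ q.length < p.length + L), ‖zz s.σ.M y q‖) :=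
            mul_le_mul h6 h7 (abs_nonneg _) (by positivity)
        _ = _ := by ring
    refine h5.trans ?_
    rw [← Finset.mul_sum]
    calc (4 * B) * ∑ p ∈ bdn K m L ε s.σ,
          ∑ q ∈ s.σ.M.filter (fun q => p <:+ q ∧ q.length < p.length + L), ‖zz s.σ.M y q‖
        ≤ (4 * B) * (L * nr K y) := mul_le_mul_of_nonneg_left h4 (by positivity)
      _ ≤ (4 * B) * (L * B) := mul_le_mul_of_nonneg_left
          (mul_le_mul_of_nonneg_left hyB (Nat.cast_nonneg L)) (by positivity)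
      _ = 4 * L * B ^ 2 := by ring
  refine h3.trans (le_of_eq ?_)
  rw [EX_add (R0 := R0) (fun _ _ => 4 * L * B ^ 2) (fun s _ => 8 * B / L *
      ∑ p ∈ bdn K m L ε s.σ, ∑ q ∈ wn L s.σ p, ‖s.σ.v q‖),
    EX_const (K := K) (B := B) _ t _ y ht,
    EX_mul (R0 := R0) (8 * B / L) (fun s _ => ∑ p ∈ bdn K m L ε s.σ, ∑ q ∈ wn L s.σ p, ‖s.σ.v q‖)]

/-- two close unit vectors -/
private theorem abd_close (u v : ℂ) :
    ‖v‖ - dt (uu u) v = ‖v‖ * (‖uu u - uu v‖ ^ 2 / 2) := by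
  have h1 : ‖uu u - uu v‖ ^ 2 = 2 - 2 * dt (uu u) (uu v) := by
    rw [← dt_self, dt_sub_right, dt_comm (uu u - uu v) (uu u), dt_comm (uu u - uu v) (uu v),
      dt_sub_right, dt_sub_right, dt_self, dt_self, norm_uu, norm_uu, dt_comm (uu v) (uu u)]
    ring
  have h2 : dt (uu u) v = ‖v‖ * dt (uu u) (uu v) := by
    conv_lhs => rw [← norm_smul_uu v]
    rw [dt_smul_right]
  rw [h1, h2]
  ring

open Classical in
/-- the number of bad nodes close to `q` -/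
private theorem abd_card (hm : 2 ≤ m) (hmL : m ∣ L) (hεm : 4 * ε ≤ Real.sin (Real.pi / m)) (σ : St N)
    (q : Nd N) :
    (((bdn K m L ε σ).filter (fun p => q ∈ wn L σ p ∧ ‖uu (σ.v p) - uu (σ.v q)‖ ≤ ε)).card : ℝ) ≤ (L : ℝ) / m := by
  obtain ⟨c, hc⟩ := hmL
  have hm0 : (0 : ℝ) < m := by
    have : (2 : ℝ) ≤ m := by exact_mod_cast hm
    linarith
  have e1 : (L : ℝ) / m = c := by
    rw [hc, Nat.cast_mul, mul_div_cancel_left₀ _ hm0.ne']
  rw [e1]
  have h1 : ((bdn K m L ε σ).filter (fun p => q ∈ wn L σ p ∧ ‖uu (σ.v p) - uu (σ.v q)‖ ≤ ε)).card ≤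
      (Finset.range c).card := by
    have hfact : ∀ p ∈ (bdn K m L ε σ).filter (fun p => q ∈ wn L σ p ∧ ‖uu (σ.v p) - uu (σ.v q)‖ ≤ ε),
        p <:+ q ∧ p.length < q.length ∧ q.length ≤ p.length + L ∧
        |dt (Complex.I * uu (σ.v q)) (dir m p.length)| < 2 * ε := by
      intro p hp
      rw [Finset.mem_filter] at hp
      obtain ⟨hp1, hp2, hp3⟩ := hp
      unfold bdn at hp1
      unfold wn at hp2
      rw [Finset.mem_filter] at hp1 hp2
      refine ⟨hp2.2.1, hp2.2.2.1, hp2.2.2.2, ?_⟩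
      have hbad := hp1.2.2.2
      unfold Good at hbad
      push Not at hbad
      have e2 : dt (Complex.I * uu (σ.v q)) (dir m p.length) =
          dt (Complex.I * uu (σ.v p)) (dir m p.length) -
          dt (Complex.I * (uu (σ.v p) - uu (σ.v q))) (dir m p.length) := by
        rw [mul_sub, dt_comm (Complex.I * uu (σ.v p) - Complex.I * uu (σ.v q)) (dir m p.length), dt_sub_right,
          dt_comm (dir m p.length), dt_comm (dir m p.length)]
        ring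
      rw [e2]
      have h3 : |dt (Complex.I * (uu (σ.v p) - uu (σ.v q))) (dir m p.length)| ≤ ε := by
        refine (abs_dt_le _ _).trans ?_
        rw [norm_dir, mul_one, norm_mul, Complex.norm_I, one_mul]
        exact hp3
      have h4 := abs_sub (dt (Complex.I * uu (σ.v p)) (dir m p.length))
        (dt (Complex.I * (uu (σ.v p) - uu (σ.v q))) (dir m p.length))
      linarith
    refine Finset.card_le_card_of_injOn (fun p => (p.length + L - q.length) / m) ?_ ?_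
    · intro p hp
      obtain ⟨h2, h3, h4, _⟩ := hfact p (Finset.mem_coe.1 hp)
      rw [Finset.mem_coe, Finset.mem_range]
      show (p.length + L - q.length) / m < c
      rw [Nat.div_lt_iff_lt_mul (by omega)]
      have h5 : c * m = L := by rw [hc, Nat.mul_comm]
      rw [h5]
      omega
    · intro p hp p' hp' hpp
      obtain ⟨h2, h3, h4, h5⟩ := hfact p (Finset.mem_coe.1 hp)
      obtain ⟨h2', h3', h4', h5'⟩ := hfact p' (Finset.mem_coe.1 hp')
      have hpp' : (p.length + L - q.length) / m = (p'.length + L - q.length) / m := hpp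
      have h6 := Nat.div_add_mod (p.length + L - q.length) m
      have h7 := Nat.div_add_mod (p'.length + L - q.length) m
      have h8 := Nat.mod_lt (p.length + L - q.length) (by omega : 0 < m)
      have h9 := Nat.mod_lt (p'.length + L - q.length) (by omega : 0 < m)
      rw [hpp'] at h6
      have h10 : p.length = p'.length := by
        rcases lt_trichotomy p.length p'.length with h | h | h
        · exact (bad_unique hm hεm (norm_uu (σ.v q)) h (by omega) h5 h5').elim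
        · exact h
        · exact (bad_unique hm hεm (norm_uu (σ.v q)) h (by omega) h5' h5).elim
      exact (List.suffix_of_suffix_length_le h2 h2' h10.le).eq_of_length h10
  rw [Finset.card_range] at h1
  exact_mod_cast h1

theorem count_bad (hm : 2 ≤ m) (hL : 0 < L) (hmL : m ∣ L) (hε : 0 < ε) (hε1 : ε ≤ 1)
    (hεm : 4 * ε ≤ Real.sin (Real.pi / m)) {σ : St N} (hσ : OKh K B σ) (y : Y N) :
    ∑ p ∈ bdn K m L ε σ, ∑ q ∈ wn L σ p, ‖σ.v q‖ ≤
      (L : ℝ) / m * ∑ q ∈ σ.M.filter (fun q => q ≠ []), ‖σ.v q‖ +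
      2 / ε ^ 2 * ∑ i ∈ Finset.Icc 1 L, ∑ k ∈ Finset.Icc 1 (K - L),
        ∑ p ∈ σ.M.filter (fun p => p.length = k), Dd i σ y p := by
  classical
  have hF : ∀ p q : Nd N, 0 ≤ ‖σ.v q‖ - dt (uu (σ.v p)) (σ.v q) := by
    intro p q
    rw [abd_close]
    positivity
  have h1 : ∀ p q : Nd N, ‖σ.v q‖ ≤ (if ‖uu (σ.v p) - uu (σ.v q)‖ ≤ ε then ‖σ.v q‖ else 0) +
      2 / ε ^ 2 * (‖σ.v q‖ - dt (uu (σ.v p)) (σ.v q)) := by
    intro p q
    have h2 : 0 ≤ 2 / ε ^ 2 * (‖σ.v q‖ - dt (uu (σ.v p)) (σ.v q)) := mul_nonneg (by positivity) (hF p q)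
    split_ifs with h
    · linarith
    · push Not at h
      rw [zero_add, abd_close]
      have h3 : ε ^ 2 ≤ ‖uu (σ.v p) - uu (σ.v q)‖ ^ 2 := pow_le_pow_left₀ hε.le h.le 2
      have hε2 : 0 < ε ^ 2 := by positivity
      calc ‖σ.v q‖ = 2 / ε ^ 2 * (‖σ.v q‖ * (ε ^ 2 / 2)) := by
            field_simp
        _ ≤ 2 / ε ^ 2 * (‖σ.v q‖ * (‖uu (σ.v p) - uu (σ.v q)‖ ^ 2 / 2)) := by
            refine mul_le_mul_of_nonneg_left (mul_le_mul_of_nonneg_left ?_ (norm_nonneg _)) (by positivity)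
            linarith
  have h2 : ∑ p ∈ bdn K m L ε σ, ∑ q ∈ wn L σ p, ‖σ.v q‖ ≤
      ∑ p ∈ bdn K m L ε σ, ∑ q ∈ wn L σ p, (if ‖uu (σ.v p) - uu (σ.v q)‖ ≤ ε then ‖σ.v q‖ else 0) +
      2 / ε ^ 2 * ∑ p ∈ bdn K m L ε σ, ∑ q ∈ wn L σ p, (‖σ.v q‖ - dt (uu (σ.v p)) (σ.v q)) := by
    rw [Finset.mul_sum, ← Finset.sum_add_distrib]
    refine Finset.sum_le_sum fun p _ => ?_
    rw [Finset.mul_sum, ← Finset.sum_add_distrib]
    exact Finset.sum_le_sum fun q _ => h1 p q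
  refine h2.trans (add_le_add ?_ (mul_le_mul_of_nonneg_left ?_ (by positivity)))
  · -- close vectors
    have h3 : ∑ p ∈ bdn K m L ε σ, ∑ q ∈ wn L σ p, (if ‖uu (σ.v p) - uu (σ.v q)‖ ≤ ε then ‖σ.v q‖ else 0) =
        ∑ q ∈ σ.M.filter (fun q => q ≠ []), ∑ p ∈ (bdn K m L ε σ).filter (fun p => q ∈ wn L σ p),
          (if ‖uu (σ.v p) - uu (σ.v q)‖ ≤ ε then ‖σ.v q‖ else 0) := by
      refine Finset.sum_comm' fun p q => ?_
      rw [Finset.mem_filter, Finset.mem_filter]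
      constructor
      · rintro ⟨h3, h4⟩
        refine ⟨⟨h3, h4⟩, ?_, ?_⟩
        · unfold wn at h4
          exact (Finset.mem_filter.1 h4).1
        · rintro rfl
          unfold wn at h4
          have h5 := (Finset.mem_filter.1 h4).2.2.1
          rw [List.length_nil] at h5
          omega
      · rintro ⟨⟨h3, h4⟩, _⟩
        exact ⟨h3, h4⟩
    rw [h3, Finset.mul_sum]
    refine Finset.sum_le_sum fun q _ => ?_
    rw [← Finset.sum_filter, Finset.filter_filter, Finset.sum_const, nsmul_eq_mul]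
    exact mul_le_mul_of_nonneg_right (abd_card hm hmL hεm σ q) (norm_nonneg _)
  · -- the masses `D_i`
    have h3 : ∀ p ∈ bdn K m L ε σ, ∑ q ∈ wn L σ p, (‖σ.v q‖ - dt (uu (σ.v p)) (σ.v q)) ≤
        ∑ i ∈ Finset.Icc 1 L, Dd i σ y p := by
      intro p hp
      rw [← Finset.sum_fiberwise_of_maps_to (t := Finset.Icc 1 L) (g := fun q : Nd N => q.length - p.length)
        (fun q hq => by
          unfold wn at hq
          rw [Finset.mem_filter] at hq
          rw [Finset.mem_Icc]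
          omega)]
      refine Finset.sum_le_sum fun i hi => ?_
      rw [Finset.mem_Icc] at hi
      have h4 : (wn L σ p).filter (fun q => q.length - p.length = i) =
          σ.M.filter (fun q => p <:+ q ∧ q.length = p.length + i) := by
        ext q
        unfold wn
        simp only [Finset.mem_filter]
        constructor
        · rintro ⟨⟨h4, h5, h6, h7⟩, h8⟩
          exact ⟨h4, h5, by omega⟩
        · rintro ⟨h4, h5, h6⟩
          exact ⟨⟨h4, h5, by omega, by omega⟩, by omega⟩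
      rw [h4]
      unfold Dd
      have h5 : 0 ≤ ∑ q ∈ σ.M.filter (fun q => p <:+ q ∧ q.length < p.length + i),
          (‖zz σ.M y q‖ - dt (uu (σ.v p)) (zz σ.M y q)) := by
        refine Finset.sum_nonneg fun q _ => ?_
        have h6 := abs_dt_le (uu (σ.v p)) (zz σ.M y q)
        rw [norm_uu, one_mul] at h6
        have h7 := le_abs_self (dt (uu (σ.v p)) (zz σ.M y q))
        linarith
      linarith
    refine (Finset.sum_le_sum h3).trans ?_
    rw [Finset.sum_comm]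
    refine Finset.sum_le_sum fun i _ => ?_
    have h4 : ∑ k ∈ Finset.Icc 1 (K - L), ∑ p ∈ σ.M.filter (fun p => p.length = k), Dd i σ y p =
        ∑ p ∈ σ.M.filter (fun p => 1 ≤ p.length ∧ p.length ≤ K - L), Dd i σ y p := by
      rw [← Finset.sum_fiberwise_of_maps_to (s := σ.M.filter (fun p => 1 ≤ p.length ∧ p.length ≤ K - L))
        (t := Finset.Icc 1 (K - L)) (g := fun p : Nd N => p.length) (fun p hp => by
          rw [Finset.mem_filter] at hp
          exact Finset.mem_Icc.2 hp.2)]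
      refine Finset.sum_congr rfl fun k hk => ?_
      rw [Finset.mem_Icc] at hk
      refine Finset.sum_congr ?_ fun _ _ => rfl
      ext p
      simp only [Finset.mem_filter]
      constructor
      · rintro ⟨h5, h6⟩
        exact ⟨⟨h5, by omega, by omega⟩, h6⟩
      · rintro ⟨⟨h5, _⟩, h6⟩
        exact ⟨h5, h6⟩
    rw [h4]
    refine Finset.sum_le_sum_of_subset_of_nonneg (fun p hp => ?_) fun p _ _ => Dd_nonneg _ _ _ _
    unfold bdn at hp
    rw [Finset.mem_filter] at hp ⊢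
    have h5 : p.length ≠ 0 := fun h6 => hp.2.1 (List.length_eq_zero_iff.1 h6)
    have h6 := hp.2.2.1
    exact ⟨hp.1, by omega, by omega⟩

theorem energy_bad (hB : 0 ≤ B) (hm : 2 ≤ m) (hL : 0 < L) (hmL : m ∣ L) (hε : 0 < ε) (hε1 : ε ≤ 1)
    (hεm : 4 * ε ≤ Real.sin (Real.pi / m))
    (t : PT N) (y : Y N) (ht : t.WFP K B y) (hy : y ∈ Vs N K) (hyB : nr K y ≤ B) :
    t.ES R0 (eB K m L ε) (S.init N) y ≤ 4 * L * B ^ 2 + 8 * B ^ 2 * K / m + 16 * B ^ 2 * L / ε ^ 2 := by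
  have h1 := energy_bad1 (R0 := R0) hB hm hL hε hε1 t y ht hy hyB
  have h2 : t.EX R0 (fun s _ => ∑ p ∈ bdn K m L ε s.σ, ∑ q ∈ wn L s.σ p, ‖s.σ.v q‖) (S.init N) y ≤
      t.EX R0 (fun s y => (L : ℝ) / m * ∑ q ∈ s.σ.M.filter (fun q => q ≠ []), ‖s.σ.v q‖ +
      2 / ε ^ 2 * ∑ i ∈ Finset.Icc 1 L, ∑ k ∈ Finset.Icc 1 (K - L),
        ∑ p ∈ s.σ.M.filter (fun p => p.length = k), Dd i s.σ y p) (S.init N) y :=
    EX_mono (K := K) (B := B) _ _ (fun s y hs _ _ => count_bad hm hL hmL hε hε1 hεm hs.ok y) t _ y ht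
      inv_init hy hyB
  rw [EX_add (R0 := R0) (fun s _ => (L : ℝ) / m * ∑ q ∈ s.σ.M.filter (fun q => q ≠ []), ‖s.σ.v q‖)
      (fun s y => 2 / ε ^ 2 * ∑ i ∈ Finset.Icc 1 L, ∑ k ∈ Finset.Icc 1 (K - L),
        ∑ p ∈ s.σ.M.filter (fun p => p.length = k), Dd i s.σ y p),
    EX_mul (R0 := R0) ((L : ℝ) / m) (fun s _ => ∑ q ∈ s.σ.M.filter (fun q => q ≠ []), ‖s.σ.v q‖),
    EX_mul (R0 := R0) (2 / ε ^ 2) (fun s y => ∑ i ∈ Finset.Icc 1 L, ∑ k ∈ Finset.Icc 1 (K - L),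
        ∑ p ∈ s.σ.M.filter (fun p => p.length = k), Dd i s.σ y p),
    EX_sum (R0 := R0) (Finset.Icc 1 L) (fun i s y => ∑ k ∈ Finset.Icc 1 (K - L),
        ∑ p ∈ s.σ.M.filter (fun p => p.length = k), Dd i s.σ y p)] at h2
  have h3 : ∀ i ∈ Finset.Icc 1 L, t.EX R0 (fun s y => ∑ k ∈ Finset.Icc 1 (K - L),
      ∑ p ∈ s.σ.M.filter (fun p => p.length = k), Dd i s.σ y p) (S.init N) y ≤ L * B := by
    intro i hi
    rw [Finset.mem_Icc] at hi
    rw [EX_sum (R0 := R0) (Finset.Icc 1 (K - L)) (fun k s y =>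
      ∑ p ∈ s.σ.M.filter (fun p => p.length = k), Dd i s.σ y p)]
    have h4 : ∀ k ∈ Finset.Icc 1 (K - L), t.EX R0 (fun s y =>
        ∑ p ∈ s.σ.M.filter (fun p => p.length = k), Dd i s.σ y p) (S.init N) y =
        t.EX R0 (fun s y => Gg (k + i) s.σ y) (S.init N) y - t.EX R0 (fun s y => Gg k s.σ y) (S.init N) y := by
      intro k hk
      rw [Finset.mem_Icc] at hk
      exact EX_Dd hk.1 hi.1 t y ht hy hyB
    rw [Finset.sum_congr rfl h4]
    have h5 := sum_G_tel (K := K) (L := L) (B := B)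
      (g := fun j => t.EX R0 (fun s y => Gg j s.σ y) (S.init N) y)
      (fun j => EX_G_nonneg j t _ y ht) (fun j hj hjK => EX_G_le hB j hj hjK t y ht hy hyB) hi.2 hB
    refine h5.trans (mul_le_mul_of_nonneg_right ?_ hB)
    exact_mod_cast hi.2
  have h4 := (Finset.sum_le_card_nsmul _ _ _ h3)
  rw [Nat.card_Icc, nsmul_eq_mul, Nat.add_sub_cancel] at h4
  have h5 := frozen_all (R0 := R0) t y ht hy hyB
  have hLp : (0 : ℝ) < L := by exact_mod_cast hL
  have hmp : (0 : ℝ) < m := by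
    have : (2 : ℝ) ≤ m := by exact_mod_cast hm
    linarith
  have h6 : t.EX R0 (fun s _ => ∑ p ∈ bdn K m L ε s.σ, ∑ q ∈ wn L s.σ p, ‖s.σ.v q‖) (S.init N) y ≤
      (L : ℝ) / m * (K * B) + 2 / ε ^ 2 * (L * (L * B)) :=
    h2.trans (add_le_add (mul_le_mul_of_nonneg_left h5 (by positivity))
      (mul_le_mul_of_nonneg_left h4 (by positivity)))
  have h7 := mul_le_mul_of_nonneg_left h6 (by positivity : 0 ≤ 8 * B / L)
  have e1 : 8 * B / L * ((L : ℝ) / m * (K * B) + 2 / ε ^ 2 * (L * (L * B))) =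
      8 * B ^ 2 * K / m + 16 * B ^ 2 * L / ε ^ 2 := by
    field_simp
    ring
  rw [e1] at h7
  linarith

end H50RC
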