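import Pool.Agent.H50.RC.Acr

/-!
S05864 [H50 RC AFL]: (A4), (A5): energies of all nodes.
(A5): `dynkinS` with `Ψ σ y = ∑_{q ∈ insert [] nds} ‖y q‖²` (no dependence on the state), `normsq_jump` for every node; `∑_{q ∈ nds} ‖y q‖² ≤ K B²` (`sum_nds_sq_le`), `‖y []‖ ≤ B` (`norm_le_nr`).
(A4): `dynkin` with `Ψ s y = if R0 < core.card then ∑ ‖y q‖² else 0`: at a note the core set grows; at a jump the state does not change. So `ES eFull ≤ EX Ψ ≤ (K+1)B² EX 1[R0 < #core]` and `1[R0 < #core] ≤ #core/R0`.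
Then (A3).
-/

set_option autoImplicit false

namespace H50RC

variable {N K R0 : ℕ} {B : ℝ}

private noncomputable def fE (K : ℕ) (y : Y N) : ℝ := ∑ q ∈ insert [] (nds N K), ‖y q‖ ^ 2

private theorem fE_nonneg (y : Y N) : 0 ≤ fE K y := Finset.sum_nonneg fun _ _ => by positivity

private theorem fE_le (hB : 0 ≤ B) {y : Y N} (hy : y ∈ Vs N K) (hyB : nr K y ≤ B) : fE K y ≤ (K + 1) * B ^ 2 := by
  unfold fE
  have hn : ([] : Nd N) ∉ nds N K := fun h => (mem_nds.1 h).1 rfl
  rw [Finset.sum_insert hn]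
  have h0 := nr_nonneg (K := K) y
  have h1 : ‖y []‖ ≤ nr K y := norm_le_nr hy (by simp)
  have h2 : ‖y []‖ ^ 2 ≤ B ^ 2 := pow_le_pow_left₀ (norm_nonneg _) (h1.trans hyB) 2
  have h3 := sum_nds_sq_le hy
  have h4 : (K : ℝ) * nr K y ^ 2 ≤ K * B ^ 2 :=
    mul_le_mul_of_nonneg_left (pow_le_pow_left₀ h0 hyB 2) (by positivity)
  linarith

private theorem fE_jump {ι : Type} [Fintype ι] {y : Y N} {p : ι → ℝ} {y' : ι → Y N} (h : Jmp K B y p y') :
    fE K y + ∑ i, p i * ∑ q ∈ insert [] (nds N K), ‖y' i q - y q‖ ^ 2 = ∑ i, p i * fE K (y' i) := by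
  unfold fE
  simp only [Finset.mul_sum]
  rw [Finset.sum_comm, Finset.sum_comm (s := Finset.univ), ← Finset.sum_add_distrib]
  refine Finset.sum_congr rfl fun q _ => ?_
  exact (normsq_jump h.one (fun i => y' i q) (h.y_eq q)).symm

theorem A5 (hB : 0 ≤ B) (t : PT N) (s : S N) (y : Y N) (ht : t.WFP K B y) (hs : Inv K B R0 s) (hy : y ∈ Vs N K)
    (hyB : nr K y ≤ B) : t.ES R0 (eA K) s y ≤ (K + 1) * B ^ 2 := by
  have hd := dynkin (K := K) (R0 := R0) (B := B) (fun _ y => fE K y) (eA K)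
    (fun s y a _ _ _ _ => le_refl _)
    (fun s y ι _ p y' _ _ _ hJ => by
      simp only [eA]
      exact le_of_eq (fE_jump hJ))
    t s y ht hs hy hyB
  have h1 : t.EX R0 (fun _ y => fE K y) s y ≤ t.EX R0 (fun _ _ => (K + 1) * B ^ 2) s y :=
    EX_mono (K := K) (B := B) _ _ (fun s y _ hy hB' => fE_le hB hy hB') t s y ht hs hy hyB
  rw [EX_const _ t s y ht] at h1
  have h0 := fE_nonneg (K := K) y
  linarith

theorem A4 (hB : 0 ≤ B) (hR : 0 < R0) {g : ℝ} (hg0 : 0 < g) (t : PT N) (y : Y N) (ht : t.WFP K B y)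
    (hg : t.Thr g y) (hy : y ∈ Vs N K) (hyB : nr K y ≤ B) :
    t.ES R0 (eFull K R0) (S.init N) y ≤ (K + 1) * B ^ 2 * (K * B / (g * R0)) := by
  classical
  have hd := dynkin (K := K) (R0 := R0) (B := B) (fun s y => if R0 < s.core.card then fE K y else 0) (eFull K R0)
    (fun s y a _ _ _ _ => by
      have hc : (s.note R0 y a).core = s.core ∪ a := rfl
      rw [hc]
      by_cases h : R0 < s.core.card
      · rw [if_pos h, if_pos (lt_of_lt_of_le h (Finset.card_le_card Finset.subset_union_left))]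
      · rw [if_neg h]
        split_ifs
        · exact fE_nonneg _
        · exact le_refl _)
    (fun s y ι _ p y' _ _ _ hJ => by
      simp only [eFull]
      by_cases h : R0 < s.core.card
      · simp only [if_pos h]
        exact le_of_eq (fE_jump hJ)
      · simp only [if_neg h, mul_zero, Finset.sum_const_zero, add_zero]
        exact le_refl _)
    t (S.init N) y ht inv_init hy hyB
  have h1 : t.EX R0 (fun s y => if R0 < s.core.card then fE K y else 0) (S.init N) y ≤
      t.EX R0 (fun s y => ((K + 1) * B ^ 2 / R0) * fCore s y) (S.init N) y := by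
    refine EX_mono (K := K) (B := B) _ _ (fun s y _ hy hB' => ?_) t _ y ht inv_init hy hyB
    have hR' : (0 : ℝ) < R0 := by exact_mod_cast hR
    have hK : (0 : ℝ) ≤ (K + 1) * B ^ 2 := by positivity
    simp only [fCore]
    split_ifs with h
    · have h2 : (R0 : ℝ) ≤ s.core.card := by exact_mod_cast h.le
      refine (fE_le hB hy hB').trans ?_
      rw [div_mul_eq_mul_div, le_div_iff₀ hR']
      exact mul_le_mul_of_nonneg_left h2 hK
    · positivity
  rw [EX_mul] at h1
  have h3 := A3 (R0 := R0) hB t y ht hg hy hyB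
  have h0 : (if R0 < (S.init N).core.card then fE K y else 0) = 0 := by
    rw [if_neg]
    simp [S.init]
  rw [h0, zero_add] at hd
  refine hd.trans (h1.trans ?_)
  have hR' : (0 : ℝ) < R0 := by exact_mod_cast hR
  have h4 : t.EX R0 fCore (S.init N) y ≤ K * B / g := by
    rw [le_div_iff₀ hg0]
    linarith
  calc ((K : ℝ) + 1) * B ^ 2 / R0 * t.EX R0 fCore (S.init N) y ≤ ((K : ℝ) + 1) * B ^ 2 / R0 * (K * B / g) :=
        mul_le_mul_of_nonneg_left h4 (by positivity)
    _ = (K + 1) * B ^ 2 * (K * B / (g * R0)) := by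
        field_simp

end H50RC
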