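import Pool.Agent.H50.RC.Aeg
import Pool.Agent.H50.RC.Abd
import Pool.Agent.H50.RC.Afl

/-!
S05864 [H50 RC A1]: (g), (h): assembly of (A1).
`lev_energy`: `dynkinS`/`submart` with `∑_{w ∈ lev k} ‖y w‖²`, `normsq_jump`, `≤ B²` (`∑ ‖y w‖ ≤ B`, so `∑ ‖y w‖² ≤ B²`).
`eF_le` (pointwise; `Inv`): split `p ∈ nds ∩ M` into late (`K < |p| + L`: `FF = dt n (dy p)`, square `≤ ‖dy p‖²`, levels `K-L+1..K`), and early: `FF² ≤ 2XX² + 2(FF-XX)²`, early good nodes are in `gd k`, `k = |p| ∈ [1, K-L]`, early bad ones in `bdn`.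
`(FF - XX)² ≤ (2/(εN))² (‖dy p.tail‖ + ∑_{q∈M}‖dy q.tail‖)² ≤ (4/(ε²N²)) (R+2)² · eA` where `R + 1 ≥ #M`, since every `‖dy w‖² ≤ eA` (`w ∈ insert [] nds`); the number of `p` is `≤ R+1`. With `bigN`: `2 (R+1) 4 (R+2)²/(ε²N²) ≤ (10 (K+1))⁻¹`... any bound `≤ 1/(100 (K+1))` is fine:
`N ≥ 10^8 (K+1)^40 (R+1)^4/ε^4`.
`A1'`: `ES eF ≤ 2∑_{k=1}^{K-L} ES eG + 2 ES eB + (100(K+1))⁻¹ ES eA + L B²` with `energy_good` (sum over `k`: `∑ ΔG ≤ L B`: `sum_G_tel` with `i = L`), `energy_bad`, `A5`, `lev_energy`.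
`A1`: `B = 4`; given `λ > 0` choose `m ≥ 2` with `256/m ≤ λ/4`, `ε = sin(π/m)/4`, `r > 0` with `48 √(8r)/ε² ≤ λ/8`, `L` a multiple of `m` with `48 · 8 m/(L ε²) ≤ λ/8`, then `K1` large.
-/

set_option autoImplicit false

namespace H50RC

variable {N K R0 m L : ℕ} {B ε r : ℝ}


private theorem a1_lev_sq {k : ℕ} (hk : k ≤ K) {y : Y N} (hy : y ∈ Vs N K) (hyB : nr K y ≤ B) :
    ∑ w ∈ lev N k, ‖y w‖ ^ 2 ≤ B ^ 2 := by
  have hB : 0 ≤ B := (nr_nonneg y).trans hyB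
  have h1 : ∀ w ∈ lev N k, ‖y w‖ ^ 2 ≤ B * ‖y w‖ := by
    intro w hw
    have h2 : ‖y w‖ ≤ B := (norm_le_nr hy (by rw [mem_lev.1 hw]; exact hk)).trans hyB
    rw [sq]
    exact mul_le_mul_of_nonneg_right h2 (norm_nonneg _)
  calc ∑ w ∈ lev N k, ‖y w‖ ^ 2 ≤ ∑ w ∈ lev N k, B * ‖y w‖ := Finset.sum_le_sum h1
    _ = B * ∑ w ∈ lev N k, ‖y w‖ := by rw [Finset.mul_sum]
    _ ≤ B * B := mul_le_mul_of_nonneg_left ((sum_lev_norm_le hy hk).trans hyB) hB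
    _ = B ^ 2 := by ring

private theorem a1_lev_jump {k : ℕ} {y : Y N} {ι : Type} [Fintype ι] {p : ι → ℝ} {y' : ι → Y N}
    (h : Jmp K B y p y') :
    ∑ w ∈ lev N k, ‖y w‖ ^ 2 + ∑ i, p i * ∑ w ∈ lev N k, ‖y' i w - y w‖ ^ 2 =
      ∑ i, p i * ∑ w ∈ lev N k, ‖y' i w‖ ^ 2 := by
  simp only [Finset.mul_sum]
  rw [Finset.sum_comm (s := Finset.univ) (t := lev N k), Finset.sum_comm (s := Finset.univ) (t := lev N k),
    ← Finset.sum_add_distrib]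
  refine Finset.sum_congr rfl fun w _ => ?_
  exact (normsq_jump h.one (fun i => y' i w) (h.y_eq w)).symm

theorem lev_energy (hB : 0 ≤ B) {k : ℕ} (hk : k ≤ K) (t : PT N) (s : S N) (y : Y N) (ht : t.WFP K B y)
    (hs : Inv K B R0 s) (hy : y ∈ Vs N K) (hyB : nr K y ≤ B) :
    t.ES R0 (fun _ y y' => ∑ w ∈ lev N k, ‖y' w - y w‖ ^ 2) s y ≤ B ^ 2 := by
  have h1 := dynkinS (N := N) (K := K) (R0 := R0) (B := B)
    (fun _ y => ∑ w ∈ lev N k, ‖y w‖ ^ 2) (fun _ y y' => ∑ w ∈ lev N k, ‖y' w - y w‖ ^ 2)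
    (fun _ _ _ _ _ _ _ _ _ => le_rfl)
    (fun _ _ _ _ _ _ _ _ _ h => (a1_lev_jump h).le) t s y ht hs hy hyB
  have h2 := EX_mono (N := N) (K := K) (R0 := R0) (B := B) (fun _ y => ∑ w ∈ lev N k, ‖y w‖ ^ 2)
    (fun _ _ => B ^ 2) (fun _ y _ hy hyB => a1_lev_sq hk hy hyB) t s y ht hs hy hyB
  rw [EX_const (B ^ 2) t s y ht] at h2
  have h3 : (0 : ℝ) ≤ ∑ w ∈ lev N k, ‖y w‖ ^ 2 := Finset.sum_nonneg fun _ _ => sq_nonneg _
  have h4 := h1.trans h2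
  linarith


private theorem a1_bigN {R : ℕ} (hm : 2 ≤ m) (hε : 0 < ε) (hε1 : ε ≤ 1) (hN : bigN K R m ε ≤ N) :
    0 < (N : ℝ) ∧ 800 * ((K : ℝ) + 1) * (((R : ℝ) + 1) * ((R : ℝ) + 2) ^ 2) ≤ (ε * N) ^ 2 := by
  have hrp := one_le_rp hm
  have hR : (0 : ℝ) ≤ R := Nat.cast_nonneg R
  have hK0 : (0 : ℝ) ≤ K := Nat.cast_nonneg K
  have h1 : (1 : ℝ) ≤ rp m ^ 8 := one_le_pow₀ hrp
  have h2 : ((K : ℝ) + 1) ≤ ((K : ℝ) + 1) ^ 40 := le_self_pow₀ (by linarith) (by norm_num)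
  have h4 : ((R : ℝ) + 1) ^ 2 ≤ ((R : ℝ) + 1) ^ 4 := pow_le_pow_right₀ (by linarith) (by norm_num)
  have h5 : ((K : ℝ) + 1) ≤ rp m ^ 8 * ((K : ℝ) + 1) ^ 40 := by
    calc ((K : ℝ) + 1) ≤ ((K : ℝ) + 1) ^ 40 := h2
      _ = 1 * ((K : ℝ) + 1) ^ 40 := by ring
      _ ≤ rp m ^ 8 * ((K : ℝ) + 1) ^ 40 := mul_le_mul_of_nonneg_right h1 (by positivity)
  have h6 : 10 ^ 4 * ((K : ℝ) + 1) * ((R : ℝ) + 1) ^ 2 ≤
      10 ^ 8 * rp m ^ 8 * ((K : ℝ) + 1) ^ 40 * ((R : ℝ) + 1) ^ 4 := by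
    calc 10 ^ 4 * ((K : ℝ) + 1) * ((R : ℝ) + 1) ^ 2
        = 10 ^ 4 * (((K : ℝ) + 1) * ((R : ℝ) + 1) ^ 2) := by ring
      _ ≤ 10 ^ 8 * (((K : ℝ) + 1) * ((R : ℝ) + 1) ^ 2) :=
          mul_le_mul_of_nonneg_right (by norm_num) (by positivity)
      _ ≤ 10 ^ 8 * ((rp m ^ 8 * ((K : ℝ) + 1) ^ 40) * ((R : ℝ) + 1) ^ 4) :=
          mul_le_mul_of_nonneg_left (mul_le_mul h5 h4 (by positivity) (by positivity)) (by positivity)
      _ = 10 ^ 8 * rp m ^ 8 * ((K : ℝ) + 1) ^ 40 * ((R : ℝ) + 1) ^ 4 := by ring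
  have h7 : 10 ^ 4 * ((K : ℝ) + 1) * ((R : ℝ) + 1) ^ 2 / ε ≤ bigN K R m ε := by
    unfold bigN
    have hε4 : ε ^ 4 ≤ ε := by
      calc ε ^ 4 ≤ ε ^ 1 := pow_le_pow_of_le_one hε.le hε1 (by norm_num)
        _ = ε := pow_one ε
    exact div_le_div₀ (by positivity) h6 (by positivity) hε4
  have h8 := h7.trans hN
  have h9 : 10 ^ 4 * ((K : ℝ) + 1) * ((R : ℝ) + 1) ^ 2 ≤ ε * N := by
    rw [div_le_iff₀ hε] at h8
    linarith
  have h10 : (0 : ℝ) < N := lt_of_lt_of_le (by positivity) h8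
  refine ⟨h10, ?_⟩
  have hK1 : (1 : ℝ) ≤ (K : ℝ) + 1 := by linarith
  have hR1 : (1 : ℝ) ≤ (R : ℝ) + 1 := by linarith
  calc 800 * ((K : ℝ) + 1) * (((R : ℝ) + 1) * ((R : ℝ) + 2) ^ 2)
      ≤ 800 * ((K : ℝ) + 1) * (((R : ℝ) + 1) * (2 * ((R : ℝ) + 1)) ^ 2) := by
        refine mul_le_mul_of_nonneg_left (mul_le_mul_of_nonneg_left ?_ (by positivity)) (by positivity)
        exact pow_le_pow_left₀ (by positivity) (by linarith) 2
    _ = 3200 * (((K : ℝ) + 1) * 1) * (((R : ℝ) + 1) ^ 3 * 1) := by ring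
    _ ≤ 3200 * (((K : ℝ) + 1) * ((K : ℝ) + 1)) * (((R : ℝ) + 1) ^ 3 * ((R : ℝ) + 1)) := by
        gcongr
    _ = 3200 * (((K : ℝ) + 1) ^ 2 * ((R : ℝ) + 1) ^ 4) := by ring
    _ ≤ 10 ^ 8 * (((K : ℝ) + 1) ^ 2 * ((R : ℝ) + 1) ^ 4) :=
        mul_le_mul_of_nonneg_right (by norm_num) (by positivity)
    _ = (10 ^ 4 * ((K : ℝ) + 1) * ((R : ℝ) + 1) ^ 2) ^ 2 := by ring
    _ ≤ (ε * N) ^ 2 := pow_le_pow_left₀ (by positivity) h9 2

/-- the error of one early node -/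
private theorem a1_err {R : ℕ} (hm : 2 ≤ m) (hL : 0 < L) (hmL : m ∣ L) (hε : 0 < ε) (hε1 : ε ≤ 1)
    (hN : bigN K R m ε ≤ N) {σ : St N} (hσ : OKh K B σ) (hc : σ.M.card ≤ R + 1) {z : Y N} (hz : z ∈ Vs N K)
    {p : Nd N} (hp : p ∈ σ.M) (h1 : p ≠ []) (h2 : p.length + L ≤ K) :
    2 * ((R : ℝ) + 1) * (FF K m L ε σ.M σ.v p z - XX m L ε σ.M σ.v p z) ^ 2 ≤
      (100 * ((K : ℝ) + 1))⁻¹ * ∑ q ∈ insert [] (nds N K), ‖z q‖ ^ 2 := by
  obtain ⟨hN0, hN1⟩ := a1_bigN hm hε hε1 hN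
  set E : ℝ := ∑ q ∈ insert [] (nds N K), ‖z q‖ ^ 2 with hE
  have hE0 : 0 ≤ E := Finset.sum_nonneg fun _ _ => sq_nonneg _
  have hle : ∀ w : Nd N, w.length ≤ K → ‖z w‖ ≤ Real.sqrt E := by
    intro w hw
    refine Real.le_sqrt_of_sq_le ?_
    refine Finset.single_le_sum (f := fun q => ‖z q‖ ^ 2) (fun _ _ => sq_nonneg _) ?_
    rw [Finset.mem_insert]
    by_cases h0 : w = []
    · exact Or.inl h0
    · exact Or.inr (mem_nds.2 ⟨h0, hw⟩)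
  have hlen : ∀ q ∈ σ.M, q.tail.length ≤ K := by
    intro q hq
    have := okh_len hσ q hq
    rw [List.length_tail]
    omega
  have hsum : ‖z p.tail‖ + ∑ q ∈ σ.M, ‖z q.tail‖ ≤ ((R : ℝ) + 2) * Real.sqrt E := by
    have h3 : ∑ q ∈ σ.M, ‖z q.tail‖ ≤ (σ.M.card : ℝ) * Real.sqrt E := by
      rw [← nsmul_eq_mul]
      exact Finset.sum_le_card_nsmul _ _ _ fun q hq => hle _ (hlen q hq)
    have h4 : (σ.M.card : ℝ) ≤ (R : ℝ) + 1 := by exact_mod_cast hc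
    have h5 : (σ.M.card : ℝ) * Real.sqrt E ≤ ((R : ℝ) + 1) * Real.sqrt E :=
      mul_le_mul_of_nonneg_right h4 (Real.sqrt_nonneg _)
    have h6 := hle _ (hlen p hp)
    nlinarith
  have h3 := abs_FF_sub_XX_le hm hL hmL hε hε1 hz σ.M (okh_PC hσ) σ.v hp h1 h2
  have h4 : |FF K m L ε σ.M σ.v p z - XX m L ε σ.M σ.v p z| ≤ 2 / (ε * N) * (((R : ℝ) + 2) * Real.sqrt E) :=
    h3.trans (mul_le_mul_of_nonneg_left hsum (by positivity))
  have h5 : (FF K m L ε σ.M σ.v p z - XX m L ε σ.M σ.v p z) ^ 2 ≤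
      (2 / (ε * N) * (((R : ℝ) + 2) * Real.sqrt E)) ^ 2 := by
    rw [← sq_abs (FF K m L ε σ.M σ.v p z - XX m L ε σ.M σ.v p z)]
    exact pow_le_pow_left₀ (abs_nonneg _) h4 2
  have h6 : (2 / (ε * N) * (((R : ℝ) + 2) * Real.sqrt E)) ^ 2 = 4 * ((R : ℝ) + 2) ^ 2 * E / (ε * N) ^ 2 := by
    rw [mul_pow, mul_pow, Real.sq_sqrt hE0, div_pow]
    ring
  rw [h6] at h5
  have hR0 : (0 : ℝ) ≤ R := Nat.cast_nonneg R
  have hK0 : (0 : ℝ) ≤ K := Nat.cast_nonneg K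
  have hεN : 0 < (ε * N) ^ 2 := by positivity
  calc 2 * ((R : ℝ) + 1) * (FF K m L ε σ.M σ.v p z - XX m L ε σ.M σ.v p z) ^ 2
      ≤ 2 * ((R : ℝ) + 1) * (4 * ((R : ℝ) + 2) ^ 2 * E / (ε * N) ^ 2) :=
        mul_le_mul_of_nonneg_left h5 (by positivity)
    _ = (8 * (((R : ℝ) + 1) * ((R : ℝ) + 2) ^ 2) / (ε * N) ^ 2) * E := by ring
    _ ≤ (100 * ((K : ℝ) + 1))⁻¹ * E := by
        refine mul_le_mul_of_nonneg_right ?_ hE0
        rw [div_le_iff₀ hεN, inv_mul_eq_div, le_div_iff₀ (by positivity)]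
        calc 8 * (((R : ℝ) + 1) * ((R : ℝ) + 2) ^ 2) * (100 * ((K : ℝ) + 1))
            = 800 * ((K : ℝ) + 1) * (((R : ℝ) + 1) * ((R : ℝ) + 2) ^ 2) := by ring
          _ ≤ (ε * N) ^ 2 := hN1

private theorem a1_late (M : Finset (Nd N)) (v : Nd N → ℂ) (z : Y N) :
    ∑ p ∈ ((nds N K).filter (fun p => p ∈ M)).filter (fun p => ¬ (p.length + L ≤ K)), FF K m L ε M v p z ^ 2 ≤
      ∑ k ∈ Finset.Ioc (K - L) K, ∑ w ∈ lev N k, ‖z w‖ ^ 2 := by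
  classical
  rw [← Finset.sum_biUnion]
  · refine le_trans (Finset.sum_le_sum (g := fun p => ‖z p‖ ^ 2) ?_) ?_
    · intro p hp
      rw [Finset.mem_filter] at hp
      have h1 : FF K m L ε M v p z = dt (dir m p.length) (z p) := by
        unfold FF
        rw [if_neg]
        exact fun h => hp.2 h.2
      rw [h1, ← sq_abs]
      have h2 := abs_dt_le (dir m p.length) (z p)
      rw [norm_dir, one_mul] at h2
      exact pow_le_pow_left₀ (abs_nonneg _) h2 2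
    · refine Finset.sum_le_sum_of_subset_of_nonneg ?_ fun _ _ _ => sq_nonneg _
      intro p hp
      rw [Finset.mem_filter, Finset.mem_filter, mem_nds] at hp
      obtain ⟨⟨⟨h1, h2⟩, -⟩, h3⟩ := hp
      have h4 : 0 < p.length := List.length_pos_of_ne_nil h1
      rw [Finset.mem_biUnion]
      refine ⟨p.length, ?_, mem_lev.2 rfl⟩
      rw [Finset.mem_Ioc]
      omega
  · intro i _ j _ hij
    rw [Function.onFun, Finset.disjoint_left]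
    intro w h1 h2
    rw [mem_lev] at h1 h2
    omega

private theorem a1_good (ε : ℝ) (σ : St N) (f : Nd N → ℝ) (hf : ∀ p, 0 ≤ f p) :
    ∑ p ∈ ((nds N K).filter (fun p => p ∈ σ.M)).filter (fun p => p.length + L ≤ K), f p ≤
      ∑ k ∈ Finset.Icc 1 (K - L), ∑ p ∈ gd m ε k σ, f p + ∑ p ∈ bdn K m L ε σ, f p := by
  classical
  rw [← Finset.sum_biUnion]
  · refine le_trans (Finset.sum_le_sum_of_subset_of_nonneg (t := ((Finset.Icc 1 (K - L)).biUnion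
      fun k => gd m ε k σ) ∪ bdn K m L ε σ) ?_ fun _ _ _ => hf _) ?_
    · intro p hp
      rw [Finset.mem_filter, Finset.mem_filter, mem_nds] at hp
      obtain ⟨⟨⟨h1, h2⟩, h5⟩, h3⟩ := hp
      have h4 : 0 < p.length := List.length_pos_of_ne_nil h1
      rw [Finset.mem_union, Finset.mem_biUnion]
      by_cases hg : Good m ε p.length (σ.v p)
      · left
        refine ⟨p.length, ?_, ?_⟩
        · rw [Finset.mem_Icc]
          omega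
        · unfold gd
          rw [Finset.mem_filter]
          exact ⟨h5, rfl, hg⟩
      · right
        unfold bdn
        rw [Finset.mem_filter]
        exact ⟨h5, h1, h3, hg⟩
    · rw [← Finset.sum_union_inter]
      have := Finset.sum_nonneg (s := ((Finset.Icc 1 (K - L)).biUnion
        fun k => gd m ε k σ) ∩ bdn K m L ε σ) fun i _ => hf i
      linarith
  · intro i _ j _ hij
    rw [Function.onFun, Finset.disjoint_left]
    intro w h1 h2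
    unfold gd at h1 h2
    rw [Finset.mem_filter] at h1 h2
    omega

theorem eF_le (hm : 2 ≤ m) (hL : 0 < L) (hmL : m ∣ L) (hε : 0 < ε) (hε1 : ε ≤ 1)
    (hN : bigN K ((K + 1) * R0) m ε ≤ N) {s : S N} (hs : Inv K B R0 s) {y y' : Y N} (hy : y ∈ Vs N K)
    (hy' : y' ∈ Vs N K) :
    eF K m L ε s y y' ≤ 2 * ∑ k ∈ Finset.Icc 1 (K - L), eG m L ε k s y y' + 2 * eB K m L ε s y y' +
      (100 * ((K : ℝ) + 1))⁻¹ * eA K s y y' + ∑ k ∈ Finset.Ioc (K - L) K, ∑ w ∈ lev N k, ‖y' w - y w‖ ^ 2 := by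
  classical
  have hz : y' - y ∈ Vs N K := (Vs N K).sub_mem hy' hy
  set z : Y N := y' - y with hzdef
  have hzw : ∀ w, y' w - y w = z w := fun w => rfl
  have hσ := hs.ok
  have hc : s.σ.M.card ≤ (K + 1) * R0 + 1 := hs.cardM
  set M := s.σ.M with hM
  set v := s.σ.v with hv
  unfold eF eG eB eA
  rw [← hzdef, ← hM, ← hv]
  simp only [hzw]
  set P := (nds N K).filter (fun p => p ∈ M) with hP
  rw [← Finset.sum_filter_add_sum_filter_not P (fun p => p.length + L ≤ K)]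
  have h1 := a1_late (K := K) (L := L) (m := m) (ε := ε) M v z
  have hcardP : ((P.filter (fun p => p.length + L ≤ K)).card : ℝ) ≤ (((K + 1) * R0 : ℕ) : ℝ) + 1 := by
    have h2 : (P.filter (fun p => p.length + L ≤ K)).card ≤ (K + 1) * R0 + 1 := by
      refine le_trans (Finset.card_le_card ?_) hc
      intro p hp
      rw [Finset.mem_filter, hP, Finset.mem_filter] at hp
      exact hp.1.2
    exact_mod_cast h2
  set R : ℕ := (K + 1) * R0 with hR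
  set E : ℝ := ∑ q ∈ insert [] (nds N K), ‖z q‖ ^ 2 with hE
  have hE0 : 0 ≤ E := Finset.sum_nonneg fun _ _ => sq_nonneg _
  have hK0 : (0 : ℝ) ≤ K := Nat.cast_nonneg K
  have hR0 : (0 : ℝ) ≤ R := Nat.cast_nonneg R
  have h2 : ∑ p ∈ P.filter (fun p => p.length + L ≤ K), FF K m L ε M v p z ^ 2 ≤
      ∑ p ∈ P.filter (fun p => p.length + L ≤ K), (2 * XX m L ε M v p z ^ 2 +
        (100 * ((K : ℝ) + 1))⁻¹ * E / ((R : ℝ) + 1)) := by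
    refine Finset.sum_le_sum fun p hp => ?_
    rw [Finset.mem_filter, hP, Finset.mem_filter, mem_nds] at hp
    obtain ⟨⟨⟨h3, h4⟩, h5⟩, h6⟩ := hp
    have h7 := a1_err hm hL hmL hε hε1 hN hσ hc hz h5 h3 h6
    rw [← hM, ← hv, ← hE] at h7
    have h8 : 2 * (FF K m L ε M v p z - XX m L ε M v p z) ^ 2 ≤ (100 * ((K : ℝ) + 1))⁻¹ * E / ((R : ℝ) + 1) := by
      rw [le_div_iff₀ (by positivity)]
      linarith
    have h9 : FF K m L ε M v p z ^ 2 ≤ 2 * XX m L ε M v p z ^ 2 +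
        2 * (FF K m L ε M v p z - XX m L ε M v p z) ^ 2 := by
      nlinarith [sq_nonneg (FF K m L ε M v p z - 2 * XX m L ε M v p z)]
    linarith
  rw [Finset.sum_add_distrib, ← Finset.mul_sum, Finset.sum_const, nsmul_eq_mul] at h2
  have h3 := a1_good (K := K) (L := L) (m := m) ε s.σ (fun p => XX m L ε M v p z ^ 2) (fun p => sq_nonneg _)
  rw [← hM, ← hP] at h3
  have h4 : ((P.filter (fun p => p.length + L ≤ K)).card : ℝ) * ((100 * ((K : ℝ) + 1))⁻¹ * E / ((R : ℝ) + 1)) ≤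
      (100 * ((K : ℝ) + 1))⁻¹ * E := by
    calc ((P.filter (fun p => p.length + L ≤ K)).card : ℝ) * ((100 * ((K : ℝ) + 1))⁻¹ * E / ((R : ℝ) + 1))
        ≤ ((R : ℝ) + 1) * ((100 * ((K : ℝ) + 1))⁻¹ * E / ((R : ℝ) + 1)) :=
          mul_le_mul_of_nonneg_right hcardP (by positivity)
      _ = (100 * ((K : ℝ) + 1))⁻¹ * E := by
          field_simp
  linarith


private theorem a1_xi_nonneg (hB : 0 ≤ B) (hε : 0 < ε) : 0 ≤ xi m L ε B r := by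
  unfold xi
  positivity

private theorem a1_sum_good (hB : 0 ≤ B) (hm : 2 ≤ m) (hL : 0 < L) (hε : 0 < ε) (hε1 : ε ≤ 1) (hr : 0 < r)
    (t : PT N) (y : Y N) (ht : t.WFP K B y) (hy : y ∈ Vs N K) (hyB : nr K y ≤ B) :
    ∑ k ∈ Finset.Icc 1 (K - L), t.ES R0 (eG m L ε k) (S.init N) y ≤
      K * (6 * xi m L ε B r * B / ε) + 12 * B ^ 2 / (ε ^ 2 * r) * (L * B) := by
  have h1 : ∀ k ∈ Finset.Icc 1 (K - L), t.ES R0 (eG m L ε k) (S.init N) y ≤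
      6 * xi m L ε B r * B / ε + 12 * B ^ 2 / (ε ^ 2 * r) *
      (t.EX R0 (fun s y => Gg (k + L) s.σ y) (S.init N) y - t.EX R0 (fun s y => Gg k s.σ y) (S.init N) y) := by
    intro k hk
    rw [Finset.mem_Icc] at hk
    exact energy_good hB hm hL hε hε1 hr hk.1 (by omega) t y ht hy hyB
  have h2 := sum_G_tel (K := K) (L := L) (B := B)
    (g := fun j => t.EX R0 (fun s y => Gg j s.σ y) (S.init N) y)
    (fun j => EX_G_nonneg j t _ y ht) (fun j hj hjK => EX_G_le hB j hj hjK t y ht hy hyB) (le_refl L) hB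
  have h3 := a1_xi_nonneg (m := m) (L := L) (r := r) hB hε
  refine (Finset.sum_le_sum h1).trans ?_
  rw [Finset.sum_add_distrib, ← Finset.mul_sum, Finset.sum_const, nsmul_eq_mul, Nat.card_Icc, Nat.add_sub_cancel]
  refine add_le_add ?_ (mul_le_mul_of_nonneg_left h2 (by positivity))
  refine mul_le_mul_of_nonneg_right ?_ (by positivity)
  exact_mod_cast Nat.sub_le K L

theorem A1' (hB : 0 ≤ B) (hm : 2 ≤ m) (hL : 0 < L) (hmL : m ∣ L) (hε : 0 < ε) (hε1 : ε ≤ 1) (hr : 0 < r)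
    (hεm : 4 * ε ≤ Real.sin (Real.pi / m)) (hN : bigN K ((K + 1) * R0) m ε ≤ N)
    (t : PT N) (y : Y N) (ht : t.WFP K B y) (hy : y ∈ Vs N K) (hyB : nr K y ≤ B) :
    t.ES R0 (eF K m L ε) (S.init N) y ≤ 12 * xi m L ε B r * B / ε * K + 24 * B ^ 3 * L / (ε ^ 2 * r) +
      8 * L * B ^ 2 + 16 * B ^ 2 * K / m + 32 * B ^ 2 * L / ε ^ 2 + B ^ 2 + L * B ^ 2 := by
  have h1 := ES_mono (N := N) (K := K) (R0 := R0) (B := B) (eF K m L ε)
    (fun s y y' => 2 * ∑ k ∈ Finset.Icc 1 (K - L), eG m L ε k s y y' + 2 * eB K m L ε s y y' +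
      (100 * ((K : ℝ) + 1))⁻¹ * eA K s y y' + ∑ k ∈ Finset.Ioc (K - L) K, ∑ w ∈ lev N k, ‖y' w - y w‖ ^ 2)
    (fun s y y' hs hy _ hy' _ => eF_le hm hL hmL hε hε1 hN hs hy hy') t (S.init N) y ht inv_init hy hyB
  rw [ES_add (fun s y y' => 2 * ∑ k ∈ Finset.Icc 1 (K - L), eG m L ε k s y y' + 2 * eB K m L ε s y y' +
      (100 * ((K : ℝ) + 1))⁻¹ * eA K s y y')
      (fun _ y y' => ∑ k ∈ Finset.Ioc (K - L) K, ∑ w ∈ lev N k, ‖y' w - y w‖ ^ 2),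
    ES_add (fun s y y' => 2 * ∑ k ∈ Finset.Icc 1 (K - L), eG m L ε k s y y' + 2 * eB K m L ε s y y')
      (fun s y y' => (100 * ((K : ℝ) + 1))⁻¹ * eA K s y y'),
    ES_add (fun s y y' => 2 * ∑ k ∈ Finset.Icc 1 (K - L), eG m L ε k s y y')
      (fun s y y' => 2 * eB K m L ε s y y'),
    ES_mul 2 (fun s y y' => ∑ k ∈ Finset.Icc 1 (K - L), eG m L ε k s y y'),
    ES_mul 2 (fun s y y' => eB K m L ε s y y'),
    ES_mul ((100 * ((K : ℝ) + 1))⁻¹) (fun s y y' => eA K s y y'),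
    ES_sum (Finset.Icc 1 (K - L)) (fun k => eG m L ε k),
    ES_sum (Finset.Ioc (K - L) K) (fun k _ y y' => ∑ w ∈ lev N k, ‖y' w - y w‖ ^ 2)] at h1
  have h2 := a1_sum_good (R0 := R0) hB hm hL hε hε1 hr t y ht hy hyB
  have h3 := energy_bad (R0 := R0) hB hm hL hmL hε hε1 hεm t y ht hy hyB
  have h4 := A5 (R0 := R0) hB t (S.init N) y ht inv_init hy hyB
  have h5 : ∑ k ∈ Finset.Ioc (K - L) K,
      t.ES R0 (fun _ y y' => ∑ w ∈ lev N k, ‖y' w - y w‖ ^ 2) (S.init N) y ≤ L * B ^ 2 := by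
    refine (Finset.sum_le_sum (g := fun _ => B ^ 2) fun k hk => ?_).trans ?_
    · rw [Finset.mem_Ioc] at hk
      exact lev_energy hB hk.2 t _ y ht inv_init hy hyB
    · rw [Finset.sum_const, nsmul_eq_mul, Nat.card_Ioc]
      refine mul_le_mul_of_nonneg_right ?_ (by positivity)
      have h6 : K - (K - L) ≤ L := by omega
      exact_mod_cast h6
  have hK0 : (0 : ℝ) ≤ K := Nat.cast_nonneg K
  have h6 : (100 * ((K : ℝ) + 1))⁻¹ * t.ES R0 (eA K) (S.init N) y ≤ B ^ 2 := by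
    calc (100 * ((K : ℝ) + 1))⁻¹ * t.ES R0 (eA K) (S.init N) y
        ≤ (100 * ((K : ℝ) + 1))⁻¹ * (((K : ℝ) + 1) * B ^ 2) :=
          mul_le_mul_of_nonneg_left h4 (by positivity)
      _ = B ^ 2 / 100 := by
          field_simp
      _ ≤ B ^ 2 := by
          have := sq_nonneg B
          linarith
  have e1 : (12 * xi m L ε B r * B / ε * K : ℝ) = 2 * (K * (6 * xi m L ε B r * B / ε)) := by ring
  have e2 : (24 * B ^ 3 * L / (ε ^ 2 * r) : ℝ) = 2 * (12 * B ^ 2 / (ε ^ 2 * r) * (L * B)) := by ring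
  have e3 : (8 * L * B ^ 2 + 16 * B ^ 2 * K / m + 32 * B ^ 2 * L / ε ^ 2 : ℝ) =
      2 * (4 * L * B ^ 2 + 8 * B ^ 2 * K / m + 16 * B ^ 2 * L / ε ^ 2) := by ring
  rw [e1, e2]
  have e4 : (2 * (K * (6 * xi m L ε B r * B / ε)) + 2 * (12 * B ^ 2 / (ε ^ 2 * r) * (L * B)) +
      8 * L * B ^ 2 + 16 * B ^ 2 * K / m + 32 * B ^ 2 * L / ε ^ 2 + B ^ 2 + L * B ^ 2 : ℝ) =
      2 * (K * (6 * xi m L ε B r * B / ε) + 12 * B ^ 2 / (ε ^ 2 * r) * (L * B)) +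
      (8 * L * B ^ 2 + 16 * B ^ 2 * K / m + 32 * B ^ 2 * L / ε ^ 2) + B ^ 2 + L * B ^ 2 := by ring
  rw [e4, e3]
  linarith


private theorem a1_final {lam ε r C K' mm LL : ℝ} (hlam : 0 < lam) (hε : 0 < ε)
    (hr : Real.sqrt (2 * 4 * r) = lam * ε ^ 2 / 384)
    (hm : 256 / mm ≤ lam / 4) (hL : 8 * mm / LL ≤ lam * ε ^ 2 / 384) (hK : 0 ≤ K') (hC : C ≤ lam / 2 * K') :
    12 * (ε⁻¹ * (Real.sqrt (2 * 4 * r) + 2 * mm / LL * 4)) * 4 / ε * K' + 16 * 4 ^ 2 * K' / mm + C ≤ lam * K' := by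
  have h1 : 12 * (ε⁻¹ * (Real.sqrt (2 * 4 * r) + 2 * mm / LL * 4)) * 4 / ε ≤ lam / 4 := by
    have h2 : Real.sqrt (2 * 4 * r) + 2 * mm / LL * 4 ≤ 2 * (lam * ε ^ 2 / 384) := by
      have h3 : 2 * mm / LL * 4 = 8 * mm / LL := by ring
      rw [h3, hr]
      linarith
    calc 12 * (ε⁻¹ * (Real.sqrt (2 * 4 * r) + 2 * mm / LL * 4)) * 4 / ε
        = 48 * (ε⁻¹ * ε⁻¹) * (Real.sqrt (2 * 4 * r) + 2 * mm / LL * 4) := by
          rw [div_eq_mul_inv]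
          ring
      _ ≤ 48 * (ε⁻¹ * ε⁻¹) * (2 * (lam * ε ^ 2 / 384)) := mul_le_mul_of_nonneg_left h2 (by positivity)
      _ = lam / 4 := by
          field_simp
          norm_num
  have h2 : 16 * 4 ^ 2 * K' / mm ≤ lam / 4 * K' := by
    calc 16 * 4 ^ 2 * K' / mm = 256 / mm * K' := by ring
      _ ≤ lam / 4 * K' := mul_le_mul_of_nonneg_right hm hK
  have h3 := mul_le_mul_of_nonneg_right h1 hK
  linarith

theorem A1 (lam : ℝ) (hlam : 0 < lam) : ∃ (m L : ℕ) (ε : ℝ), 2 ≤ m ∧ 0 < L ∧ m ∣ L ∧ 0 < ε ∧ ε ≤ 1 ∧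
    4 * ε ≤ Real.sin (Real.pi / m) ∧ ∃ K1 : ℕ, ∀ (K R0 N : ℕ), K1 ≤ K → bigN K ((K + 1) * R0) m ε ≤ N →
    ∀ (t : PT N) (y : Y N), t.WFP K 4 y → y ∈ Vs N K → nr K y ≤ 4 →
      t.ES R0 (eF K m L ε) (S.init N) y ≤ lam * K := by
  obtain ⟨m', hm'⟩ := exists_nat_ge (1024 / lam)
  obtain ⟨m, hm, hm1⟩ : ∃ m : ℕ, 2 ≤ m ∧ (256 : ℝ) / m ≤ lam / 4 := by
    refine ⟨m' + 2, by omega, ?_⟩
    have h1 : 1024 / lam ≤ ((m' + 2 : ℕ) : ℝ) := by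
      push_cast
      linarith
    have h2 : (0 : ℝ) < ((m' + 2 : ℕ) : ℝ) := by positivity
    rw [div_le_iff₀ hlam] at h1
    rw [div_le_iff₀ h2]
    linarith
  have hm0 : (0 : ℝ) < m := by
    have : 0 < m := by omega
    exact_mod_cast this
  have hsin : 0 < Real.sin (Real.pi / m) := by
    apply Real.sin_pos_of_pos_of_lt_pi
    · exact div_pos Real.pi_pos hm0
    · rw [div_lt_iff₀ hm0]
      have h1 : (2 : ℝ) ≤ m := by exact_mod_cast hm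
      nlinarith [Real.pi_pos]
  obtain ⟨ε, hε⟩ : ∃ ε : ℝ, ε = Real.sin (Real.pi / m) / 4 := ⟨_, rfl⟩
  have hε0 : 0 < ε := by
    rw [hε]
    positivity
  have hε1 : ε ≤ 1 := by
    rw [hε]
    have := Real.sin_le_one (Real.pi / m)
    linarith
  have hεm : 4 * ε ≤ Real.sin (Real.pi / m) := by
    rw [hε]
    linarith
  obtain ⟨r, hr⟩ : ∃ r : ℝ, r = (lam * ε ^ 2 / 384) ^ 2 / 8 := ⟨_, rfl⟩
  have hr0 : 0 < r := by
    rw [hr]
    positivity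
  have hrs : Real.sqrt (2 * 4 * r) = lam * ε ^ 2 / 384 := by
    have h1 : 2 * 4 * r = (lam * ε ^ 2 / 384) ^ 2 := by
      rw [hr]
      ring
    rw [h1, Real.sqrt_sq (by positivity)]
  obtain ⟨j, hj⟩ := exists_nat_ge (3072 / (lam * ε ^ 2))
  obtain ⟨L, hL0, hmL, hL1⟩ : ∃ L : ℕ, 0 < L ∧ m ∣ L ∧ 8 * (m : ℝ) / L ≤ lam * ε ^ 2 / 384 := by
    refine ⟨m * (j + 1), by positivity, Dvd.intro _ rfl, ?_⟩
    have h1 : (0 : ℝ) < lam * ε ^ 2 := by positivity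
    rw [div_le_iff₀ h1] at hj
    have h3 : (0 : ℝ) < (j : ℝ) + 1 := by positivity
    have h2 : 8 * (m : ℝ) / ((m * (j + 1) : ℕ) : ℝ) = 8 / ((j : ℝ) + 1) := by
      push_cast
      field_simp
    rw [h2, div_le_div_iff₀ h3 (by norm_num)]
    nlinarith
  obtain ⟨C, hC⟩ : ∃ C : ℝ, C = 24 * 4 ^ 3 * L / (ε ^ 2 * r) + 8 * L * 4 ^ 2 + 32 * 4 ^ 2 * L / ε ^ 2 + 4 ^ 2 + L * 4 ^ 2 :=
    ⟨_, rfl⟩
  obtain ⟨K1, hK1⟩ := exists_nat_ge (2 * C / lam)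
  refine ⟨m, L, ε, hm, hL0, hmL, hε0, hε1, hεm, K1, ?_⟩
  intro K R0 N hK hN t y ht hy hyB
  have h1 := A1' (r := r) (by norm_num) hm hL0 hmL hε0 hε1 hr0 hεm hN t y ht hy hyB
  have hKr : (K1 : ℝ) ≤ K := by exact_mod_cast hK
  have hCK : C ≤ lam / 2 * K := by
    rw [div_le_iff₀ hlam] at hK1
    nlinarith
  have h2 := a1_final hlam hε0 hrs hm1 hL1 (Nat.cast_nonneg K) hCK
  rw [hC] at h2
  unfold xi at h1
  linarith

end H50RC
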