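import Pool.Agent.H50.RC.Pro

/-!
S05864: functionals of the proof of (A1): definitions (PART C2 of proofs 322).
-/

set_option autoImplicit false

namespace H50RC

variable {N : ℕ}

/-- `D_i(p)` -/
noncomputable def Dd (i : ℕ) (σ : St N) (y : Y N) (p : Nd N) : ℝ :=
  ∑ q ∈ σ.M.filter (fun q => p <:+ q ∧ q.length < p.length + i), (‖zz σ.M y q‖ - dt (uu (σ.v p)) (zz σ.M y q)) +
    ∑ q ∈ σ.M.filter (fun q => p <:+ q ∧ q.length = p.length + i), (‖σ.v q‖ - dt (uu (σ.v p)) (σ.v q))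

/-- the conserved vector of `p` -/
noncomputable def Cc (i : ℕ) (σ : St N) (y : Y N) (p : Nd N) : ℂ :=
  ∑ q ∈ σ.M.filter (fun q => p <:+ q ∧ q.length < p.length + i), zz σ.M y q +
    ∑ q ∈ σ.M.filter (fun q => p <:+ q ∧ q.length = p.length + i), σ.v q

/-- `G_k` -/
noncomputable def Gg (k : ℕ) (σ : St N) (y : Y N) : ℝ :=
  ∑ q ∈ σ.M.filter (fun q => q.length < k), ‖zz σ.M y q‖ +
    ∑ q ∈ σ.M.filter (fun q => q.length = k), ‖σ.v q‖

/-- `p` was stopped (`D_L(p) > r` after some update) -/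
def stp (L : ℕ) (r : ℝ) : St N → Nd N → Prop
  | [], _ => False
  | x :: σ, p => stp L r σ p ∨ (p ∈ St.M (x :: σ) ∧ r < Dd L (x :: σ) x.2 p)

/-- `q` was marked when `p` was stopped -/
def lte (L : ℕ) (r : ℝ) : St N → Nd N → Nd N → Prop
  | [], _, _ => False
  | x :: σ, p, q => lte L r σ p q ∨ (q = x.1 ∧ stp L r (x :: σ) p)

/-- the marked nodes below `p` in the window of length `L` (without `p`) -/
def wn (L : ℕ) (σ : St N) (p : Nd N) : Finset (Nd N) :=
  σ.M.filter (fun q => p <:+ q ∧ p.length < q.length ∧ q.length ≤ p.length + L)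

open Classical in
/-- the good marked nodes of level `k` -/
noncomputable def gd (m : ℕ) (ε : ℝ) (k : ℕ) (σ : St N) : Finset (Nd N) :=
  σ.M.filter (fun p => p.length = k ∧ Good m ε k (σ.v p))

open Classical in
/-- the bad marked nodes of the levels `1, …, K - L` -/
noncomputable def bdn (K m L : ℕ) (ε : ℝ) (σ : St N) : Finset (Nd N) :=
  σ.M.filter (fun p => p ≠ [] ∧ p.length + L ≤ K ∧ ¬ Good m ε p.length (σ.v p))

/-- energy of the marked functionals -/
noncomputable def eF (K m L : ℕ) (ε : ℝ) (s : S N) (y y' : Y N) : ℝ :=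
  ∑ p ∈ (nds N K).filter (fun p => p ∈ s.σ.M), FF K m L ε s.σ.M s.σ.v p (y' - y) ^ 2

/-- energy of the good nodes of level `k` -/
noncomputable def eG (m L : ℕ) (ε : ℝ) (k : ℕ) (s : S N) (y y' : Y N) : ℝ :=
  ∑ p ∈ gd m ε k s.σ, XX m L ε s.σ.M s.σ.v p (y' - y) ^ 2

/-- energy of the bad nodes -/
noncomputable def eB (K m L : ℕ) (ε : ℝ) (s : S N) (y y' : Y N) : ℝ :=
  ∑ p ∈ bdn K m L ε s.σ, XX m L ε s.σ.M s.σ.v p (y' - y) ^ 2

open Classical in
/-- energy of the quiet nodes -/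
noncomputable def eH (K : ℕ) (h : ℝ) (_ : S N) (y y' : Y N) : ℝ :=
  ∑ q ∈ nds N K, if ‖y q‖ ≤ h ∧ ‖y' q‖ ≤ h then ‖y' q - y q‖ ^ 2 else 0

/-- full energy -/
noncomputable def eA (K : ℕ) (_ : S N) (y y' : Y N) : ℝ :=
  ∑ q ∈ insert [] (nds N K), ‖y' q - y q‖ ^ 2

open Classical in
/-- full energy in full states -/
noncomputable def eFull (K R0 : ℕ) (s : S N) (y y' : Y N) : ℝ :=
  if R0 < s.core.card then ∑ q ∈ insert [] (nds N K), ‖y' q - y q‖ ^ 2 else 0

/-- number of core nodes -/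
noncomputable def fCore (s : S N) (_ : Y N) : ℝ := s.core.card

end H50RC
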