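import Pool.Agent.H50.RC.Exl

/-!
S05864 [H50 RC ACR]: (A3): expected size of the core set.
`core_mono`: the core set only grows: for every function `F : Finset → ℝ` ... not needed; use the following. For a process `t`, state `s`, value `y` and a finite set `A`, put
`Φ_A(t,s,y) = t.EX (fun s' y' => ∑ q ∈ s'.core \ A, (‖y' q‖ - g)) s y`. Claim: if `t.Thr g y` and `A = s.core` then `Φ_A ≥ 0`. More generally for `A ⊆ s.core`:
`t.EX (fun s' y' => ∑ q ∈ s'.core \ A, (‖y' q‖ - g)) s y ≥ ∑ q ∈ s.core \ A, (t.mg q y - g)` where `mg` = `t.EX (fun _ y' => ‖y' q‖) s y` (which does not depend on `s` and is `≥ ‖y q‖` and, if `t` is a jump, `≥ nx q`: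
`Jmp.norm_le` and induction). Induction on `t`: note: `(core ∪ a) \ A` is the disjoint union of `core \ A` and `a \ core` (as `A ⊆ core`, `(a \ core) \ A = a \ core`), the new nodes `q` have mean `≥ g` by `Thr`;
jump: `∑ p_i`, linear. With `s = S.init`, `A = ∅`: `g EX #core ≤ EX ∑_{q ∈ core} ‖y q‖ ≤ K B` (`sum_nds_norm_le`, core ⊆ nds by `Inv`).
-/

set_option autoImplicit false

namespace H50RC

variable {N K R0 : ℕ} {B : ℝ}

theorem EX_norm_ge (q : Nd N) (t : PT N) (s : S N) (y : Y N) (ht : t.WFP K B y) :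
    ‖y q‖ ≤ t.EX R0 (fun _ y' => ‖y' q‖) s y := by
  induction t generalizing s y with
  | nil => simp only [PT.EX]; exact le_refl _
  | note a t ih => simp only [PT.EX]; exact ih _ _ ht.2
  | jump ι hι p y' t ih =>
    simp only [PT.EX]
    exact (ht.1.norm_le q).trans (Finset.sum_le_sum fun i _ =>
      mul_le_mul_of_nonneg_left (ih i s (y' i) (ht.2 i)) (ht.1.nn i))

theorem EX_norm_ge_nx (q : Nd N) (t : PT N) (s : S N) (y : Y N) (ht : t.WFP K B y) :
    t.nx q ≤ t.EX R0 (fun _ y' => ‖y' q‖) s y := by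
  have h0 : t.nx q ≤ 0 ∨ t.nx q ≤ t.EX R0 (fun _ y' => ‖y' q‖) s y := by
    cases t with
    | nil => left; simp only [PT.nx]; exact le_refl _
    | note a t => left; simp only [PT.nx]; exact le_refl _
    | jump ι hι p y' t =>
      right
      simp only [PT.nx, PT.EX]
      exact Finset.sum_le_sum fun i _ =>
        mul_le_mul_of_nonneg_left (EX_norm_ge q (t i) s (y' i) (ht.2 i)) (ht.1.nn i)
  rcases h0 with h | h
  · exact h.trans ((norm_nonneg _).trans (EX_norm_ge q t s y ht))
  · exact h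

/-- the mean of `‖y q‖` does not depend on the state -/
private theorem EX_norm_indep (q : Nd N) (t : PT N) (s s' : S N) (y : Y N) :
    t.EX R0 (fun _ y' => ‖y' q‖) s y = t.EX R0 (fun _ y' => ‖y' q‖) s' y := by
  induction t generalizing s s' y with
  | nil => simp only [PT.EX]
  | note a t ih => simp only [PT.EX]; exact ih _ _ _
  | jump ι hι p y' t ih =>
    simp only [PT.EX]
    exact Finset.sum_congr rfl fun i _ => by rw [ih i s s' (y' i)]

private theorem acr_main {g : ℝ} (t : PT N) (s : S N) (y : Y N) (ht : t.WFP K B y) (hg : t.Thr g y) :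
    ∑ q ∈ s.core, (t.EX R0 (fun _ y' => ‖y' q‖) s y - g) ≤
      t.EX R0 (fun s' y' => ∑ q ∈ s'.core, (‖y' q‖ - g)) s y := by
  classical
  induction t generalizing s y with
  | nil => simp only [PT.EX]; exact le_refl _
  | note a t ih =>
    simp only [PT.EX]
    refine le_trans ?_ (ih (s.note R0 y a) y ht.2 hg.2)
    have hc : (s.note R0 y a).core = s.core ∪ a := rfl
    rw [hc, ← Finset.union_sdiff_self_eq_union, Finset.sum_union Finset.disjoint_sdiff]
    have h1 : 0 ≤ ∑ q ∈ a \ s.core, (t.EX R0 (fun _ y' => ‖y' q‖) (s.note R0 y a) y - g) := by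
      refine Finset.sum_nonneg fun q hq => ?_
      rcases hg.1 q (Finset.mem_sdiff.1 hq).1 with h | h
      · have := EX_norm_ge (R0 := R0) q t (s.note R0 y a) y ht.2
        linarith
      · have := EX_norm_ge_nx (R0 := R0) q t (s.note R0 y a) y ht.2
        linarith
    linarith
  | jump ι hι p y' t ih =>
    simp only [PT.EX]
    have h1 : ∀ i, p i * ∑ q ∈ s.core, ((t i).EX R0 (fun _ y' => ‖y' q‖) s (y' i) - g) ≤
        p i * (t i).EX R0 (fun s' y' => ∑ q ∈ s'.core, (‖y' q‖ - g)) s (y' i) := fun i =>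
      mul_le_mul_of_nonneg_left (ih i s (y' i) (ht.2 i) (hg i)) (ht.1.nn i)
    refine le_trans (le_of_eq ?_) (Finset.sum_le_sum fun i _ => h1 i)
    simp only [Finset.mul_sum]
    rw [Finset.sum_comm]
    refine Finset.sum_congr rfl fun q _ => ?_
    simp only [mul_sub, Finset.sum_sub_distrib]
    rw [← Finset.sum_mul, ht.1.one, one_mul]

theorem A3 (hB : 0 ≤ B) {g : ℝ} (t : PT N) (y : Y N) (ht : t.WFP K B y) (hg : t.Thr g y) (hy : y ∈ Vs N K)
    (hyB : nr K y ≤ B) : g * t.EX R0 fCore (S.init N) y ≤ K * B := by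
  classical
  have h1 := acr_main (R0 := R0) t (S.init N) y ht hg
  have h2 : ∑ q ∈ (S.init N).core, (t.EX R0 (fun _ y' => ‖y' q‖) (S.init N) y - g) = 0 := by
    simp [S.init]
  rw [h2] at h1
  have h3 : t.EX R0 (fun s' y' => ∑ q ∈ s'.core, (‖y' q‖ - g)) (S.init N) y =
      t.EX R0 (fun s' y' => ∑ q ∈ s'.core, ‖y' q‖) (S.init N) y - g * t.EX R0 fCore (S.init N) y := by
    rw [← EX_mul, ← EX_sub]
    congr 1
    funext s' y'
    rw [Finset.sum_sub_distrib, Finset.sum_const, nsmul_eq_mul, fCore]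
    ring
  have h4 : t.EX R0 (fun s' y' => ∑ q ∈ s'.core, ‖y' q‖) (S.init N) y ≤
      t.EX R0 (fun _ _ => K * B) (S.init N) y := by
    refine EX_mono (K := K) (B := B) _ _ (fun s y hs hy hB' => ?_) t _ y ht inv_init hy hyB
    calc ∑ q ∈ s.core, ‖y q‖ ≤ ∑ q ∈ nds N K, ‖y q‖ :=
          Finset.sum_le_sum_of_subset_of_nonneg hs.core_nds fun _ _ _ => norm_nonneg _
      _ ≤ K * nr K y := sum_nds_norm_le hy
      _ ≤ K * B := mul_le_mul_of_nonneg_left hB' (by positivity)
  rw [EX_const _ t _ y ht] at h4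
  rw [h3] at h1
  linarith

end H50RC
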