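import Pool.Agent.H50.RC.Dyn

/-!
S05864 [H50 RC ADD1]: adding one mark. `σ' = (q0, y) :: σ`, `q0 ∉ σ.M`, `q0.tail ∈ σ.M`, `PC σ.M` (so no marked node is below `q0`: a marked `q` with `q0 <:+ q` would give `q0 ∈ σ.M` by parent-closedness; induction on `q.length - q0.length`).
Masses: `zz σ'.M y q0 = y q0` (no marked children), `zz σ'.M y q0.tail = zz σ.M y q0.tail - y q0`, `zz σ'.M y q = zz σ.M y q` for all other marked `q` (`(a :: q) = q0` iff `q = q0.tail` and `a = q0.head`; `q0 ≠ []` since `[] ∈ σ.M`).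
`σ'.v q0 = y q0`, `σ'.v q = σ.v q` for `q ≠ q0`.
`norm_add_fun`: for `F(z) = ‖z‖ - dt u z` (subadditive: `F(a) ≤ F(a - b) + F(b)`) `Dd_add` follows: if `q0` is not below `p` (`¬ p <:+ q0`) then `Dd` is unchanged (`p ≠ q0`, the parent of `q0` is not below `p` or ... careful: if `p <:+ q0.tail` then `p <:+ q0`).
If `p <:+ q0`, `p ≠ q0` (as `p ∈ σ.M`): `p <:+ q0.tail`; if `|q0| < |p| + i`: the term `zz(q0.tail)` is replaced by `zz(q0.tail) - y q0` and the new term `zz(q0) = y q0` appears; if `|q0| = |p| + i`: the same with the frozen term `v q0 = y q0`;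
if `|q0| > |p| + i` nothing changes for `|q| < |p| + i` except when `|q0.tail| < |p| + i`, impossible. `Cc_add`: the same with equality. `Cc_new`: `p = q0`, `i ≥ 1`: only `q = q0` is below `q0`, `zz = y q0`.
`Gg_add`, used nowhere; omit. `XX_add`: `XX σ'.M σ'.v p y - XX σ.M σ.v p y` is `0` if `q0` is not below `p` or `|q0| > |p| + L`; otherwise, with `i = |q0| - |p|` (`1 ≤ i ≤ L`), it is `- dt (lI i) (y q0) + dt (lI (i+1)) (y q0)` (for `i = L` the second is `0 = lI_top`).
So `|.| ≤ (2/L) ‖ll‖ ‖y q0‖` (`norm_lI_step_le`).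
-/

set_option autoImplicit false

namespace H50RC

variable {N K m L : ℕ} {B ε : ℝ}

theorem not_below_new {M : Finset (Nd N)} (hM : PC M) {q0 q : Nd N} (h0 : q0 ∉ M) (hq : q ∈ M) : ¬ q0 <:+ q := by
  induction q with
  | nil =>
    intro h
    rw [List.suffix_nil] at h
    rw [h] at h0
    exact h0 hM.1
  | cons a w ih =>
    intro h
    rcases List.suffix_cons_iff.1 h with h1 | h1
    · rw [h1] at h0
      exact h0 hq
    · exact ih (hM.2 _ hq) h1

private theorem ad_ne_nil {M : Finset (Nd N)} (hM : PC M) {q0 : Nd N} (h0 : q0 ∉ M) : q0 ≠ [] := by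
  rintro rfl
  exact h0 hM.1

private theorem ad_M (σ : St N) (q0 : Nd N) (z : Y N) : St.M ((q0, z) :: σ) = insert q0 σ.M := rfl

private theorem ad_v_old (σ : St N) {q0 q : Nd N} (z : Y N) (h : q ≠ q0) : St.v ((q0, z) :: σ) q = σ.v q := by
  show (if q = q0 then z q0 else St.v σ q) = _
  rw [if_neg h]

private theorem ad_v_new (σ : St N) (q0 : Nd N) (z : Y N) : St.v ((q0, z) :: σ) q0 = z q0 := by
  show (if q0 = q0 then z q0 else St.v σ q0) = _
  rw [if_pos rfl]

/-- sums over the new set of marks -/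
private theorem ad_ins {E : Type} [AddCommMonoid E] {M : Finset (Nd N)} {q0 : Nd N} (h0 : q0 ∉ M)
    (P : Nd N → Prop) [DecidablePred P] (f : Nd N → E) :
    ∑ q ∈ (insert q0 M).filter P, f q = ∑ q ∈ M.filter P, f q + if P q0 then f q0 else 0 := by
  rw [Finset.sum_filter, Finset.sum_insert h0, ← Finset.sum_filter, add_comm]

private theorem ad_tail {E : Type} [AddCommMonoid E] {M : Finset (Nd N)} {q0 : Nd N} (h1 : q0.tail ∈ M)
    (P : Nd N → Prop) [DecidablePred P] (c : E) :
    ∑ q ∈ M.filter P, (if q = q0.tail then c else 0) = if P q0.tail then c else 0 := by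
  rw [Finset.sum_ite_eq' (M.filter P) q0.tail (fun _ => c)]
  by_cases h : P q0.tail
  · rw [if_pos h, if_pos (Finset.mem_filter.2 ⟨h1, h⟩)]
  · rw [if_neg h, if_neg (fun h2 => h (Finset.mem_filter.1 h2).2)]

private theorem ad_below {M : Finset (Nd N)} (hM : PC M) {q0 p : Nd N} (h0 : q0 ∉ M) (hp : p ∈ M) (n : ℕ) :
    (p <:+ q0.tail ∧ q0.tail.length < n) ↔ (p <:+ q0 ∧ q0.length ≤ n) := by
  have hne := ad_ne_nil hM h0
  cases q0 with
  | nil => exact absurd rfl hne
  | cons a w =>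
    rw [List.tail_cons, List.length_cons]
    constructor
    · rintro ⟨h1, h2⟩
      exact ⟨h1.trans (List.suffix_cons a w), by omega⟩
    · rintro ⟨h1, h2⟩
      rcases List.suffix_cons_iff.1 h1 with h3 | h3
      · rw [h3] at hp
        exact absurd hp h0
      · exact ⟨h3, by omega⟩

theorem zz_add_new {σ : St N} (hσ : PC σ.M) {y z : Y N} {q0 : Nd N} (h0 : q0 ∉ σ.M) :
    zz (St.M ((q0, z) :: σ)) y q0 = y q0 := by
  unfold zz
  rw [ad_M]
  have h1 : ∑ a, (if (a :: q0) ∈ insert q0 σ.M then y (a :: q0) else 0) = 0 := by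
    refine Finset.sum_eq_zero fun a _ => ?_
    rw [if_neg]
    intro h
    rcases Finset.mem_insert.1 h with h2 | h2
    · have h3 := congrArg List.length h2
      rw [List.length_cons] at h3
      omega
    · exact h0 (hσ.2 _ h2)
  rw [h1, sub_zero]

private theorem ad_zz {σ : St N} (hσ : PC σ.M) {y z : Y N} {q0 : Nd N} (q : Nd N) (h0 : q0 ∉ σ.M) :
    zz (St.M ((q0, z) :: σ)) y q = zz σ.M y q - if q = q0.tail then y q0 else 0 := by
  have hne := ad_ne_nil hσ h0
  unfold zz
  rw [ad_M, sub_sub]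
  congr 1
  have h1 : ∀ a : Fin N, (if (a :: q) ∈ insert q0 σ.M then y (a :: q) else 0) =
      (if (a :: q) ∈ σ.M then y (a :: q) else 0) + (if (a :: q) = q0 then y (a :: q) else 0) := by
    intro a
    by_cases h : (a :: q) = q0
    · rw [if_pos h, if_pos (Finset.mem_insert.2 (Or.inl h)), if_neg (by rw [h]; exact h0), zero_add]
    · rw [if_neg h, add_zero]
      by_cases h2 : (a :: q) ∈ σ.M
      · rw [if_pos h2, if_pos (Finset.mem_insert_of_mem h2)]
      · rw [if_neg h2, if_neg (fun h3 => (Finset.mem_insert.1 h3).elim h h2)]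
  rw [Finset.sum_congr rfl fun a _ => h1 a, Finset.sum_add_distrib]
  congr 1
  cases q0 with
  | nil => exact absurd rfl hne
  | cons b w =>
    rw [List.tail_cons]
    by_cases hq : q = w
    · subst hq
      rw [if_pos rfl, Finset.sum_eq_single b]
      · rw [if_pos rfl]
      · intro a _ hab
        rw [if_neg]
        intro h
        exact hab (List.cons.inj h).1
      · intro h
        exact absurd (Finset.mem_univ b) h
    · rw [if_neg hq]
      refine Finset.sum_eq_zero fun a _ => ?_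
      rw [if_neg]
      intro h
      exact hq (List.cons.inj h).2

theorem zz_add_old {σ : St N} (hσ : PC σ.M) {y z : Y N} {q0 q : Nd N} (h0 : q0 ∉ σ.M) (hq : q ≠ q0) :
    zz (St.M ((q0, z) :: σ)) y q = zz σ.M y q - if q = q0.tail then y q0 else 0 :=
  ad_zz hσ q h0

private theorem ad_tri {E : Type} [AddCommMonoid E] {p q0 : Nd N} (n : ℕ) (c : E) :
    (if (p <:+ q0 ∧ q0.length ≤ n) then c else 0) =
      (if (p <:+ q0 ∧ q0.length < n) then c else 0) + (if (p <:+ q0 ∧ q0.length = n) then c else 0) := by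
  by_cases h : p <:+ q0
  · rcases lt_trichotomy q0.length n with h1 | h1 | h1
    · rw [if_pos ⟨h, h1.le⟩, if_pos ⟨h, h1⟩, if_neg (fun h2 => by omega), add_zero]
    · rw [if_pos ⟨h, h1.le⟩, if_neg (fun h2 => by omega), if_pos ⟨h, h1⟩, zero_add]
    · rw [if_neg (fun h2 => by omega), if_neg (fun h2 => by omega), if_neg (fun h2 => by omega), add_zero]
  · rw [if_neg (fun h2 => h h2.1), if_neg (fun h2 => h h2.1), if_neg (fun h2 => h h2.1), add_zero]

theorem Dd_add {σ : St N} (hσ : PC σ.M) {y : Y N} {q0 p : Nd N} (h0 : q0 ∉ σ.M) (h1 : q0.tail ∈ σ.M) (hp : p ∈ σ.M)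
    (i : ℕ) : Dd i σ y p ≤ Dd i ((q0, y) :: σ) y p := by
  have hpq : p ≠ q0 := by
    rintro rfl
    exact h0 hp
  unfold Dd
  rw [ad_v_old σ y hpq]
  obtain ⟨u, hu⟩ : ∃ u : ℂ, u = uu (σ.v p) := ⟨_, rfl⟩
  rw [← hu]
  have e1 : St.M ((q0, y) :: σ) = insert q0 σ.M := rfl
  -- the two sums over the new set
  have e2 : ∑ q ∈ (St.M ((q0, y) :: σ)).filter (fun q => p <:+ q ∧ q.length < p.length + i),
      (‖zz (St.M ((q0, y) :: σ)) y q‖ - dt u (zz (St.M ((q0, y) :: σ)) y q)) =
      ∑ q ∈ σ.M.filter (fun q => p <:+ q ∧ q.length < p.length + i),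
      (‖zz (St.M ((q0, y) :: σ)) y q‖ - dt u (zz (St.M ((q0, y) :: σ)) y q)) +
      if (p <:+ q0 ∧ q0.length < p.length + i) then ‖y q0‖ - dt u (y q0) else 0 := by
    rw [e1, ad_ins h0, ← e1, zz_add_new hσ h0]
  have e3 : ∑ q ∈ (St.M ((q0, y) :: σ)).filter (fun q => p <:+ q ∧ q.length = p.length + i),
      (‖St.v ((q0, y) :: σ) q‖ - dt u (St.v ((q0, y) :: σ) q)) =
      ∑ q ∈ σ.M.filter (fun q => p <:+ q ∧ q.length = p.length + i), (‖σ.v q‖ - dt u (σ.v q)) +
      if (p <:+ q0 ∧ q0.length = p.length + i) then ‖y q0‖ - dt u (y q0) else 0 := by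
    rw [e1, ad_ins h0, ad_v_new]
    congr 1
    refine Finset.sum_congr rfl fun q hq => ?_
    rw [Finset.mem_filter] at hq
    rw [ad_v_old σ y (by
      rintro rfl
      exact h0 hq.1)]
  rw [e2, e3]
  have h2 : ∑ q ∈ σ.M.filter (fun q => p <:+ q ∧ q.length < p.length + i), (‖zz σ.M y q‖ - dt u (zz σ.M y q)) ≤
      ∑ q ∈ σ.M.filter (fun q => p <:+ q ∧ q.length < p.length + i),
      (‖zz (St.M ((q0, y) :: σ)) y q‖ - dt u (zz (St.M ((q0, y) :: σ)) y q)) +
      if (p <:+ q0 ∧ q0.length ≤ p.length + i) then ‖y q0‖ - dt u (y q0) else 0 := by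
    have h3 := ad_tail h1 (fun q => p <:+ q ∧ q.length < p.length + i) (‖y q0‖ - dt u (y q0))
    simp only [ad_below hσ h0 hp] at h3
    rw [← h3, ← Finset.sum_add_distrib]
    refine Finset.sum_le_sum fun q hq => ?_
    rw [ad_zz hσ q h0]
    by_cases hq0 : q = q0.tail
    · rw [if_pos hq0, if_pos hq0, dt_sub_right]
      have h4 := norm_add_le (zz σ.M y q - y q0) (y q0)
      rw [sub_add_cancel] at h4
      linarith
    · rw [if_neg hq0, if_neg hq0, sub_zero, add_zero]
  rw [ad_tri] at h2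
  linarith

theorem Cc_add {σ : St N} (hσ : PC σ.M) {y : Y N} {q0 p : Nd N} (h0 : q0 ∉ σ.M) (h1 : q0.tail ∈ σ.M) (hp : p ∈ σ.M)
    {i : ℕ} (hi : 1 ≤ i) : Cc i ((q0, y) :: σ) y p = Cc i σ y p := by
  unfold Cc
  have e1 : St.M ((q0, y) :: σ) = insert q0 σ.M := rfl
  have e2 : ∑ q ∈ (St.M ((q0, y) :: σ)).filter (fun q => p <:+ q ∧ q.length < p.length + i),
      zz (St.M ((q0, y) :: σ)) y q =
      ∑ q ∈ σ.M.filter (fun q => p <:+ q ∧ q.length < p.length + i), zz (St.M ((q0, y) :: σ)) y q +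
      if (p <:+ q0 ∧ q0.length < p.length + i) then y q0 else 0 := by
    rw [e1, ad_ins h0, ← e1, zz_add_new hσ h0]
  have e3 : ∑ q ∈ (St.M ((q0, y) :: σ)).filter (fun q => p <:+ q ∧ q.length = p.length + i),
      St.v ((q0, y) :: σ) q =
      ∑ q ∈ σ.M.filter (fun q => p <:+ q ∧ q.length = p.length + i), σ.v q +
      if (p <:+ q0 ∧ q0.length = p.length + i) then y q0 else 0 := by
    rw [e1, ad_ins h0, ad_v_new]
    congr 1
    refine Finset.sum_congr rfl fun q hq => ?_
    rw [Finset.mem_filter] at hq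
    rw [ad_v_old σ y (by
      rintro rfl
      exact h0 hq.1)]
  rw [e2, e3]
  have h2 : ∑ q ∈ σ.M.filter (fun q => p <:+ q ∧ q.length < p.length + i), zz σ.M y q =
      ∑ q ∈ σ.M.filter (fun q => p <:+ q ∧ q.length < p.length + i), zz (St.M ((q0, y) :: σ)) y q +
      if (p <:+ q0 ∧ q0.length ≤ p.length + i) then y q0 else 0 := by
    have h3 := ad_tail h1 (fun q => p <:+ q ∧ q.length < p.length + i) (y q0)
    simp only [ad_below hσ h0 hp] at h3
    rw [← h3, ← Finset.sum_add_distrib]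
    refine Finset.sum_congr rfl fun q hq => ?_
    rw [ad_zz hσ q h0, sub_add_cancel]
  rw [ad_tri] at h2
  rw [h2]
  ring

theorem Cc_new {σ : St N} (hσ : PC σ.M) {y : Y N} {q0 : Nd N} (h0 : q0 ∉ σ.M) {i : ℕ} (hi : 1 ≤ i) :
    Cc i ((q0, y) :: σ) y q0 = y q0 := by
  unfold Cc
  have e1 : St.M ((q0, y) :: σ) = insert q0 σ.M := rfl
  have e2 : ∑ q ∈ (St.M ((q0, y) :: σ)).filter (fun q => q0 <:+ q ∧ q.length < q0.length + i),
      zz (St.M ((q0, y) :: σ)) y q = y q0 := by
    rw [e1, ad_ins h0, ← e1, zz_add_new hσ h0, if_pos ⟨List.suffix_refl _, by omega⟩,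
      Finset.sum_eq_zero, zero_add]
    intro q hq
    rw [Finset.mem_filter] at hq
    exact absurd hq.2.1 (not_below_new hσ h0 hq.1)
  have e3 : ∑ q ∈ (St.M ((q0, y) :: σ)).filter (fun q => q0 <:+ q ∧ q.length = q0.length + i),
      St.v ((q0, y) :: σ) q = 0 := by
    rw [e1, ad_ins h0, if_neg (fun h => by omega), add_zero, Finset.sum_eq_zero]
    intro q hq
    rw [Finset.mem_filter] at hq
    exact absurd hq.2.1 (not_below_new hσ h0 hq.1)
  rw [e2, e3, add_zero]

theorem XX_add {σ : St N} (hσ : PC σ.M) {y : Y N} {q0 p : Nd N} (h0 : q0 ∉ σ.M) (h1 : q0.tail ∈ σ.M) (hp : p ∈ σ.M) :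
    |XX m L ε (St.M ((q0, y) :: σ)) (St.v ((q0, y) :: σ)) p y - XX m L ε σ.M σ.v p y| ≤
      (2 / L * ‖ll m ε p.length (σ.v p)‖) * if (p <:+ q0 ∧ q0.length ≤ p.length + L) then ‖y q0‖ else 0 := by
  have hpq : p ≠ q0 := by
    rintro rfl
    exact h0 hp
  unfold XX
  rw [ad_v_old σ y hpq]
  obtain ⟨l, hl⟩ : ∃ l : ℂ, l = ll m ε p.length (σ.v p) := ⟨_, rfl⟩
  rw [← hl]
  have e1 : St.M ((q0, y) :: σ) = insert q0 σ.M := rfl
  have e2 : ∑ q ∈ (St.M ((q0, y) :: σ)).filter (fun q => p <:+ q ∧ q.length < p.length + L),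
      dt (lI m L l p.length (q.length - p.length + 1)) (zz (St.M ((q0, y) :: σ)) y q) =
      ∑ q ∈ σ.M.filter (fun q => p <:+ q ∧ q.length < p.length + L),
      dt (lI m L l p.length (q.length - p.length + 1)) (zz (St.M ((q0, y) :: σ)) y q) +
      if (p <:+ q0 ∧ q0.length < p.length + L) then
        dt (lI m L l p.length (q0.length - p.length + 1)) (y q0) else 0 := by
    rw [e1, ad_ins h0, ← e1, zz_add_new hσ h0]
  have e3 : ∑ q ∈ σ.M.filter (fun q => p <:+ q ∧ q.length < p.length + L),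
      dt (lI m L l p.length (q.length - p.length + 1)) (zz (St.M ((q0, y) :: σ)) y q) =
      ∑ q ∈ σ.M.filter (fun q => p <:+ q ∧ q.length < p.length + L),
      dt (lI m L l p.length (q.length - p.length + 1)) (zz σ.M y q) -
      if (p <:+ q0 ∧ q0.length ≤ p.length + L) then
        dt (lI m L l p.length (q0.tail.length - p.length + 1)) (y q0) else 0 := by
    have h3 := ad_tail h1 (fun q => p <:+ q ∧ q.length < p.length + L)
      (dt (lI m L l p.length (q0.tail.length - p.length + 1)) (y q0))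
    simp only [ad_below hσ h0 hp] at h3
    rw [← h3, ← Finset.sum_sub_distrib]
    refine Finset.sum_congr rfl fun q hq => ?_
    rw [ad_zz hσ q h0]
    by_cases hq0 : q = q0.tail
    · rw [if_pos hq0, if_pos hq0, dt_sub_right, hq0]
    · rw [if_neg hq0, if_neg hq0, sub_zero, sub_zero]
  rw [e2, e3]
  by_cases h : p <:+ q0 ∧ q0.length ≤ p.length + L
  · rw [if_pos h, if_pos h]
    have h4 : p.length < q0.length := by
      have h5 := h.1.length_le
      rcases Nat.lt_or_ge p.length q0.length with h6 | h6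
      · exact h6
      · exact absurd (h.1.eq_of_length (by omega)) hpq
    have e4 : q0.tail.length - p.length + 1 = q0.length - p.length := by
      rw [List.length_tail]
      omega
    have e5 : (if (p <:+ q0 ∧ q0.length < p.length + L) then
        dt (lI m L l p.length (q0.length - p.length + 1)) (y q0) else 0) =
        dt (lI m L l p.length (q0.length - p.length + 1)) (y q0) := by
      by_cases h6 : q0.length < p.length + L
      · rw [if_pos ⟨h.1, h6⟩]
      · rw [if_neg (fun h7 => h6 h7.2)]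
        have h8 : q0.length - p.length + 1 = L + 1 := by omega
        rw [h8, lI_top]
        simp [dt]
    rw [e4, e5]
    have e6 : ∀ a b c : ℝ, a - b + c - a = -(b - c) := by
      intro a b c
      ring
    rw [e6, abs_neg]
    have h9 := norm_lI_step_le m L l p.length (i := q0.length - p.length) (by omega)
    have e7 : dt (lI m L l p.length (q0.length - p.length)) (y q0) -
        dt (lI m L l p.length (q0.length - p.length + 1)) (y q0) =
        dt (lI m L l p.length (q0.length - p.length) - lI m L l p.length (q0.length - p.length + 1)) (y q0) := by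
      rw [dt_comm (_ - _) (y q0), dt_sub_right, dt_comm (y q0), dt_comm (y q0)]
    rw [e7]
    exact (abs_dt_le _ _).trans (mul_le_mul_of_nonneg_right h9 (norm_nonneg _))
  · rw [if_neg h, if_neg h, if_neg (fun h2 => h ⟨h2.1, h2.2.le⟩)]
    simp

end H50RC
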