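import Pool.Agent.H50.RC.Dyn

/-!
S05864 [H50 RC EXL]: algebra of `EX` and `ES`; tools for jumps. Everything by induction on the process (`simp only [PT.EX]`, `Finset.sum_add_distrib`, `Finset.mul_sum`, `Finset.sum_le_sum`);
for `EX_mono`, `ES_mono` use `inv_note` and that the values after a jump are admissible (`Jmp.mem`, `Jmp.bd`); `EX_const`: `∑ p i = 1`.
`Jmp.y_eq`: evaluate `mean` at `q`. `Jmp.zz_eq`: `zz_sum`, `zz_smul`. `sq_jump`: `∑ p_i x_i² = x² + ∑ p_i (x_i - x)²` since `∑ p_i (x_i - x) = 0`.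
-/

set_option autoImplicit false

namespace H50RC

variable {N K R0 : ℕ} {B : ℝ}

theorem EX_add (f g : S N → Y N → ℝ) (t : PT N) (s : S N) (y : Y N) :
    t.EX R0 (fun s y => f s y + g s y) s y = t.EX R0 f s y + t.EX R0 g s y := by
  induction t generalizing s y with
  | nil => simp only [PT.EX]
  | note a t ih => simp only [PT.EX]; exact ih _ _
  | jump ι hι p y' t ih =>
    simp only [PT.EX]
    rw [← Finset.sum_add_distrib]
    exact Finset.sum_congr rfl fun i _ => by rw [ih i s (y' i)]; ring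

theorem EX_sub (f g : S N → Y N → ℝ) (t : PT N) (s : S N) (y : Y N) :
    t.EX R0 (fun s y => f s y - g s y) s y = t.EX R0 f s y - t.EX R0 g s y := by
  induction t generalizing s y with
  | nil => simp only [PT.EX]
  | note a t ih => simp only [PT.EX]; exact ih _ _
  | jump ι hι p y' t ih =>
    simp only [PT.EX]
    rw [← Finset.sum_sub_distrib]
    exact Finset.sum_congr rfl fun i _ => by rw [ih i s (y' i)]; ring

theorem EX_mul (c : ℝ) (f : S N → Y N → ℝ) (t : PT N) (s : S N) (y : Y N) :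
    t.EX R0 (fun s y => c * f s y) s y = c * t.EX R0 f s y := by
  induction t generalizing s y with
  | nil => simp only [PT.EX]
  | note a t ih => simp only [PT.EX]; exact ih _ _
  | jump ι hι p y' t ih =>
    simp only [PT.EX]
    rw [Finset.mul_sum]
    exact Finset.sum_congr rfl fun i _ => by rw [ih i s (y' i)]; ring

theorem EX_sum {ι : Type} (I : Finset ι) (f : ι → S N → Y N → ℝ) (t : PT N) (s : S N) (y : Y N) :
    t.EX R0 (fun s y => ∑ i ∈ I, f i s y) s y = ∑ i ∈ I, t.EX R0 (f i) s y := by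
  induction t generalizing s y with
  | nil => simp only [PT.EX]
  | note a t ih => simp only [PT.EX]; exact ih _ _
  | jump ι hι p y' t ih =>
    simp only [PT.EX]
    rw [Finset.sum_comm]
    exact Finset.sum_congr rfl fun i _ => by rw [ih i s (y' i), Finset.mul_sum]

theorem EX_const (c : ℝ) (t : PT N) (s : S N) (y : Y N) (ht : t.WFP K B y) :
    t.EX R0 (fun _ _ => c) s y = c := by
  induction t generalizing s y with
  | nil => simp only [PT.EX]
  | note a t ih => simp only [PT.EX]; exact ih _ _ ht.2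
  | jump ι hι p y' t ih =>
    simp only [PT.EX]
    rw [Finset.sum_congr rfl fun i _ => by rw [ih i s (y' i) (ht.2 i)], ← Finset.sum_mul, ht.1.one, one_mul]

theorem EX_mono (f g : S N → Y N → ℝ) (h : ∀ s y, Inv K B R0 s → y ∈ Vs N K → nr K y ≤ B → f s y ≤ g s y)
    (t : PT N) (s : S N) (y : Y N) (ht : t.WFP K B y) (hs : Inv K B R0 s) (hy : y ∈ Vs N K) (hB : nr K y ≤ B) :
    t.EX R0 f s y ≤ t.EX R0 g s y := by
  induction t generalizing s y with
  | nil => simp only [PT.EX]; exact h s y hs hy hB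
  | note a t ih => simp only [PT.EX]; exact ih _ _ ht.2 (inv_note hs hy hB ht.1) hy hB
  | jump ι hι p y' t ih =>
    simp only [PT.EX]
    exact Finset.sum_le_sum fun i _ => mul_le_mul_of_nonneg_left
      (ih i s (y' i) (ht.2 i) hs (ht.1.mem i) (ht.1.bd i)) (ht.1.nn i)

theorem ES_add (e e' : S N → Y N → Y N → ℝ) (t : PT N) (s : S N) (y : Y N) :
    t.ES R0 (fun s y y' => e s y y' + e' s y y') s y = t.ES R0 e s y + t.ES R0 e' s y := by
  induction t generalizing s y with
  | nil => simp only [PT.ES, add_zero]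
  | note a t ih => simp only [PT.ES]; exact ih _ _
  | jump ι hι p y' t ih =>
    simp only [PT.ES]
    rw [← Finset.sum_add_distrib]
    exact Finset.sum_congr rfl fun i _ => by rw [ih i s (y' i)]; ring

theorem ES_mul (c : ℝ) (e : S N → Y N → Y N → ℝ) (t : PT N) (s : S N) (y : Y N) :
    t.ES R0 (fun s y y' => c * e s y y') s y = c * t.ES R0 e s y := by
  induction t generalizing s y with
  | nil => simp only [PT.ES, mul_zero]
  | note a t ih => simp only [PT.ES]; exact ih _ _
  | jump ι hι p y' t ih =>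
    simp only [PT.ES]
    rw [Finset.mul_sum]
    exact Finset.sum_congr rfl fun i _ => by rw [ih i s (y' i)]; ring

theorem ES_sum {ι : Type} (I : Finset ι) (e : ι → S N → Y N → Y N → ℝ) (t : PT N) (s : S N) (y : Y N) :
    t.ES R0 (fun s y y' => ∑ i ∈ I, e i s y y') s y = ∑ i ∈ I, t.ES R0 (e i) s y := by
  induction t generalizing s y with
  | nil => simp only [PT.ES, Finset.sum_const_zero]
  | note a t ih => simp only [PT.ES]; exact ih _ _
  | jump ι hι p y' t ih =>
    simp only [PT.ES]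
    rw [Finset.sum_comm]
    exact Finset.sum_congr rfl fun i _ => by rw [ih i s (y' i), ← Finset.mul_sum, Finset.sum_add_distrib]

theorem ES_mono (e e' : S N → Y N → Y N → ℝ) (h : ∀ s y y', Inv K B R0 s → y ∈ Vs N K → nr K y ≤ B →
      y' ∈ Vs N K → nr K y' ≤ B → e s y y' ≤ e' s y y')
    (t : PT N) (s : S N) (y : Y N) (ht : t.WFP K B y) (hs : Inv K B R0 s) (hy : y ∈ Vs N K) (hB : nr K y ≤ B) :
    t.ES R0 e s y ≤ t.ES R0 e' s y := by
  induction t generalizing s y with
  | nil => simp only [PT.ES]; exact le_refl _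
  | note a t ih => simp only [PT.ES]; exact ih _ _ ht.2 (inv_note hs hy hB ht.1) hy hB
  | jump ι hι p y' t ih =>
    simp only [PT.ES]
    exact Finset.sum_le_sum fun i _ => mul_le_mul_of_nonneg_left
      (add_le_add (h s y (y' i) hs hy hB (ht.1.mem i) (ht.1.bd i))
        (ih i s (y' i) (ht.2 i) hs (ht.1.mem i) (ht.1.bd i))) (ht.1.nn i)

theorem ES_nonneg (e : S N → Y N → Y N → ℝ) (h : ∀ s y y', 0 ≤ e s y y')
    (t : PT N) (s : S N) (y : Y N) (ht : t.WFP K B y) : 0 ≤ t.ES R0 e s y := by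
  induction t generalizing s y with
  | nil => simp only [PT.ES]; exact le_refl _
  | note a t ih => simp only [PT.ES]; exact ih _ _ ht.2
  | jump ι hι p y' t ih =>
    simp only [PT.ES]
    exact Finset.sum_nonneg fun i _ => mul_nonneg (ht.1.nn i) (add_nonneg (h _ _ _) (ih i s (y' i) (ht.2 i)))

theorem Jmp.y_eq {ι : Type} [Fintype ι] {y : Y N} {p : ι → ℝ} {y' : ι → Y N} (h : Jmp K B y p y') (q : Nd N) :
    y q = ∑ i, p i • y' i q := by
  have h1 := congrFun h.mean q
  rw [Finset.sum_apply] at h1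
  rw [← h1]
  exact Finset.sum_congr rfl fun i _ => rfl

theorem Jmp.zz_eq {ι : Type} [Fintype ι] {y : Y N} {p : ι → ℝ} {y' : ι → Y N} (h : Jmp K B y p y')
    (M : Finset (Nd N)) (q : Nd N) : zz M y q = ∑ i, p i • zz M (y' i) q := by
  conv_lhs => rw [← h.mean]
  rw [zz_sum]
  exact Finset.sum_congr rfl fun i _ => by rw [zz_smul]

theorem Jmp.norm_le {ι : Type} [Fintype ι] {y : Y N} {p : ι → ℝ} {y' : ι → Y N} (h : Jmp K B y p y') (q : Nd N) :
    ‖y q‖ ≤ ∑ i, p i * ‖y' i q‖ := by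
  rw [h.y_eq q]
  refine (norm_sum_le _ _).trans (Finset.sum_le_sum fun i _ => ?_)
  rw [norm_smul, Real.norm_of_nonneg (h.nn i)]

theorem Jmp.zz_norm_le {ι : Type} [Fintype ι] {y : Y N} {p : ι → ℝ} {y' : ι → Y N} (h : Jmp K B y p y')
    (M : Finset (Nd N)) (q : Nd N) : ‖zz M y q‖ ≤ ∑ i, p i * ‖zz M (y' i) q‖ := by
  rw [h.zz_eq M q]
  refine (norm_sum_le _ _).trans (Finset.sum_le_sum fun i _ => ?_)
  rw [norm_smul, Real.norm_of_nonneg (h.nn i)]

theorem sq_jump {ι : Type} [Fintype ι] {p : ι → ℝ} (hp : ∑ i, p i = 1) (x : ι → ℝ) {x0 : ℝ}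
    (h : x0 = ∑ i, p i * x i) : ∑ i, p i * x i ^ 2 = x0 ^ 2 + ∑ i, p i * (x i - x0) ^ 2 := by
  have h1 : ∑ i, p i * (x i - x0) ^ 2 = ∑ i, p i * x i ^ 2 - 2 * x0 * ∑ i, p i * x i + x0 ^ 2 * ∑ i, p i := by
    rw [Finset.mul_sum, Finset.mul_sum, ← Finset.sum_sub_distrib, ← Finset.sum_add_distrib]
    exact Finset.sum_congr rfl fun i _ => by ring
  rw [h1, hp, ← h]
  ring

theorem normsq_jump {ι : Type} [Fintype ι] {p : ι → ℝ} (hp : ∑ i, p i = 1) (x : ι → ℂ) {x0 : ℂ}
    (h : x0 = ∑ i, p i • x i) : ∑ i, p i * ‖x i‖ ^ 2 = ‖x0‖ ^ 2 + ∑ i, p i * ‖x i - x0‖ ^ 2 := by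
  have hre : x0.re = ∑ i, p i * (x i).re := by
    rw [h, Complex.re_sum]
    exact Finset.sum_congr rfl fun i _ => by simp
  have him : x0.im = ∑ i, p i * (x i).im := by
    rw [h, Complex.im_sum]
    exact Finset.sum_congr rfl fun i _ => by simp
  have h1 := sq_jump hp (fun i => (x i).re) hre
  have h2 := sq_jump hp (fun i => (x i).im) him
  have e1 : ∀ z : ℂ, ‖z‖ ^ 2 = z.re ^ 2 + z.im ^ 2 := by
    intro z
    rw [← Complex.normSq_eq_norm_sq, Complex.normSq_apply]
    ring
  simp only [e1, Complex.sub_re, Complex.sub_im, mul_add, Finset.sum_add_distrib]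
  linarith

end H50RC
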