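import Pool.Agent.H50.RC.Add1
import Pool.Agent.H50.RC.Exl

/-!
S05864 [H50 RC ADG]: (b): `E ∑_p D_i(p) = E G_(k+i) - E G_k`.
`Dd_nonneg`: `dt (uu v) z ≤ ‖z‖` (`abs_dt_le`, `norm_uu`). `Dd_jump`: for fixed `σ`: `‖zz‖` by `Jmp.zz_norm_le`, `dt` linear, frozen terms constant (`∑ p = 1`).
`sum_Dd_eq` (pointwise, `PC σ.M`, `1 ≤ i`): every `q ∈ σ.M` with `|q| ≥ k` has exactly one ancestor `p` of length `k`, and it is in `σ.M`; hence `∑_{p ∈ σ.M, |p|=k} Dd i σ y p = Gg (k+i) σ y - Gg k σ y - ∑_{p ∈ σ.M, |p|=k} (dt (uu (σ.v p)) (Cc i σ y p) - ‖σ.v p‖)`.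
`EX_Cc`: `EX ∑_{p,|p|=k} (dt (uu (v p)) (Cc i σ y p) - ‖v p‖) = 0` from the initial state, `k ≥ 1`, `i ≥ 1`: `submart` for this function and for its negative: adding `q0`: the terms with `p ∈ σ.M` do not change (`Cc_add`; `v p` unchanged), a new term with `p = q0`
(if `|q0| = k`): `dt (uu (y q0)) (y q0) - ‖y q0‖ = 0` (`Cc_new`, `dt_uu_self`). Jump: `Cc` is affine in `y` (`Jmp.zz_eq`, `∑ p = 1`). Start: no marked node of length `k ≥ 1`.
`EX_Dd`: by `EX_sub`. `sum_G_tel`: for `0 ≤ g_j ≤ B` (`1 ≤ j ≤ K`): `∑_{k=1}^{K-L} (g_(k+i) - g_k) ≤ i B` for `i ≤ L`: the sum is `∑_{j=K-L+1}^{K-L+i} g_j - ∑_{j=1}^{i} g_j`.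
-/

set_option autoImplicit false

namespace H50RC

variable {N K R0 L : ℕ} {B : ℝ}

private theorem adg_F_nonneg (v z : ℂ) : 0 ≤ ‖z‖ - dt (uu v) z := by
  have h1 := abs_dt_le (uu v) z
  rw [norm_uu, one_mul] at h1
  have h2 := le_abs_self (dt (uu v) z)
  linarith

theorem Dd_nonneg (i : ℕ) (σ : St N) (y : Y N) (p : Nd N) : 0 ≤ Dd i σ y p := by
  unfold Dd
  exact add_nonneg (Finset.sum_nonneg fun q _ => adg_F_nonneg _ _)
    (Finset.sum_nonneg fun q _ => adg_F_nonneg _ _)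

theorem Dd_jump (i : ℕ) (σ : St N) (p0 : Nd N) {ι : Type} [Fintype ι] {y : Y N} {p : ι → ℝ} {y' : ι → Y N}
    (h : Jmp K B y p y') : Dd i σ y p0 ≤ ∑ j, p j * Dd i σ (y' j) p0 := by
  unfold Dd
  have e1 : ∑ j, p j * (∑ q ∈ σ.M.filter (fun q => p0 <:+ q ∧ q.length < p0.length + i),
      (‖zz σ.M (y' j) q‖ - dt (uu (σ.v p0)) (zz σ.M (y' j) q)) +
      ∑ q ∈ σ.M.filter (fun q => p0 <:+ q ∧ q.length = p0.length + i), (‖σ.v q‖ - dt (uu (σ.v p0)) (σ.v q))) =
      ∑ q ∈ σ.M.filter (fun q => p0 <:+ q ∧ q.length < p0.length + i),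
        (∑ j, p j * ‖zz σ.M (y' j) q‖ - ∑ j, p j * dt (uu (σ.v p0)) (zz σ.M (y' j) q)) +
      ∑ q ∈ σ.M.filter (fun q => p0 <:+ q ∧ q.length = p0.length + i), (‖σ.v q‖ - dt (uu (σ.v p0)) (σ.v q)) := by
    simp only [mul_add, Finset.sum_add_distrib]
    rw [← Finset.sum_mul, h.one, one_mul]
    congr 1
    simp only [Finset.mul_sum]
    rw [Finset.sum_comm]
    refine Finset.sum_congr rfl fun q _ => ?_
    rw [← Finset.sum_sub_distrib]
    refine Finset.sum_congr rfl fun j _ => ?_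
    ring
  rw [e1]
  refine add_le_add (Finset.sum_le_sum fun q _ => ?_) le_rfl
  have h1 := h.zz_norm_le σ.M q
  have h2 : dt (uu (σ.v p0)) (zz σ.M y q) = ∑ j, p j * dt (uu (σ.v p0)) (zz σ.M (y' j) q) := by
    rw [h.zz_eq σ.M q, dt_sum_right]
    refine Finset.sum_congr rfl fun j _ => ?_
    rw [dt_smul_right]
  linarith

/-- every marked node of level `≥ k` has exactly one marked ancestor of level `k` -/
private theorem adg_anc {M : Finset (Nd N)} (hM : PC M) (k : ℕ) (P : Nd N → Prop) [DecidablePred P]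
    (f : Nd N → ℝ) (hP : ∀ q, P q → k ≤ q.length) :
    ∑ p ∈ M.filter (fun p => p.length = k), ∑ q ∈ M.filter (fun q => p <:+ q ∧ P q), f q =
      ∑ q ∈ M.filter (fun q => P q), f q := by
  classical
  have h1 : ∑ p ∈ M.filter (fun p => p.length = k), ∑ q ∈ M.filter (fun q => p <:+ q ∧ P q), f q =
      ∑ q ∈ M.filter (fun q => P q), ∑ p ∈ M.filter (fun p => p.length = k ∧ p <:+ q), f q := by
    refine Finset.sum_comm' fun p q => ?_
    simp only [Finset.mem_filter]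
    tauto
  rw [h1]
  refine Finset.sum_congr rfl fun q hq => ?_
  rw [Finset.mem_filter] at hq
  have hk := hP q hq.2
  have h2 : M.filter (fun p => p.length = k ∧ p <:+ q) = {q.drop (q.length - k)} := by
    ext p
    rw [Finset.mem_filter, Finset.mem_singleton]
    constructor
    · rintro ⟨_, h3, h4⟩
      rw [← h3]
      exact List.suffix_iff_eq_drop.1 h4
    · rintro rfl
      have h5 : q.drop (q.length - k) <:+ q := List.drop_suffix _ _
      refine ⟨?_, ?_, h5⟩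
      · by_contra h6
        exact not_below_new hM h6 hq.1 h5
      · rw [List.length_drop]
        omega
  rw [h2, Finset.sum_singleton]

theorem sum_Dd_eq {σ : St N} (hσ : PC σ.M) (y : Y N) (k : ℕ) {i : ℕ} (hi : 1 ≤ i) :
    ∑ p ∈ σ.M.filter (fun p => p.length = k), Dd i σ y p = Gg (k + i) σ y - Gg k σ y -
      ∑ p ∈ σ.M.filter (fun p => p.length = k), (dt (uu (σ.v p)) (Cc i σ y p) - ‖σ.v p‖) := by
  classical
  -- the individual `Dd`
  have h1 : ∀ p ∈ σ.M.filter (fun p => p.length = k), Dd i σ y p =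
      ∑ q ∈ σ.M.filter (fun q => p <:+ q ∧ (k ≤ q.length ∧ q.length < k + i)), ‖zz σ.M y q‖ +
      ∑ q ∈ σ.M.filter (fun q => p <:+ q ∧ q.length = k + i), ‖σ.v q‖ - dt (uu (σ.v p)) (Cc i σ y p) := by
    intro p hp
    rw [Finset.mem_filter] at hp
    obtain ⟨hpM, hpk⟩ := hp
    unfold Dd Cc
    rw [dt_add_right, dt_sum_right, dt_sum_right, Finset.sum_sub_distrib, Finset.sum_sub_distrib, hpk]
    have h2 : σ.M.filter (fun q => p <:+ q ∧ (k ≤ q.length ∧ q.length < k + i)) =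
        σ.M.filter (fun q => p <:+ q ∧ q.length < k + i) := by
      ext q
      simp only [Finset.mem_filter]
      constructor
      · rintro ⟨h3, h4, h5, h6⟩
        exact ⟨h3, h4, h6⟩
      · rintro ⟨h3, h4, h5⟩
        have := h4.length_le
        exact ⟨h3, h4, by omega, h5⟩
    rw [h2]
    ring
  rw [Finset.sum_congr rfl h1, Finset.sum_sub_distrib, Finset.sum_add_distrib,
    adg_anc hσ k (fun q => k ≤ q.length ∧ q.length < k + i) _ (fun q hq => hq.1),
    adg_anc hσ k (fun q => q.length = k + i) _ (fun q hq => by omega), Finset.sum_sub_distrib]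
  unfold Gg
  have h2 : ∑ q ∈ σ.M.filter (fun q => q.length < k + i), ‖zz σ.M y q‖ =
      ∑ q ∈ σ.M.filter (fun q => k ≤ q.length ∧ q.length < k + i), ‖zz σ.M y q‖ +
      ∑ q ∈ σ.M.filter (fun q => q.length < k), ‖zz σ.M y q‖ := by
    rw [← Finset.sum_union]
    · refine Finset.sum_congr ?_ fun _ _ => rfl
      ext q
      simp only [Finset.mem_filter, Finset.mem_union]
      constructor
      · rintro ⟨h3, h4⟩
        rcases Nat.lt_or_ge q.length k with h5 | h5
        · exact Or.inr ⟨h3, h5⟩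
        · exact Or.inl ⟨h3, h5, h4⟩
      · rintro (⟨h3, h4, h5⟩ | ⟨h3, h4⟩)
        · exact ⟨h3, h5⟩
        · exact ⟨h3, by omega⟩
    · rw [Finset.disjoint_left]
      intro q h3 h4
      rw [Finset.mem_filter] at h3 h4
      omega
  rw [h2]
  ring

/-- the function of `EX_Cc` -/
private noncomputable def adg_f (k i : ℕ) (σ : St N) (y : Y N) : ℝ :=
  ∑ p ∈ σ.M.filter (fun p => p.length = k), (dt (uu (σ.v p)) (Cc i σ y p) - ‖σ.v p‖)

private theorem adg_f_add {k i : ℕ} (hi : 1 ≤ i) {σ : St N} (hσ : PC σ.M) {y : Y N} {q0 : Nd N}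
    (h0 : q0 ∉ σ.M) (h1 : q0.tail ∈ σ.M) : adg_f k i ((q0, y) :: σ) y = adg_f k i σ y := by
  unfold adg_f
  have e1 : St.M ((q0, y) :: σ) = insert q0 σ.M := rfl
  have e2 : ∀ q, q ≠ q0 → St.v ((q0, y) :: σ) q = σ.v q := by
    intro q hq
    show (if q = q0 then y q0 else St.v σ q) = _
    rw [if_neg hq]
  have e3 : St.v ((q0, y) :: σ) q0 = y q0 := by
    show (if q0 = q0 then y q0 else St.v σ q0) = _
    rw [if_pos rfl]
  rw [e1, Finset.sum_filter, Finset.sum_insert h0, ← Finset.sum_filter, e3, Cc_new hσ h0 hi, dt_uu_self,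
    sub_self, ite_self, zero_add]
  refine Finset.sum_congr rfl fun p hp => ?_
  rw [Finset.mem_filter] at hp
  rw [e2 p (by
    rintro rfl
    exact h0 hp.1), Cc_add hσ h0 h1 hp.1 hi]

private theorem adg_Cc_jump (i : ℕ) (σ : St N) (p0 : Nd N) {ι : Type} [Fintype ι] {y : Y N} {p : ι → ℝ}
    {y' : ι → Y N} (h : Jmp K B y p y') : Cc i σ y p0 = ∑ j, p j • Cc i σ (y' j) p0 := by
  unfold Cc
  simp only [smul_add, Finset.sum_add_distrib]
  rw [← Finset.sum_smul, h.one, one_smul]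
  congr 1
  simp only [Finset.smul_sum]
  rw [Finset.sum_comm]
  exact Finset.sum_congr rfl fun q _ => h.zz_eq σ.M q

private theorem adg_f_jump (k i : ℕ) (σ : St N) {ι : Type} [Fintype ι] {y : Y N} {p : ι → ℝ}
    {y' : ι → Y N} (h : Jmp K B y p y') : adg_f k i σ y = ∑ j, p j * adg_f k i σ (y' j) := by
  unfold adg_f
  simp only [Finset.mul_sum]
  rw [Finset.sum_comm]
  refine Finset.sum_congr rfl fun q _ => ?_
  simp only [mul_sub, Finset.sum_sub_distrib]
  rw [← Finset.sum_mul, h.one, one_mul, adg_Cc_jump i σ q h, dt_sum_right]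
  congr 1
  refine Finset.sum_congr rfl fun j _ => ?_
  rw [dt_smul_right]

theorem EX_Cc {k i : ℕ} (hk : 1 ≤ k) (hi : 1 ≤ i) (t : PT N) (y : Y N) (ht : t.WFP K B y) (hy : y ∈ Vs N K)
    (hyB : nr K y ≤ B) : t.EX R0 (fun s y => ∑ p ∈ s.σ.M.filter (fun p => p.length = k),
      (dt (uu (s.σ.v p)) (Cc i s.σ y p) - ‖s.σ.v p‖)) (S.init N) y = 0 := by
  have h0 : adg_f k i (S.init N).σ y = 0 := by
    unfold adg_f
    refine Finset.sum_eq_zero fun p hp => ?_
    rw [Finset.mem_filter] at hp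
    have h1 : p ∈ ({[]} : Finset (Nd N)) := hp.1
    rw [Finset.mem_singleton] at h1
    rw [h1, List.length_nil] at hp
    omega
  have h1 := submart (R0 := R0) (K := K) (B := B) (fun σ y => adg_f k i σ y)
    (fun σ y q hσ _ _ h1 h2 _ => (adg_f_add hi (okh_PC hσ) h1 h2).ge)
    (fun σ y ι _ p y' _ _ _ hj => (adg_f_jump k i σ hj).le) t (S.init N) y ht inv_init hy hyB
  have h2 := submart (R0 := R0) (K := K) (B := B) (fun σ y => (-1) * adg_f k i σ y)
    (fun σ y q hσ _ _ h1 h2 _ => by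
      show (-1) * adg_f k i σ y ≤ (-1) * adg_f k i ((q, y) :: σ) y
      rw [adg_f_add hi (okh_PC hσ) h1 h2])
    (fun σ y ι _ p y' _ _ _ hj => by
      show (-1) * adg_f k i σ y ≤ ∑ j, p j * ((-1) * adg_f k i σ (y' j))
      rw [adg_f_jump k i σ hj, Finset.mul_sum]
      refine le_of_eq (Finset.sum_congr rfl fun j _ => ?_)
      ring) t (S.init N) y ht inv_init hy hyB
  have h3 := EX_mul (R0 := R0) (-1) (fun s y => adg_f k i s.σ y) t (S.init N) y
  beta_reduce at h1 h2 h3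
  rw [h3] at h2
  rw [h0] at h1 h2
  have h4 : t.EX R0 (fun s y => adg_f k i s.σ y) (S.init N) y = 0 := by linarith
  exact h4

theorem EX_Dd {k i : ℕ} (hk : 1 ≤ k) (hi : 1 ≤ i) (t : PT N) (y : Y N) (ht : t.WFP K B y) (hy : y ∈ Vs N K)
    (hyB : nr K y ≤ B) :
    t.EX R0 (fun s y => ∑ p ∈ s.σ.M.filter (fun p => p.length = k), Dd i s.σ y p) (S.init N) y =
      t.EX R0 (fun s y => Gg (k + i) s.σ y) (S.init N) y - t.EX R0 (fun s y => Gg k s.σ y) (S.init N) y := by
  have h1 : t.EX R0 (fun s y => ∑ p ∈ s.σ.M.filter (fun p => p.length = k), Dd i s.σ y p) (S.init N) y =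
      t.EX R0 (fun s y => (Gg (k + i) s.σ y - Gg k s.σ y) - ∑ p ∈ s.σ.M.filter (fun p => p.length = k),
      (dt (uu (s.σ.v p)) (Cc i s.σ y p) - ‖s.σ.v p‖)) (S.init N) y := by
    apply le_antisymm
    · exact EX_mono (K := K) (B := B) _ _ (fun s y hs _ _ => (sum_Dd_eq (okh_PC hs.ok) y k hi).le) t _ y ht
        inv_init hy hyB
    · exact EX_mono (K := K) (B := B) _ _ (fun s y hs _ _ => (sum_Dd_eq (okh_PC hs.ok) y k hi).ge) t _ y ht
        inv_init hy hyB
  rw [h1, EX_sub (R0 := R0) (fun s y => Gg (k + i) s.σ y - Gg k s.σ y), EX_Cc hk hi t y ht hy hyB, sub_zero,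
    EX_sub (R0 := R0) (fun s y => Gg (k + i) s.σ y)]

theorem sum_G_tel {g : ℕ → ℝ} (h0 : ∀ j, 0 ≤ g j) (h1 : ∀ j, 1 ≤ j → j ≤ K → g j ≤ B) {i : ℕ} (hi : i ≤ L) (hB : 0 ≤ B) :
    ∑ k ∈ Finset.Icc 1 (K - L), (g (k + i) - g k) ≤ i * B := by
  rcases Nat.eq_zero_or_pos (K - L) with hn | hn
  · rw [hn]
    have : Finset.Icc 1 0 = (∅ : Finset ℕ) := rfl
    rw [this, Finset.sum_empty]
    positivity
  · induction i with
    | zero => simp
    | succ i ih =>
      have h2 := ih (by omega)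
      have h3 : ∑ k ∈ Finset.Icc 1 (K - L), (g (k + (i + 1)) - g (k + i)) ≤ B := by
        have h4 : ∀ n : ℕ, ∑ k ∈ Finset.Icc 1 n, (g (k + (i + 1)) - g (k + i)) = g (n + i + 1) - g (i + 1) := by
          intro n
          induction n with
          | zero =>
            have : Finset.Icc 1 0 = (∅ : Finset ℕ) := rfl
            rw [this, Finset.sum_empty, zero_add, sub_self]
          | succ n ihn =>
            rw [Finset.sum_Icc_succ_top (by omega), ihn]
            have e1 : n + 1 + (i + 1) = n + 1 + i + 1 := by omega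
            have e2 : n + 1 + i = n + i + 1 := by omega
            rw [e1, e2]
            ring
        rw [h4]
        have h5 := h1 (K - L + i + 1) (by omega) (by omega)
        have h6 := h0 (i + 1)
        linarith
      have h4 : ∑ k ∈ Finset.Icc 1 (K - L), (g (k + (i + 1)) - g k) =
          ∑ k ∈ Finset.Icc 1 (K - L), (g (k + i) - g k) +
          ∑ k ∈ Finset.Icc 1 (K - L), (g (k + (i + 1)) - g (k + i)) := by
        rw [← Finset.sum_add_distrib]
        refine Finset.sum_congr rfl fun k _ => ?_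
        ring
      rw [h4]
      push_cast
      linarith

end H50RC
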