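import Pool.Agent.H50.RC.Lf

/-!
S05864 [H50 RC LM]: the marked part of `Λ`.
Early marked nodes (`p.length + L ≤ K`): `|FF p y| ≤ |XX p y| + 2/(εN) (‖y p.tail‖ + ∑_{q ∈ M} ‖y q.tail‖)`, `|XX p y| ≤ (2/ε) ∑_{q ∈ M, p <:+ q, |q| < |p| + L} ‖zz‖`.
Sum over `p`: every `q ∈ M` occurs for at most `L` nodes `p` (the suffixes of `q` of the lengths `|q| - L + 1, …, |q|`), and only `q` with `|q| < K`; so `∑_p ∑_q ‖zz‖ ≤ L nr y` (`sum_zz_norm_le_nr` with `j = K`).
The corrections: at most `R + 1` nodes `p`, each `≤ 2/(εN) (R + 2) nr y` (`norm_le_nr`), so `≤ c · 2 (R+1)(R+2)/(εN) nr y ≤ c/4 nr y` by `bigN`.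
Late nodes (`K < |p| + L`, `|p| ≤ K`): `|FF p y| ≤ ‖y p‖`, at most `L` levels, each `≤ nr y` (`sum_lev_norm_le`).
`bigN K R m ε ≥ 10^8 (R+1)^4/ε^4` since `rp m ≥ 1` (`rp m = 1/sin`, `sin ≤ 1`, `sin(π/m) > 0` for `m ≥ 2`), `ε ≤ 1`.
-/

set_option autoImplicit false

namespace H50RC

variable {N K m L R : ℕ} {ε : ℝ}

private theorem lm_sin_pos (hm : 2 ≤ m) : 0 < Real.sin (Real.pi / m) := by
  have hm2 : (2 : ℝ) ≤ m := by exact_mod_cast hm
  apply Real.sin_pos_of_pos_of_lt_pi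
  · have := Real.pi_pos
    positivity
  · rw [div_lt_iff₀ (by linarith)]
    have := Real.pi_pos
    nlinarith

theorem one_le_rp (hm : 2 ≤ m) : 1 ≤ rp m := by
  unfold rp
  exact (one_le_inv₀ (lm_sin_pos hm)).2 (Real.sin_le_one _)

theorem abs_cc_le (hm : 2 ≤ m) : |cc m| ≤ rp m := by
  have hs := lm_sin_pos hm
  unfold cc rp
  rw [abs_neg, abs_div, abs_of_pos hs, div_eq_mul_inv]
  exact mul_le_of_le_one_left (inv_pos.2 hs).le (Real.abs_cos_le_one _)

/-- the sum of the masses over the windows -/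
theorem sum_sum_zz_le {y : Y N} (hy : y ∈ Vs N K) (M : Finset (Nd N)) (hM : PC M) (P : Finset (Nd N))
    (hP : ∀ p ∈ P, p ∈ M ∧ p.length + L ≤ K) :
    ∑ p ∈ P, ∑ q ∈ M.filter (fun q => p <:+ q ∧ q.length < p.length + L), ‖zz M y q‖ ≤ L * nr K y := by
  classical
  have h1 : ∑ p ∈ P, ∑ q ∈ M.filter (fun q => p <:+ q ∧ q.length < p.length + L), ‖zz M y q‖ =
      ∑ q ∈ M.filter (fun q => q.length < K), ∑ p ∈ P.filter (fun p => p <:+ q ∧ q.length < p.length + L),
        ‖zz M y q‖ := by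
    refine Finset.sum_comm' fun p q => ?_
    simp only [Finset.mem_filter]
    constructor
    · rintro ⟨h1, h2, h3, h4⟩
      have := (hP p h1).2
      exact ⟨⟨h1, h3, h4⟩, h2, by omega⟩
    · rintro ⟨⟨h1, h2, h3⟩, h4, h5⟩
      exact ⟨h1, h4, h2, h3⟩
  have h2 : ∀ q : Nd N, (P.filter (fun p => p <:+ q ∧ q.length < p.length + L)).card ≤ L := by
    intro q
    have h3 : (P.filter (fun p => p <:+ q ∧ q.length < p.length + L)).card ≤
        (Finset.Ico (q.length + 1 - L) (q.length + 1)).card := by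
      refine Finset.card_le_card_of_injOn (fun p => p.length) ?_ ?_
      · intro p hp
        rw [Finset.mem_coe, Finset.mem_filter] at hp
        have := hp.2.1.length_le
        rw [Finset.mem_coe, Finset.mem_Ico]
        show q.length + 1 - L ≤ p.length ∧ p.length < q.length + 1
        omega
      · intro p hp p' hp' hpp
        rw [Finset.mem_coe, Finset.mem_filter] at hp hp'
        have hpp' : p.length = p'.length := hpp
        exact (List.suffix_of_suffix_length_le hp.2.1 hp'.2.1 hpp'.le).eq_of_length hpp'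
    rw [Nat.card_Ico] at h3
    omega
  have h3 := sum_zz_norm_le_nr hy M hM (le_refl K)
  rw [h1]
  calc ∑ q ∈ M.filter (fun q => q.length < K), ∑ p ∈ P.filter (fun p => p <:+ q ∧ q.length < p.length + L),
        ‖zz M y q‖ ≤ ∑ q ∈ M.filter (fun q => q.length < K), (L : ℝ) * ‖zz M y q‖ := by
        refine Finset.sum_le_sum fun q _ => ?_
        rw [Finset.sum_const, nsmul_eq_mul]
        exact mul_le_mul_of_nonneg_right (by exact_mod_cast h2 q) (norm_nonneg _)
    _ = L * ∑ q ∈ M.filter (fun q => q.length < K), ‖zz M y q‖ := by rw [Finset.mul_sum]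
    _ ≤ L * nr K y := by
        refine mul_le_mul_of_nonneg_left ?_ (Nat.cast_nonneg L)
        have h4 : 0 ≤ ∑ q ∈ M.filter (fun q => q.length = K), ‖y q‖ :=
          Finset.sum_nonneg fun _ _ => norm_nonneg _
        linarith

private theorem lm_bigN (hm : 2 ≤ m) (hε : 0 < ε) (hε1 : ε ≤ 1) (hN : bigN K R m ε ≤ N) :
    0 < (N : ℝ) ∧ 8 * ((R + 1 : ℝ) * (R + 2)) / ε ≤ N := by
  have hrp := one_le_rp hm
  have hR : (0 : ℝ) ≤ R := Nat.cast_nonneg R
  have hK0 : (0 : ℝ) ≤ K := Nat.cast_nonneg K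
  have h1 : (1 : ℝ) ≤ rp m ^ 8 := one_le_pow₀ hrp
  have h2 : (1 : ℝ) ≤ ((K : ℝ) + 1) ^ 40 := one_le_pow₀ (by linarith)
  have h3 : (1 : ℝ) ≤ ((R : ℝ) + 1) ^ 2 := one_le_pow₀ (by linarith)
  have h4 : ((R : ℝ) + 1) ^ 2 ≤ ((R : ℝ) + 1) ^ 4 := pow_le_pow_right₀ (by linarith) (by norm_num)
  have h5 : (1 : ℝ) ≤ rp m ^ 8 * ((K : ℝ) + 1) ^ 40 := one_le_mul_of_one_le_of_one_le h1 h2
  have h6 : 8 * ((R + 1 : ℝ) * (R + 2)) ≤ 10 ^ 8 * rp m ^ 8 * ((K : ℝ) + 1) ^ 40 * ((R : ℝ) + 1) ^ 4 := by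
    calc 8 * ((R + 1 : ℝ) * (R + 2)) ≤ 8 * (2 * ((R : ℝ) + 1) ^ 2) := by nlinarith
      _ ≤ 10 ^ 8 * (1 * ((R : ℝ) + 1) ^ 4) := by nlinarith
      _ ≤ 10 ^ 8 * ((rp m ^ 8 * ((K : ℝ) + 1) ^ 40) * ((R : ℝ) + 1) ^ 4) := by
          refine mul_le_mul_of_nonneg_left (mul_le_mul_of_nonneg_right h5 (by positivity)) (by positivity)
      _ = 10 ^ 8 * rp m ^ 8 * ((K : ℝ) + 1) ^ 40 * ((R : ℝ) + 1) ^ 4 := by ring
  have h7 : 8 * ((R + 1 : ℝ) * (R + 2)) / ε ≤ bigN K R m ε := by
    unfold bigN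
    have hε4 : ε ^ 4 ≤ ε := by
      calc ε ^ 4 ≤ ε ^ 1 := pow_le_pow_of_le_one hε.le hε1 (by norm_num)
        _ = ε := pow_one ε
    exact div_le_div₀ (by positivity) h6 (by positivity) hε4
  have h8 := h7.trans hN
  refine ⟨lt_of_lt_of_le ?_ h8, h8⟩
  positivity

/-- the nodes of the last `L` levels -/
private theorem lm_late {y : Y N} (hy : y ∈ Vs N K) (P : Finset (Nd N)) (hP : P ⊆ nds N K)
    (hP' : ∀ p ∈ P, K < p.length + L) : ∑ p ∈ P, ‖y p‖ ≤ L * nr K y := by
  classical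
  calc ∑ p ∈ P, ‖y p‖ = ∑ p ∈ P, (if K < p.length + L then ‖y p‖ else 0) := by
        refine Finset.sum_congr rfl fun p hp => ?_
        rw [if_pos (hP' p hp)]
    _ ≤ ∑ p ∈ nds N K, (if K < p.length + L then ‖y p‖ else 0) := by
        refine Finset.sum_le_sum_of_subset_of_nonneg hP fun p _ _ => ?_
        split_ifs
        · exact norm_nonneg _
        · exact le_rfl
    _ = ∑ k ∈ Finset.range K, ∑ p ∈ lev N (k + 1), (if K < p.length + L then ‖y p‖ else 0) := sum_nds _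
    _ ≤ ∑ k ∈ Finset.range K, (if K < k + 1 + L then nr K y else 0) := by
        refine Finset.sum_le_sum fun k hk => ?_
        rw [Finset.mem_range] at hk
        have h1 : ∑ p ∈ lev N (k + 1), (if K < p.length + L then ‖y p‖ else 0) =
            ∑ p ∈ lev N (k + 1), (if K < k + 1 + L then ‖y p‖ else 0) := by
          refine Finset.sum_congr rfl fun p hp => ?_
          rw [mem_lev.1 hp]
        rw [h1]
        split_ifs
        · exact sum_lev_norm_le hy (by omega)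
        · rw [Finset.sum_const_zero]
    _ = ((Finset.range K).filter (fun k => K < k + 1 + L)).card * nr K y := by
        rw [← Finset.sum_filter, Finset.sum_const, nsmul_eq_mul]
    _ ≤ L * nr K y := by
        refine mul_le_mul_of_nonneg_right ?_ (nr_nonneg y)
        have h2 : (Finset.range K).filter (fun k => K < k + 1 + L) ⊆ Finset.Ico (K - L) K := by
          intro k hk
          rw [Finset.mem_filter, Finset.mem_range] at hk
          rw [Finset.mem_Ico]
          omega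
        have h3 := Finset.card_le_card h2
        rw [Nat.card_Ico] at h3
        have h4 : ((Finset.range K).filter (fun k => K < k + 1 + L)).card ≤ L := by omega
        exact_mod_cast h4

theorem marked_le (hm : 2 ≤ m) (hL : 0 < L) (hmL : m ∣ L) (hε : 0 < ε) (hε1 : ε ≤ 1) (hN : bigN K R m ε ≤ N)
    {y : Y N} (hy : y ∈ Vs N K) (M : Finset (Nd N)) (hM : PC M) (hM' : ∀ q ∈ M, q.length ≤ K)
    (hR : M.card ≤ R + 1) (v : Nd N → ℂ) {c : ℝ} (hc : 0 ≤ c) {ω : Om N} (hω : ∀ w ∈ nds N K, |ω w| ≤ c) :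
    ∑ p ∈ (nds N K).filter (fun p => p ∈ M), |ω p| * |FF K m L ε M v p y| ≤ c * (2 * L / ε + L + 1 / 4) * nr K y := by
  classical
  obtain ⟨hN0, hN1⟩ := lm_bigN hm hε hε1 hN
  have hn := nr_nonneg (K := K) y
  have hRc : ((M.card : ℕ) : ℝ) ≤ R + 1 := by exact_mod_cast hR
  obtain ⟨P, hPd⟩ : ∃ P : Finset (Nd N), P = (nds N K).filter (fun p => p ∈ M) := ⟨_, rfl⟩
  rw [← hPd]
  have hPm : ∀ p ∈ P, p ∈ nds N K ∧ p ∈ M := fun p hp => by
    rw [hPd, Finset.mem_filter] at hp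
    exact hp
  have h1 : ∑ p ∈ P, |ω p| * |FF K m L ε M v p y| ≤ c * ∑ p ∈ P, |FF K m L ε M v p y| := by
    rw [Finset.mul_sum]
    exact Finset.sum_le_sum fun p hp => mul_le_mul_of_nonneg_right (hω p (hPm p hp).1) (abs_nonneg _)
  refine h1.trans ?_
  rw [mul_assoc c]
  refine mul_le_mul_of_nonneg_left ?_ hc
  rw [← Finset.sum_filter_add_sum_filter_not P (fun p => p.length + L ≤ K)]
  -- late nodes
  have h2 : ∑ p ∈ P.filter (fun p => ¬ p.length + L ≤ K), |FF K m L ε M v p y| ≤ L * nr K y := by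
    refine le_trans (Finset.sum_le_sum fun p hp => ?_)
      (lm_late hy (P.filter (fun p => ¬ p.length + L ≤ K)) (fun p hp => ?_) fun p hp => ?_)
    · rw [Finset.mem_filter] at hp
      unfold FF
      rw [if_neg (fun h => hp.2 h.2)]
      refine (abs_dt_le _ _).trans ?_
      rw [norm_dir, one_mul]
    · rw [Finset.mem_filter] at hp
      exact (hPm p hp.1).1
    · rw [Finset.mem_filter] at hp
      omega
  -- early nodes
  have h3 : ∀ p ∈ P.filter (fun p => p.length + L ≤ K), |FF K m L ε M v p y| ≤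
      2 / ε * ∑ q ∈ M.filter (fun q => p <:+ q ∧ q.length < p.length + L), ‖zz M y q‖ +
      2 * (R + 2) / (ε * N) * nr K y := by
    intro p hp
    rw [Finset.mem_filter] at hp
    obtain ⟨hp1, hp2⟩ := hPm p hp.1
    have hp3 := mem_nds.1 hp1
    have h4 := abs_FF_sub_XX_le hm hL hmL hε hε1 hy M hM v hp2 hp3.1 hp.2
    have h5 := abs_XX_le (m := m) hL hε hε1 M v p y
    have h6 : ‖y p.tail‖ + ∑ q ∈ M, ‖y q.tail‖ ≤ (R + 2) * nr K y := by
      have h7 : ‖y p.tail‖ ≤ nr K y := norm_le_nr hy (by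
        rw [List.length_tail]
        omega)
      have h8 : ∑ q ∈ M, ‖y q.tail‖ ≤ ∑ q ∈ M, nr K y :=
        Finset.sum_le_sum fun q hq => norm_le_nr hy (by
          rw [List.length_tail]
          have := hM' q hq
          omega)
      rw [Finset.sum_const, nsmul_eq_mul] at h8
      have h9 : ((M.card : ℕ) : ℝ) * nr K y ≤ (R + 1) * nr K y := mul_le_mul_of_nonneg_right hRc hn
      linarith
    have h10 : 2 / (ε * N) * (‖y p.tail‖ + ∑ q ∈ M, ‖y q.tail‖) ≤ 2 * (R + 2) / (ε * N) * nr K y := by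
      refine (mul_le_mul_of_nonneg_left h6 (by positivity)).trans (le_of_eq ?_)
      ring
    have h11 := abs_sub_abs_le_abs_sub (FF K m L ε M v p y) (XX m L ε M v p y)
    linarith
  have h4 : ∑ p ∈ P.filter (fun p => p.length + L ≤ K), |FF K m L ε M v p y| ≤
      2 / ε * (L * nr K y) + 1 / 4 * nr K y := by
    refine (Finset.sum_le_sum h3).trans ?_
    rw [Finset.sum_add_distrib, ← Finset.mul_sum, Finset.sum_const, nsmul_eq_mul]
    refine add_le_add (mul_le_mul_of_nonneg_left (sum_sum_zz_le hy M hM _ fun p hp => ?_)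
      (by positivity)) ?_
    · rw [Finset.mem_filter] at hp
      exact ⟨(hPm p hp.1).2, hp.2⟩
    · rw [← mul_assoc]
      refine mul_le_mul_of_nonneg_right ?_ hn
      have h5 : ((P.filter (fun p => p.length + L ≤ K)).card : ℝ) ≤ R + 1 := by
        have h6 : (P.filter (fun p => p.length + L ≤ K)).card ≤ M.card := Finset.card_le_card fun p hp => by
          rw [Finset.mem_filter] at hp
          exact (hPm p hp.1).2
        exact_mod_cast h6.trans hR
      have hR0 : (0 : ℝ) ≤ R := Nat.cast_nonneg R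
      calc ((P.filter (fun p => p.length + L ≤ K)).card : ℝ) * (2 * (R + 2) / (ε * N))
          ≤ (R + 1) * (2 * (R + 2) / (ε * N)) := mul_le_mul_of_nonneg_right h5 (by positivity)
        _ = (8 * ((R + 1 : ℝ) * (R + 2)) / ε) / N / 4 := by
            field_simp
            ring
        _ ≤ 1 / 4 := by
            have : (8 * ((R + 1 : ℝ) * (R + 2)) / ε) / N ≤ 1 := (div_le_one hN0).2 hN1
            linarith
  have e1 : (2 * L / ε + L + 1 / 4) * nr K y = 2 / ε * (L * nr K y) + 1 / 4 * nr K y + L * nr K y := by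
    ring
  rw [e1]
  exact add_le_add h4 h2

end H50RC
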