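import Pool.Agent.H50.RC.Adg
import Pool.Agent.H50.RC.Lm

/-!
S05864 [H50 RC AXB]: size of `X(p)`.
-/

set_option autoImplicit false

namespace H50RC

variable {N K m L : ℕ} {B ε r : ℝ}

/-- the bound `ξ` -/
noncomputable def xi (m L : ℕ) (ε B r : ℝ) : ℝ := ε⁻¹ * (Real.sqrt (2 * B * r) + 2 * m / L * B)

theorem axb_sum_zz {σ : St N} (hσ : OKh K B σ) {y : Y N} (hy : y ∈ Vs N K) (hyB : nr K y ≤ B)
    {p : Nd N} (hp : p ∈ σ.M) (h2 : p.length + L ≤ K) :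
    ∑ q ∈ σ.M.filter (fun q => p <:+ q ∧ q.length < p.length + L), ‖zz σ.M y q‖ ≤ B := by
  have h4 := sum_zz_norm_le hy σ.M (okh_PC hσ) hp (j := p.length + L) (by omega) h2
  have h5 : 0 ≤ ∑ q ∈ σ.M.filter (fun q => p <:+ q ∧ q.length = p.length + L), ‖y q‖ :=
    Finset.sum_nonneg fun _ _ => norm_nonneg _
  have h6 := var_le_nr y (w := p) (K := K) (by omega)
  linarith

theorem axb_dt_uu_le (v z : ℂ) : dt (uu v) z ≤ ‖z‖ := by
  have h := abs_dt_le (uu v) z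
  rw [norm_uu, one_mul] at h
  exact (le_abs_self _).trans h

theorem abs_XX_le_B (hL : 0 < L) (hε : 0 < ε) (hε1 : ε ≤ 1) {σ : St N} (hσ : OKh K B σ) {y : Y N}
    (hy : y ∈ Vs N K) (hyB : nr K y ≤ B) {p : Nd N} (hp : p ∈ σ.M) (h2 : p.length + L ≤ K) :
    |XX m L ε σ.M σ.v p y| ≤ 2 * B / ε := by
  have h3 := abs_XX_le (m := m) hL hε hε1 σ.M σ.v p y
  have h4 := axb_sum_zz hσ hy hyB hp h2
  calc |XX m L ε σ.M σ.v p y|
      ≤ 2 / ε * ∑ q ∈ σ.M.filter (fun q => p <:+ q ∧ q.length < p.length + L), ‖zz σ.M y q‖ := h3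
    _ ≤ 2 / ε * B := mul_le_mul_of_nonneg_left h4 (by positivity)
    _ = 2 * B / ε := by ring

theorem abs_XX_bad (hL : 0 < L) {σ : St N} (hσ : OKh K B σ) {y : Y N}
    (hy : y ∈ Vs N K) (hyB : nr K y ≤ B) {p : Nd N} (hp : p ∈ σ.M) (h2 : p.length + L ≤ K)
    (h3 : ¬ Good m ε p.length (σ.v p)) :
    |XX m L ε σ.M σ.v p y| ≤ 2 * B ∧
    |XX m L ε σ.M σ.v p y| ≤ 2 * ∑ q ∈ σ.M.filter (fun q => p <:+ q ∧ q.length < p.length + L), ‖zz σ.M y q‖ := by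
  have h4 := axb_sum_zz hσ hy hyB hp h2
  have h5 : |XX m L ε σ.M σ.v p y| ≤
      2 * ∑ q ∈ σ.M.filter (fun q => p <:+ q ∧ q.length < p.length + L), ‖zz σ.M y q‖ := by
    rw [XX, Finset.mul_sum]
    refine (Finset.abs_sum_le_sum_abs _ _).trans (Finset.sum_le_sum fun q _ => ?_)
    refine (abs_dt_le _ _).trans (mul_le_mul_of_nonneg_right ?_ (norm_nonneg _))
    refine (norm_lI_le hL _ _ (by omega)).trans ?_
    rw [ll_bad h3, norm_dir, mul_one]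
  exact ⟨h5.trans (by linarith), h5⟩

theorem abs_XX_good (hm : 2 ≤ m) (hL : 0 < L) (hε : 0 < ε) (hε1 : ε ≤ 1) {σ : St N} (hσ : OKh K B σ) {y : Y N}
    (hy : y ∈ Vs N K) (hyB : nr K y ≤ B) {p : Nd N} (hp : p ∈ σ.M) (h2 : p.length + L ≤ K)
    (h3 : Good m ε p.length (σ.v p)) :
    |XX m L ε σ.M σ.v p y| ≤ xi m L ε B (Dd L σ y p) := by
  have h4 := axb_sum_zz hσ hy hyB hp h2
  set F := σ.M.filter (fun q => p <:+ q ∧ q.length < p.length + L) with hF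
  have hz : 0 ≤ ∑ q ∈ F, ‖zz σ.M y q‖ := Finset.sum_nonneg fun _ _ => norm_nonneg _
  have hB : 0 ≤ B := hz.trans h4
  have hD : ∑ q ∈ F, (‖zz σ.M y q‖ - dt (uu (σ.v p)) (zz σ.M y q)) ≤ Dd L σ y p := by
    rw [Dd]
    refine le_add_of_nonneg_right (Finset.sum_nonneg fun q _ => ?_)
    exact sub_nonneg.2 (axb_dt_uu_le _ _)
  have h5 : |XX m L ε σ.M σ.v p y| ≤ ∑ q ∈ F, (|dt (ll m ε p.length (σ.v p)) (zz σ.M y q)| +
      2 * m / L * (‖ll m ε p.length (σ.v p)‖ * ‖zz σ.M y q‖)) := by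
    rw [XX]
    refine (Finset.abs_sum_le_sum_abs _ _).trans (Finset.sum_le_sum fun q _ => ?_)
    exact abs_dt_lI_le hm hL _ _ (by omega) _
  have h6 : ∑ q ∈ F, |dt (ll m ε p.length (σ.v p)) (zz σ.M y q)| ≤ ε⁻¹ * Real.sqrt (2 * B * Dd L σ y p) := by
    calc ∑ q ∈ F, |dt (ll m ε p.length (σ.v p)) (zz σ.M y q)|
        ≤ ∑ q ∈ F, ε⁻¹ * (Real.sqrt (2 * ‖zz σ.M y q‖) *
            Real.sqrt (‖zz σ.M y q‖ - dt (uu (σ.v p)) (zz σ.M y q))) := by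
          refine Finset.sum_le_sum fun q _ => ?_
          refine (abs_dt_ll_le hε h3 _).trans (mul_le_mul_of_nonneg_left ?_ (by positivity))
          rw [← Real.sqrt_mul (by positivity)]
          exact Real.abs_le_sqrt (perp_sq_le (norm_uu _))
      _ = ε⁻¹ * ∑ q ∈ F, Real.sqrt (2 * ‖zz σ.M y q‖) *
            Real.sqrt (‖zz σ.M y q‖ - dt (uu (σ.v p)) (zz σ.M y q)) := by rw [Finset.mul_sum]
      _ ≤ ε⁻¹ * (Real.sqrt (∑ q ∈ F, 2 * ‖zz σ.M y q‖) *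
            Real.sqrt (∑ q ∈ F, (‖zz σ.M y q‖ - dt (uu (σ.v p)) (zz σ.M y q)))) := by
          refine mul_le_mul_of_nonneg_left ?_ (by positivity)
          exact Real.sum_sqrt_mul_sqrt_le _ (fun q => by positivity)
            (fun q => sub_nonneg.2 (axb_dt_uu_le _ _))
      _ ≤ ε⁻¹ * (Real.sqrt (2 * B) * Real.sqrt (Dd L σ y p)) := by
          refine mul_le_mul_of_nonneg_left ?_ (by positivity)
          refine mul_le_mul (Real.sqrt_le_sqrt ?_) (Real.sqrt_le_sqrt hD) (Real.sqrt_nonneg _)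
            (Real.sqrt_nonneg _)
          rw [← Finset.mul_sum]
          linarith
      _ = ε⁻¹ * Real.sqrt (2 * B * Dd L σ y p) := by rw [← Real.sqrt_mul (by positivity)]
  have h7 : ∑ q ∈ F, 2 * (m : ℝ) / L * (‖ll m ε p.length (σ.v p)‖ * ‖zz σ.M y q‖) ≤ ε⁻¹ * (2 * m / L * B) := by
    rw [← Finset.mul_sum, ← Finset.mul_sum]
    have h8 : ‖ll m ε p.length (σ.v p)‖ * ∑ q ∈ F, ‖zz σ.M y q‖ ≤ ε⁻¹ * B :=
      mul_le_mul (norm_ll_le hε hε1 _ _) h4 hz (by positivity)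
    calc 2 * (m : ℝ) / L * (‖ll m ε p.length (σ.v p)‖ * ∑ q ∈ F, ‖zz σ.M y q‖)
        ≤ 2 * (m : ℝ) / L * (ε⁻¹ * B) := mul_le_mul_of_nonneg_left h8 (by positivity)
      _ = ε⁻¹ * (2 * m / L * B) := by ring
  rw [Finset.sum_add_distrib] at h5
  rw [xi, mul_add]
  linarith

theorem axb_xi_mono (hε : 0 < ε) (hB : 0 ≤ B) {r r' : ℝ} (h : r ≤ r') : xi m L ε B r ≤ xi m L ε B r' := by
  rw [xi, xi]
  refine mul_le_mul_of_nonneg_left ?_ (by positivity)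
  have h1 : Real.sqrt (2 * B * r) ≤ Real.sqrt (2 * B * r') :=
    Real.sqrt_le_sqrt (mul_le_mul_of_nonneg_left h (by positivity))
  linarith

theorem axb_xi_nonneg (hε : 0 < ε) (hB : 0 ≤ B) (r : ℝ) : 0 ≤ xi m L ε B r := by
  rw [xi]
  positivity

theorem sq_XX_le (hm : 2 ≤ m) (hL : 0 < L) (hε : 0 < ε) (hε1 : ε ≤ 1) (hr : 0 < r) {σ : St N} (hσ : OKh K B σ)
    {y : Y N} (hy : y ∈ Vs N K) (hyB : nr K y ≤ B) {p : Nd N} (hp : p ∈ σ.M) (h2 : p.length + L ≤ K)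
    (h3 : Good m ε p.length (σ.v p)) :
    XX m L ε σ.M σ.v p y ^ 2 ≤ xi m L ε B r * |XX m L ε σ.M σ.v p y| + (2 * B / ε) ^ 2 * (Dd L σ y p / r) := by
  have hB : 0 ≤ B := (nr_nonneg y).trans hyB
  have hD0 : 0 ≤ Dd L σ y p := Dd_nonneg L σ y p
  have hs : XX m L ε σ.M σ.v p y ^ 2 = |XX m L ε σ.M σ.v p y| * |XX m L ε σ.M σ.v p y| := by
    rw [← abs_mul, abs_of_nonneg (mul_self_nonneg _)]
    ring
  by_cases h : Dd L σ y p ≤ r
  · have h4 := (abs_XX_good hm hL hε hε1 hσ hy hyB hp h2 h3).trans (axb_xi_mono (m := m) (L := L) hε hB h)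
    have h5 : |XX m L ε σ.M σ.v p y| * |XX m L ε σ.M σ.v p y| ≤ xi m L ε B r * |XX m L ε σ.M σ.v p y| :=
      mul_le_mul_of_nonneg_right h4 (abs_nonneg _)
    have h6 : 0 ≤ (2 * B / ε) ^ 2 * (Dd L σ y p / r) := by positivity
    linarith
  · have h4 := abs_XX_le_B (m := m) hL hε hε1 hσ hy hyB hp h2
    have h5 : |XX m L ε σ.M σ.v p y| * |XX m L ε σ.M σ.v p y| ≤ 2 * B / ε * (2 * B / ε) :=
      mul_le_mul h4 h4 (abs_nonneg _) (by positivity)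
    have h6 : (1 : ℝ) ≤ Dd L σ y p / r := (one_le_div hr).2 (le_of_lt (not_le.1 h))
    have h7 : (2 * B / ε) ^ 2 * 1 ≤ (2 * B / ε) ^ 2 * (Dd L σ y p / r) :=
      mul_le_mul_of_nonneg_left h6 (by positivity)
    have h8 : 0 ≤ xi m L ε B r * |XX m L ε σ.M σ.v p y| :=
      mul_nonneg (axb_xi_nonneg hε hB r) (abs_nonneg _)
    nlinarith

theorem sum_XX_lev (hL : 0 < L) (hε : 0 < ε) (hε1 : ε ≤ 1) {σ : St N} (hσ : OKh K B σ) {y : Y N}
    (hy : y ∈ Vs N K) (hyB : nr K y ≤ B) {k : ℕ} (h2 : k + L ≤ K) :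
    ∑ p ∈ σ.M.filter (fun p => p.length = k), |XX m L ε σ.M σ.v p y| ≤ 2 * B / ε := by
  have h3 := sum_lev_zz_norm_le hy σ.M (okh_PC hσ) (k := k) (j := k + L) (by omega) h2
  calc ∑ p ∈ σ.M.filter (fun p => p.length = k), |XX m L ε σ.M σ.v p y|
      ≤ ∑ p ∈ σ.M.filter (fun p => p.length = k), 2 / ε *
        (∑ q ∈ σ.M.filter (fun q => p <:+ q ∧ q.length < k + L), ‖zz σ.M y q‖ +
      ∑ q ∈ σ.M.filter (fun q => p <:+ q ∧ q.length = k + L), ‖y q‖) := by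
        refine Finset.sum_le_sum fun p hp => ?_
        have hk : p.length = k := (Finset.mem_filter.1 hp).2
        have h4 := abs_XX_le (m := m) hL hε hε1 σ.M σ.v p y
        rw [hk] at h4
        have h5 : 0 ≤ ∑ q ∈ σ.M.filter (fun q => p <:+ q ∧ q.length = k + L), ‖y q‖ :=
          Finset.sum_nonneg fun _ _ => norm_nonneg _
        refine h4.trans (mul_le_mul_of_nonneg_left ?_ (by positivity))
        linarith
    _ ≤ 2 / ε * nr K y := by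
        rw [← Finset.mul_sum]
        exact mul_le_mul_of_nonneg_left h3 (by positivity)
    _ ≤ 2 / ε * B := mul_le_mul_of_nonneg_left hyB (by positivity)
    _ = 2 * B / ε := by ring

end H50RC
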