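import Pool.Agent.H50.RC.Ast
import Pool.Agent.H50.RC.Axb

/-!
S05864 [H50 RC AEG]: (e): energy of the good nodes of level `k`, `1 ≤ k`, `k + L ≤ K`. Write `ξ = xi m L ε B r`.
`dynkinS` with `Ψ σ y = ∑_{p ∈ gd k σ} XX(p)² + (4ξ/(Lε)) ∑_{p ∈ M,|p|=k} ∑_{q ∈ wn p, ¬ lte} ‖v q‖ + (8B/(Lε²)) ∑_{p ∈ M,|p|=k} ∑_{q ∈ wn p, lte} ‖v q‖`, `e = eG`.
-/

set_option autoImplicit false

namespace H50RC

variable {N K R0 m L : ℕ} {B ε r : ℝ}

open Classical in
/-- mass marked below `p` before `p` was stopped -/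
noncomputable def aegA (L : ℕ) (r : ℝ) (σ : St N) (p : Nd N) : ℝ :=
  ∑ q ∈ (wn L σ p).filter (fun q => ¬ lte L r σ p q), ‖σ.v q‖

open Classical in
/-- mass marked below `p` after `p` was stopped -/
noncomputable def aegB (L : ℕ) (r : ℝ) (σ : St N) (p : Nd N) : ℝ :=
  ∑ q ∈ (wn L σ p).filter (fun q => lte L r σ p q), ‖σ.v q‖

open Classical in
/-- the contribution of `p` to the Lyapunov function -/
noncomputable def aegT (m L k : ℕ) (ε r c1 c2 : ℝ) (σ : St N) (y : Y N) (p : Nd N) : ℝ :=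
  (if Good m ε k (σ.v p) then XX m L ε σ.M σ.v p y ^ 2 else 0) + (c1 * aegA L r σ p + c2 * aegB L r σ p)

theorem aeg_v_old {σ : St N} {y : Y N} {q0 q : Nd N} (h : q ≠ q0) : St.v ((q0, y) :: σ) q = σ.v q := by
  show (if q = q0 then y q0 else St.v σ q) = St.v σ q
  rw [if_neg h]

theorem aeg_v_new {σ : St N} {y : Y N} {q0 : Nd N} : St.v ((q0, y) :: σ) q0 = y q0 := by
  show (if q0 = q0 then y q0 else St.v σ q0) = y q0
  rw [if_pos rfl]

theorem aeg_wn (L : ℕ) (σ : St N) (y : Y N) (q0 p : Nd N) : wn L ((q0, y) :: σ) p =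
    if (p <:+ q0 ∧ p.length < q0.length ∧ q0.length ≤ p.length + L) then insert q0 (wn L σ p) else wn L σ p := by
  rw [wn, wn]
  show (insert q0 (St.M σ)).filter _ = _
  rw [Finset.filter_insert]

theorem aeg_wn_sub (L : ℕ) (σ : St N) (p : Nd N) : wn L σ p ⊆ σ.M := Finset.filter_subset _ _

theorem aeg_A_nonneg (σ : St N) (p : Nd N) : 0 ≤ aegA L r σ p := Finset.sum_nonneg fun _ _ => norm_nonneg _

theorem aeg_B_nonneg (σ : St N) (p : Nd N) : 0 ≤ aegB L r σ p := Finset.sum_nonneg fun _ _ => norm_nonneg _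

theorem aeg_lte_old {σ : St N} {y : Y N} {q0 q p : Nd N} (h : q ≠ q0) :
    lte L r ((q0, y) :: σ) p q ↔ lte L r σ p q := by
  show (lte L r σ p q ∨ (q = q0 ∧ _)) ↔ _
  constructor
  · rintro (h1 | ⟨h1, _⟩)
    · exact h1
    · exact absurd h1 h
  · exact Or.inl

theorem aeg_lte_new {σ : St N} {y : Y N} {q0 p : Nd N} (h0 : q0 ∉ σ.M) :
    lte L r ((q0, y) :: σ) p q0 ↔ stp L r ((q0, y) :: σ) p := by
  show (lte L r σ p q0 ∨ (q0 = q0 ∧ stp L r ((q0, y) :: σ) p)) ↔ _
  constructor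
  · rintro (h1 | ⟨_, h1⟩)
    · exact absurd (lte_mem h1) h0
    · exact h1
  · intro h1
    exact Or.inr ⟨rfl, h1⟩

open Classical in
theorem aeg_A_cons {σ : St N} {y : Y N} {q0 p : Nd N} (h0 : q0 ∉ σ.M) : aegA L r ((q0, y) :: σ) p =
    (if (p <:+ q0 ∧ p.length < q0.length ∧ q0.length ≤ p.length + L) ∧ ¬ stp L r ((q0, y) :: σ) p
      then ‖y q0‖ else 0) + aegA L r σ p := by
  have hn : q0 ∉ wn L σ p := fun h => h0 (aeg_wn_sub L σ p h)
  have hold : ∑ q ∈ wn L σ p, (if ¬ lte L r ((q0, y) :: σ) p q then ‖St.v ((q0, y) :: σ) q‖ else 0) =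
      ∑ q ∈ wn L σ p, (if ¬ lte L r σ p q then ‖σ.v q‖ else 0) := by
    refine Finset.sum_congr rfl fun q hq => ?_
    have hne : q ≠ q0 := fun h => hn (h ▸ hq)
    rw [aeg_v_old hne]
    by_cases h1 : lte L r σ p q
    · rw [if_neg (not_not.2 ((aeg_lte_old hne).2 h1)), if_neg (not_not.2 h1)]
    · rw [if_pos (fun h2 => h1 ((aeg_lte_old hne).1 h2)), if_pos h1]
  rw [aegA, aegA, Finset.sum_filter, Finset.sum_filter, aeg_wn]
  by_cases hc : (p <:+ q0 ∧ p.length < q0.length ∧ q0.length ≤ p.length + L)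
  · rw [if_pos hc, Finset.sum_insert hn, hold, aeg_v_new]
    congr 1
    by_cases h1 : stp L r ((q0, y) :: σ) p
    · rw [if_neg (not_not.2 ((aeg_lte_new h0).2 h1)), if_neg (fun h2 => h2.2 h1)]
    · rw [if_pos (fun h2 => h1 ((aeg_lte_new h0).1 h2)), if_pos ⟨hc, h1⟩]
  · rw [if_neg hc, if_neg (fun h2 => hc h2.1), zero_add, hold]

open Classical in
theorem aeg_B_cons {σ : St N} {y : Y N} {q0 p : Nd N} (h0 : q0 ∉ σ.M) : aegB L r ((q0, y) :: σ) p =
    (if (p <:+ q0 ∧ p.length < q0.length ∧ q0.length ≤ p.length + L) ∧ stp L r ((q0, y) :: σ) p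
      then ‖y q0‖ else 0) + aegB L r σ p := by
  have hn : q0 ∉ wn L σ p := fun h => h0 (aeg_wn_sub L σ p h)
  have hold : ∑ q ∈ wn L σ p, (if lte L r ((q0, y) :: σ) p q then ‖St.v ((q0, y) :: σ) q‖ else 0) =
      ∑ q ∈ wn L σ p, (if lte L r σ p q then ‖σ.v q‖ else 0) := by
    refine Finset.sum_congr rfl fun q hq => ?_
    have hne : q ≠ q0 := fun h => hn (h ▸ hq)
    rw [aeg_v_old hne]
    by_cases h1 : lte L r σ p q
    · rw [if_pos ((aeg_lte_old hne).2 h1), if_pos h1]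
    · rw [if_neg (fun h2 => h1 ((aeg_lte_old hne).1 h2)), if_neg h1]
  rw [aegB, aegB, Finset.sum_filter, Finset.sum_filter, aeg_wn]
  by_cases hc : (p <:+ q0 ∧ p.length < q0.length ∧ q0.length ≤ p.length + L)
  · rw [if_pos hc, Finset.sum_insert hn, hold, aeg_v_new]
    congr 1
    by_cases h1 : stp L r ((q0, y) :: σ) p
    · rw [if_pos ((aeg_lte_new h0).2 h1), if_pos ⟨hc, h1⟩]
    · rw [if_neg (fun h2 => h1 ((aeg_lte_new h0).1 h2)), if_neg (fun h2 => h1 h2.2)]
  · rw [if_neg hc, if_neg (fun h2 => hc h2.1), zero_add, hold]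

theorem aeg_T_nonneg {k : ℕ} {c1 c2 : ℝ} (h1 : 0 ≤ c1) (h2 : 0 ≤ c2) (σ : St N) (y : Y N) (p : Nd N) :
    0 ≤ aegT m L k ε r c1 c2 σ y p := by
  rw [aegT]
  refine add_nonneg ?_ (add_nonneg (mul_nonneg h1 (aeg_A_nonneg σ p)) (mul_nonneg h2 (aeg_B_nonneg σ p)))
  split_ifs
  · exact sq_nonneg _
  · exact le_rfl

theorem aeg_sq_ge {a b c d : ℝ} (h1 : |b - a| ≤ d) (h2 : |a| ≤ c) (h3 : |b| ≤ c) : a ^ 2 ≤ b ^ 2 + 2 * c * d := by
  have h4 : a ^ 2 - b ^ 2 ≤ |b - a| * (|a| + |b|) := by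
    have h5 : a ^ 2 - b ^ 2 = -((b - a) * (a + b)) := by ring
    rw [h5]
    calc -((b - a) * (a + b)) ≤ |(b - a) * (a + b)| := neg_le_abs _
      _ = |b - a| * |a + b| := abs_mul _ _
      _ ≤ |b - a| * (|a| + |b|) := mul_le_mul_of_nonneg_left (abs_add_le _ _) (abs_nonneg _)
  have hd : 0 ≤ d := (abs_nonneg _).trans h1
  have h6 : |b - a| * (|a| + |b|) ≤ d * (c + c) :=
    mul_le_mul h1 (add_le_add h2 h3) (add_nonneg (abs_nonneg _) (abs_nonneg _)) hd
  linarith

open Classical in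
/-- adding one mark: contribution of an old node -/
theorem aeg_T_add (hm : 2 ≤ m) (hL : 0 < L) (hε : 0 < ε) (hε1 : ε ≤ 1) {k : ℕ} (hkK : k + L ≤ K)
    {σ : St N} (hσ : OKh K B σ) {y : Y N} (hy : y ∈ Vs N K) (hyB : nr K y ≤ B) {q0 p : Nd N} (h0 : q0 ∉ σ.M)
    (h1 : q0.tail ∈ σ.M) (h2 : q0.length ≤ K) (hp : p ∈ σ.M) (hpk : p.length = k) :
    aegT m L k ε r (4 * xi m L ε B r / (L * ε)) (8 * B / (L * ε ^ 2)) σ y p ≤
      aegT m L k ε r (4 * xi m L ε B r / (L * ε)) (8 * B / (L * ε ^ 2)) ((q0, y) :: σ) y p := by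
  have hB : 0 ≤ B := (nr_nonneg y).trans hyB
  have hσ' : OKh K B ((q0, y) :: σ) := ⟨h0, h1, h2, hy, hyB, hσ⟩
  have hPC := okh_PC hσ
  have hne : p ≠ q0 := fun h => h0 (h ▸ hp)
  have hp' : p ∈ St.M ((q0, y) :: σ) := Finset.mem_insert_of_mem hp
  have hLr : (0 : ℝ) < L := by exact_mod_cast hL
  have hxi : 0 ≤ xi m L ε B r := axb_xi_nonneg hε hB r
  have hA := aeg_A_cons (L := L) (r := r) (y := y) (p := p) h0
  have hBB := aeg_B_cons (L := L) (r := r) (y := y) (p := p) h0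
  have hc1 : 0 ≤ 4 * xi m L ε B r / (L * ε) := by positivity
  have hc2 : 0 ≤ 8 * B / (L * ε ^ 2) := by positivity
  rw [aegT, aegT, hA, hBB, aeg_v_old hne]
  have hlen : p <:+ q0 → p.length < q0.length := by
    intro hs
    rcases lt_or_eq_of_le hs.length_le with h | h
    · exact h
    · exact absurd (hs.eq_of_length h) hne
  have hX := XX_add (m := m) (L := L) (ε := ε) hPC (y := y) h0 h1 hp
  have hll : ‖ll m ε p.length (σ.v p)‖ ≤ ε⁻¹ := norm_ll_le hε hε1 _ _
  by_cases hg : Good m ε k (σ.v p)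
  · rw [if_pos hg, if_pos hg]
    have hg' : Good m ε p.length (σ.v p) := by rw [hpk]; exact hg
    by_cases hc : (p <:+ q0 ∧ q0.length ≤ p.length + L)
    · have hc' : (p <:+ q0 ∧ p.length < q0.length ∧ q0.length ≤ p.length + L) := ⟨hc.1, hlen hc.1, hc.2⟩
      rw [if_pos hc] at hX
      have hX' : |XX m L ε (St.M ((q0, y) :: σ)) (St.v ((q0, y) :: σ)) p y - XX m L ε σ.M σ.v p y| ≤
          2 / (L * ε) * ‖y q0‖ := by
        refine hX.trans (mul_le_mul_of_nonneg_right ?_ (norm_nonneg _))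
        calc 2 / (L : ℝ) * ‖ll m ε p.length (σ.v p)‖ ≤ 2 / L * ε⁻¹ :=
              mul_le_mul_of_nonneg_left hll (by positivity)
          _ = 2 / (L * ε) := by field_simp
      by_cases hs : stp L r ((q0, y) :: σ) p
      · have e1 := abs_XX_le_B (m := m) hL hε hε1 hσ hy hyB hp (by omega)
        have e2 := abs_XX_le_B (m := m) hL hε hε1 hσ' hy hyB hp' (by omega)
        have e3 := aeg_sq_ge hX' e1 e2
        rw [if_neg (fun h => h.2 hs), if_pos ⟨hc', hs⟩]
        have e4 : 2 * (2 * B / ε) * (2 / (L * ε) * ‖y q0‖) = 8 * B / (L * ε ^ 2) * ‖y q0‖ := by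
          field_simp
          ring
        rw [e4] at e3
        linarith
      · have hD : Dd L ((q0, y) :: σ) y p ≤ r := by
          by_contra hcon
          exact hs (Or.inr ⟨hp', not_le.1 hcon⟩)
        have hD' := Dd_add hPC (y := y) h0 h1 hp L
        have e1 := (abs_XX_good hm hL hε hε1 hσ hy hyB hp (by omega) hg').trans
          (axb_xi_mono (m := m) (L := L) hε hB (hD'.trans hD))
        have hg'' : Good m ε p.length (St.v ((q0, y) :: σ) p) := by rw [aeg_v_old hne]; exact hg'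
        have e2 := (abs_XX_good hm hL hε hε1 hσ' hy hyB hp' (by omega) hg'').trans
          (axb_xi_mono (m := m) (L := L) hε hB hD)
        have e3 := aeg_sq_ge hX' e1 e2
        rw [if_pos ⟨hc', hs⟩, if_neg (fun h => hs h.2)]
        have e4 : 2 * xi m L ε B r * (2 / (L * ε) * ‖y q0‖) = 4 * xi m L ε B r / (L * ε) * ‖y q0‖ := by
          field_simp
          ring
        rw [e4] at e3
        linarith
    · rw [if_neg hc, mul_zero] at hX
      have hc' : ¬ (p <:+ q0 ∧ p.length < q0.length ∧ q0.length ≤ p.length + L) := fun h => hc ⟨h.1, h.2.2⟩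
      have hXe : XX m L ε (St.M ((q0, y) :: σ)) (St.v ((q0, y) :: σ)) p y = XX m L ε σ.M σ.v p y := by
        have := abs_nonpos_iff.1 hX
        linarith
      rw [if_neg (fun h => hc' h.1), if_neg (fun h => hc' h.1), hXe, zero_add, zero_add]
  · rw [if_neg hg, if_neg hg]
    have e1 : 0 ≤ (if (p <:+ q0 ∧ p.length < q0.length ∧ q0.length ≤ p.length + L) ∧
        ¬ stp L r ((q0, y) :: σ) p then ‖y q0‖ else 0) := by
      split_ifs
      · exact norm_nonneg _
      · exact le_rfl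
    have e2 : 0 ≤ (if (p <:+ q0 ∧ p.length < q0.length ∧ q0.length ≤ p.length + L) ∧
        stp L r ((q0, y) :: σ) p then ‖y q0‖ else 0) := by
      split_ifs
      · exact norm_nonneg _
      · exact le_rfl
    have e3 := mul_nonneg hc1 e1
    have e4 := mul_nonneg hc2 e2
    rw [mul_add, mul_add]
    linarith

/-- the Lyapunov function -/
noncomputable def aegPsi (m L k : ℕ) (ε B r : ℝ) (σ : St N) (y : Y N) : ℝ :=
  ∑ p ∈ σ.M.filter (fun p => p.length = k),
    aegT m L k ε r (4 * xi m L ε B r / (L * ε)) (8 * B / (L * ε ^ 2)) σ y p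

theorem aegPsi_eq {k : ℕ} (σ : St N) (y : Y N) : aegPsi m L k ε B r σ y =
    ∑ p ∈ gd m ε k σ, XX m L ε σ.M σ.v p y ^ 2 +
      (4 * xi m L ε B r / (L * ε) * ∑ p ∈ σ.M.filter (fun p => p.length = k), aegA L r σ p +
       8 * B / (L * ε ^ 2) * ∑ p ∈ σ.M.filter (fun p => p.length = k), aegB L r σ p) := by
  classical
  have h1 : gd m ε k σ = (σ.M.filter (fun p => p.length = k)).filter (fun p => Good m ε k (σ.v p)) := by
    ext x
    rw [gd, Finset.mem_filter, Finset.mem_filter, Finset.mem_filter, and_assoc]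
  have h2 : ∑ p ∈ gd m ε k σ, XX m L ε σ.M σ.v p y ^ 2 =
      ∑ p ∈ σ.M.filter (fun p => p.length = k), if Good m ε k (σ.v p) then XX m L ε σ.M σ.v p y ^ 2 else 0 := by
    rw [h1, Finset.sum_filter]
  rw [aegPsi, h2, Finset.mul_sum, Finset.mul_sum, ← Finset.sum_add_distrib, ← Finset.sum_add_distrib]
  refine Finset.sum_congr rfl fun p _ => ?_
  rw [aegT]

theorem energy_good (hB : 0 ≤ B) (hm : 2 ≤ m) (hL : 0 < L) (hε : 0 < ε) (hε1 : ε ≤ 1) (hr : 0 < r) {k : ℕ}
    (hk : 1 ≤ k) (hkK : k + L ≤ K) (t : PT N) (y : Y N) (ht : t.WFP K B y) (hy : y ∈ Vs N K) (hyB : nr K y ≤ B) :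
    t.ES R0 (eG m L ε k) (S.init N) y ≤ 6 * xi m L ε B r * B / ε + 12 * B ^ 2 / (ε ^ 2 * r) *
      (t.EX R0 (fun s y => Gg (k + L) s.σ y) (S.init N) y - t.EX R0 (fun s y => Gg k s.σ y) (S.init N) y) := by
  classical
  have hLr : (0 : ℝ) < L := by exact_mod_cast hL
  have hxi : 0 ≤ xi m L ε B r := axb_xi_nonneg hε hB r
  have hc1 : 0 ≤ 4 * xi m L ε B r / (L * ε) := by positivity
  have hc2 : 0 ≤ 8 * B / (L * ε ^ 2) := by positivity
  have hI : Inv K B R0 (S.init N) := inv_init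
  -- Dynkin
  have hdyn := dynkinS (R0 := R0) (K := K) (B := B) (aegPsi m L k ε B r)
    (fun σ y y' => ∑ p ∈ gd m ε k σ, XX m L ε σ.M σ.v p (y' - y) ^ 2)
    (by
      intro σ z q0 hσ hz hzB h0 h1 h2
      have hsub : σ.M.filter (fun p => p.length = k) ⊆
          (St.M ((q0, z) :: σ)).filter (fun p => p.length = k) :=
        Finset.filter_subset_filter _ (Finset.subset_insert _ _)
      rw [aegPsi, aegPsi]
      refine (Finset.sum_le_sum fun p hp => ?_).trans
        (Finset.sum_le_sum_of_subset_of_nonneg hsub fun p _ _ => aeg_T_nonneg hc1 hc2 _ _ _)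
      rw [Finset.mem_filter] at hp
      exact aeg_T_add hm hL hε hε1 hkK hσ hz hzB h0 h1 h2 hp.1 hp.2)
    (by
      intro σ z ι _ pr' z' hσ hz hzB hJ
      have hX : ∀ p ∈ gd m ε k σ, ∑ i, pr' i * XX m L ε σ.M σ.v p (z' i) ^ 2 =
          XX m L ε σ.M σ.v p z ^ 2 + ∑ i, pr' i * XX m L ε σ.M σ.v p (z' i - z) ^ 2 := by
        intro p _
        have h1 : XX m L ε σ.M σ.v p z = ∑ i, pr' i * XX m L ε σ.M σ.v p (z' i) := by
          conv_lhs => rw [← hJ.mean]
          exact XX_sum σ.M σ.v p _ _ _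
        rw [sq_jump hJ.one _ h1]
        congr 1
        refine Finset.sum_congr rfl fun i _ => ?_
        rw [XX_sub]
      have e1 : ∑ i, pr' i * aegPsi m L k ε B r σ (z' i) =
          ∑ i, pr' i * ∑ p ∈ gd m ε k σ, XX m L ε σ.M σ.v p (z' i) ^ 2 +
          (4 * xi m L ε B r / (L * ε) * ∑ p ∈ σ.M.filter (fun p => p.length = k), aegA L r σ p +
            8 * B / (L * ε ^ 2) * ∑ p ∈ σ.M.filter (fun p => p.length = k), aegB L r σ p) := by
        have h1 : ∀ i, pr' i * aegPsi m L k ε B r σ (z' i) =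
            pr' i * ∑ p ∈ gd m ε k σ, XX m L ε σ.M σ.v p (z' i) ^ 2 +
            pr' i * (4 * xi m L ε B r / (L * ε) * ∑ p ∈ σ.M.filter (fun p => p.length = k), aegA L r σ p +
              8 * B / (L * ε ^ 2) * ∑ p ∈ σ.M.filter (fun p => p.length = k), aegB L r σ p) := by
          intro i
          rw [aegPsi_eq, mul_add]
        rw [Finset.sum_congr rfl fun i _ => h1 i, Finset.sum_add_distrib, ← Finset.sum_mul, hJ.one, one_mul]
      have e2 : ∑ i, pr' i * ∑ p ∈ gd m ε k σ, XX m L ε σ.M σ.v p (z' i) ^ 2 =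
          ∑ p ∈ gd m ε k σ, XX m L ε σ.M σ.v p z ^ 2 +
          ∑ i, pr' i * ∑ p ∈ gd m ε k σ, XX m L ε σ.M σ.v p (z' i - z) ^ 2 := by
        simp only [Finset.mul_sum]
        rw [Finset.sum_comm, Finset.sum_congr rfl hX, Finset.sum_add_distrib, Finset.sum_comm]
      rw [e1, e2, aegPsi_eq]
      linarith)
    t (S.init N) y ht hI hy hyB
  have h0 : aegPsi m L k ε B r (S.init N).σ y = 0 := by
    rw [aegPsi]
    refine Finset.sum_eq_zero fun p hp => ?_
    rw [Finset.mem_filter] at hp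
    have h1 : p = [] := Finset.mem_singleton.1 hp.1
    rw [h1] at hp
    have h2 := hp.2
    simp only [List.length_nil] at h2
    omega
  have hES : t.ES R0 (eG m L ε k) (S.init N) y ≤
      t.EX R0 (fun s y => aegPsi m L k ε B r s.σ y) (S.init N) y := by
    have h1 : t.ES R0 (eG m L ε k) (S.init N) y = t.ES R0 (fun s y y' =>
        ∑ p ∈ gd m ε k s.σ, XX m L ε s.σ.M s.σ.v p (y' - y) ^ 2) (S.init N) y := rfl
    rw [h1]
    rw [h0] at hdyn
    linarith
  -- splitting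
  have hsplit : t.EX R0 (fun s y => aegPsi m L k ε B r s.σ y) (S.init N) y =
      t.EX R0 (fun s y => ∑ p ∈ gd m ε k s.σ, XX m L ε s.σ.M s.σ.v p y ^ 2) (S.init N) y +
      (4 * xi m L ε B r / (L * ε) *
        t.EX R0 (fun s _ => ∑ p ∈ s.σ.M.filter (fun p => p.length = k), aegA L r s.σ p) (S.init N) y +
       8 * B / (L * ε ^ 2) *
        t.EX R0 (fun s _ => ∑ p ∈ s.σ.M.filter (fun p => p.length = k), aegB L r s.σ p) (S.init N) y) := by
    have h1 : (fun (s : S N) (y : Y N) => aegPsi m L k ε B r s.σ y) = (fun s y =>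
        ∑ p ∈ gd m ε k s.σ, XX m L ε s.σ.M s.σ.v p y ^ 2 +
        (4 * xi m L ε B r / (L * ε) * ∑ p ∈ s.σ.M.filter (fun p => p.length = k), aegA L r s.σ p +
          8 * B / (L * ε ^ 2) * ∑ p ∈ s.σ.M.filter (fun p => p.length = k), aegB L r s.σ p)) := by
      funext s y
      exact aegPsi_eq s.σ y
    rw [h1, EX_add, EX_add, EX_mul, EX_mul]
  -- first part
  have hDd := EX_Dd (R0 := R0) hk (by omega : 1 ≤ L) t y ht hy hyB
  set ΔG := t.EX R0 (fun s y => Gg (k + L) s.σ y) (S.init N) y - t.EX R0 (fun s y => Gg k s.σ y) (S.init N) y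
    with hΔ
  have hP1 : t.EX R0 (fun s y => ∑ p ∈ gd m ε k s.σ, XX m L ε s.σ.M s.σ.v p y ^ 2) (S.init N) y ≤
      xi m L ε B r * (2 * B / ε) + (2 * B / ε) ^ 2 / r * ΔG := by
    have hmono := EX_mono (R0 := R0) (K := K) (B := B)
      (fun s y => ∑ p ∈ gd m ε k s.σ, XX m L ε s.σ.M s.σ.v p y ^ 2)
      (fun s y => xi m L ε B r * (2 * B / ε) + (2 * B / ε) ^ 2 / r *
        ∑ p ∈ s.σ.M.filter (fun p => p.length = k), Dd L s.σ y p)
      (by
        intro s z hs hz hzB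
        have hsub : gd m ε k s.σ ⊆ s.σ.M.filter (fun p => p.length = k) := by
          intro p hp
          rw [gd, Finset.mem_filter] at hp
          exact Finset.mem_filter.2 ⟨hp.1, hp.2.1⟩
        calc ∑ p ∈ gd m ε k s.σ, XX m L ε s.σ.M s.σ.v p z ^ 2
            ≤ ∑ p ∈ gd m ε k s.σ, (xi m L ε B r * |XX m L ε s.σ.M s.σ.v p z| +
                (2 * B / ε) ^ 2 * (Dd L s.σ z p / r)) := by
              refine Finset.sum_le_sum fun p hp => ?_
              rw [gd, Finset.mem_filter] at hp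
              refine sq_XX_le hm hL hε hε1 hr hs.ok hz hzB hp.1 (by have := hp.2.1; omega) ?_
              rw [hp.2.1]
              exact hp.2.2
          _ ≤ ∑ p ∈ s.σ.M.filter (fun p => p.length = k), (xi m L ε B r * |XX m L ε s.σ.M s.σ.v p z| +
                (2 * B / ε) ^ 2 * (Dd L s.σ z p / r)) := by
              refine Finset.sum_le_sum_of_subset_of_nonneg hsub fun p _ _ => ?_
              have h1 : 0 ≤ Dd L s.σ z p := Dd_nonneg L s.σ z p
              exact add_nonneg (mul_nonneg hxi (abs_nonneg _))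
                (mul_nonneg (sq_nonneg _) (div_nonneg h1 hr.le))
          _ = xi m L ε B r * ∑ p ∈ s.σ.M.filter (fun p => p.length = k), |XX m L ε s.σ.M s.σ.v p z| +
                (2 * B / ε) ^ 2 / r * ∑ p ∈ s.σ.M.filter (fun p => p.length = k), Dd L s.σ z p := by
              rw [Finset.sum_add_distrib, Finset.mul_sum, Finset.mul_sum]
              congr 1
              refine Finset.sum_congr rfl fun p _ => ?_
              ring
          _ ≤ xi m L ε B r * (2 * B / ε) + (2 * B / ε) ^ 2 / r *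
                ∑ p ∈ s.σ.M.filter (fun p => p.length = k), Dd L s.σ z p := by
              have h1 := mul_le_mul_of_nonneg_left (sum_XX_lev (m := m) hL hε hε1 hs.ok hz hzB hkK) hxi
              linarith)
      t (S.init N) y ht hI hy hyB
    refine hmono.trans (le_of_eq ?_)
    rw [EX_add, EX_const _ t _ y ht, EX_mul, hDd]
  -- second part
  have hP2 : t.EX R0 (fun s _ => ∑ p ∈ s.σ.M.filter (fun p => p.length = k), aegA L r s.σ p) (S.init N) y ≤
      L * B := by
    exact unlate_sum (R0 := R0) (r := r) hB hk hkK t y ht hy hyB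
  -- third part
  have hP3 : t.EX R0 (fun s _ => ∑ p ∈ s.σ.M.filter (fun p => p.length = k), aegB L r s.σ p) (S.init N) y ≤
      L * B * (ΔG / r) := by
    have h1 := late_sum (R0 := R0) (r := r) hB hk hkK t y ht hy hyB
    have h2 := stop_count (R0 := R0) (r := r) hk (by omega : 1 ≤ L) t y ht hy hyB
    rw [← hΔ] at h2
    have h3 : t.EX R0 (fun s _ => ((s.σ.M.filter (fun p => p.length = k ∧ stp L r s.σ p)).card : ℝ))
        (S.init N) y ≤ ΔG / r := by
      rw [le_div_iff₀ hr, mul_comm]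
      exact h2
    refine le_trans ?_ (mul_le_mul_of_nonneg_left h3 (by positivity))
    exact h1
  have f2 := mul_le_mul_of_nonneg_left hP2 hc1
  have f3 := mul_le_mul_of_nonneg_left hP3 hc2
  have g1 : xi m L ε B r * (2 * B / ε) + 4 * xi m L ε B r / (L * ε) * (L * B) = 6 * xi m L ε B r * B / ε := by
    field_simp
    ring
  have g2 : (2 * B / ε) ^ 2 / r * ΔG + 8 * B / (L * ε ^ 2) * (L * B * (ΔG / r)) =
      12 * B ^ 2 / (ε ^ 2 * r) * ΔG := by
    field_simp
    ring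
  rw [hsplit] at hES
  linarith

end H50RC
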