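import Pool.Agent.H50.RC.Exl

/-!
S05864 [H50 RC AHU]: (A2): the Huber function. `Hu h z = ‖z‖²` if `‖z‖ ≤ h`, `2h‖z‖ - h²` otherwise. `0 ≤ Hu ≤ 2h‖z‖` for `h ≥ 0`.
`bregman`: there is a real linear functional `T` (at `a`) with `Hu b ≥ Hu a + T (b - a)` for all `b`, and `= ... + ‖b - a‖²` if `‖a‖, ‖b‖ ≤ h`. Take `T x = 2 dt a x` if `‖a‖ ≤ h`, `T x = 2h dt (a/‖a‖) x` otherwise.
Check: `‖a‖ ≤ h`, `‖b‖ ≤ h`: `‖b‖² = ‖a‖² + 2 dt a (b-a) + ‖b-a‖²`. `‖a‖ ≤ h < ‖b‖`: `2h‖b‖ - h² - ‖a‖² - 2 dt a (b - a) = 2h‖b‖ - h² + ‖a‖² - 2 dt a b ≥ 2h‖b‖ - h² + ‖a‖² - 2‖a‖‖b‖ = (h - ‖a‖)(2‖b‖ - h - ‖a‖) ≥ 0`.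
`‖a‖ > h`: `T (b - a) = 2h dt (a/‖a‖) b - 2h‖a‖`, so `Hu a + T (b-a) = 2h dt (a/‖a‖) b - h² ≤ 2h‖b‖ - h² ≤ Hu b` (`(‖b‖ - h)² ≥ 0`).
`A2`: `submart`/`dynkinS` with `Ψ = ∑_{q ∈ nds} Hu h (y q)`; jump: `∑ p_i T(y_i q - y q) = 0`. End: `Ψ ≤ 2h ∑_{nds}‖y q‖ ≤ 2hKB`.
-/

set_option autoImplicit false

namespace H50RC

variable {N K R0 : ℕ} {B : ℝ}

/-- Huber function -/
noncomputable def Hu (h : ℝ) (z : ℂ) : ℝ := if ‖z‖ ≤ h then ‖z‖ ^ 2 else 2 * h * ‖z‖ - h ^ 2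

theorem Hu_nonneg {h : ℝ} (hh : 0 ≤ h) (z : ℂ) : 0 ≤ Hu h z := by
  unfold Hu
  split_ifs with h1
  · positivity
  · push Not at h1
    nlinarith [norm_nonneg z]

theorem Hu_le {h : ℝ} (hh : 0 ≤ h) (z : ℂ) : Hu h z ≤ 2 * h * ‖z‖ := by
  unfold Hu
  split_ifs with h1
  · nlinarith [norm_nonneg z]
  · nlinarith [norm_nonneg z, sq_nonneg h]

private theorem hu_ge (h : ℝ) (z : ℂ) : 2 * h * ‖z‖ - h ^ 2 ≤ Hu h z := by
  unfold Hu
  split_ifs with h1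
  · nlinarith [sq_nonneg (‖z‖ - h)]
  · exact le_refl _

private theorem hu_normsq (z w : ℂ) : ‖w‖ ^ 2 = ‖z‖ ^ 2 + 2 * dt z (w - z) + ‖w - z‖ ^ 2 := by
  rw [← dt_self, ← dt_self, ← dt_self]
  simp only [dt, Complex.sub_re, Complex.sub_im]
  ring

theorem bregman {h : ℝ} (hh : 0 ≤ h) (a : ℂ) : ∃ c : ℂ, ∀ b : ℂ,
    Hu h a + dt c (b - a) + (if ‖a‖ ≤ h ∧ ‖b‖ ≤ h then ‖b - a‖ ^ 2 else 0) ≤ Hu h b := by
  by_cases ha : ‖a‖ ≤ h
  · refine ⟨(2 : ℝ) • a, fun b => ?_⟩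
    rw [dt_smul_left]
    have hHa : Hu h a = ‖a‖ ^ 2 := by unfold Hu; rw [if_pos ha]
    by_cases hb : ‖b‖ ≤ h
    · have hHb : Hu h b = ‖b‖ ^ 2 := by unfold Hu; rw [if_pos hb]
      rw [if_pos ⟨ha, hb⟩, hHa, hHb]
      exact le_of_eq (hu_normsq a b).symm
    · have hHb : Hu h b = 2 * h * ‖b‖ - h ^ 2 := by unfold Hu; rw [if_neg hb]
      rw [if_neg (fun h' => hb h'.2), hHa, hHb, dt_sub_right, dt_self]
      push Not at hb
      have h1 := (le_abs_self _).trans (abs_dt_le a b)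
      have h2 : 0 ≤ (h - ‖a‖) * (2 * ‖b‖ - h - ‖a‖) := mul_nonneg (by linarith) (by linarith)
      nlinarith
  · push Not at ha
    have ha0 : 0 < ‖a‖ := lt_of_le_of_lt hh ha
    refine ⟨(2 * h * ‖a‖⁻¹ : ℝ) • a, fun b => ?_⟩
    rw [dt_smul_left]
    have hHa : Hu h a = 2 * h * ‖a‖ - h ^ 2 := by unfold Hu; rw [if_neg (not_le.2 ha)]
    rw [if_neg (fun h' => absurd h'.1 (not_le.2 ha)), hHa, dt_sub_right, dt_self]
    have h1 := (le_abs_self _).trans (abs_dt_le a b)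
    have h2 : 2 * h * ‖a‖⁻¹ * dt a b ≤ 2 * h * ‖b‖ := by
      have h3 : 2 * h * ‖a‖⁻¹ * dt a b ≤ 2 * h * ‖a‖⁻¹ * (‖a‖ * ‖b‖) :=
        mul_le_mul_of_nonneg_left h1 (by positivity)
      refine h3.trans (le_of_eq ?_)
      field_simp
    have h4 := hu_ge h b
    have h5 : 2 * h * ‖a‖⁻¹ * ‖a‖ ^ 2 = 2 * h * ‖a‖ := by field_simp
    have h6 : 2 * h * ‖a‖⁻¹ * (dt a b - ‖a‖ ^ 2) = 2 * h * ‖a‖⁻¹ * dt a b - 2 * h * ‖a‖ := by
      rw [mul_sub, h5]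
    rw [h6]
    linarith

theorem A2 {h : ℝ} (hh : 0 ≤ h) (t : PT N) (s : S N) (y : Y N) (ht : t.WFP K B y) (hs : Inv K B R0 s)
    (hy : y ∈ Vs N K) (hyB : nr K y ≤ B) : t.ES R0 (eH K h) s y ≤ 2 * h * (K * B) := by
  classical
  have hd := dynkin (K := K) (R0 := R0) (B := B) (fun _ y => ∑ q ∈ nds N K, Hu h (y q)) (eH K h)
    (fun s y a _ _ _ _ => le_refl _)
    (by
      intro s y ι _ p y' _ _ _ hJ
      simp only [eH]
      choose c hc using fun q : Nd N => bregman hh (y q)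
      have h1 : ∀ q, ∑ i, p i * dt (c q) (y' i q - y q) = 0 := by
        intro q
        have h2 : ∑ i, p i * dt (c q) (y' i q - y q) = dt (c q) (∑ i, p i • (y' i q - y q)) := by
          rw [dt_sum_right]
          exact Finset.sum_congr rfl fun i _ => by rw [dt_smul_right]
        rw [h2]
        have h3 : ∑ i, p i • (y' i q - y q) = 0 := by
          simp only [smul_sub, Finset.sum_sub_distrib]
          rw [← Finset.sum_smul, hJ.one, one_smul, ← hJ.y_eq q, sub_self]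
        rw [h3, dt_zero_right]
      have h4 : ∀ q ∈ nds N K, Hu h (y q) + ∑ i, p i * (if ‖y q‖ ≤ h ∧ ‖y' i q‖ ≤ h then ‖y' i q - y q‖ ^ 2 else 0) ≤
          ∑ i, p i * Hu h (y' i q) := by
        intro q _
        have h5 : ∑ i, p i * (Hu h (y q) + dt (c q) (y' i q - y q) +
            (if ‖y q‖ ≤ h ∧ ‖y' i q‖ ≤ h then ‖y' i q - y q‖ ^ 2 else 0)) ≤ ∑ i, p i * Hu h (y' i q) :=
          Finset.sum_le_sum fun i _ => mul_le_mul_of_nonneg_left (hc q (y' i q)) (hJ.nn i)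
        simp only [mul_add, Finset.sum_add_distrib] at h5
        rw [h1 q, ← Finset.sum_mul, hJ.one, one_mul, add_zero] at h5
        exact h5
      have h6 := Finset.sum_le_sum h4
      rw [Finset.sum_add_distrib] at h6
      calc ∑ q ∈ nds N K, Hu h (y q) + ∑ i, p i * ∑ q ∈ nds N K,
            (if ‖y q‖ ≤ h ∧ ‖y' i q‖ ≤ h then ‖y' i q - y q‖ ^ 2 else 0)
          = ∑ q ∈ nds N K, Hu h (y q) + ∑ q ∈ nds N K, ∑ i, p i *
            (if ‖y q‖ ≤ h ∧ ‖y' i q‖ ≤ h then ‖y' i q - y q‖ ^ 2 else 0) := by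
            congr 1
            rw [Finset.sum_comm]
            exact Finset.sum_congr rfl fun i _ => Finset.mul_sum _ _ _
        _ ≤ ∑ q ∈ nds N K, ∑ i, p i * Hu h (y' i q) := h6
        _ = ∑ i, p i * ∑ q ∈ nds N K, Hu h (y' i q) := by
            rw [Finset.sum_comm]
            exact Finset.sum_congr rfl fun i _ => (Finset.mul_sum _ _ _).symm)
    t s y ht hs hy hyB
  have h0 : 0 ≤ ∑ q ∈ nds N K, Hu h (y q) := Finset.sum_nonneg fun q _ => Hu_nonneg hh _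
  have h1 : t.EX R0 (fun _ y => ∑ q ∈ nds N K, Hu h (y q)) s y ≤ t.EX R0 (fun _ _ => 2 * h * (K * B)) s y := by
    refine EX_mono (K := K) (B := B) _ _ (fun s y _ hy hB => ?_) t s y ht hs hy hyB
    calc ∑ q ∈ nds N K, Hu h (y q) ≤ ∑ q ∈ nds N K, 2 * h * ‖y q‖ := Finset.sum_le_sum fun q _ => Hu_le hh _
      _ = 2 * h * ∑ q ∈ nds N K, ‖y q‖ := by rw [Finset.mul_sum]
      _ ≤ 2 * h * (K * B) := by
          refine mul_le_mul_of_nonneg_left ?_ (by positivity)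
          exact (sum_nds_norm_le hy).trans (mul_le_mul_of_nonneg_left hB (by positivity))
  rw [EX_const _ t s y ht] at h1
  linarith

end H50RC
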