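import Pool.Agent.H50.RC.Nrm

/-!
S05864 [H50 RC ALP]: the quotient norm `al y = inf_{χ ∈ X} nr(y - χ)` and lifts `ze y`.
`al` is a seminorm invariant under `X` (infima: for `ε > 0` choose almost optimal `χ`; `csInf_le`, `le_csInf`, the set contains `nr y` (`χ = 0`) and is bounded below by 0;
`al (c y) = |c| al y`: for `c ≠ 0` replace `χ` by `cχ`, for `c = 0` `al 0 = 0`).
`al_eq_zero`: if `al y = 0`, `y ∈ Vs`, then for every `ε > 0` there is `χ ∈ X` with `nr (y - χ) < ε`, and for `w ∈ nds`: `|rr m y w| = |rr m (y - χ) w| ≤ ‖(y-χ) w‖ + ‖(y-χ) w.tail‖ ≤ 2ε`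
(`rr` is linear in `y`, `(N:ℝ)⁻¹ ≤ 1` — for `N = 0` there are no nodes in `nds` —, `norm_le_nr`).
`ze`: defined by choice; for `al y > 0` there is `χ ∈ X` with `nr (y - χ) < 2 al y`.
-/

set_option autoImplicit false

namespace H50RC

variable {N K m : ℕ}

/-- quotient norm -/
noncomputable def al (K m : ℕ) {N : ℕ} (y : Y N) : ℝ := sInf {r | ∃ χ ∈ Xs N K m, r = nr K (y - χ)}

open Classical in
/-- a lift of the class of `y` with almost optimal norm -/
noncomputable def ze (K m : ℕ) {N : ℕ} (y : Y N) : Y N :=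
  if h : al K m y ≠ 0 ∧ ∃ χ ∈ Xs N K m, nr K (y - χ) ≤ 2 * al K m y then y - h.2.choose else 0

private theorem al_bdd (y : Y N) : BddBelow {r | ∃ χ ∈ Xs N K m, r = nr K (y - χ)} := by
  refine ⟨0, ?_⟩
  rintro r ⟨χ, -, rfl⟩
  exact nr_nonneg _

private theorem al_ne (y : Y N) : {r | ∃ χ ∈ Xs N K m, r = nr K (y - χ)}.Nonempty :=
  ⟨nr K (y - 0), 0, (Xs N K m).zero_mem, rfl⟩

private theorem al_approx (y : Y N) {r : ℝ} (hr : al K m y < r) : ∃ χ ∈ Xs N K m, nr K (y - χ) < r := by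
  obtain ⟨_, ⟨χ, hχ, rfl⟩, h⟩ := exists_lt_of_csInf_lt (al_ne y) hr
  exact ⟨χ, hχ, h⟩

theorem al_nonneg (y : Y N) : 0 ≤ al K m y := by
  refine le_csInf (al_ne y) ?_
  rintro r ⟨χ, -, rfl⟩
  exact nr_nonneg _

theorem al_le {y χ : Y N} (h : χ ∈ Xs N K m) : al K m y ≤ nr K (y - χ) := by
  exact csInf_le (al_bdd y) ⟨χ, h, rfl⟩

theorem al_le_nr (y : Y N) : al K m y ≤ nr K y := by
  have h1 := al_le (K := K) (m := m) (y := y) (Xs N K m).zero_mem
  rwa [sub_zero] at h1

theorem al_add_le (y z : Y N) : al K m (y + z) ≤ al K m y + al K m z := by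
  refine le_of_forall_pos_le_add fun ε hε => ?_
  obtain ⟨χ, hχ, h1⟩ := al_approx y (show al K m y < al K m y + ε / 2 by linarith)
  obtain ⟨χ', hχ', h2⟩ := al_approx z (show al K m z < al K m z + ε / 2 by linarith)
  have h3 := al_le (y := y + z) ((Xs N K m).add_mem hχ hχ')
  have h4 : y + z - (χ + χ') = (y - χ) + (z - χ') := by abel
  rw [h4] at h3
  have h5 := nr_add_le (K := K) (y - χ) (z - χ')
  linarith

private theorem al_smul_le (c : ℝ) (y : Y N) : al K m (c • y) ≤ |c| * al K m y := by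
  refine le_of_forall_pos_le_add fun ε hε => ?_
  have hc : 0 < |c| + 1 := by positivity
  obtain ⟨χ, hχ, h1⟩ := al_approx y (show al K m y < al K m y + ε / (|c| + 1) by
    have : 0 < ε / (|c| + 1) := by positivity
    linarith)
  have h3 := al_le (y := c • y) ((Xs N K m).smul_mem c hχ)
  have h4 : c • y - c • χ = c • (y - χ) := by rw [smul_sub]
  rw [h4, nr_smul] at h3
  have h5 : |c| * nr K (y - χ) ≤ |c| * (al K m y + ε / (|c| + 1)) :=
    mul_le_mul_of_nonneg_left h1.le (abs_nonneg c)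
  have h6 : |c| * (ε / (|c| + 1)) ≤ ε := by
    rw [← mul_div_assoc, div_le_iff₀ hc]
    nlinarith [abs_nonneg c]
  linarith

theorem al_smul (c : ℝ) (y : Y N) : al K m (c • y) = |c| * al K m y := by
  refine le_antisymm (al_smul_le c y) ?_
  rcases eq_or_ne c 0 with h0 | h0
  · rw [h0, abs_zero, zero_mul]
    exact al_nonneg _
  · have h1 := al_smul_le (K := K) (m := m) c⁻¹ (c • y)
    rw [smul_smul, inv_mul_cancel₀ h0, one_smul, abs_inv] at h1
    have h2 : 0 < |c| := abs_pos.2 h0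
    calc |c| * al K m y ≤ |c| * (|c|⁻¹ * al K m (c • y)) := mul_le_mul_of_nonneg_left h1 h2.le
      _ = al K m (c • y) := by rw [← mul_assoc, mul_inv_cancel₀ h2.ne', one_mul]

private theorem al_zero : al K m (0 : Y N) = 0 :=
  le_antisymm ((al_le_nr 0).trans_eq nr_zero) (al_nonneg 0)

private theorem al_mem0 {y : Y N} (h : y ∈ Xs N K m) : al K m y = 0 := by
  refine le_antisymm ?_ (al_nonneg y)
  have h1 := al_le (y := y) h
  rwa [sub_self, nr_zero] at h1

theorem al_congr {y z : Y N} (h : y - z ∈ Xs N K m) : al K m y = al K m z := by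
  have h1 := al_add_le (K := K) (m := m) (y - z) z
  have h2 := al_add_le (K := K) (m := m) (-(y - z)) y
  have h3 : -(y - z) ∈ Xs N K m := (Xs N K m).neg_mem h
  rw [al_mem0 h] at h1
  rw [al_mem0 h3] at h2
  have h4 : y - z + z = y := by abel
  have h5 : -(y - z) + y = z := by abel
  rw [h4] at h1
  rw [h5] at h2
  linarith

theorem al_neg (y : Y N) : al K m (-y) = al K m y := by
  have h1 := al_smul (K := K) (m := m) (-1) y
  rw [abs_neg, abs_one, one_mul] at h1
  have h2 : (-1 : ℝ) • y = -y := by rw [neg_smul, one_smul]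
  rwa [h2] at h1

/-- if `ψ + y - z ∈ X` then the quotient norms differ by at most `nr ψ` -/
theorem al_diff_le {ψ y z : Y N} (h : ψ + y - z ∈ Xs N K m) : |al K m y - al K m z| ≤ nr K ψ := by
  have h0 : al K m (ψ + y) = al K m z := al_congr h
  have h1 := al_add_le (K := K) (m := m) ψ y
  have h2 := al_add_le (K := K) (m := m) (-ψ) (ψ + y)
  have h3 : -ψ + (ψ + y) = y := by abel
  rw [h3, h0, al_neg] at h2
  rw [h0] at h1
  have h4 := al_le_nr (K := K) (m := m) ψ
  rw [abs_le]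
  constructor <;> linarith

theorem al_sum_le {ι : Type} (s : Finset ι) (f : ι → Y N) : al K m (∑ i ∈ s, f i) ≤ ∑ i ∈ s, al K m (f i) := by
  classical
  induction s using Finset.induction_on with
  | empty => simp [al_zero]
  | insert a s ha ih =>
    rw [Finset.sum_insert ha, Finset.sum_insert ha]
    exact (al_add_le _ _).trans (by linarith)

theorem al_of_mem {y : Y N} (h : y ∈ Xs N K m) : al K m y = 0 := by
  exact al_mem0 h

theorem al_eq_zero {y : Y N} (hy : y ∈ Vs N K) (h : al K m y = 0) : y ∈ Xs N K m := by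
  refine ⟨hy, fun w hw => ?_⟩
  have hw' := mem_nds.1 hw
  have hN : ((N : ℝ))⁻¹ ≤ 1 := by
    rcases Nat.eq_zero_or_pos N with h0 | h0
    · rw [h0]
      simp
    · exact inv_le_one_of_one_le₀ (by exact_mod_cast h0)
  have hN0 : 0 ≤ ((N : ℝ))⁻¹ := by positivity
  by_contra hne
  have hpos : 0 < |rr m y w| := abs_pos.2 hne
  obtain ⟨χ, hχ, h1⟩ := al_approx (K := K) (m := m) y (show al K m y < |rr m y w| / 2 by rw [h]; linarith)
  have hχ' : χ ∈ Vs N K ∧ ∀ w ∈ nds N K, rr m χ w = 0 := hχ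
  have h2 : rr m (y - χ) w = rr m y w := by
    have h3 := hχ'.2 w hw
    simp only [rr] at h3 ⊢
    have h4 : (y - χ) w - (N : ℝ)⁻¹ • (y - χ) w.tail =
        (y w - (N : ℝ)⁻¹ • y w.tail) - (χ w - (N : ℝ)⁻¹ • χ w.tail) := by
      rw [Pi.sub_apply, Pi.sub_apply, smul_sub]
      abel
    rw [h4, dt_sub_right, h3, sub_zero]
  have hd : y - χ ∈ Vs N K := (Vs N K).sub_mem hy hχ'.1
  have h5 : |rr m (y - χ) w| ≤ 2 * nr K (y - χ) := by
    unfold rr
    refine (abs_dt_le _ _).trans ?_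
    rw [norm_I_dir, one_mul]
    have h6 := norm_le_nr hd hw'.2
    have h7 : ‖(y - χ) w.tail‖ ≤ nr K (y - χ) := by
      refine norm_le_nr hd ?_
      rw [List.length_tail]
      omega
    have h8 : ‖(N : ℝ)⁻¹ • (y - χ) w.tail‖ ≤ nr K (y - χ) := by
      rw [norm_smul, Real.norm_eq_abs, abs_of_nonneg hN0]
      have h9 := mul_le_mul_of_nonneg_right hN (norm_nonneg ((y - χ) w.tail))
      linarith
    have h10 := norm_sub_le ((y - χ) w) ((N : ℝ)⁻¹ • (y - χ) w.tail)
    linarith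
  rw [h2] at h5
  linarith

theorem ze_sub_mem {y : Y N} (hy : y ∈ Vs N K) : y - ze K m y ∈ Xs N K m := by
  unfold ze
  split_ifs with h
  · have h1 := h.2.choose_spec.1
    have h2 : y - (y - h.2.choose) = h.2.choose := by abel
    rw [h2]
    exact h1
  · rw [sub_zero]
    apply al_eq_zero hy
    by_contra hne
    apply h
    refine ⟨hne, ?_⟩
    have hpos : 0 < al K m y := lt_of_le_of_ne (al_nonneg y) (Ne.symm hne)
    obtain ⟨χ, hχ, h1⟩ := al_approx (K := K) (m := m) y (show al K m y < 2 * al K m y by linarith)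
    exact ⟨χ, hχ, h1.le⟩

theorem ze_mem {y : Y N} (hy : y ∈ Vs N K) : ze K m y ∈ Vs N K := by
  have h1 : y - ze K m y ∈ Vs N K := (ze_sub_mem hy).1
  have h2 : ze K m y = y - (y - ze K m y) := by abel
  rw [h2]
  exact (Vs N K).sub_mem hy h1

theorem nr_ze_le (y : Y N) : nr K (ze K m y) ≤ 2 * al K m y := by
  unfold ze
  split_ifs with h
  · exact h.2.choose_spec.2
  · rw [nr_zero]
    have := al_nonneg (K := K) (m := m) y
    linarith

theorem ze_eq_zero {y : Y N} (h : al K m y = 0) : ze K m y = 0 := by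
  simp [ze, h]

end H50RC
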