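import Pool.Agent.H50.RC.Adg
import Pool.Agent.H50.RC.Afr

/-!
S05864 [H50 RC AST]: stopped nodes.
`lte_stp`: induction on the history. `lte_mem`: `lte σ p q` implies `q ∈ σ.M`.
`stop_count`: `submart` with `Ψ σ y = ∑_{p ∈ σ.M, |p| = k, stp σ p} (Dd L σ y p - r)`. Adding `q0`: an old `p` which was stopped stays stopped and `Dd` does not decrease (`Dd_add`); an old or new `p` which becomes stopped contributes `Dd L σ' y p - r > 0`.
(The histories store `y` at the moment of marking: `stp L r ((q0,y)::σ) p ↔ stp L r σ p ∨ (p ∈ M' ∧ r < Dd L ((q0,y)::σ) y p)`.) If `p` is stopped then `p ∈ σ.M`? (not needed, the sum is over `σ.M`; but a node `p = q0` new in the set could be flagged already: `stp σ p` implies `p ∈ σ.M`, induction.)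
Jump: `Dd_jump`, `∑ p = 1`. End: `r #stopped ≤ ∑_{stopped} Dd ≤ ∑_{all p ∈ M, |p|=k} Dd` (`Dd_nonneg`), `EX_Dd`.
`late_sum`: `frozen` with `c σ q = 1` if `k < |q| ≤ k + L` and `lte L r σ (q.drop (|q| - k)) q`, else `0`. The double sum over `(p, q)` is the sum over `q` (`p = q.drop (|q|-k)` is the only ancestor of length `k`, it is in `σ.M`).
At the end: `lte_stp`: `p` is stopped; for every stopped `p`: `∑_{q ∈ wn L σ p} ‖y q‖ ≤ L nr y ≤ L B` (levels `k+1..k+L ≤ K`, `sum_lev_norm_le`).
`unlate_sum`: `≤ ∑_{j=k+1}^{k+L} ∑_{q ∈ M, |q|=j} ‖v q‖`, `frozen_lev`.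
-/

set_option autoImplicit false

namespace H50RC

variable {N K R0 L : ℕ} {B r : ℝ}

theorem lte_stp {σ : St N} {p q : Nd N} (h : lte L r σ p q) : stp L r σ p := by
  induction σ with
  | nil => exact h
  | cons x σ ih =>
    rcases h with h1 | h1
    · exact Or.inl (ih h1)
    · exact h1.2

theorem stp_mem {σ : St N} {p : Nd N} (h : stp L r σ p) : p ∈ σ.M := by
  induction σ with
  | nil => exact absurd h id
  | cons x σ ih =>
    rcases h with h1 | h1
    · exact Finset.mem_insert_of_mem (ih h1)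
    · exact h1.1

theorem lte_mem {σ : St N} {p q : Nd N} (h : lte L r σ p q) : q ∈ σ.M := by
  induction σ with
  | nil => exact absurd h id
  | cons x σ ih =>
    rcases h with h1 | h1
    · exact Finset.mem_insert_of_mem (ih h1)
    · rw [h1.1]
      exact Finset.mem_insert_self _ _

/-- every marked node of level `≥ k` has exactly one marked ancestor of level `k` -/
private theorem ast_anc {M : Finset (Nd N)} (hM : PC M) (k : ℕ) (P : Nd N → Prop) [DecidablePred P]
    (f : Nd N → Nd N → ℝ) (hP : ∀ q, P q → k ≤ q.length) :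
    ∑ p ∈ M.filter (fun p => p.length = k), ∑ q ∈ M.filter (fun q => p <:+ q ∧ P q), f p q =
      ∑ q ∈ M.filter (fun q => P q), f (q.drop (q.length - k)) q := by
  classical
  have h1 : ∑ p ∈ M.filter (fun p => p.length = k), ∑ q ∈ M.filter (fun q => p <:+ q ∧ P q), f p q =
      ∑ q ∈ M.filter (fun q => P q), ∑ p ∈ M.filter (fun p => p.length = k ∧ p <:+ q), f p q := by
    refine Finset.sum_comm' fun p q => ?_
    simp only [Finset.mem_filter]
    tauto
  rw [h1]
  refine Finset.sum_congr rfl fun q hq => ?_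
  rw [Finset.mem_filter] at hq
  have hk := hP q hq.2
  have h2 : M.filter (fun p => p.length = k ∧ p <:+ q) = {q.drop (q.length - k)} := by
    ext p
    rw [Finset.mem_filter, Finset.mem_singleton]
    constructor
    · rintro ⟨_, h3, h4⟩
      rw [← h3]
      exact List.suffix_iff_eq_drop.1 h4
    · rintro rfl
      have h5 : q.drop (q.length - k) <:+ q := List.drop_suffix _ _
      refine ⟨?_, ?_, h5⟩
      · by_contra h6
        exact not_below_new hM h6 hq.1 h5
      · rw [List.length_drop]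
        omega
  rw [h2, Finset.sum_singleton]

private theorem ast_init (k : ℕ) (hk : 1 ≤ k) (P : Nd N → Prop) [DecidablePred P] :
    (S.init N).σ.M.filter (fun p => p.length = k ∧ P p) = ∅ := by
  rw [Finset.filter_eq_empty_iff]
  intro p hp hk2
  have h1 : p ∈ ({[]} : Finset (Nd N)) := hp
  rw [Finset.mem_singleton] at h1
  rw [h1, List.length_nil] at hk2
  omega

open Classical in
/-- the function of `stop_count` -/
private noncomputable def ast_f (L : ℕ) (r : ℝ) (k : ℕ) (σ : St N) (y : Y N) : ℝ :=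
  ∑ p ∈ σ.M.filter (fun p => p.length = k ∧ stp L r σ p), (Dd L σ y p - r)

private theorem ast_f_add {k : ℕ} {σ : St N} (hσ : PC σ.M) {y : Y N} {q0 : Nd N}
    (h0 : q0 ∉ σ.M) (h1 : q0.tail ∈ σ.M) : ast_f L r k σ y ≤ ast_f L r k ((q0, y) :: σ) y := by
  classical
  unfold ast_f
  have e1 : St.M ((q0, y) :: σ) = insert q0 σ.M := rfl
  have e2 : ∑ p ∈ (St.M ((q0, y) :: σ)).filter (fun p => p.length = k ∧ stp L r ((q0, y) :: σ) p),
      (Dd L ((q0, y) :: σ) y p - r) =
      (if (q0.length = k ∧ stp L r ((q0, y) :: σ) q0) then Dd L ((q0, y) :: σ) y q0 - r else 0) +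
      ∑ p ∈ σ.M, (if (p.length = k ∧ stp L r ((q0, y) :: σ) p) then Dd L ((q0, y) :: σ) y p - r else 0) := by
    rw [e1, Finset.sum_filter, Finset.sum_insert h0]
  have e3 : 0 ≤ (if (q0.length = k ∧ stp L r ((q0, y) :: σ) q0) then Dd L ((q0, y) :: σ) y q0 - r else 0) := by
    split_ifs with h
    · rcases h.2 with h2 | h2
      · exact absurd (stp_mem h2) h0
      · have := h2.2
        linarith
    · exact le_rfl
  rw [e2, Finset.sum_filter]
  have e4 : ∑ p ∈ σ.M, (if (p.length = k ∧ stp L r σ p) then Dd L σ y p - r else 0) ≤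
      ∑ p ∈ σ.M, (if (p.length = k ∧ stp L r ((q0, y) :: σ) p) then Dd L ((q0, y) :: σ) y p - r else 0) := by
    refine Finset.sum_le_sum fun p hp => ?_
    by_cases h2 : p.length = k ∧ stp L r σ p
    · have h3 : p.length = k ∧ stp L r ((q0, y) :: σ) p := ⟨h2.1, Or.inl h2.2⟩
      rw [if_pos h2, if_pos h3]
      have := Dd_add hσ (y := y) h0 h1 hp L
      linarith
    · rw [if_neg h2]
      split_ifs with h3
      · rcases h3.2 with h4 | h4
        · exact absurd ⟨h3.1, h4⟩ h2
        · have := h4.2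
          linarith
      · exact le_rfl
  linarith

private theorem ast_f_jump (k : ℕ) (σ : St N) {ι : Type} [Fintype ι] {y : Y N} {p : ι → ℝ}
    {y' : ι → Y N} (h : Jmp K B y p y') : ast_f L r k σ y ≤ ∑ j, p j * ast_f L r k σ (y' j) := by
  classical
  unfold ast_f
  simp only [Finset.mul_sum]
  rw [Finset.sum_comm]
  refine Finset.sum_le_sum fun q _ => ?_
  simp only [mul_sub, Finset.sum_sub_distrib]
  rw [← Finset.sum_mul, h.one, one_mul]
  have := Dd_jump L σ q h
  linarith

open Classical in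
theorem stop_count {k : ℕ} (hk : 1 ≤ k) (hL : 1 ≤ L) (t : PT N) (y : Y N) (ht : t.WFP K B y) (hy : y ∈ Vs N K)
    (hyB : nr K y ≤ B) :
    r * t.EX R0 (fun s _ => ((s.σ.M.filter (fun p => p.length = k ∧ stp L r s.σ p)).card : ℝ)) (S.init N) y ≤
      t.EX R0 (fun s y => Gg (k + L) s.σ y) (S.init N) y - t.EX R0 (fun s y => Gg k s.σ y) (S.init N) y := by
  rw [← EX_Dd hk hL t y ht hy hyB, ← EX_mul]
  have h1 := submart (R0 := R0) (K := K) (B := B) (fun σ y => ast_f L r k σ y)
    (fun σ y q hσ _ _ h1 h2 _ => ast_f_add (okh_PC hσ) h1 h2)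
    (fun σ y ι _ p y' _ _ _ hj => ast_f_jump k σ hj) t (S.init N) y ht inv_init hy hyB
  beta_reduce at h1
  have h0 : ast_f L r k (S.init N).σ y = 0 := by
    unfold ast_f
    rw [ast_init k hk (fun p => stp L r (S.init N).σ p), Finset.sum_empty]
  rw [h0] at h1
  have h2 : t.EX R0 (fun s y => ast_f L r k s.σ y) (S.init N) y ≤
      t.EX R0 (fun s y => (∑ p ∈ s.σ.M.filter (fun p => p.length = k), Dd L s.σ y p) -
        r * ((s.σ.M.filter (fun p => p.length = k ∧ stp L r s.σ p)).card : ℝ)) (S.init N) y := by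
    refine EX_mono (K := K) (B := B) _ _ (fun s y hs _ _ => ?_) t _ y ht inv_init hy hyB
    unfold ast_f
    rw [Finset.sum_sub_distrib, Finset.sum_const, nsmul_eq_mul, mul_comm r]
    refine sub_le_sub_right ?_ _
    refine Finset.sum_le_sum_of_subset_of_nonneg (fun p hp => ?_) fun p _ _ => Dd_nonneg _ _ _ _
    rw [Finset.mem_filter] at hp ⊢
    exact ⟨hp.1, hp.2.1⟩
  rw [EX_sub (R0 := R0) (fun s y => ∑ p ∈ s.σ.M.filter (fun p => p.length = k), Dd L s.σ y p)] at h2
  linarith

open Classical in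
/-- sums over the windows as sums over the marked nodes -/
private theorem ast_wn {σ : St N} (hσ : PC σ.M) (k : ℕ) (g : Nd N → Nd N → ℝ) :
    ∑ p ∈ σ.M.filter (fun p => p.length = k), ∑ q ∈ wn L σ p, g p q =
      ∑ q ∈ σ.M.filter (fun q => k < q.length ∧ q.length ≤ k + L), g (q.drop (q.length - k)) q := by
  rw [← ast_anc hσ k (fun q => k < q.length ∧ q.length ≤ k + L) g (fun q hq => hq.1.le)]
  refine Finset.sum_congr rfl fun p hp => ?_
  rw [Finset.mem_filter] at hp
  unfold wn
  rw [hp.2]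

open Classical in
/-- the weights of `late_sum` -/
private noncomputable def ast_c (L : ℕ) (r : ℝ) (k : ℕ) (σ : St N) (q : Nd N) : ℝ :=
  if k < q.length ∧ q.length ≤ k + L ∧ lte L r σ (q.drop (q.length - k)) q then 1 else 0

open Classical in
private theorem ast_late_eq {σ : St N} (hσ : PC σ.M) (k : ℕ) (v : Nd N → ℝ) :
    ∑ p ∈ σ.M.filter (fun p => p.length = k), ∑ q ∈ (wn L σ p).filter (fun q => lte L r σ p q), v q =
      ∑ q ∈ σ.M.filter (fun q => q ≠ []), ast_c L r k σ q * v q := by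
  have h1 : ∑ p ∈ σ.M.filter (fun p => p.length = k), ∑ q ∈ (wn L σ p).filter (fun q => lte L r σ p q), v q =
      ∑ p ∈ σ.M.filter (fun p => p.length = k), ∑ q ∈ wn L σ p, (if lte L r σ p q then v q else 0) := by
    refine Finset.sum_congr rfl fun p _ => ?_
    rw [Finset.sum_filter]
  rw [h1, ast_wn hσ k (fun p q => if lte L r σ p q then v q else 0), Finset.sum_filter, Finset.sum_filter]
  refine Finset.sum_congr rfl fun q _ => ?_
  unfold ast_c
  by_cases h2 : k < q.length ∧ q.length ≤ k + L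
  · have h3 : q ≠ [] := by
      rintro rfl
      rw [List.length_nil] at h2
      omega
    rw [if_pos h2, if_pos h3]
    by_cases h4 : lte L r σ (q.drop (q.length - k)) q
    · rw [if_pos h4, if_pos ⟨h2.1, h2.2, h4⟩, one_mul]
    · rw [if_neg h4, if_neg (fun h5 => h4 h5.2.2), zero_mul]
  · rw [if_neg h2]
    split_ifs with h3 h4
    · exact absurd ⟨h4.1, h4.2.1⟩ h2
    · rw [zero_mul]
    · rfl

/-- the mass of a window -/
private theorem ast_wn_mass {σ : St N} {y : Y N} (hy : y ∈ Vs N K) (p : Nd N) (h : p.length + L ≤ K) :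
    ∑ q ∈ wn L σ p, ‖y q‖ ≤ L * nr K y := by
  classical
  rw [← Finset.sum_fiberwise_of_maps_to (t := Finset.Ioc p.length (p.length + L))
    (g := fun q : Nd N => q.length) (fun q hq => by
      unfold wn at hq
      rw [Finset.mem_filter] at hq
      exact Finset.mem_Ioc.2 hq.2.2)]
  refine (Finset.sum_le_card_nsmul _ _ (nr K y) fun j hj => ?_).trans (le_of_eq ?_)
  · rw [Finset.mem_Ioc] at hj
    refine (Finset.sum_le_sum_of_subset_of_nonneg (t := lev N j) (fun q hq => ?_)
      fun _ _ _ => norm_nonneg _).trans (sum_lev_norm_le hy (by omega))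
    rw [Finset.mem_filter] at hq
    exact mem_lev.2 hq.2
  · rw [Nat.card_Ioc, nsmul_eq_mul]
    congr 1
    have : p.length + L - p.length = L := by omega
    rw [this]

open Classical in
theorem late_sum (hB : 0 ≤ B) {k : ℕ} (hk : 1 ≤ k) (hkK : k + L ≤ K) (t : PT N) (y : Y N) (ht : t.WFP K B y)
    (hy : y ∈ Vs N K) (hyB : nr K y ≤ B) :
    t.EX R0 (fun s _ => ∑ p ∈ s.σ.M.filter (fun p => p.length = k),
      ∑ q ∈ (wn L s.σ p).filter (fun q => lte L r s.σ p q), ‖s.σ.v q‖) (S.init N) y ≤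
    L * B * t.EX R0 (fun s _ => ((s.σ.M.filter (fun p => p.length = k ∧ stp L r s.σ p)).card : ℝ)) (S.init N) y := by
  have h1 : t.EX R0 (fun s _ => ∑ p ∈ s.σ.M.filter (fun p => p.length = k),
      ∑ q ∈ (wn L s.σ p).filter (fun q => lte L r s.σ p q), ‖s.σ.v q‖) (S.init N) y ≤
      t.EX R0 (fun s _ => ∑ q ∈ s.σ.M.filter (fun q => q ≠ []), ast_c L r k s.σ q * ‖s.σ.v q‖) (S.init N) y :=
    EX_mono (K := K) (B := B) _ _ (fun s y hs _ _ => (ast_late_eq (okh_PC hs.ok) k _).le) t _ y ht
      inv_init hy hyB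
  have h2 := frozen (K := K) (R0 := R0) (B := B) (ast_c L r k) (fun σ q => by
      unfold ast_c
      split_ifs
      · exact zero_le_one
      · exact le_rfl) (fun σ x q hx hq => by
      have h3 : ∀ p, lte L r (x :: σ) p q ↔ lte L r σ p q := fun p => by
        constructor
        · rintro (h4 | h4)
          · exact h4
          · exact absurd (h4.1 ▸ hq) hx
        · exact fun h4 => Or.inl h4
      unfold ast_c
      simp only [h3]) t y ht hy hyB
  have h3 : t.EX R0 (fun s y' => ∑ q ∈ s.σ.M.filter (fun q => q ≠ []), ast_c L r k s.σ q * ‖y' q‖)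
      (S.init N) y ≤ t.EX R0 (fun s _ => L * B *
        ((s.σ.M.filter (fun p => p.length = k ∧ stp L r s.σ p)).card : ℝ)) (S.init N) y := by
    refine EX_mono (K := K) (B := B) _ _ (fun s y hs hy hyB => ?_) t _ y ht inv_init hy hyB
    rw [← ast_late_eq (okh_PC hs.ok) k (fun q => ‖y q‖)]
    have h4 : ∀ p ∈ s.σ.M.filter (fun p => p.length = k),
        ∑ q ∈ (wn L s.σ p).filter (fun q => lte L r s.σ p q), ‖y q‖ ≤
        if stp L r s.σ p then L * B else 0 := by
      intro p hp
      rw [Finset.mem_filter] at hp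
      split_ifs with h5
      · refine (Finset.sum_le_sum_of_subset_of_nonneg (Finset.filter_subset _ _)
          fun _ _ _ => norm_nonneg _).trans ((ast_wn_mass hy p (by omega)).trans ?_)
        exact mul_le_mul_of_nonneg_left hyB (Nat.cast_nonneg L)
      · refine le_of_eq (Finset.sum_eq_zero fun q hq => ?_)
        rw [Finset.mem_filter] at hq
        exact absurd (lte_stp hq.2) h5
    refine (Finset.sum_le_sum h4).trans (le_of_eq ?_)
    rw [← Finset.sum_filter, Finset.filter_filter, Finset.sum_const, nsmul_eq_mul, mul_comm]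
  rw [EX_mul (R0 := R0) (L * B) (fun s _ =>
    ((s.σ.M.filter (fun p => p.length = k ∧ stp L r s.σ p)).card : ℝ))] at h3
  exact h1.trans (h2.trans h3)

open Classical in
theorem unlate_sum (hB : 0 ≤ B) {k : ℕ} (hk : 1 ≤ k) (hkK : k + L ≤ K) (t : PT N) (y : Y N) (ht : t.WFP K B y)
    (hy : y ∈ Vs N K) (hyB : nr K y ≤ B) :
    t.EX R0 (fun s _ => ∑ p ∈ s.σ.M.filter (fun p => p.length = k),
      ∑ q ∈ (wn L s.σ p).filter (fun q => ¬ lte L r s.σ p q), ‖s.σ.v q‖) (S.init N) y ≤ L * B := by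
  have h1 : t.EX R0 (fun s _ => ∑ p ∈ s.σ.M.filter (fun p => p.length = k),
      ∑ q ∈ (wn L s.σ p).filter (fun q => ¬ lte L r s.σ p q), ‖s.σ.v q‖) (S.init N) y ≤
      t.EX R0 (fun s _ => ∑ j ∈ Finset.Ioc k (k + L),
        ∑ q ∈ s.σ.M.filter (fun q => q.length = j), ‖s.σ.v q‖) (S.init N) y := by
    refine EX_mono (K := K) (B := B) _ _ (fun s y hs hy hyB => ?_) t _ y ht inv_init hy hyB
    have h2 : ∑ p ∈ s.σ.M.filter (fun p => p.length = k),
        ∑ q ∈ (wn L s.σ p).filter (fun q => ¬ lte L r s.σ p q), ‖s.σ.v q‖ ≤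
        ∑ p ∈ s.σ.M.filter (fun p => p.length = k), ∑ q ∈ wn L s.σ p, ‖s.σ.v q‖ :=
      Finset.sum_le_sum fun p _ => Finset.sum_le_sum_of_subset_of_nonneg (Finset.filter_subset _ _)
        fun _ _ _ => norm_nonneg _
    refine h2.trans ?_
    rw [ast_wn (okh_PC hs.ok) k (fun _ q => ‖s.σ.v q‖)]
    refine le_of_eq ?_
    rw [← Finset.sum_fiberwise_of_maps_to (t := Finset.Ioc k (k + L)) (g := fun q : Nd N => q.length)
      (fun q hq => by
        rw [Finset.mem_filter] at hq
        exact Finset.mem_Ioc.2 hq.2)]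
    refine Finset.sum_congr rfl fun j hj => ?_
    rw [Finset.mem_Ioc] at hj
    refine Finset.sum_congr ?_ fun _ _ => rfl
    ext q
    simp only [Finset.mem_filter]
    constructor
    · rintro ⟨⟨h3, _⟩, h4⟩
      exact ⟨h3, h4⟩
    · rintro ⟨h3, h4⟩
      exact ⟨⟨h3, by omega⟩, h4⟩
  refine h1.trans ?_
  rw [EX_sum (R0 := R0) (Finset.Ioc k (k + L))
    (fun j s _ => ∑ q ∈ s.σ.M.filter (fun q => q.length = j), ‖s.σ.v q‖)]
  refine (Finset.sum_le_card_nsmul _ _ B fun j hj => ?_).trans (le_of_eq ?_)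
  · rw [Finset.mem_Ioc] at hj
    exact frozen_lev j (by omega) (by omega) t y ht hy hyB
  · rw [Nat.card_Ioc, nsmul_eq_mul]
    congr 1
    have : k + L - k = L := by omega
    rw [this]

end H50RC
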