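import Pool.Agent.H50.RC.Def

/-!
S05864 [H50 RC BAS]: the tree of words. All elementary (induction on `k`, `Finset.sum_map`, `Finset.sum_product`,
`Finset.sum_biUnion`; the children of `w` are `a :: w`; a node of level `k + 1` is `a :: w` for exactly one `(a, w)`).
`sum_anc`: for `q` of length `≥ k` there is exactly one suffix of length `k` (`List.suffix_iff_eq_drop`, `q.drop (q.length - k)`).
`sum_below`: a node `g` of length `|w| + j` with `w <:+ g` is `h ++ w` with `|h| = j` for a unique `h`.
-/

set_option autoImplicit false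

namespace H50RC

theorem mem_lev {N k : ℕ} {w : Nd N} : w ∈ lev N k ↔ w.length = k := by
  induction k generalizing w with
  | zero => simp [lev, List.length_eq_zero_iff]
  | succ k ih =>
    cases w with
    | nil => simp [lev, consEmb]
    | cons a w =>
      simp only [lev, Finset.mem_map, Finset.mem_product, Finset.mem_univ, true_and,
        List.length_cons, Nat.add_right_cancel_iff]
      constructor
      · rintro ⟨⟨b, v⟩, hv, h⟩
        have h' : b :: v = a :: w := h
        rw [List.cons.injEq] at h'
        rw [← h'.2]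
        exact ih.1 hv
      · intro h
        exact ⟨(a, w), ih.2 h, rfl⟩

theorem mem_nds {N K : ℕ} {w : Nd N} : w ∈ nds N K ↔ w ≠ [] ∧ w.length ≤ K := by
  simp only [nds, Finset.mem_biUnion, Finset.mem_range, mem_lev]
  constructor
  · rintro ⟨k, hk, h⟩
    refine ⟨?_, by omega⟩
    rintro rfl
    simp at h
  · rintro ⟨h1, h2⟩
    have h3 : 0 < w.length := List.length_pos_of_ne_nil h1
    exact ⟨w.length - 1, by omega, by omega⟩

theorem sum_lev_succ {N k : ℕ} {E : Type} [AddCommMonoid E] (f : Nd N → E) :
    ∑ w ∈ lev N (k + 1), f w = ∑ w ∈ lev N k, ∑ a, f (a :: w) := by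
  rw [lev, Finset.sum_map, Finset.sum_product_right]
  rfl

theorem sum_nds {N K : ℕ} {E : Type} [AddCommMonoid E] (f : Nd N → E) :
    ∑ w ∈ nds N K, f w = ∑ k ∈ Finset.range K, ∑ w ∈ lev N (k + 1), f w := by
  rw [nds, Finset.sum_biUnion]
  intro i _ j _ hij
  rw [Function.onFun, Finset.disjoint_left]
  intro w h1 h2
  rw [mem_lev] at h1 h2
  omega

theorem card_lev (N k : ℕ) : (lev N k).card = N ^ k := by
  induction k with
  | zero => simp [lev]
  | succ k ih =>
    rw [lev, Finset.card_map, Finset.card_product, ih, Finset.card_univ, Fintype.card_fin]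
    ring

/-- splitting a word of length `j + k` -/
theorem sum_lev_add {N j k : ℕ} {E : Type} [AddCommMonoid E] (f : Nd N → E) :
    ∑ w ∈ lev N (j + k), f w = ∑ w ∈ lev N k, ∑ g ∈ lev N j, f (g ++ w) := by
  induction j generalizing f with
  | zero =>
    rw [Nat.zero_add]
    simp [lev]
  | succ j ih =>
    have h1 : j + 1 + k = j + k + 1 := by omega
    rw [h1, sum_lev_succ, ih]
    refine Finset.sum_congr rfl fun w _ => ?_
    rw [sum_lev_succ]
    rfl

/-- the descendants of `w` of relative level `j` -/
theorem sum_below {N j : ℕ} {E : Type} [AddCommMonoid E] (w : Nd N) (f : Nd N → E) :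
    ∑ g ∈ lev N j, f (g ++ w) = ∑ q ∈ (lev N (j + w.length)).filter (fun q => w <:+ q), f q := by
  refine Finset.sum_nbij (fun g => g ++ w) ?_ ?_ ?_ ?_
  · intro g hg
    rw [Finset.mem_filter, mem_lev, List.length_append, mem_lev.1 hg]
    exact ⟨rfl, List.suffix_append g w⟩
  · intro g _ g' _ h
    exact List.append_cancel_right h
  · intro q hq
    rw [Finset.mem_coe, Finset.mem_filter, mem_lev] at hq
    obtain ⟨h1, g, rfl⟩ := hq
    refine ⟨g, ?_, rfl⟩
    rw [Finset.mem_coe, mem_lev]
    rw [List.length_append] at h1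
    omega
  · intro g _
    rfl

/-- every node of length `≥ k` has exactly one ancestor of length `k` -/
theorem sum_anc {N k : ℕ} {q : Nd N} (hq : k ≤ q.length) {E : Type} [AddCommMonoid E] (f : Nd N → E) :
    ∑ p ∈ (lev N k).filter (fun p => p <:+ q), f p = f (q.drop (q.length - k)) := by
  have h1 : (lev N k).filter (fun p => p <:+ q) = {q.drop (q.length - k)} := by
    ext p
    rw [Finset.mem_filter, mem_lev, Finset.mem_singleton]
    constructor
    · rintro ⟨h1, h2⟩
      rw [← h1]
      exact List.suffix_iff_eq_drop.1 h2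
    · rintro rfl
      refine ⟨?_, List.drop_suffix _ _⟩
      rw [List.length_drop]
      omega
  rw [h1, Finset.sum_singleton]

/-- `Finset` version of the children -/
theorem mem_children {N : ℕ} {w q : Nd N} : (∃ a, q = a :: w) ↔ q ≠ [] ∧ q.tail = w := by
  constructor
  · rintro ⟨a, rfl⟩
    simp
  · rintro ⟨h1, h2⟩
    cases q with
    | nil => exact absurd rfl h1
    | cons a q => exact ⟨a, by rw [← h2, List.tail_cons]⟩

end H50RC
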