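import Pool.Agent.H50.RC.Alp

/-!
S05864: phases: definitions (PART C3 of proofs 322). A node of the cell structure is given by `d` and `sub`; `W` is its
weight. `x` is an exit iff `2 W/D ≤ S_x`.
-/

set_option autoImplicit false

namespace H50RC

variable {N : ℕ}

/-- `α_(x,c)` -/
noncomputable def alx (K m : ℕ) (sub : ℕ → Bool → Cell N) (x : ℕ) (c : Bool) : ℝ := al K m (sub x c).tot

/-- `S_x` -/
noncomputable def Sx (K m : ℕ) (sub : ℕ → Bool → Cell N) (x : ℕ) : ℝ := alx K m sub x false + alx K m sub x true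

/-- total flow of a node -/
noncomputable def tt (d : ℕ) (sub : ℕ → Bool → Cell N) : Y N :=
  ∑ x ∈ Finset.range (2 ^ d), ((sub x false).tot + (sub x true).tot)

/-- exits -/
def exq (K m : ℕ) (d : ℕ) (sub : ℕ → Bool → Cell N) (W : ℝ) (x : ℕ) : Prop := 2 * (W / 2 ^ d) ≤ Sx K m sub x

open Classical in
/-- the weight `w_1(x)`, copied from the left at exits (`1/2` if there is no non-exit before) -/
noncomputable def w1q (K m : ℕ) (d : ℕ) (sub : ℕ → Bool → Cell N) (W : ℝ) : ℕ → ℝ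
  | 0 => if exq K m d sub W 0 then 1 / 2 else alx K m sub 0 true / Sx K m sub 0
  | x + 1 => if exq K m d sub W (x + 1) then w1q K m d sub W x else alx K m sub (x + 1) true / Sx K m sub (x + 1)

/-- the weights `w_c(x)` -/
noncomputable def wq (K m : ℕ) (d : ℕ) (sub : ℕ → Bool → Cell N) (W : ℝ) (x : ℕ) (c : Bool) : ℝ :=
  if c then w1q K m d sub W x else 1 - w1q K m d sub W x

/-- the weight of the sub-cell `(x, c)` -/
noncomputable def Wq (K m : ℕ) (d : ℕ) (sub : ℕ → Bool → Cell N) (W : ℝ) (x : ℕ) (c : Bool) : ℝ :=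
  W / 2 ^ d * wq K m d sub W x c

open Classical in
/-- the phase lift -/
noncomputable def PhL (K m : ℕ) : Cell N → ℝ → Y N
  | .leaf Φ, _ => ze K m Φ
  | .node d sub _ _ _, W => ∑ x ∈ Finset.range (2 ^ d),
      if exq K m d sub W x then ze K m (((2 : ℝ) ^ d)⁻¹ • tt d sub)
      else PhL K m (sub x false) (Wq K m d sub W x false) + PhL K m (sub x true) (Wq K m d sub W x true)

open Classical in
/-- `y^c_x` -/
noncomputable def yq (K m : ℕ) (d : ℕ) (sub : ℕ → Bool → Cell N) (W : ℝ) (x : ℕ) (c : Bool) : Y N :=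
  if exq K m d sub W x then ze K m (sub x c).tot else PhL K m (sub x c) (Wq K m d sub W x c)

open Classical in
/-- `y^tot_x` -/
noncomputable def ytq (K m : ℕ) (d : ℕ) (sub : ℕ → Bool → Cell N) (W : ℝ) (x : ℕ) : Y N :=
  if exq K m d sub W x then ze K m (((2 : ℝ) ^ d)⁻¹ • tt d sub)
  else PhL K m (sub x false) (Wq K m d sub W x false) + PhL K m (sub x true) (Wq K m d sub W x true)

/-- the window term -/
noncomputable def Winq (K m : ℕ) (d : ℕ) (ψ : ℕ → Y N) (ν : Om N) (ν0 om : ℕ → Om N) (y : ℕ → Bool → Y N) (yt : ℕ → Y N) : ℝ :=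
  ∑ x ∈ Finset.range (2 ^ d), (pr K m (ν0 x) (y x false) + pr K m (nu1 ν0 om x) (y x true)) +
    ∑ x ∈ Finset.Ico 1 (2 ^ d), pr K m (om x) (ψ x) - pr K m ν (∑ x ∈ Finset.range (2 ^ d), yt x)

theorem PhL_node (K m : ℕ) (d : ℕ) (sub : ℕ → Bool → Cell N) (ψ : ℕ → Y N) (ν0 om : ℕ → Om N) (W : ℝ) :
    PhL K m (.node d sub ψ ν0 om) W = ∑ x ∈ Finset.range (2 ^ d), ytq K m d sub W x := by
  simp only [PhL, ytq]

theorem tot_node (d : ℕ) (sub : ℕ → Bool → Cell N) (ψ : ℕ → Y N) (ν0 om : ℕ → Om N) :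
    (Cell.node d sub ψ ν0 om).tot = tt d sub := by
  simp only [Cell.tot, tt]

end H50RC
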