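import Pool.Agent.H50.RC.CDef

/-!
S05864 [H50 RC CCL]: classes of the flows of a well formed cell.
`WF_tot_mem`: induction on the cell. `nr_tot_le`: induction, `nr_sum_le`, `nr_add_le`. `mass_nonneg`: induction.
`cls_step`: the sum of the two relations at `x + 1`. `cls_const`: so `T_x = tot(x,0) + tot(x,1)` has the same class mod `X` for all `x < 2^d` (induction on `x`), and `(2^d)⁻¹ • ∑_x' T_x' - T_x = (2^d)⁻¹ • ∑_x' (T_x' - T_x)`.
`al_tt_le`: `al (2^-d tt) = al (T_x) ≤ α_(x,0) + α_(x,1)` (`al_congr`, `al_smul`, `al_add_le`). `alx_diff`: `al_diff_le` with the relations (`-ψ` for `c = false`, `nr_neg`).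
-/

set_option autoImplicit false

namespace H50RC

variable {N K m : ℕ}

theorem WF_tot_mem (Q : Cell N) : ∀ (i : ℕ) (ν : Om N), Q.WF K m i ν → Q.tot ∈ Vs N K := by
  induction Q with
  | leaf Φ =>
    intro i ν h
    simp only [Cell.WF] at h
    simp only [Cell.tot]
    exact h.2
  | node d sub ψ ν0 om ih =>
    intro i ν h
    simp only [Cell.WF] at h
    obtain ⟨-, -, -, -, -, -, -, -, -, -, h11⟩ := h
    simp only [Cell.tot]
    refine Submodule.sum_mem _ fun x hx => ?_
    have hx' := h11 x (Finset.mem_range.1 hx)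
    exact Submodule.add_mem _ (ih x false _ _ hx'.1) (ih x true _ _ hx'.2)

theorem mass_nonneg (Q : Cell N) : 0 ≤ Q.mass K := by
  induction Q with
  | leaf Φ =>
    simp only [Cell.mass]
    exact nr_nonneg _
  | node d sub ψ ν0 om ih =>
    simp only [Cell.mass]
    exact add_nonneg (Finset.sum_nonneg fun x _ => add_nonneg (ih x false) (ih x true))
      (Finset.sum_nonneg fun x _ => nr_nonneg _)

theorem nr_tot_le (Q : Cell N) : nr K Q.tot ≤ Q.mass K := by
  induction Q with
  | leaf Φ =>
    simp only [Cell.mass, Cell.tot]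
    exact le_rfl
  | node d sub ψ ν0 om ih =>
    simp only [Cell.mass, Cell.tot]
    have h1 : nr K (∑ x ∈ Finset.range (2 ^ d), ((sub x false).tot + (sub x true).tot)) ≤
        ∑ x ∈ Finset.range (2 ^ d), ((sub x false).mass K + (sub x true).mass K) := by
      refine (nr_sum_le _ _).trans (Finset.sum_le_sum fun x _ => ?_)
      exact (nr_add_le _ _).trans (add_le_add (ih x false) (ih x true))
    have h2 : 0 ≤ ∑ x ∈ Finset.Ico 1 (2 ^ d), nr K (ψ x) := Finset.sum_nonneg fun x _ => nr_nonneg _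
    linarith

theorem al_tot_le (Q : Cell N) : al K m Q.tot ≤ Q.mass K :=
  (al_le_nr _).trans (nr_tot_le Q)

theorem cls_const {d : ℕ} {sub : ℕ → Bool → Cell N} {ψ : ℕ → Y N} {ν0 om : ℕ → Om N} {i : ℕ} {ν : Om N}
    (h : (Cell.node d sub ψ ν0 om).WF K m i ν) {x : ℕ} (hx : x < 2 ^ d) :
    ((2 : ℝ) ^ d)⁻¹ • tt d sub - ((sub x false).tot + (sub x true).tot) ∈ Xs N K m := by
  have h' := h
  simp only [Cell.WF] at h'
  obtain ⟨-, -, -, -, -, -, -, -, h9, h10, -⟩ := h'
  have hstep : ∀ x, x + 1 < 2 ^ d → ((sub x false).tot + (sub x true).tot) -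
      ((sub (x + 1) false).tot + (sub (x + 1) true).tot) ∈ Xs N K m := by
    intro x hx
    have h1 := Submodule.add_mem _ (h9 x hx) (h10 x hx)
    have h2 : ((sub x false).tot + (sub x true).tot) -
        ((sub (x + 1) false).tot + (sub (x + 1) true).tot) =
        ψ (x + 1) + (sub x true).tot - (sub (x + 1) true).tot +
          (-ψ (x + 1) + (sub x false).tot - (sub (x + 1) false).tot) := by abel
    rw [h2]
    exact h1
  have h0 : ∀ x, x < 2 ^ d → ((sub 0 false).tot + (sub 0 true).tot) -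
      ((sub x false).tot + (sub x true).tot) ∈ Xs N K m := by
    intro x
    induction x with
    | zero =>
      intro _
      rw [sub_self]
      exact Submodule.zero_mem _
    | succ x ih =>
      intro hx
      have h1 := Submodule.add_mem _ (ih (by omega)) (hstep x hx)
      have h2 : ((sub 0 false).tot + (sub 0 true).tot) -
          ((sub (x + 1) false).tot + (sub (x + 1) true).tot) =
          ((sub 0 false).tot + (sub 0 true).tot) - ((sub x false).tot + (sub x true).tot) +
            (((sub x false).tot + (sub x true).tot) -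
              ((sub (x + 1) false).tot + (sub (x + 1) true).tot)) := by abel
      rw [h2]
      exact h1
  have h3 : ((2 : ℝ) ^ d)⁻¹ • tt d sub - ((sub x false).tot + (sub x true).tot) =
      ((2 : ℝ) ^ d)⁻¹ • ∑ x' ∈ Finset.range (2 ^ d), (((sub x' false).tot + (sub x' true).tot) -
        ((sub x false).tot + (sub x true).tot)) := by
    rw [Finset.sum_sub_distrib, smul_sub, Finset.sum_const, Finset.card_range,
      ← Nat.cast_smul_eq_nsmul ℝ, smul_smul]
    push_cast
    rw [inv_mul_cancel₀ (by positivity), one_smul]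
    rfl
  rw [h3]
  refine Submodule.smul_mem _ _ (Submodule.sum_mem _ fun x' hx' => ?_)
  have h4 := Submodule.sub_mem _ (h0 x hx) (h0 x' (Finset.mem_range.1 hx'))
  have h5 : ((sub x' false).tot + (sub x' true).tot) - ((sub x false).tot + (sub x true).tot) =
      ((sub 0 false).tot + (sub 0 true).tot) - ((sub x false).tot + (sub x true).tot) -
        (((sub 0 false).tot + (sub 0 true).tot) - ((sub x' false).tot + (sub x' true).tot)) := by
    abel
  rw [h5]
  exact h4

theorem al_tt_le {d : ℕ} {sub : ℕ → Bool → Cell N} {ψ : ℕ → Y N} {ν0 om : ℕ → Om N} {i : ℕ} {ν : Om N}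
    (h : (Cell.node d sub ψ ν0 om).WF K m i ν) {x : ℕ} (hx : x < 2 ^ d) :
    al K m (tt d sub) / 2 ^ d ≤ Sx K m sub x := by
  have h1 := al_congr (cls_const h hx)
  rw [al_smul, abs_of_nonneg (by positivity)] at h1
  have h2 : al K m (tt d sub) / 2 ^ d = ((2 : ℝ) ^ d)⁻¹ * al K m (tt d sub) := by
    rw [div_eq_mul_inv, mul_comm]
  rw [h2, h1]
  exact al_add_le _ _

theorem alx_diff {d : ℕ} {sub : ℕ → Bool → Cell N} {ψ : ℕ → Y N} {ν0 om : ℕ → Om N} {i : ℕ} {ν : Om N}
    (h : (Cell.node d sub ψ ν0 om).WF K m i ν) {x : ℕ} (hx : x + 1 < 2 ^ d) (c : Bool) :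
    |alx K m sub x c - alx K m sub (x + 1) c| ≤ nr K (ψ (x + 1)) := by
  simp only [Cell.WF] at h
  obtain ⟨-, -, -, -, -, -, -, -, h9, h10, -⟩ := h
  cases c with
  | true => exact al_diff_le (h9 x hx)
  | false =>
    have h1 := al_diff_le (h10 x hx)
    rwa [nr_neg] at h1

theorem alx_nonneg (sub : ℕ → Bool → Cell N) (x : ℕ) (c : Bool) : 0 ≤ alx K m sub x c := al_nonneg _

theorem Sx_nonneg (sub : ℕ → Bool → Cell N) (x : ℕ) : 0 ≤ Sx K m sub x :=
  add_nonneg (al_nonneg _) (al_nonneg _)

end H50RC
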