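import Pool.Agent.H50.RC.Cpt

/-!
S05864 [H50 RC CIN]: the induction (3.2) of proofs 322.
-/

set_option autoImplicit false

namespace H50RC

variable {N K m : ℕ}

open Classical in
/-- mass of the leaves of the phase -/
noncomputable def mlq (K m : ℕ) : Cell N → ℝ → ℝ
  | .leaf Φ, _ => nr K Φ
  | .node d sub _ _ _, W => ∑ x ∈ Finset.range (2 ^ d) \ (Finset.range (2 ^ d)).filter (fun x => exq K m d sub W x),
      ((if wq K m d sub W x false = 0 then 0 else mlq K m (sub x false) (Wq K m d sub W x false)) +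
        (if wq K m d sub W x true = 0 then 0 else mlq K m (sub x true) (Wq K m d sub W x true)))

/-- first statement -/
def ClA (K m : ℕ) (Lam0 C1 : ℝ) (Q : Cell N) (i : ℕ) (ν : Om N) : Prop :=
  ∀ W : ℝ, 0 < W → al K m Q.tot / 2 ≤ W → W ≤ al K m Q.tot →
    |Q.Tot K m ν - pr K m ν (PhL K m Q W) - (toPTr K m Q i W ν).sum (Wd.win K m)| ≤
      Lam0 * (2 * Q.mass K - 2 * (toPTr K m Q i W ν).sum (Wd.V K) - (toPTr K m Q i W ν).sum Wd.SE - 2 * mlq K m Q W) +
        3 * C1 * mlq K m Q W ∧
    W ≤ mlq K m Q W + (toPTr K m Q i W ν).sum Wd.SE / 2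

/-- second statement -/
def ClB (K m : ℕ) (Lam0 : ℝ) (Q : Cell N) (ν : Om N) : Prop :=
  ∀ ζ ∈ Vs N K, Q.tot - ζ ∈ Xs N K m → nr K ζ ≤ 2 * al K m Q.tot →
    |Q.Tot K m ν - pr K m ν ζ| ≤ Lam0 * (2 * Q.mass K - al K m Q.tot)

theorem mlq_nonneg (Q : Cell N) : ∀ W : ℝ, 0 ≤ mlq K m Q W := by
  classical
  induction Q with
  | leaf Φ =>
    intro W
    rw [mlq]
    exact nr_nonneg _
  | node d sub ψ ν0 om ih =>
    intro W
    rw [mlq]
    refine Finset.sum_nonneg fun x _ => add_nonneg ?_ ?_
    · split_ifs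
      · exact le_rfl
      · exact ih x false _
    · split_ifs
      · exact le_rfl
      · exact ih x true _

theorem sumV_nonneg (P : PTr N) : 0 ≤ P.sum (Wd.V K) := by
  induction P with
  | leaf lv W ν y =>
    rw [PTr.sum]
  | node D sub ih =>
    rw [PTr.sum]
    refine add_nonneg ?_ (Finset.sum_nonneg fun x _ => add_nonneg ?_ ?_)
    · exact Finset.sum_nonneg fun _ _ => nr_nonneg _
    · split_ifs
      · exact le_rfl
      · exact ih x false
    · split_ifs
      · exact le_rfl
      · exact ih x true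

theorem sumSE_nonneg (P : PTr N) (hP : P.OK K m) : 0 ≤ P.sum Wd.SE := by
  induction P with
  | leaf lv W ν y =>
    rw [PTr.sum]
  | node D sub ih =>
    rw [PTr.OK] at hP
    rw [PTr.sum]
    refine add_nonneg ?_ (Finset.sum_nonneg fun x hx => ?_)
    · exact Finset.sum_nonneg fun x _ => hP.1.S_nonneg x
    · rw [Finset.mem_sdiff, Finset.mem_range] at hx
      refine add_nonneg ?_ ?_
      · split_ifs with h
        · exact le_rfl
        · exact ih x false (hP.2 x hx.1 hx.2 false h).1
      · split_ifs with h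
        · exact le_rfl
        · exact ih x true (hP.2 x hx.1 hx.2 true h).1

theorem stepA_leaf {Lam0 C1 : ℝ} (hC1 : 0 ≤ C1)
    (hM1 : ∀ ω : Om N, BB K 1 ω → ∀ χ ∈ Xs N K m, |pr K m ω χ| ≤ C1 * nr K χ) (Φ : Y N) (i : ℕ) (ν : Om N)
    (h : (Cell.leaf Φ).WF K m i ν) : ClA K m Lam0 C1 (Cell.leaf Φ) i ν := by
  rw [Cell.WF] at h
  intro W hW h1 h2
  have h2' : W ≤ al K m Φ := h2
  have e1 : (Cell.leaf Φ).Tot K m ν = pr K m ν Φ := by rw [Cell.Tot]
  have e2 : PhL K m (Cell.leaf Φ) W = ze K m Φ := by rw [PhL]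
  have e3 : ∀ F : Wd N → ℝ, (toPTr K m (Cell.leaf Φ) i W ν).sum F = 0 := by
    intro F
    rw [toPTr, PTr.sum]
  have e4 : mlq K m (Cell.leaf Φ) W = nr K Φ := by rw [mlq]
  have e5 : (Cell.leaf Φ).mass K = nr K Φ := by rw [Cell.mass]
  rw [e1, e2, e3, e3, e3, e4, e5, sub_zero, ← pr_sub_right]
  have e6 := hM1 ν h.1 _ (ze_sub_mem (K := K) (m := m) h.2)
  have e7 := nr_sub_le (K := K) Φ (ze K m Φ)
  have e8 := nr_ze_le (K := K) (m := m) Φ
  have e9 := al_le_nr (K := K) (m := m) Φ
  have e10 : C1 * nr K (Φ - ze K m Φ) ≤ C1 * (3 * nr K Φ) := mul_le_mul_of_nonneg_left (by linarith) hC1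
  refine ⟨by linarith, by linarith⟩

open Classical in
/-- contribution of the sub-cell `(x, c)` to the sum of `F` over the phase -/
noncomputable def cinF (K m i d : ℕ) (sub : ℕ → Bool → Cell N) (ν0 om : ℕ → Om N) (W : ℝ) (F : Wd N → ℝ)
    (x : ℕ) (c : Bool) : ℝ :=
  if exq K m d sub W x then 0 else if wq K m d sub W x c = 0 then 0 else
    (toPTr K m (sub x c) (i + 1) (Wq K m d sub W x c) (if c then nu1 ν0 om x else ν0 x)).sum F

open Classical in
/-- contribution of the sub-cell `(x, c)` to the mass of the leaves -/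
noncomputable def cinM (K m d : ℕ) (sub : ℕ → Bool → Cell N) (W : ℝ) (x : ℕ) (c : Bool) : ℝ :=
  if exq K m d sub W x then 0 else if wq K m d sub W x c = 0 then 0 else
    mlq K m (sub x c) (Wq K m d sub W x c)

theorem cin_sum_node (i d : ℕ) (sub : ℕ → Bool → Cell N) (ψ : ℕ → Y N) (ν0 om : ℕ → Om N) (W : ℝ) (ν : Om N)
    (F : Wd N → ℝ) : (toPTr K m (.node d sub ψ ν0 om) i W ν).sum F = F (wdq K m i d sub ψ ν ν0 om W) +
      ∑ x ∈ Finset.range (2 ^ d), (cinF K m i d sub ν0 om W F x false + cinF K m i d sub ν0 om W F x true) := by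
  classical
  rw [toPTr, PTr.sum]
  congr 1
  show ∑ x ∈ Finset.range (2 ^ d) \ (Finset.range (2 ^ d)).filter (fun x => exq K m d sub W x), _ = _
  rw [← Finset.filter_not, Finset.sum_filter]
  refine Finset.sum_congr rfl fun x _ => ?_
  rw [cinF, cinF]
  by_cases he : exq K m d sub W x
  · rw [if_neg (not_not.2 he), if_pos he, if_pos he, add_zero]
  · rw [if_pos he, if_neg he, if_neg he]
    show (if wq K m d sub W x false = 0 then 0 else _) + (if wq K m d sub W x true = 0 then 0 else _) = _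
    by_cases h1 : wq K m d sub W x false = 0
    · by_cases h2 : wq K m d sub W x true = 0
      · rw [if_pos h1, if_pos h2]
      · rw [if_pos h1, if_neg h2]
    · by_cases h2 : wq K m d sub W x true = 0
      · rw [if_neg h1, if_pos h2]
      · rw [if_neg h1, if_neg h2]

theorem cin_mlq_node (d : ℕ) (sub : ℕ → Bool → Cell N) (ψ : ℕ → Y N) (ν0 om : ℕ → Om N) (W : ℝ) :
    mlq K m (.node d sub ψ ν0 om) W =
      ∑ x ∈ Finset.range (2 ^ d), (cinM K m d sub W x false + cinM K m d sub W x true) := by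
  classical
  rw [mlq]
  rw [← Finset.filter_not, Finset.sum_filter]
  refine Finset.sum_congr rfl fun x _ => ?_
  rw [cinM, cinM]
  by_cases he : exq K m d sub W x
  · rw [if_neg (not_not.2 he), if_pos he, if_pos he, add_zero]
  · rw [if_pos he, if_neg he, if_neg he]

open Classical in
/-- the estimate for one sub-cell -/
theorem cin_child {Lam0 C1 : ℝ} {d : ℕ} {sub : ℕ → Bool → Cell N}
    {ψ : ℕ → Y N} {ν0 om : ℕ → Om N} {i : ℕ} {ν : Om N} (h : (Cell.node d sub ψ ν0 om).WF K m i ν) {W : ℝ}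
    (hW : 0 < W) (hW' : W ≤ al K m (tt d sub)) {x : ℕ} (hx : x < 2 ^ d) (c : Bool)
    (hWF : (sub x c).WF K m (i + 1) (if c then nu1 ν0 om x else ν0 x))
    (hA : ClA K m Lam0 C1 (sub x c) (i + 1) (if c then nu1 ν0 om x else ν0 x))
    (hB : ClB K m Lam0 (sub x c) (if c then nu1 ν0 om x else ν0 x)) :
    |(sub x c).Tot K m (if c then nu1 ν0 om x else ν0 x) -
        pr K m (if c then nu1 ν0 om x else ν0 x) (yq K m d sub W x c) -
        cinF K m i d sub ν0 om W (Wd.win K m) x c| ≤
      Lam0 * (2 * (sub x c).mass K - 2 * cinF K m i d sub ν0 om W (Wd.V K) x c -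
        cinF K m i d sub ν0 om W Wd.SE x c - 2 * cinM K m d sub W x c -
        (if exq K m d sub W x then alx K m sub x c else 0)) + 3 * C1 * cinM K m d sub W x c := by
  by_cases he : exq K m d sub W x
  · rw [cinF, cinF, cinF, cinM, yq, if_pos he, if_pos he, if_pos he, if_pos he, if_pos he, if_pos he]
    have e1 := hB (ze K m (sub x c).tot) (ze_mem (WF_tot_mem _ _ _ hWF)) (ze_sub_mem (WF_tot_mem _ _ _ hWF))
      (nr_ze_le _)
    rw [sub_zero]
    refine e1.trans (le_of_eq ?_)
    rw [alx]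
    ring
  · rw [cinF, cinF, cinF, cinM, yq, if_neg he, if_neg he, if_neg he, if_neg he, if_neg he, if_neg he]
    obtain ⟨-, hSp, -, hwq, hb1, hb2⟩ := wq_nonexit h hW.le hW' hx he c
    by_cases hw : wq K m d sub W x c = 0
    · rw [if_pos hw, if_pos hw, if_pos hw, if_pos hw]
      have hal : al K m (sub x c).tot = 0 := by
        rw [hwq] at hw
        rcases div_eq_zero_iff.1 hw with h1 | h1
        · exact h1
        · exact absurd h1 hSp.ne'
      have hWq : Wq K m d sub W x c = 0 := by rw [Wq, hw, mul_zero]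
      rw [hWq, cpt_PhL_zero _ hal]
      have e1 := hB 0 (Vs N K).zero_mem
        (by rw [sub_zero]; exact al_eq_zero (WF_tot_mem _ _ _ hWF) hal) (by rw [nr_zero, hal, mul_zero])
      rw [sub_zero]
      refine e1.trans (le_of_eq ?_)
      rw [hal]
      ring
    · rw [if_neg hw, if_neg hw, if_neg hw, if_neg hw]
      have hWq : 0 < Wq K m d sub W x c := by
        rw [Wq]
        exact mul_pos (by positivity) (lt_of_le_of_ne (wq_nonneg d sub W x c) (Ne.symm hw))
      have e1 := (hA (Wq K m d sub W x c) hWq hb1 hb2).1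
      rw [sub_zero]
      exact e1

/-- the second estimate for one sub-cell -/
theorem cin_child2 {Lam0 C1 : ℝ} {d : ℕ} {sub : ℕ → Bool → Cell N}
    {ψ : ℕ → Y N} {ν0 om : ℕ → Om N} {i : ℕ} {ν : Om N} (h : (Cell.node d sub ψ ν0 om).WF K m i ν) {W : ℝ}
    (hW : 0 < W) (hW' : W ≤ al K m (tt d sub)) {x : ℕ} (hx : x < 2 ^ d) (he : ¬ exq K m d sub W x) (c : Bool)
    (hA : ClA K m Lam0 C1 (sub x c) (i + 1) (if c then nu1 ν0 om x else ν0 x)) :
    Wq K m d sub W x c ≤ cinM K m d sub W x c + cinF K m i d sub ν0 om W Wd.SE x c / 2 := by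
  rw [cinF, cinM, if_neg he, if_neg he]
  obtain ⟨-, hSp, -, hwq, hb1, hb2⟩ := wq_nonexit h hW.le hW' hx he c
  by_cases hw : wq K m d sub W x c = 0
  · rw [if_pos hw, if_pos hw, Wq, hw, mul_zero]
    norm_num
  · rw [if_neg hw, if_neg hw]
    have hWq : 0 < Wq K m d sub W x c := by
      rw [Wq]
      exact mul_pos (by positivity) (lt_of_le_of_ne (wq_nonneg d sub W x c) (Ne.symm hw))
    exact (hA (Wq K m d sub W x c) hWq hb1 hb2).2

theorem stepA_node {Lam0 C1 : ℝ} (hC1 : 0 ≤ C1) (hL0 : 0 ≤ Lam0) (d : ℕ) (sub : ℕ → Bool → Cell N)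
    (ψ : ℕ → Y N) (ν0 om : ℕ → Om N) (i : ℕ) (ν : Om N) (h : (Cell.node d sub ψ ν0 om).WF K m i ν)
    (hA : ∀ x, x < 2 ^ d → ClA K m Lam0 C1 (sub x false) (i + 1) (ν0 x) ∧
      ClA K m Lam0 C1 (sub x true) (i + 1) (nu1 ν0 om x))
    (hB : ∀ x, x < 2 ^ d → ClB K m Lam0 (sub x false) (ν0 x) ∧ ClB K m Lam0 (sub x true) (nu1 ν0 om x)) :
    ClA K m Lam0 C1 (Cell.node d sub ψ ν0 om) i ν := by
  classical
  have hWF := h
  rw [Cell.WF] at hWF
  obtain ⟨-, -, -, -, -, -, -, -, -, -, hsub⟩ := hWF
  intro W hW h1 h2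
  rw [tot_node] at h1 h2
  have hCA : ∀ x, x < 2 ^ d → ∀ c : Bool,
      ClA K m Lam0 C1 (sub x c) (i + 1) (if c then nu1 ν0 om x else ν0 x) := by
    intro x hx c
    cases c with
    | false => exact (hA x hx).1
    | true => exact (hA x hx).2
  have hCB : ∀ x, x < 2 ^ d → ∀ c : Bool, ClB K m Lam0 (sub x c) (if c then nu1 ν0 om x else ν0 x) := by
    intro x hx c
    cases c with
    | false => exact (hB x hx).1
    | true => exact (hB x hx).2
  have hCW : ∀ x, x < 2 ^ d → ∀ c : Bool, (sub x c).WF K m (i + 1) (if c then nu1 ν0 om x else ν0 x) := by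
    intro x hx c
    cases c with
    | false => exact (hsub x hx).1
    | true => exact (hsub x hx).2
  have hchild : ∀ x, x < 2 ^ d → ∀ c : Bool, _ := fun x hx c =>
    cin_child h hW h2 hx c (hCW x hx c) (hCA x hx c) (hCB x hx c)
  have eV : (wdq K m i d sub ψ ν ν0 om W).V K = ∑ x ∈ Finset.Ico 1 (2 ^ d), nr K (ψ x) := rfl
  have eSE : (wdq K m i d sub ψ ν ν0 om W).SE = ∑ x ∈ Finset.range (2 ^ d),
      ((if exq K m d sub W x then alx K m sub x false else 0) +
        (if exq K m d sub W x then alx K m sub x true else 0)) := by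
    show ∑ x ∈ (Finset.range (2 ^ d)).filter (fun x => exq K m d sub W x), Sx K m sub x = _
    rw [Finset.sum_filter]
    refine Finset.sum_congr rfl fun x _ => ?_
    by_cases he : exq K m d sub W x
    · rw [if_pos he, if_pos he, if_pos he, Sx]
    · rw [if_neg he, if_neg he, if_neg he, add_zero]
  have eM : (Cell.node d sub ψ ν0 om).mass K = ∑ x ∈ Finset.range (2 ^ d), ((sub x false).mass K +
      (sub x true).mass K) + ∑ x ∈ Finset.Ico 1 (2 ^ d), nr K (ψ x) := by rw [Cell.mass]
  have eT : (Cell.node d sub ψ ν0 om).Tot K m ν = ∑ x ∈ Finset.range (2 ^ d),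
      ((sub x false).Tot K m (ν0 x) + (sub x true).Tot K m (nu1 ν0 om x)) +
      ∑ x ∈ Finset.Ico 1 (2 ^ d), pr K m (om x) (ψ x) := by rw [Cell.Tot]
  constructor
  · rw [cin_sum_node, cin_sum_node, cin_sum_node, cin_mlq_node, win_wdq, eV, eSE, eM, eT, PhL_node, Winq]
    have k1 : ∑ x ∈ Finset.range (2 ^ d), ((sub x false).Tot K m (ν0 x) + (sub x true).Tot K m (nu1 ν0 om x)) +
        ∑ x ∈ Finset.Ico 1 (2 ^ d), pr K m (om x) (ψ x) -
        pr K m ν (∑ x ∈ Finset.range (2 ^ d), ytq K m d sub W x) -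
        (∑ x ∈ Finset.range (2 ^ d), (pr K m (ν0 x) (yq K m d sub W x false) +
            pr K m (nu1 ν0 om x) (yq K m d sub W x true)) +
          ∑ x ∈ Finset.Ico 1 (2 ^ d), pr K m (om x) (ψ x) -
          pr K m ν (∑ x ∈ Finset.range (2 ^ d), ytq K m d sub W x) +
          ∑ x ∈ Finset.range (2 ^ d), (cinF K m i d sub ν0 om W (Wd.win K m) x false +
            cinF K m i d sub ν0 om W (Wd.win K m) x true)) =
        ∑ x ∈ Finset.range (2 ^ d), (((sub x false).Tot K m (ν0 x) -
            pr K m (ν0 x) (yq K m d sub W x false) - cinF K m i d sub ν0 om W (Wd.win K m) x false) +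
          ((sub x true).Tot K m (nu1 ν0 om x) - pr K m (nu1 ν0 om x) (yq K m d sub W x true) -
            cinF K m i d sub ν0 om W (Wd.win K m) x true)) := by
      simp only [Finset.sum_add_distrib, Finset.sum_sub_distrib]
      ring
    have k2 : Lam0 * (2 * (∑ x ∈ Finset.range (2 ^ d), ((sub x false).mass K + (sub x true).mass K) +
          ∑ x ∈ Finset.Ico 1 (2 ^ d), nr K (ψ x)) -
        2 * (∑ x ∈ Finset.Ico 1 (2 ^ d), nr K (ψ x) + ∑ x ∈ Finset.range (2 ^ d),
          (cinF K m i d sub ν0 om W (Wd.V K) x false + cinF K m i d sub ν0 om W (Wd.V K) x true)) -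
        (∑ x ∈ Finset.range (2 ^ d), ((if exq K m d sub W x then alx K m sub x false else 0) +
          (if exq K m d sub W x then alx K m sub x true else 0)) + ∑ x ∈ Finset.range (2 ^ d),
          (cinF K m i d sub ν0 om W Wd.SE x false + cinF K m i d sub ν0 om W Wd.SE x true)) -
        2 * ∑ x ∈ Finset.range (2 ^ d), (cinM K m d sub W x false + cinM K m d sub W x true)) +
        3 * C1 * ∑ x ∈ Finset.range (2 ^ d), (cinM K m d sub W x false + cinM K m d sub W x true) =
        ∑ x ∈ Finset.range (2 ^ d), ((Lam0 * (2 * (sub x false).mass K -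
            2 * cinF K m i d sub ν0 om W (Wd.V K) x false -
            cinF K m i d sub ν0 om W Wd.SE x false - 2 * cinM K m d sub W x false -
            (if exq K m d sub W x then alx K m sub x false else 0)) + 3 * C1 * cinM K m d sub W x false) +
          (Lam0 * (2 * (sub x true).mass K - 2 * cinF K m i d sub ν0 om W (Wd.V K) x true -
            cinF K m i d sub ν0 om W Wd.SE x true - 2 * cinM K m d sub W x true -
            (if exq K m d sub W x then alx K m sub x true else 0)) + 3 * C1 * cinM K m d sub W x true)) := by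
      simp only [Finset.sum_add_distrib, Finset.sum_sub_distrib, mul_add, mul_sub, ← Finset.mul_sum]
      ring
    rw [k1, k2]
    refine (Finset.abs_sum_le_sum_abs _ _).trans (Finset.sum_le_sum fun x hx => ?_)
    have hx' : x < 2 ^ d := Finset.mem_range.1 hx
    exact (abs_add_le _ _).trans (add_le_add (hchild x hx' false) (hchild x hx' true))
  · rw [cin_sum_node, cin_mlq_node, eSE]
    have k1 : W = ∑ _x ∈ Finset.range (2 ^ d), W / 2 ^ d := by
      rw [Finset.sum_const, Finset.card_range, nsmul_eq_mul]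
      push_cast
      field_simp
    have k2 : ∑ x ∈ Finset.range (2 ^ d), W / 2 ^ d ≤ ∑ x ∈ Finset.range (2 ^ d),
        ((cinM K m d sub W x false + cinM K m d sub W x true) +
        (((if exq K m d sub W x then alx K m sub x false else 0) +
          (if exq K m d sub W x then alx K m sub x true else 0)) +
          (cinF K m i d sub ν0 om W Wd.SE x false + cinF K m i d sub ν0 om W Wd.SE x true)) / 2) := by
      refine Finset.sum_le_sum fun x hx => ?_
      have hx' : x < 2 ^ d := Finset.mem_range.1 hx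
      by_cases he : exq K m d sub W x
      · have e1 : 2 * (W / 2 ^ d) ≤ Sx K m sub x := he
        rw [Sx] at e1
        rw [cinM, cinM, cinF, cinF, if_pos he, if_pos he, if_pos he, if_pos he, if_pos he, if_pos he]
        linarith
      · have e1 := cin_child2 h hW h2 hx' he false (hCA x hx' false)
        have e2 := cin_child2 h hW h2 hx' he true (hCA x hx' true)
        have e3 : W / 2 ^ d = Wq K m d sub W x false + Wq K m d sub W x true := by
          rw [Wq, Wq, ← mul_add, wq_add, mul_one]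
        rw [if_neg he, if_neg he]
        linarith
    have k3 : ∑ x ∈ Finset.range (2 ^ d),
        ((cinM K m d sub W x false + cinM K m d sub W x true) +
        (((if exq K m d sub W x then alx K m sub x false else 0) +
          (if exq K m d sub W x then alx K m sub x true else 0)) +
          (cinF K m i d sub ν0 om W Wd.SE x false + cinF K m i d sub ν0 om W Wd.SE x true)) / 2) =
        ∑ x ∈ Finset.range (2 ^ d), (cinM K m d sub W x false + cinM K m d sub W x true) +
        (∑ x ∈ Finset.range (2 ^ d), ((if exq K m d sub W x then alx K m sub x false else 0) +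
          (if exq K m d sub W x then alx K m sub x true else 0)) + ∑ x ∈ Finset.range (2 ^ d),
          (cinF K m i d sub ν0 om W Wd.SE x false + cinF K m i d sub ν0 om W Wd.SE x true)) / 2 := by
      simp only [Finset.sum_add_distrib, ← Finset.sum_div]
    linarith

end H50RC
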