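import Pool.Agent.H50.RC.Cin

/-!
S05864 [H50 RC CIN2]: the induction (3.2) of proofs 322, second statement.
-/

set_option autoImplicit false

namespace H50RC

variable {N K m : ℕ}

theorem cin2_WF_BB {Q : Cell N} {i : ℕ} {ν : Om N} (h : Q.WF K m i ν) : BB K 1 ν := by
  cases Q with
  | leaf Φ =>
    rw [Cell.WF] at h
    exact h.1
  | node d sub ψ ν0 om =>
    rw [Cell.WF] at h
    exact h.1

theorem cin2_pr_zero {ν : Om N} (h : BB K 1 ν) {ζ : Y N} (hζ : ζ ∈ Vs N K) (h0 : nr K ζ ≤ 0) : pr K m ν ζ = 0 := by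
  have h1 := abs_pr_le m h hζ
  have h2 : 1 * (K : ℝ) * nr K ζ ≤ 0 := mul_nonpos_of_nonneg_of_nonpos (by positivity) h0
  exact abs_nonpos_iff.1 (h1.trans h2)

theorem stepB_pos {Lam1 C1 : ℝ} (hC1 : 0 ≤ C1) (hL1 : 0 ≤ Lam1)
    (hM1 : ∀ ω : Om N, BB K 1 ω → ∀ χ ∈ Xs N K m, |pr K m ω χ| ≤ C1 * nr K χ)
    (hME : ∀ P : PTr N, P.OK K m → 1 ≤ P.lv →
      |P.sum (Wd.win K m)| ≤ Lam1 * (P.W + P.sum (Wd.V K) + P.sum Wd.SE))
    (Q : Cell N) (i : ℕ) (hi : 1 ≤ i) (ν : Om N) (h : Q.WF K m i ν) (h0 : 0 < al K m Q.tot)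
    (hA : ClA K m (3 * Lam1 + 12 * C1) C1 Q i ν) : ClB K m (3 * Lam1 + 12 * C1) Q ν := by
  intro ζ hζ hζX hζn
  obtain ⟨a1, a2⟩ := hA (al K m Q.tot) h0 (by linarith) le_rfl
  have hP := toPTr_OK Q i ν (al K m Q.tot) h h0 (by linarith) le_rfl
  have a3 := hME _ hP (by rw [toPTr_lv]; exact hi)
  rw [toPTr_W] at a3
  obtain ⟨b1, b2, b3⟩ := phl_main Q i ν (al K m Q.tot) h (by linarith) le_rfl
  have a4 : |pr K m ν (PhL K m Q (al K m Q.tot) - ζ)| ≤ C1 * (6 * al K m Q.tot) := by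
    have c1 : PhL K m Q (al K m Q.tot) - ζ ∈ Xs N K m := by
      have c2 := (Xs N K m).sub_mem hζX b2
      have c3 : Q.tot - ζ - (Q.tot - PhL K m Q (al K m Q.tot)) = PhL K m Q (al K m Q.tot) - ζ := by abel
      rw [c3] at c2
      exact c2
    refine (hM1 ν (cin2_WF_BB h) _ c1).trans (mul_le_mul_of_nonneg_left ?_ hC1)
    have c4 := nr_sub_le (K := K) (PhL K m Q (al K m Q.tot)) ζ
    linarith
  rw [pr_sub_right] at a4
  have hV := sumV_nonneg (K := K) (toPTr K m Q i (al K m Q.tot) ν)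
  have hS := sumSE_nonneg (K := K) (m := m) (toPTr K m Q i (al K m Q.tot) ν) hP
  have hM := mlq_nonneg (K := K) (m := m) Q (al K m Q.tot)
  set a := al K m Q.tot with ha
  set VP := (toPTr K m Q i a ν).sum (Wd.V K)
  set SP := (toPTr K m Q i a ν).sum Wd.SE
  set ML := mlq K m Q a
  set WN := (toPTr K m Q i a ν).sum (Wd.win K m)
  have t1 : |Q.Tot K m ν - pr K m ν ζ| ≤ |Q.Tot K m ν - pr K m ν (PhL K m Q a) - WN| + |WN| +
      |pr K m ν (PhL K m Q a) - pr K m ν ζ| := by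
    have t2 : Q.Tot K m ν - pr K m ν ζ = (Q.Tot K m ν - pr K m ν (PhL K m Q a) - WN) + WN +
        (pr K m ν (PhL K m Q a) - pr K m ν ζ) := by ring
    rw [t2]
    exact (abs_add_le _ _).trans (add_le_add (abs_add_le _ _) le_rfl)
  have p1 : 0 ≤ Lam1 * (5 * VP + 2 * SP + 6 * ML - 4 * a) := mul_nonneg hL1 (by linarith)
  have p2 : 0 ≤ C1 * (24 * VP + 12 * SP + 21 * ML - 18 * a) := mul_nonneg hC1 (by linarith)
  have t3 : (3 * Lam1 + 12 * C1) * (2 * Q.mass K - 2 * VP - SP - 2 * ML) + 3 * C1 * ML +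
      Lam1 * (a + VP + SP) + C1 * (6 * a) + (Lam1 * (5 * VP + 2 * SP + 6 * ML - 4 * a) +
      C1 * (24 * VP + 12 * SP + 21 * ML - 18 * a)) = (3 * Lam1 + 12 * C1) * (2 * Q.mass K - a) := by ring
  linarith

theorem stepB_zero_leaf {Lam0 C1 : ℝ} (hC1 : 0 ≤ C1) (hL : C1 ≤ 2 * Lam0)
    (hM1 : ∀ ω : Om N, BB K 1 ω → ∀ χ ∈ Xs N K m, |pr K m ω χ| ≤ C1 * nr K χ) (Φ : Y N) (i : ℕ) (ν : Om N)
    (h : (Cell.leaf Φ).WF K m i ν) (h0 : al K m Φ = 0) : ClB K m Lam0 (Cell.leaf Φ) ν := by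
  rw [Cell.WF] at h
  intro ζ hζ hζX hζn
  have e1 : (Cell.leaf Φ).Tot K m ν = pr K m ν Φ := by rw [Cell.Tot]
  have e2 : (Cell.leaf Φ).mass K = nr K Φ := by rw [Cell.mass]
  have e3 : (Cell.leaf Φ).tot = Φ := by rw [Cell.tot]
  rw [e3, h0, mul_zero] at hζn
  rw [e1, e2, e3, h0, cin2_pr_zero h.1 hζ hζn, sub_zero, sub_zero]
  have e4 := hM1 ν h.1 Φ (al_eq_zero h.2 h0)
  have e5 := mul_le_mul_of_nonneg_right hL (nr_nonneg (K := K) Φ)
  linarith

theorem stepB_zero_node {Lam0 C1 : ℝ} (hC1 : 0 ≤ C1) (hL : 6 * C1 ≤ Lam0)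
    (hM1 : ∀ ω : Om N, BB K 1 ω → ∀ χ ∈ Xs N K m, |pr K m ω χ| ≤ C1 * nr K χ) (d : ℕ) (sub : ℕ → Bool → Cell N)
    (ψ : ℕ → Y N) (ν0 om : ℕ → Om N) (i : ℕ) (ν : Om N) (h : (Cell.node d sub ψ ν0 om).WF K m i ν)
    (h0 : al K m (tt d sub) = 0)
    (hB : ∀ x, x < 2 ^ d → ClB K m Lam0 (sub x false) (ν0 x) ∧ ClB K m Lam0 (sub x true) (nu1 ν0 om x)) :
    ClB K m Lam0 (Cell.node d sub ψ ν0 om) ν := by
  classical
  have hWF := h
  rw [Cell.WF] at hWF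
  obtain ⟨hν, -, -, -, -, -, -, -, -, -, hsub⟩ := hWF
  intro ζ hζ hζX hζn
  rw [tot_node, h0, mul_zero] at hζn
  have eM : (Cell.node d sub ψ ν0 om).mass K = ∑ x ∈ Finset.range (2 ^ d), ((sub x false).mass K +
      (sub x true).mass K) + ∑ x ∈ Finset.Ico 1 (2 ^ d), nr K (ψ x) := by rw [Cell.mass]
  have eT : (Cell.node d sub ψ ν0 om).Tot K m ν = ∑ x ∈ Finset.range (2 ^ d),
      ((sub x false).Tot K m (ν0 x) + (sub x true).Tot K m (nu1 ν0 om x)) +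
      ∑ x ∈ Finset.Ico 1 (2 ^ d), pr K m (om x) (ψ x) := by rw [Cell.Tot]
  rw [tot_node, h0, sub_zero, cin2_pr_zero hν hζ hζn, sub_zero, eM, eT]
  have hex : ∀ x, exq K m d sub 0 x := by
    intro x
    rw [exq, zero_div, mul_zero]
    exact Sx_nonneg sub x
  have hyt : ∑ x ∈ Finset.range (2 ^ d), ytq K m d sub 0 x = 0 := by
    refine Finset.sum_eq_zero fun x _ => ?_
    rw [ytq, if_pos (hex x)]
    exact ze_eq_zero (cpt_al_inv_smul h0)
  have hw := zero_window h h0 hC1 hM1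
  rw [Winq, hyt, pr_zero_right, sub_zero] at hw
  have hc : ∀ x, x < 2 ^ d → ∀ c : Bool,
      |(sub x c).Tot K m (if c then nu1 ν0 om x else ν0 x) -
        pr K m (if c then nu1 ν0 om x else ν0 x) (yq K m d sub 0 x c)| ≤
        Lam0 * (2 * (sub x c).mass K - alx K m sub x c) := by
    intro x hx c
    have hWFc : (sub x c).WF K m (i + 1) (if c then nu1 ν0 om x else ν0 x) := by
      cases c with
      | false => exact (hsub x hx).1
      | true => exact (hsub x hx).2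
    have hBc : ClB K m Lam0 (sub x c) (if c then nu1 ν0 om x else ν0 x) := by
      cases c with
      | false => exact (hB x hx).1
      | true => exact (hB x hx).2
    rw [yq, if_pos (hex x)]
    exact hBc (ze K m (sub x c).tot) (ze_mem (WF_tot_mem _ _ _ hWFc)) (ze_sub_mem (WF_tot_mem _ _ _ hWFc))
      (nr_ze_le _)
  have k1 : ∑ x ∈ Finset.range (2 ^ d),
      ((sub x false).Tot K m (ν0 x) + (sub x true).Tot K m (nu1 ν0 om x)) +
      ∑ x ∈ Finset.Ico 1 (2 ^ d), pr K m (om x) (ψ x) =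
      ∑ x ∈ Finset.range (2 ^ d), (((sub x false).Tot K m (ν0 x) - pr K m (ν0 x) (yq K m d sub 0 x false)) +
        ((sub x true).Tot K m (nu1 ν0 om x) - pr K m (nu1 ν0 om x) (yq K m d sub 0 x true))) +
      (∑ x ∈ Finset.range (2 ^ d), (pr K m (ν0 x) (yq K m d sub 0 x false) +
        pr K m (nu1 ν0 om x) (yq K m d sub 0 x true)) + ∑ x ∈ Finset.Ico 1 (2 ^ d), pr K m (om x) (ψ x)) := by
    simp only [Finset.sum_add_distrib, Finset.sum_sub_distrib]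
    ring
  have k2 : |∑ x ∈ Finset.range (2 ^ d), (((sub x false).Tot K m (ν0 x) -
      pr K m (ν0 x) (yq K m d sub 0 x false)) +
        ((sub x true).Tot K m (nu1 ν0 om x) - pr K m (nu1 ν0 om x) (yq K m d sub 0 x true)))| ≤
      ∑ x ∈ Finset.range (2 ^ d), (Lam0 * (2 * (sub x false).mass K - alx K m sub x false) +
        Lam0 * (2 * (sub x true).mass K - alx K m sub x true)) := by
    refine (Finset.abs_sum_le_sum_abs _ _).trans (Finset.sum_le_sum fun x hx => ?_)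
    have hx' : x < 2 ^ d := Finset.mem_range.1 hx
    exact (abs_add_le _ _).trans (add_le_add (hc x hx' false) (hc x hx' true))
  have k3 : ∑ x ∈ Finset.range (2 ^ d), (Lam0 * (2 * (sub x false).mass K - alx K m sub x false) +
        Lam0 * (2 * (sub x true).mass K - alx K m sub x true)) =
      Lam0 * (2 * ∑ x ∈ Finset.range (2 ^ d), ((sub x false).mass K + (sub x true).mass K) -
        ∑ x ∈ Finset.range (2 ^ d), Sx K m sub x) := by
    simp only [Sx, mul_sub, Finset.mul_sum, ← Finset.sum_sub_distrib]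
    refine Finset.sum_congr rfl fun x _ => ?_
    ring
  rw [k3] at k2
  rw [k1]
  refine (abs_add_le _ _).trans ?_
  have hS : 0 ≤ ∑ x ∈ Finset.range (2 ^ d), Sx K m sub x := Finset.sum_nonneg fun x _ => Sx_nonneg sub x
  have hψ : 0 ≤ ∑ x ∈ Finset.Ico 1 (2 ^ d), nr K (ψ x) := Finset.sum_nonneg fun x _ => nr_nonneg _
  have q1 : 0 ≤ (Lam0 - 6 * C1) * ∑ x ∈ Finset.range (2 ^ d), Sx K m sub x :=
    mul_nonneg (by linarith) hS
  have q2 : 0 ≤ (2 * Lam0 - C1) * ∑ x ∈ Finset.Ico 1 (2 ^ d), nr K (ψ x) :=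
    mul_nonneg (by linarith) hψ
  have q3 := add_le_add k2 hw
  refine q3.trans ?_
  have q4 : Lam0 * (2 * (∑ x ∈ Finset.range (2 ^ d), ((sub x false).mass K + (sub x true).mass K) +
      ∑ x ∈ Finset.Ico 1 (2 ^ d), nr K (ψ x))) =
      Lam0 * (2 * ∑ x ∈ Finset.range (2 ^ d), ((sub x false).mass K + (sub x true).mass K) -
        ∑ x ∈ Finset.range (2 ^ d), Sx K m sub x) +
      C1 * (6 * ∑ x ∈ Finset.range (2 ^ d), Sx K m sub x + ∑ x ∈ Finset.Ico 1 (2 ^ d), nr K (ψ x)) +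
      ((Lam0 - 6 * C1) * ∑ x ∈ Finset.range (2 ^ d), Sx K m sub x +
        (2 * Lam0 - C1) * ∑ x ∈ Finset.Ico 1 (2 ^ d), nr K (ψ x)) := by ring
  rw [q4]
  linarith

end H50RC
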