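import Pool.Agent.H50.LP.Lip0

/-!
S05864: the frozen form of an isomorphism gives `LipIso`.
-/

set_option autoImplicit false

namespace H50RC

open H50LP

theorem lipIso_of_frozen (M : Type) [MetricSpace M] (p : M) (R : Type) [MetricSpace R] (q : R)
    (h : ∃ T : (M → ℝ) → (R → ℝ), ∃ C c : NNReal,
        (∀ f g : M → ℝ, (∃ K : NNReal, LipschitzWith K f) → f p = 0 →
            (∃ K : NNReal, LipschitzWith K g) → g p = 0 → T (f + g) = T f + T g) ∧
        (∀ (a : ℝ) (f : M → ℝ), (∃ K : NNReal, LipschitzWith K f) → f p = 0 →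
            T (a • f) = a • T f) ∧
        (∀ f : M → ℝ, (∃ K : NNReal, LipschitzWith K f) → f p = 0 → T f q = 0) ∧
        (∀ (f : M → ℝ) (K : NNReal), f p = 0 → LipschitzWith K f →
            LipschitzWith (C * K) (T f)) ∧
        (∀ (f : M → ℝ) (K : NNReal), f p = 0 → (∃ K' : NNReal, LipschitzWith K' f) →
            LipschitzWith K (T f) → LipschitzWith (c * K) f) ∧
        (∀ g : R → ℝ, (∃ K : NNReal, LipschitzWith K g) → g q = 0 →
            ∃ f : M → ℝ, (∃ K : NNReal, LipschitzWith K f) ∧ f p = 0 ∧ T f = g)) :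
    LipIso M R p q := by
  obtain ⟨T, C, c, hadd, hsmul, hq, hC, hc, hsurj⟩ := h
  let L : Lip0 M p →ₗ[ℝ] Lip0 R q :=
    { toFun := fun f => ⟨T f.1, hq f.1 f.2.2 f.2.1, by
        obtain ⟨K, hK⟩ := f.2.2
        exact ⟨C * K, hC f.1 K f.2.1 hK⟩⟩
      map_add' := by
        intro f g
        apply Subtype.ext
        exact hadd f.1 g.1 f.2.2 f.2.1 g.2.2 g.2.1
      map_smul' := by
        intro a f
        apply Subtype.ext
        exact hsmul a f.1 f.2.2 f.2.1 }
  have hL : ∀ f : Lip0 M p, (L f).1 = T f.1 := fun f => rfl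
  have hinj : Function.Injective L := by
    rw [← LinearMap.ker_eq_bot, LinearMap.ker_eq_bot']
    intro f hf
    have h1 : T f.1 = 0 := by
      rw [← hL, hf]
      rfl
    have h2 : LipschitzWith (c * 0) f.1 := by
      refine hc f.1 0 f.2.1 f.2.2 ?_
      rw [h1]
      exact LipschitzWith.const 0
    apply Subtype.ext
    funext x
    have h3 := h2.dist_le_mul x p
    rw [mul_zero, NNReal.coe_zero, zero_mul] at h3
    have h4 : dist (f.1 x) (f.1 p) = 0 := le_antisymm h3 dist_nonneg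
    rw [dist_eq_zero] at h4
    rw [h4, f.2.1]
    rfl
  have hsur : Function.Surjective L := by
    intro g
    obtain ⟨f, h1, h2, h3⟩ := hsurj g.1 g.2.2 g.2.1
    exact ⟨⟨f, h2, h1⟩, Subtype.ext h3⟩
  let E : Lip0 M p ≃ₗ[ℝ] Lip0 R q := LinearEquiv.ofBijective L ⟨hinj, hsur⟩
  refine ⟨E, max C c, ?_, ?_⟩
  · intro f K hf
    exact (hC f.1 K f.2.1 hf).weaken (mul_le_mul' (le_max_left _ _) le_rfl)
  · intro g K hg
    have h1 : T (E.symm g).1 = g.1 := by
      have h2 : E (E.symm g) = g := E.apply_symm_apply g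
      have h3 := congrArg Subtype.val h2
      exact h3
    refine (hc (E.symm g).1 K (E.symm g).2.1 (E.symm g).2.2 ?_).weaken (mul_le_mul' (le_max_right _ _) le_rfl)
    rw [h1]
    exact hg

end H50RC
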