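import Pool.Agent.H50.RC.Cin2
import Pool.Agent.H50.RC.EF

/-!
S05864: the core theorem from the main estimate (3.1) (exported by C6) and (M1).
-/

set_option autoImplicit false

namespace H50RC

variable {N K m : ℕ}

theorem claims {Lam1 C1 : ℝ} (hC1 : 0 ≤ C1) (hL1 : 0 ≤ Lam1)
    (hM1 : ∀ ω : Om N, BB K 1 ω → ∀ χ ∈ Xs N K m, |pr K m ω χ| ≤ C1 * nr K χ)
    (hME : ∀ P : PTr N, P.OK K m → 1 ≤ P.lv →
      |P.sum (Wd.win K m)| ≤ Lam1 * (P.W + P.sum (Wd.V K) + P.sum Wd.SE)) (Q : Cell N) :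
    ∀ (i : ℕ) (ν : Om N), 1 ≤ i → Q.WF K m i ν →
      ClA K m (3 * Lam1 + 12 * C1) C1 Q i ν ∧ ClB K m (3 * Lam1 + 12 * C1) Q ν := by
  induction Q with
  | leaf Φ =>
    intro i ν hi h
    have hA := stepA_leaf (Lam0 := 3 * Lam1 + 12 * C1) hC1 hM1 Φ i ν h
    refine ⟨hA, ?_⟩
    rcases (al_nonneg (K := K) (m := m) Φ).eq_or_lt with h0 | h0
    · exact stepB_zero_leaf hC1 (by linarith) hM1 Φ i ν h h0.symm
    · exact stepB_pos hC1 hL1 hM1 hME _ i hi ν h h0 hA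
  | node d sub ψ ν0 om ih =>
    intro i ν hi h
    have hch : ∀ x, x < 2 ^ d → (sub x false).WF K m (i + 1) (ν0 x) ∧ (sub x true).WF K m (i + 1) (nu1 ν0 om x) := by
      simp only [Cell.WF] at h
      exact h.2.2.2.2.2.2.2.2.2.2
    have hA := stepA_node (Lam0 := 3 * Lam1 + 12 * C1) hC1 (by linarith) d sub ψ ν0 om i ν h
      (fun x hx => ⟨(ih x false (i + 1) _ (by omega) (hch x hx).1).1, (ih x true (i + 1) _ (by omega) (hch x hx).2).1⟩)
      (fun x hx => ⟨(ih x false (i + 1) _ (by omega) (hch x hx).1).2, (ih x true (i + 1) _ (by omega) (hch x hx).2).2⟩)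
    refine ⟨hA, ?_⟩
    rcases (al_nonneg (K := K) (m := m) (tt d sub)).eq_or_lt with h0 | h0
    · exact stepB_zero_node hC1 (by linarith) hM1 d sub ψ ν0 om i ν h h0.symm
        (fun x hx => ⟨(ih x false (i + 1) _ (by omega) (hch x hx).1).2, (ih x true (i + 1) _ (by omega) (hch x hx).2).2⟩)
    · exact stepB_pos hC1 hL1 hM1 hME _ i hi ν h (by rw [tot_node]; exact h0) hA

theorem core_of_main {Lam1 C1 : ℝ} (hC1 : 0 ≤ C1) (hL1 : 0 ≤ Lam1)
    (hM1 : ∀ ω : Om N, BB K 1 ω → ∀ χ ∈ Xs N K m, |pr K m ω χ| ≤ C1 * nr K χ)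
    (hME : ∀ P : PTr N, P.OK K m → 1 ≤ P.lv →
      |P.sum (Wd.win K m)| ≤ Lam1 * (P.W + P.sum (Wd.V K) + P.sum Wd.SE)) :
    CoreStatement N K m (2 * (3 * Lam1 + 12 * C1)) := by
  intro Q ν hQ ht
  have h1 := (claims hC1 hL1 hM1 hME Q 1 ν le_rfl hQ).2 0 (Vs N K).zero_mem (by simpa using ht)
    (by rw [nr_zero]; exact mul_nonneg (by norm_num) (al_nonneg _))
  rw [pr_zero_right, al_of_mem ht, sub_zero, sub_zero] at h1
  linarith

/-- the main estimate (3.1), exported by C6 -/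
def MainStatement : Prop := ∀ κ : ℝ, 0 < κ → ∃ m : ℕ, 2 ≤ m ∧ ∃ K1 : ℕ, ∀ K : ℕ, K1 ≤ K → ∃ N0 : ℕ, ∀ N : ℕ, N0 ≤ N →
  ∀ P : PTr N, P.OK K m → 1 ≤ P.lv → |P.sum (Wd.win K m)| ≤ κ * K * (P.W + P.sum (Wd.V K) + P.sum Wd.SE)

theorem core_final (hmain : MainStatement) (κ : ℝ) (hκ : 0 < κ) :
    ∃ m : ℕ, 1 ≤ m ∧ ∃ C1 : ℝ, ∃ K0 : ℕ, ∀ K, K0 ≤ K → ∃ N : ℕ, 4 ≤ N ∧
      CoreStatement N K m (κ * K) ∧ PairStatement N K m C1 := by
  obtain ⟨m, hm, K1, hK1⟩ := hmain (κ / 12) (by positivity)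
  refine ⟨m, by omega, 9 * rp m + 5, ?_⟩
  have hrp : 0 ≤ rp m := by linarith [one_le_rp hm]
  obtain ⟨K2, hK2⟩ := exists_nat_ge ((24 * (9 * rp m + 5)) / (κ / 2))
  refine ⟨max (max K1 K2) 1, fun K hK => ?_⟩
  have hK1' : K1 ≤ K := (le_max_left _ _).trans ((le_max_left _ _).trans hK)
  have hK2' : K2 ≤ K := (le_max_right _ _).trans ((le_max_left _ _).trans hK)
  have hK0 : 1 ≤ K := (le_max_right _ _).trans hK
  obtain ⟨N0, hN0⟩ := hK1 K hK1'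
  obtain ⟨N1, hN1⟩ := exists_nat_ge (bigN K 0 m 1)
  refine ⟨max (max N0 N1) 4, le_max_right _ _, ?_, ?_⟩
  · have hM : ∀ ω : Om (max (max N0 N1) 4), BB K 1 ω → ∀ χ ∈ Xs (max (max N0 N1) 4) K m,
        |pr K m ω χ| ≤ (9 * rp m + 5) * nr K χ := by
      intro ω hω χ hχ
      refine M1 hK0 hm (hN1.trans ?_) (hω.mono (by norm_num)) hχ
      exact_mod_cast (le_max_right N0 N1).trans (le_max_left _ _)
    have h1 := core_of_main (N := max (max N0 N1) 4) (K := K) (m := m) (Lam1 := κ / 12 * K) (C1 := 9 * rp m + 5)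
      (by positivity) (by positivity) hM (hN0 _ ((le_max_left _ _).trans (le_max_left _ _)))
    intro Q ν hQ ht
    refine (h1 Q ν hQ ht).trans (mul_le_mul_of_nonneg_right ?_ (mass_nonneg Q))
    have h2 : (24 * (9 * rp m + 5)) ≤ κ / 2 * K := by
      rw [div_le_iff₀ (by positivity)] at hK2
      have h3 : (K2 : ℝ) ≤ K := by exact_mod_cast hK2'
      have h4 : (K2 : ℝ) * (κ / 2) ≤ K * (κ / 2) := mul_le_mul_of_nonneg_right h3 (by positivity)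
      linarith
    linarith
  · intro ω hω χ hχ
    refine M1 hK0 hm (hN1.trans ?_) (hω.mono (by norm_num)) hχ
    exact_mod_cast (le_max_right N0 N1).trans (le_max_left _ _)

end H50RC
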