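import Pool.Agent.H50.RC.Ccl

/-!
S05864 [H50 RC CPH]: the phase lift. Hypotheses for a node with weight `W`: `al/2 ≤ W ≤ al` (`al = al K m (tt d sub)`).
`w1q_mem`: induction on `x` (`α_(x,1)/S_x ∈ [0,1]`, also for `S_x = 0` since `a/0 = 0`).
`wq_nonexit`: at a non-exit `S_x < 2W/D`, and `S_x ≥ al/D ≥ W/D`; so `W > 0` (else `2 W/D ≤ 0 ≤ S_x` is an exit, `W ≥ 0`), `S_x > 0`, `wq x c = α_(x,c)/S_x`, `Wq x c = (W/D) α_(x,c)/S_x`, `≤ α_(x,c)` (as `W/D ≤ S_x`), `≥ α_(x,c)/2` (as `S_x ≤ 2W/D`).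
`phl_main`: induction on the cell. Leaf: `ze_sub_mem`, `ze_mem`, `nr_ze_le`: `2 al ≤ 4 W`. Node: exit `x`: `ytq x = ze (D⁻¹ tt)`, `D⁻¹ tt - ze ∈ X`, norm `≤ 2 al/D ≤ 4 W/D`; non-exit: by induction the lifts of the children have the classes of `tot (x,c)`, whose sum is the class of `D⁻¹ tt` (`cls_const`),
norm `≤ 4 (Wq x 0 + Wq x 1) = 4 W/D`. So `ytq x - D⁻¹ tt ∈ X` and `nr (ytq x) ≤ 4W/D` for all `x < 2^d` (`ytq_main`), sum over `x`: `∑ (D⁻¹ tt) = tt`.
`yq_main`: exit: `ze`; non-exit: induction hypothesis = `phl_main` for the children.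
-/

set_option autoImplicit false

namespace H50RC

variable {N K m : ℕ}

theorem w1q_mem (d : ℕ) (sub : ℕ → Bool → Cell N) (W : ℝ) (x : ℕ) :
    0 ≤ w1q K m d sub W x ∧ w1q K m d sub W x ≤ 1 := by
  have h1 : ∀ x, 0 ≤ alx K m sub x true / Sx K m sub x ∧ alx K m sub x true / Sx K m sub x ≤ 1 := by
    intro x
    have h2 : 0 ≤ alx K m sub x true := alx_nonneg sub x true
    have h3 : 0 ≤ Sx K m sub x := Sx_nonneg sub x
    refine ⟨div_nonneg h2 h3, div_le_one_of_le₀ ?_ h3⟩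
    have h4 : 0 ≤ alx K m sub x false := alx_nonneg sub x false
    unfold Sx
    linarith
  induction x with
  | zero =>
    unfold w1q
    split_ifs
    · norm_num
    · exact h1 0
  | succ x ih =>
    unfold w1q
    split_ifs
    · exact ih
    · exact h1 (x + 1)

theorem wq_nonneg (d : ℕ) (sub : ℕ → Bool → Cell N) (W : ℝ) (x : ℕ) (c : Bool) : 0 ≤ wq K m d sub W x c := by
  obtain ⟨h1, h2⟩ := w1q_mem (K := K) (m := m) d sub W x
  unfold wq
  split_ifs
  · exact h1
  · linarith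

theorem wq_add (d : ℕ) (sub : ℕ → Bool → Cell N) (W : ℝ) (x : ℕ) :
    wq K m d sub W x false + wq K m d sub W x true = 1 := by
  simp [wq]

theorem wq_nonexit {d : ℕ} {sub : ℕ → Bool → Cell N} {ψ : ℕ → Y N} {ν0 om : ℕ → Om N} {i : ℕ} {ν : Om N}
    (h : (Cell.node d sub ψ ν0 om).WF K m i ν) {W : ℝ} (hW : 0 ≤ W) (hW' : W ≤ al K m (tt d sub)) {x : ℕ}
    (hx : x < 2 ^ d) (hex : ¬ exq K m d sub W x) (c : Bool) :
    0 < W ∧ 0 < Sx K m sub x ∧ W / 2 ^ d ≤ Sx K m sub x ∧ wq K m d sub W x c = alx K m sub x c / Sx K m sub x ∧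
      alx K m sub x c / 2 ≤ Wq K m d sub W x c ∧ Wq K m d sub W x c ≤ alx K m sub x c := by
  have hD : (0 : ℝ) < 2 ^ d := by positivity
  have h1 := al_tt_le h hx
  have h2 : W / 2 ^ d ≤ al K m (tt d sub) / 2 ^ d := div_le_div_of_nonneg_right hW' hD.le
  have h3 : W / 2 ^ d ≤ Sx K m sub x := h2.trans h1
  have h4 : Sx K m sub x < 2 * (W / 2 ^ d) := not_le.1 hex
  have h5 : 0 < W / 2 ^ d := by linarith
  have hWpos : 0 < W := by
    rcases hW.lt_or_eq with h6 | h6
    · exact h6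
    · rw [← h6, zero_div] at h5
      exact absurd h5 (lt_irrefl 0)
  have hS : 0 < Sx K m sub x := h5.trans_le h3
  have hw1 : w1q K m d sub W x = alx K m sub x true / Sx K m sub x := by
    cases x with
    | zero => simp only [w1q, if_neg hex]
    | succ x => simp only [w1q, if_neg hex]
  have hw : wq K m d sub W x c = alx K m sub x c / Sx K m sub x := by
    cases c with
    | true =>
      simp only [wq, if_true]
      exact hw1
    | false =>
      have h7 : alx K m sub x false = Sx K m sub x - alx K m sub x true := by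
        unfold Sx
        ring
      simp only [wq, Bool.false_eq_true, if_false]
      rw [hw1, h7, sub_div, div_self hS.ne']
  have ha : 0 ≤ alx K m sub x c := alx_nonneg sub x c
  refine ⟨hWpos, hS, h3, hw, ?_, ?_⟩
  · unfold Wq
    rw [hw, ← mul_div_assoc, le_div_iff₀ hS]
    nlinarith
  · unfold Wq
    rw [hw, ← mul_div_assoc, div_le_iff₀ hS]
    nlinarith

private theorem ytq_aux {d : ℕ} {sub : ℕ → Bool → Cell N} {ψ : ℕ → Y N} {ν0 om : ℕ → Om N} {i : ℕ} {ν : Om N}
    (h : (Cell.node d sub ψ ν0 om).WF K m i ν) {W : ℝ} (hW : al K m (tt d sub) / 2 ≤ W)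
    {x : ℕ} (hx : x < 2 ^ d)
    (hch : ¬ exq K m d sub W x → ∀ c, PhL K m (sub x c) (Wq K m d sub W x c) ∈ Vs N K ∧
      (sub x c).tot - PhL K m (sub x c) (Wq K m d sub W x c) ∈ Xs N K m ∧
      nr K (PhL K m (sub x c) (Wq K m d sub W x c)) ≤ 4 * Wq K m d sub W x c) :
    ytq K m d sub W x ∈ Vs N K ∧ ((2 : ℝ) ^ d)⁻¹ • tt d sub - ytq K m d sub W x ∈ Xs N K m ∧
      nr K (ytq K m d sub W x) ≤ 4 * (W / 2 ^ d) := by
  have hD : (0 : ℝ) < 2 ^ d := by positivity
  have htt : tt d sub ∈ Vs N K := by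
    have h1 := WF_tot_mem (Cell.node d sub ψ ν0 om) i ν h
    rwa [tot_node] at h1
  by_cases hex : exq K m d sub W x
  · have h1 : ytq K m d sub W x = ze K m (((2 : ℝ) ^ d)⁻¹ • tt d sub) := by simp only [ytq, if_pos hex]
    have h2 : ((2 : ℝ) ^ d)⁻¹ • tt d sub ∈ Vs N K := Submodule.smul_mem _ _ htt
    rw [h1]
    refine ⟨ze_mem h2, ze_sub_mem h2, (nr_ze_le _).trans ?_⟩
    rw [al_smul, abs_of_nonneg (by positivity), div_eq_mul_inv]
    have h3 : ((2 : ℝ) ^ d)⁻¹ * (al K m (tt d sub) / 2) ≤ ((2 : ℝ) ^ d)⁻¹ * W :=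
      mul_le_mul_of_nonneg_left hW (by positivity)
    linarith
  · have h1 : ytq K m d sub W x = PhL K m (sub x false) (Wq K m d sub W x false) +
        PhL K m (sub x true) (Wq K m d sub W x true) := by simp only [ytq, if_neg hex]
    obtain ⟨f1, f2, f3⟩ := hch hex false
    obtain ⟨t1, t2, t3⟩ := hch hex true
    rw [h1]
    refine ⟨Submodule.add_mem _ f1 t1, ?_, ?_⟩
    · have h2 := Submodule.add_mem _ (Submodule.add_mem _ (cls_const h hx) f2) t2
      have h3 : ((2 : ℝ) ^ d)⁻¹ • tt d sub - (PhL K m (sub x false) (Wq K m d sub W x false) +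
          PhL K m (sub x true) (Wq K m d sub W x true)) =
          ((2 : ℝ) ^ d)⁻¹ • tt d sub - ((sub x false).tot + (sub x true).tot) +
            ((sub x false).tot - PhL K m (sub x false) (Wq K m d sub W x false)) +
            ((sub x true).tot - PhL K m (sub x true) (Wq K m d sub W x true)) := by abel
      rw [h3]
      exact h2
    · refine (nr_add_le _ _).trans ?_
      have h4 : Wq K m d sub W x false + Wq K m d sub W x true = W / 2 ^ d := by
        unfold Wq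
        rw [← mul_add, wq_add, mul_one]
      linarith

theorem phl_main (Q : Cell N) : ∀ (i : ℕ) (ν : Om N) (W : ℝ), Q.WF K m i ν → al K m Q.tot / 2 ≤ W →
    W ≤ al K m Q.tot → PhL K m Q W ∈ Vs N K ∧ Q.tot - PhL K m Q W ∈ Xs N K m ∧ nr K (PhL K m Q W) ≤ 4 * W := by
  induction Q with
  | leaf Φ =>
    intro i ν W h hW hW'
    simp only [Cell.WF] at h
    simp only [Cell.tot, PhL] at hW hW' ⊢
    refine ⟨ze_mem h.2, ze_sub_mem h.2, (nr_ze_le _).trans ?_⟩
    linarith
  | node d sub ψ ν0 om ih =>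
    intro i ν W h hW hW'
    have h' := h
    simp only [Cell.WF] at h'
    obtain ⟨-, -, -, -, -, -, -, -, -, -, h11⟩ := h'
    rw [tot_node] at hW hW' ⊢
    have hW0 : 0 ≤ W := le_trans (by have := al_nonneg (K := K) (m := m) (tt d sub); linarith) hW
    have hy : ∀ x ∈ Finset.range (2 ^ d), ytq K m d sub W x ∈ Vs N K ∧
        ((2 : ℝ) ^ d)⁻¹ • tt d sub - ytq K m d sub W x ∈ Xs N K m ∧
        nr K (ytq K m d sub W x) ≤ 4 * (W / 2 ^ d) := by
      intro x hx
      have hx' := Finset.mem_range.1 hx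
      refine ytq_aux h hW hx' fun hex c => ?_
      obtain ⟨-, -, -, -, h5, h6⟩ := wq_nonexit h hW0 hW' hx' hex c
      cases c with
      | true => exact ih x true _ _ _ (h11 x hx').2 h5 h6
      | false => exact ih x false _ _ _ (h11 x hx').1 h5 h6
    rw [PhL_node]
    have hD : (0 : ℝ) < 2 ^ d := by positivity
    refine ⟨Submodule.sum_mem _ fun x hx => (hy x hx).1, ?_, ?_⟩
    · have h3 : tt d sub - ∑ x ∈ Finset.range (2 ^ d), ytq K m d sub W x =
          ∑ x ∈ Finset.range (2 ^ d), (((2 : ℝ) ^ d)⁻¹ • tt d sub - ytq K m d sub W x) := by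
        rw [Finset.sum_sub_distrib, Finset.sum_const, Finset.card_range, ← Nat.cast_smul_eq_nsmul ℝ,
          smul_smul]
        push_cast
        rw [mul_inv_cancel₀ hD.ne', one_smul]
      rw [h3]
      exact Submodule.sum_mem _ fun x hx => (hy x hx).2.1
    · refine (nr_sum_le _ _).trans ((Finset.sum_le_sum fun x hx => (hy x hx).2.2).trans_eq ?_)
      rw [Finset.sum_const, Finset.card_range, nsmul_eq_mul]
      push_cast
      field_simp

theorem ytq_main {d : ℕ} {sub : ℕ → Bool → Cell N} {ψ : ℕ → Y N} {ν0 om : ℕ → Om N} {i : ℕ} {ν : Om N}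
    (h : (Cell.node d sub ψ ν0 om).WF K m i ν) {W : ℝ} (hW : al K m (tt d sub) / 2 ≤ W) (hW' : W ≤ al K m (tt d sub))
    {x : ℕ} (hx : x < 2 ^ d) :
    ytq K m d sub W x ∈ Vs N K ∧ ((2 : ℝ) ^ d)⁻¹ • tt d sub - ytq K m d sub W x ∈ Xs N K m ∧
      nr K (ytq K m d sub W x) ≤ 4 * (W / 2 ^ d) := by
  have h' := h
  simp only [Cell.WF] at h'
  obtain ⟨-, -, -, -, -, -, -, -, -, -, h11⟩ := h'
  have hW0 : 0 ≤ W := le_trans (by have := al_nonneg (K := K) (m := m) (tt d sub); linarith) hW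
  refine ytq_aux h hW hx fun hex c => ?_
  obtain ⟨-, -, -, -, h5, h6⟩ := wq_nonexit h hW0 hW' hx hex c
  cases c with
  | true => exact phl_main (sub x true) _ _ _ (h11 x hx).2 h5 h6
  | false => exact phl_main (sub x false) _ _ _ (h11 x hx).1 h5 h6

theorem yq_main {d : ℕ} {sub : ℕ → Bool → Cell N} {ψ : ℕ → Y N} {ν0 om : ℕ → Om N} {i : ℕ} {ν : Om N}
    (h : (Cell.node d sub ψ ν0 om).WF K m i ν) {W : ℝ} (hW : al K m (tt d sub) / 2 ≤ W) (hW' : W ≤ al K m (tt d sub))
    {x : ℕ} (hx : x < 2 ^ d) (c : Bool) :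
    yq K m d sub W x c ∈ Vs N K ∧ (sub x c).tot - yq K m d sub W x c ∈ Xs N K m ∧
      nr K (yq K m d sub W x c) ≤ 2 * alx K m sub x c + 2 * alx K m sub x c ∧
      (exq K m d sub W x → nr K (yq K m d sub W x c) ≤ 2 * alx K m sub x c) ∧
      (¬ exq K m d sub W x → nr K (yq K m d sub W x c) ≤ 4 * Wq K m d sub W x c) := by
  have h' := h
  simp only [Cell.WF] at h'
  obtain ⟨-, -, -, -, -, -, -, -, -, -, h11⟩ := h'
  have hW0 : 0 ≤ W := le_trans (by have := al_nonneg (K := K) (m := m) (tt d sub); linarith) hW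
  have ha : 0 ≤ alx K m sub x c := alx_nonneg sub x c
  by_cases hex : exq K m d sub W x
  · have h1 : yq K m d sub W x c = ze K m (sub x c).tot := by simp only [yq, if_pos hex]
    have h2 : (sub x c).tot ∈ Vs N K := by
      cases c with
      | true => exact WF_tot_mem _ _ _ (h11 x hx).2
      | false => exact WF_tot_mem _ _ _ (h11 x hx).1
    have h3 : nr K (ze K m (sub x c).tot) ≤ 2 * alx K m sub x c := nr_ze_le _
    rw [h1]
    exact ⟨ze_mem h2, ze_sub_mem h2, by linarith, fun _ => h3, fun h4 => absurd hex h4⟩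
  · have h1 : yq K m d sub W x c = PhL K m (sub x c) (Wq K m d sub W x c) := by
      simp only [yq, if_neg hex]
    obtain ⟨-, -, -, -, h5, h6⟩ := wq_nonexit h hW0 hW' hx hex c
    have h7 : PhL K m (sub x c) (Wq K m d sub W x c) ∈ Vs N K ∧
        (sub x c).tot - PhL K m (sub x c) (Wq K m d sub W x c) ∈ Xs N K m ∧
        nr K (PhL K m (sub x c) (Wq K m d sub W x c)) ≤ 4 * Wq K m d sub W x c := by
      cases c with
      | true => exact phl_main (sub x true) _ _ _ (h11 x hx).2 h5 h6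
      | false => exact phl_main (sub x false) _ _ _ (h11 x hx).1 h5 h6
    rw [h1]
    exact ⟨h7.1, h7.2.1, by linarith [h7.2.2], fun h4 => absurd h4 hex, fun _ => h7.2.2⟩

theorem ytq_nonexit {d : ℕ} {sub : ℕ → Bool → Cell N} {W : ℝ} {x : ℕ} (hex : ¬ exq K m d sub W x) :
    ytq K m d sub W x = yq K m d sub W x false + yq K m d sub W x true := by
  simp [ytq, yq, hex]

end H50RC
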