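import Pool.Agent.H50.RC.L2

/-!
S05864 [H50 RC L3]: (L3) and (L4): Lipschitz dependence on `ω`.
`ww_lip`: for reals `s, s' ≥ 0`, `t > 0`: `|s²/(s²+t²) - s'²/(s'²+t²)| = t² |s-s'| (s+s')/((s²+t²)(s'²+t²)) ≤ |s-s'|/t` (`s/(s²+t²) ≤ 1/(2t)`, `1/(s'²+t²) ≤ 1/t²`).
`sqrt_SS_lip`: `|√SS(ω) - √SS(ω')|² ≤ SS(ω - ω')` (triangle inequality for the `ℓ_2` norm on the nodes below `q`).
`sum_FQ_le` (L3): `|FQ ω q - FQ ω' q| ≤ |dω(q.tail)| ww ω q + |ω'(q.tail)| |ww ω q - ww ω' q|`; squares: `∑_q dω(q.tail)² ww² ≤ ∑_{q'} dω(q')² ∑_a ww(a::q') ≤ 16K^5 |dω|²` (`sum_children_ww_le`, `∑ω² ≤ 16K`);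
`∑_q 16 · K^4 SS(dω)(q) ≤ 16 K^5 |dω|²` (`sum_SS_le`). With `(a+b)² ≤ 2a²+2b²`: `≤ 64 K^5 |dω|²`.
`Lam_diff_le` (L4): `Lam ω' - Lam ω = ∑_{marked} dω(p) FF p y + ∑_{unmarked q} { dω(q) (dt n (y q) + cc rr_q) + rp ∑_a (FQ ω' (a::q) - FQ ω (a::q)) rr_{a::q} }` (level `K`: only `dω(q) dt n (y q)`);
`|rr m y w| ≤ ‖y w‖ + N⁻¹ ‖y w.tail‖`; `1 + |cc| ≤ 2 rp`. A child `a::q` of an unmarked node is unmarked (`PC M`). For `bbN`: Cauchy-Schwarz over the `N` children: `(∑_a x_a)² ≤ N ∑ x_a²`.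
The nodes `q` of the last sum are `lev 0 ∪ … ∪ lev (K-1)` = `insert [] (nds N K)` without level `K`; it is harmless to sum over `insert [] (nds N K)`.
-/

set_option autoImplicit false

namespace H50RC

variable {N K m L : ℕ} {ε : ℝ}

/-- reindexing by children, an inequality -/
private theorem sum_nds_children_le {g : Nd N → ℝ} (hg : ∀ w ∈ nds N K, 0 ≤ ∑ a, g (a :: w))
    (h1 : ∀ w : Nd N, w.length ≤ 1 → g w = 0) :
    ∑ q ∈ nds N K, g q ≤ ∑ w ∈ nds N K, ∑ a, g (a :: w) := by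
  obtain ⟨h, hh⟩ : ∃ h : ℕ → ℝ, h = fun k => ∑ w ∈ lev N k, ∑ a, g (a :: w) := ⟨_, rfl⟩
  have e1 : ∑ q ∈ nds N K, g q = ∑ k ∈ Finset.range K, h k := by
    rw [sum_nds, hh]
    exact Finset.sum_congr rfl fun k _ => sum_lev_succ g
  have e2 : ∑ w ∈ nds N K, ∑ a, g (a :: w) = ∑ k ∈ Finset.range K, h (k + 1) := by
    rw [sum_nds, hh]
  have e3 : h 0 = 0 := by
    rw [hh]
    simp only
    refine Finset.sum_eq_zero fun w hw => Finset.sum_eq_zero fun a _ => h1 _ ?_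
    rw [List.length_cons, mem_lev.1 hw]
  rw [e1, e2]
  rcases Nat.eq_zero_or_pos K with hK | hK
  · rw [hK]
    simp
  · obtain ⟨K', rfl⟩ : ∃ K', K = K' + 1 := ⟨K - 1, by omega⟩
    rw [Finset.sum_range_succ', e3, add_zero, Finset.sum_range_succ (fun k => h (k + 1))]
    have e4 : 0 ≤ h (K' + 1) := by
      rw [hh]
      refine Finset.sum_nonneg fun w hw => hg w ?_
      have := mem_lev.1 hw
      refine mem_nds.2 ⟨?_, by omega⟩
      intro h0
      rw [h0] at this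
      simp at this
    linarith

/-- every node of `nds` is a child of exactly one node of the levels `0, …, K` -/
private theorem sum_insert_children (h : Nd N → ℝ) :
    (∑ q ∈ insert [] (nds N K), ∑ a, if (a :: q) ∈ nds N K then h (a :: q) else 0) =
      ∑ q ∈ nds N K, h q := by
  obtain ⟨g, hg⟩ : ∃ g : ℕ → ℝ, g = fun k => ∑ q ∈ lev N k, ∑ a, if (a :: q) ∈ nds N K then
    h (a :: q) else 0 := ⟨_, rfl⟩
  have hnil : ([] : Nd N) ∉ nds N K := fun h0 => (mem_nds.1 h0).1 rfl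
  have e1 : (∑ q ∈ insert [] (nds N K), ∑ a, if (a :: q) ∈ nds N K then h (a :: q) else 0) =
      g 0 + ∑ k ∈ Finset.range K, g (k + 1) := by
    rw [Finset.sum_insert hnil, sum_nds, hg]
    congr 1
    simp only [lev, Finset.sum_singleton]
  have e2 : g K = 0 := by
    rw [hg]
    simp only
    refine Finset.sum_eq_zero fun w hw => Finset.sum_eq_zero fun a _ => ?_
    rw [if_neg]
    intro h0
    have h2 := (mem_nds.1 h0).2
    rw [List.length_cons, mem_lev.1 hw] at h2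
    omega
  have e3 : ∀ k ∈ Finset.range K, g k = ∑ w ∈ lev N (k + 1), h w := by
    intro k hk
    rw [sum_lev_succ, hg]
    simp only
    refine Finset.sum_congr rfl fun w hw => Finset.sum_congr rfl fun a _ => ?_
    rw [if_pos]
    have := Finset.mem_range.1 hk
    exact mem_nds.2 ⟨List.cons_ne_nil _ _, by rw [List.length_cons, mem_lev.1 hw]; omega⟩
  rw [e1, sum_nds, ← Finset.sum_congr rfl e3]
  have e4 := Finset.sum_range_succ' g K
  have e5 := Finset.sum_range_succ g K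
  rw [e2, add_zero] at e5
  linarith

private theorem sin_pos' (hm : 2 ≤ m) : 0 < Real.sin (Real.pi / m) := by
  have hm2 : (2 : ℝ) ≤ m := by exact_mod_cast hm
  apply Real.sin_pos_of_pos_of_lt_pi
  · have := Real.pi_pos
    positivity
  · rw [div_lt_iff₀ (by linarith)]
    nlinarith [Real.pi_pos]

private theorem one_le_rp' (hm : 2 ≤ m) : 1 ≤ rp m := by
  unfold rp
  exact (one_le_inv₀ (sin_pos' hm)).mpr (Real.sin_le_one _)

private theorem abs_cc_le' (hm : 2 ≤ m) : |cc m| ≤ rp m := by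
  unfold cc rp
  have h1 := sin_pos' hm
  rw [abs_neg, abs_div, abs_of_pos h1, div_eq_mul_inv]
  exact mul_le_of_le_one_left (inv_nonneg.mpr h1.le) (Real.abs_cos_le_one _)

private theorem abs_rr_le' (m : ℕ) (y : Y N) (w : Nd N) :
    |rr m y w| ≤ ‖y w‖ + (N : ℝ)⁻¹ * ‖y w.tail‖ := by
  unfold rr
  have h1 := abs_dt_le (Complex.I * dir m w.length) (y w - (N : ℝ)⁻¹ • y w.tail)
  rw [norm_I_dir, one_mul] at h1
  refine h1.trans ((norm_sub_le _ _).trans ?_)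
  rw [norm_smul, Real.norm_of_nonneg (by positivity)]

theorem ww_lip {s s' t : ℝ} (hs : 0 ≤ s) (hs' : 0 ≤ s') (ht : 0 < t) :
    |s ^ 2 / (s ^ 2 + t ^ 2) - s' ^ 2 / (s' ^ 2 + t ^ 2)| ≤ |s - s'| / t := by
  have h1 : 0 < s ^ 2 + t ^ 2 := by positivity
  have h2 : 0 < s' ^ 2 + t ^ 2 := by positivity
  have h3 : s ^ 2 / (s ^ 2 + t ^ 2) - s' ^ 2 / (s' ^ 2 + t ^ 2) =
      (s - s') * (t ^ 2 * (s + s') / ((s ^ 2 + t ^ 2) * (s' ^ 2 + t ^ 2))) := by
    field_simp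
    ring
  have h4 : t ^ 2 * (s + s') / ((s ^ 2 + t ^ 2) * (s' ^ 2 + t ^ 2)) ≤ 1 / t := by
    rw [div_le_div_iff₀ (mul_pos h1 h2) ht, one_mul]
    have e1 : t ^ 2 * (2 * t * s) ≤ t ^ 2 * (s ^ 2 + t ^ 2) :=
      mul_le_mul_of_nonneg_left (by nlinarith [sq_nonneg (s - t)]) (sq_nonneg t)
    have e2 : t ^ 2 * (2 * t * s') ≤ t ^ 2 * (s' ^ 2 + t ^ 2) :=
      mul_le_mul_of_nonneg_left (by nlinarith [sq_nonneg (s' - t)]) (sq_nonneg t)
    have e3 : 0 ≤ s ^ 2 * s' ^ 2 := by positivity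
    have e4 : 0 ≤ t ^ 2 * s ^ 2 := by positivity
    have e5 : 0 ≤ t ^ 2 * s' ^ 2 := by positivity
    nlinarith
  have h5 : 0 ≤ t ^ 2 * (s + s') / ((s ^ 2 + t ^ 2) * (s' ^ 2 + t ^ 2)) := by positivity
  rw [h3, abs_mul, abs_of_nonneg h5, div_eq_mul_one_div |s - s'| t]
  exact mul_le_mul_of_nonneg_left h4 (abs_nonneg _)

theorem sqrt_SS_lip (ω ω' : Om N) (q : Nd N) :
    (Real.sqrt (SS K ω q) - Real.sqrt (SS K ω' q)) ^ 2 ≤ SS K (ω - ω') q := by
  have h1 := Real.sum_mul_le_sqrt_mul_sqrt ((nds N K).filter (fun w => q <:+ w)) ω ω'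
  have h2 : SS K (ω - ω') q = SS K ω q + SS K ω' q -
      2 * ∑ w ∈ (nds N K).filter (fun w => q <:+ w), ω w * ω' w := by
    unfold SS
    rw [Finset.mul_sum, ← Finset.sum_add_distrib, ← Finset.sum_sub_distrib]
    refine Finset.sum_congr rfl fun w _ => ?_
    rw [Pi.sub_apply]
    ring
  have h3 := Real.sq_sqrt (SS_nonneg (K := K) ω q)
  have h4 := Real.sq_sqrt (SS_nonneg (K := K) ω' q)
  have h5 : ∑ w ∈ (nds N K).filter (fun w => q <:+ w), ω w * ω' w ≤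
      Real.sqrt (SS K ω q) * Real.sqrt (SS K ω' q) := h1
  rw [h2]
  nlinarith

theorem ww_diff_sq_le (hK : 1 ≤ K) (ω ω' : Om N) (q : Nd N) :
    (ww K ω q - ww K ω' q) ^ 2 ≤ (K : ℝ) ^ 4 * SS K (ω - ω') q := by
  have hK0 : (0 : ℝ) < K := by
    exact_mod_cast hK
  have ht : (0 : ℝ) < ((K : ℝ) ^ 2)⁻¹ := by positivity
  have ht2 : (((K : ℝ) ^ 2)⁻¹) ^ 2 = ((K : ℝ) ^ 4)⁻¹ := by
    rw [inv_pow, ← pow_mul]
  have e1 : ∀ ω : Om N, ww K ω q = Real.sqrt (SS K ω q) ^ 2 /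
      (Real.sqrt (SS K ω q) ^ 2 + (((K : ℝ) ^ 2)⁻¹) ^ 2) := by
    intro ω
    rw [Real.sq_sqrt (SS_nonneg ω q), ht2]
    rfl
  have h1 := ww_lip (Real.sqrt_nonneg (SS K ω q)) (Real.sqrt_nonneg (SS K ω' q)) ht
  rw [← e1, ← e1] at h1
  have h2 := sqrt_SS_lip (K := K) ω ω' q
  have h3 : (ww K ω q - ww K ω' q) ^ 2 ≤
      (|Real.sqrt (SS K ω q) - Real.sqrt (SS K ω' q)| / ((K : ℝ) ^ 2)⁻¹) ^ 2 := by
    rw [← sq_abs]
    exact pow_le_pow_left₀ (abs_nonneg _) h1 2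
  refine h3.trans ?_
  rw [div_pow, sq_abs, ht2, div_inv_eq_mul, mul_comm]
  exact mul_le_mul_of_nonneg_left h2 (by positivity)

theorem abs_FQ_le {ω : Om N} {c : ℝ} (hc : 0 ≤ c) (hω : ∀ w ∈ nds N K, |ω w| ≤ c) {q : Nd N} (hq : q ∈ nds N K) :
    |FQ K ω q| ≤ c := by
  unfold FQ
  split_ifs with h
  · rw [abs_zero]
    exact hc
  · obtain ⟨h1, h2⟩ := mem_nds.1 hq
    have h3 : q.tail ∈ nds N K := by
      refine mem_nds.2 ⟨?_, ?_⟩
      · intro h4
        have h5 := congrArg List.length h4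
        rw [List.length_tail, List.length_nil] at h5
        omega
      · rw [List.length_tail]
        omega
    rw [abs_mul, abs_of_nonneg (ww_nonneg ω q)]
    calc |ω q.tail| * ww K ω q ≤ c * 1 := mul_le_mul (hω _ h3) (ww_le_one ω q) (ww_nonneg ω q) hc
      _ = c := mul_one c

theorem sum_FQ_le (hK : 1 ≤ K) {ω ω' : Om N} (hω : BB K 4 ω) (hω' : BB K 4 ω') :
    ∑ q ∈ nds N K, (FQ K ω' q - FQ K ω q) ^ 2 ≤ 64 * (K : ℝ) ^ 5 * ∑ w ∈ nds N K, (ω' w - ω w) ^ 2 := by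
  classical
  obtain ⟨g, hg⟩ : ∃ g : Nd N → ℝ, g = fun q => if q.length ≤ 1 then 0 else
    2 * (ω' q.tail - ω q.tail) ^ 2 * ww K ω' q := ⟨_, rfl⟩
  have hterm : ∀ q ∈ nds N K, (FQ K ω' q - FQ K ω q) ^ 2 ≤ g q + 32 * ((K : ℝ) ^ 4 * SS K (ω' - ω) q) := by
    intro q hq
    obtain ⟨h1, h2⟩ := mem_nds.1 hq
    have hS := SS_nonneg (K := K) (ω' - ω) q
    rw [hg]
    simp only
    unfold FQ
    split_ifs with h
    · rw [sub_zero, zero_pow two_ne_zero, zero_add]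
      positivity
    · have h3 : q.tail ∈ nds N K := by
        refine mem_nds.2 ⟨?_, ?_⟩
        · intro h4
          have h5 := congrArg List.length h4
          rw [List.length_tail, List.length_nil] at h5
          omega
        · rw [List.length_tail]
          omega
      have h4 := hω.abs_le h3
      have h5 : ω q.tail ^ 2 ≤ 16 := by
        rw [← sq_abs]
        nlinarith [abs_nonneg (ω q.tail)]
      have w0 := ww_nonneg (K := K) ω' q
      have w1 := ww_le_one (K := K) ω' q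
      have h6 := ww_diff_sq_le hK ω' ω q
      have h7 : (ω' q.tail * ww K ω' q - ω q.tail * ww K ω q) ^ 2 ≤
          2 * ((ω' q.tail - ω q.tail) * ww K ω' q) ^ 2 +
            2 * (ω q.tail * (ww K ω' q - ww K ω q)) ^ 2 := by
        nlinarith [sq_nonneg ((ω' q.tail - ω q.tail) * ww K ω' q - ω q.tail * (ww K ω' q - ww K ω q))]
      have h8 : 2 * ((ω' q.tail - ω q.tail) * ww K ω' q) ^ 2 ≤
          2 * (ω' q.tail - ω q.tail) ^ 2 * ww K ω' q := by
        have : ww K ω' q ^ 2 ≤ ww K ω' q := by nlinarith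
        rw [mul_pow]
        nlinarith [mul_le_mul_of_nonneg_left this (sq_nonneg (ω' q.tail - ω q.tail))]
      have h9 : 2 * (ω q.tail * (ww K ω' q - ww K ω q)) ^ 2 ≤ 32 * ((K : ℝ) ^ 4 * SS K (ω' - ω) q) := by
        rw [mul_pow]
        have := mul_le_mul h5 h6 (sq_nonneg _) (by norm_num : (0 : ℝ) ≤ 16)
        linarith
      linarith
  have hsum := Finset.sum_le_sum hterm
  rw [Finset.sum_add_distrib, ← Finset.mul_sum, ← Finset.mul_sum] at hsum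
  have hS := sum_SS_le (K := K) (ω' - ω)
  have hd : ∑ w ∈ nds N K, (ω' - ω) w ^ 2 = ∑ w ∈ nds N K, (ω' w - ω w) ^ 2 := rfl
  rw [hd] at hS
  have hE : 0 ≤ ∑ w ∈ nds N K, (ω' w - ω w) ^ 2 := Finset.sum_nonneg fun _ _ => sq_nonneg _
  have hg1 : ∑ q ∈ nds N K, g q ≤ ∑ w ∈ nds N K, ∑ a, g (a :: w) := by
    refine sum_nds_children_le ?_ ?_
    · intro w hw
      refine Finset.sum_nonneg fun a _ => ?_
      rw [hg]
      simp only
      split_ifs
      · exact le_refl _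
      · exact mul_nonneg (mul_nonneg two_pos.le (sq_nonneg _)) (ww_nonneg _ _)
    · intro w hw
      rw [hg]
      simp only [if_pos hw]
  have hg2 : ∑ w ∈ nds N K, ∑ a, g (a :: w) ≤ ∑ w ∈ nds N K, 2 * (ω' w - ω w) ^ 2 * ((K : ℝ) ^ 4 * (16 * K)) := by
    refine Finset.sum_le_sum fun w hw => ?_
    obtain ⟨h1, h2⟩ := mem_nds.1 hw
    have h3 : 0 < w.length := List.length_pos_of_ne_nil h1
    have h4 : ∀ a : Fin N, g (a :: w) = 2 * (ω' w - ω w) ^ 2 * ww K ω' (a :: w) := by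
      intro a
      rw [hg]
      simp only
      rw [if_neg (by rw [List.length_cons]; omega)]
      rfl
    simp only [h4]
    rw [← Finset.mul_sum]
    apply mul_le_mul_of_nonneg_left _ (by positivity)
    refine (sum_children_ww_le ω' w).trans ?_
    apply mul_le_mul_of_nonneg_left _ (by positivity)
    have h5 := hω'.sq_le
    norm_num at h5
    exact h5
  rw [← Finset.sum_mul, ← Finset.mul_sum] at hg2
  have e1 : 32 * ((K : ℝ) ^ 4 * ∑ i ∈ nds N K, SS K (ω' - ω) i) ≤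
      32 * ((K : ℝ) ^ 4 * (K * ∑ w ∈ nds N K, (ω' w - ω w) ^ 2)) := by
    have := mul_le_mul_of_nonneg_left hS (by positivity : (0 : ℝ) ≤ (K : ℝ) ^ 4)
    linarith
  calc ∑ q ∈ nds N K, (FQ K ω' q - FQ K ω q) ^ 2
      ≤ 2 * (∑ w ∈ nds N K, (ω' w - ω w) ^ 2) * ((K : ℝ) ^ 4 * (16 * K)) +
        32 * ((K : ℝ) ^ 4 * (K * ∑ w ∈ nds N K, (ω' w - ω w) ^ 2)) := by
        linarith
    _ = 64 * (K : ℝ) ^ 5 * ∑ w ∈ nds N K, (ω' w - ω w) ^ 2 := by ring

/-- the coefficient `b(q)` of (L4) -/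
noncomputable def bb (K m : ℕ) {N : ℕ} (ω ω' : Om N) (q : Nd N) : ℝ :=
  2 * rp m * (|ω' q - ω q| + |FQ K ω' q - FQ K ω q|)

/-- the coefficient `b'(q)` of (L4) -/
noncomputable def bbN (K m : ℕ) {N : ℕ} (ω ω' : Om N) (q : Nd N) : ℝ :=
  rp m * (N : ℝ)⁻¹ * ∑ a, if (a :: q) ∈ nds N K then (|ω' (a :: q) - ω (a :: q)| + |FQ K ω' (a :: q) - FQ K ω (a :: q)|) else 0

theorem sum_bb_le (hK : 1 ≤ K) {ω ω' : Om N} (hω : BB K 4 ω) (hω' : BB K 4 ω') :
    ∑ q ∈ nds N K, bb K m ω ω' q ^ 2 ≤ 520 * rp m ^ 2 * (K : ℝ) ^ 5 * ∑ w ∈ nds N K, (ω' w - ω w) ^ 2 := by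
  have h1 := sum_FQ_le hK hω hω'
  have hE : 0 ≤ ∑ w ∈ nds N K, (ω' w - ω w) ^ 2 := Finset.sum_nonneg fun _ _ => sq_nonneg _
  have hK5 : (1 : ℝ) ≤ (K : ℝ) ^ 5 := one_le_pow₀ (by exact_mod_cast hK)
  have hterm : ∀ q ∈ nds N K, bb K m ω ω' q ^ 2 ≤
      8 * rp m ^ 2 * ((ω' q - ω q) ^ 2 + (FQ K ω' q - FQ K ω q) ^ 2) := by
    intro q _
    unfold bb
    have h2 := sq_abs (ω' q - ω q)
    have h3 := sq_abs (FQ K ω' q - FQ K ω q)
    have h4 : (|ω' q - ω q| + |FQ K ω' q - FQ K ω q|) ^ 2 ≤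
        2 * ((ω' q - ω q) ^ 2 + (FQ K ω' q - FQ K ω q) ^ 2) := by
      nlinarith [sq_nonneg (|ω' q - ω q| - |FQ K ω' q - FQ K ω q|)]
    have h5 := mul_le_mul_of_nonneg_left h4 (by positivity : 0 ≤ 4 * rp m ^ 2)
    calc (2 * rp m * (|ω' q - ω q| + |FQ K ω' q - FQ K ω q|)) ^ 2
        = 4 * rp m ^ 2 * (|ω' q - ω q| + |FQ K ω' q - FQ K ω q|) ^ 2 := by ring
      _ ≤ 4 * rp m ^ 2 * (2 * ((ω' q - ω q) ^ 2 + (FQ K ω' q - FQ K ω q) ^ 2)) := h5
      _ = 8 * rp m ^ 2 * ((ω' q - ω q) ^ 2 + (FQ K ω' q - FQ K ω q) ^ 2) := by ring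
  have h2 := Finset.sum_le_sum hterm
  rw [← Finset.mul_sum, Finset.sum_add_distrib] at h2
  have h3 : ∑ w ∈ nds N K, (ω' w - ω w) ^ 2 + ∑ q ∈ nds N K, (FQ K ω' q - FQ K ω q) ^ 2 ≤
      65 * ((K : ℝ) ^ 5 * ∑ w ∈ nds N K, (ω' w - ω w) ^ 2) := by
    have := mul_le_mul_of_nonneg_right hK5 hE
    linarith
  have h4 := mul_le_mul_of_nonneg_left h3 (by positivity : 0 ≤ 8 * rp m ^ 2)
  calc ∑ q ∈ nds N K, bb K m ω ω' q ^ 2
      ≤ 8 * rp m ^ 2 * (65 * ((K : ℝ) ^ 5 * ∑ w ∈ nds N K, (ω' w - ω w) ^ 2)) := h2.trans h4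
    _ = 520 * rp m ^ 2 * (K : ℝ) ^ 5 * ∑ w ∈ nds N K, (ω' w - ω w) ^ 2 := by ring

theorem sum_bbN_le (hK : 1 ≤ K) (hN : 1 ≤ N) {ω ω' : Om N} (hω : BB K 4 ω) (hω' : BB K 4 ω') :
    ∑ q ∈ insert [] (nds N K), bbN K m ω ω' q ^ 2 ≤
      130 * rp m ^ 2 * (K : ℝ) ^ 5 * (N : ℝ)⁻¹ * ∑ w ∈ nds N K, (ω' w - ω w) ^ 2 := by
  have h1 := sum_FQ_le hK hω hω'
  have hE : 0 ≤ ∑ w ∈ nds N K, (ω' w - ω w) ^ 2 := Finset.sum_nonneg fun _ _ => sq_nonneg _
  have hK5 : (1 : ℝ) ≤ (K : ℝ) ^ 5 := one_le_pow₀ (by exact_mod_cast hK)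
  have hNp : (0 : ℝ) < N := by exact_mod_cast hN
  obtain ⟨h, hh⟩ : ∃ h : Nd N → ℝ, h = fun q =>
    2 * ((ω' q - ω q) ^ 2 + (FQ K ω' q - FQ K ω q) ^ 2) := ⟨_, rfl⟩
  have hterm : ∀ q ∈ insert [] (nds N K), bbN K m ω ω' q ^ 2 ≤
      rp m ^ 2 * (N : ℝ)⁻¹ * ∑ a, if (a :: q) ∈ nds N K then h (a :: q) else 0 := by
    intro q _
    unfold bbN
    have h2 : (∑ a : Fin N, if (a :: q) ∈ nds N K then (|ω' (a :: q) - ω (a :: q)| +
        |FQ K ω' (a :: q) - FQ K ω (a :: q)|) else 0) ^ 2 ≤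
        N * ∑ a : Fin N, if (a :: q) ∈ nds N K then h (a :: q) else 0 := by
      have h3 := sq_sum_le_card_mul_sum_sq (s := (Finset.univ : Finset (Fin N)))
        (f := fun a => if (a :: q) ∈ nds N K then (|ω' (a :: q) - ω (a :: q)| +
          |FQ K ω' (a :: q) - FQ K ω (a :: q)|) else 0)
      rw [Finset.card_univ, Fintype.card_fin] at h3
      refine h3.trans ?_
      apply mul_le_mul_of_nonneg_left _ hNp.le
      refine Finset.sum_le_sum fun a _ => ?_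
      split_ifs
      · rw [hh]
        simp only
        have e2 := sq_abs (ω' (a :: q) - ω (a :: q))
        have e3 := sq_abs (FQ K ω' (a :: q) - FQ K ω (a :: q))
        nlinarith [sq_nonneg (|ω' (a :: q) - ω (a :: q)| - |FQ K ω' (a :: q) - FQ K ω (a :: q)|)]
      · norm_num
    have h4 := mul_le_mul_of_nonneg_left h2 (by positivity : 0 ≤ rp m ^ 2 * ((N : ℝ)⁻¹) ^ 2)
    calc (rp m * (N : ℝ)⁻¹ * ∑ a, if (a :: q) ∈ nds N K then (|ω' (a :: q) - ω (a :: q)| +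
          |FQ K ω' (a :: q) - FQ K ω (a :: q)|) else 0) ^ 2
        = rp m ^ 2 * ((N : ℝ)⁻¹) ^ 2 * (∑ a, if (a :: q) ∈ nds N K then (|ω' (a :: q) - ω (a :: q)| +
          |FQ K ω' (a :: q) - FQ K ω (a :: q)|) else 0) ^ 2 := by ring
      _ ≤ rp m ^ 2 * ((N : ℝ)⁻¹) ^ 2 * (N * ∑ a : Fin N, if (a :: q) ∈ nds N K then h (a :: q) else 0) := h4
      _ = rp m ^ 2 * (N : ℝ)⁻¹ * ∑ a : Fin N, if (a :: q) ∈ nds N K then h (a :: q) else 0 := by
        field_simp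
  have h2 := Finset.sum_le_sum hterm
  rw [← Finset.mul_sum, sum_insert_children, hh, ← Finset.mul_sum, Finset.sum_add_distrib] at h2
  have h3 : ∑ w ∈ nds N K, (ω' w - ω w) ^ 2 + ∑ q ∈ nds N K, (FQ K ω' q - FQ K ω q) ^ 2 ≤
      65 * ((K : ℝ) ^ 5 * ∑ w ∈ nds N K, (ω' w - ω w) ^ 2) := by
    have := mul_le_mul_of_nonneg_right hK5 hE
    linarith
  have h4 := mul_le_mul_of_nonneg_left h3 (by positivity : 0 ≤ 2 * (rp m ^ 2 * (N : ℝ)⁻¹))
  calc ∑ q ∈ insert [] (nds N K), bbN K m ω ω' q ^ 2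
      ≤ rp m ^ 2 * (N : ℝ)⁻¹ * (2 * (∑ w ∈ nds N K, (ω' w - ω w) ^ 2 +
        ∑ q ∈ nds N K, (FQ K ω' q - FQ K ω q) ^ 2)) := h2
    _ = 2 * (rp m ^ 2 * (N : ℝ)⁻¹) * (∑ w ∈ nds N K, (ω' w - ω w) ^ 2 +
        ∑ q ∈ nds N K, (FQ K ω' q - FQ K ω q) ^ 2) := by ring
    _ ≤ 2 * (rp m ^ 2 * (N : ℝ)⁻¹) * (65 * ((K : ℝ) ^ 5 * ∑ w ∈ nds N K, (ω' w - ω w) ^ 2)) := h4
    _ = 130 * rp m ^ 2 * (K : ℝ) ^ 5 * (N : ℝ)⁻¹ * ∑ w ∈ nds N K, (ω' w - ω w) ^ 2 := by ring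

theorem Lam_diff_le (hm : 2 ≤ m) {M : Finset (Nd N)} (hM : PC M) (v : Nd N → ℂ) (ω ω' : Om N) (y : Y N) :
    |Lam K m L ε M v ω' y - Lam K m L ε M v ω y| ≤
      ∑ p ∈ (nds N K).filter (fun p => p ∈ M), |ω' p - ω p| * |FF K m L ε M v p y| +
      ∑ q ∈ (nds N K).filter (fun q => q ∉ M), bb K m ω ω' q * ‖y q‖ +
      ∑ q ∈ insert [] (nds N K), bbN K m ω ω' q * ‖y q‖ := by
  classical
  have hrp := one_le_rp' hm
  have hcc := abs_cc_le' hm
  have hNi : (0 : ℝ) ≤ (N : ℝ)⁻¹ := by positivity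
  obtain ⟨D1, hD1⟩ : ∃ D1 : Nd N → ℝ, D1 = fun q => |ω' q - ω q| := ⟨_, rfl⟩
  obtain ⟨D2, hD2⟩ : ∃ D2 : Nd N → ℝ, D2 = fun q => |FQ K ω' q - FQ K ω q| := ⟨_, rfl⟩
  have D1n : ∀ q, 0 ≤ D1 q := fun q => by rw [hD1]; exact abs_nonneg _
  have D2n : ∀ q, 0 ≤ D2 q := fun q => by rw [hD2]; exact abs_nonneg _
  have hsplit : Lam K m L ε M v ω' y - Lam K m L ε M v ω y =
      ∑ p ∈ (nds N K).filter (fun p => p ∈ M), (ω' p - ω p) * FF K m L ε M v p y +
      ∑ q ∈ (nds N K).filter (fun q => q ∉ M),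
        (ω' q * FU K m (ww K ω') q y - ω q * FU K m (ww K ω) q y) := by
    unfold Lam
    rw [Finset.sum_sub_distrib]
    have : ∑ p ∈ (nds N K).filter (fun p => p ∈ M), (ω' p - ω p) * FF K m L ε M v p y =
        ∑ p ∈ (nds N K).filter (fun p => p ∈ M), ω' p * FF K m L ε M v p y -
        ∑ p ∈ (nds N K).filter (fun p => p ∈ M), ω p * FF K m L ε M v p y := by
      rw [← Finset.sum_sub_distrib]
      exact Finset.sum_congr rfl fun p _ => by ring
    rw [this]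
    ring
  have hterm : ∀ q ∈ (nds N K).filter (fun q => q ∉ M),
      |ω' q * FU K m (ww K ω') q y - ω q * FU K m (ww K ω) q y| ≤
        (2 * rp m * D1 q * ‖y q‖ + rp m * (N : ℝ)⁻¹ * D1 q * ‖y q.tail‖) +
        ((∑ a, if (a :: q) ∈ nds N K then rp m * D2 (a :: q) * ‖y (a :: q)‖ else 0) +
        ∑ a, if (a :: q) ∈ nds N K then rp m * (N : ℝ)⁻¹ * D2 (a :: q) * ‖y q‖ else 0) := by
    intro q hq
    obtain ⟨hq1, hq2⟩ := Finset.mem_filter.mp hq
    obtain ⟨hq3, hq4⟩ := mem_nds.1 hq1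
    have hlen : 0 < q.length := List.length_pos_of_ne_nil hq3
    have hdt : |dt (dir m q.length) (y q)| ≤ ‖y q‖ := by
      have := abs_dt_le (dir m q.length) (y q)
      rwa [norm_dir, one_mul] at this
    have n1 : 0 ≤ rp m * (N : ℝ)⁻¹ * D1 q * ‖y q.tail‖ :=
      mul_nonneg (mul_nonneg (mul_nonneg (by linarith) hNi) (D1n q)) (norm_nonneg _)
    by_cases hlt : q.length < K
    · have hmem : ∀ a : Fin N, (a :: q) ∈ nds N K := fun a =>
        mem_nds.2 ⟨List.cons_ne_nil _ _, by rw [List.length_cons]; omega⟩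
      simp only [hmem, if_true]
      have hFQ : ∀ (ω : Om N) (a : Fin N), FQ K ω (a :: q) = ω q * ww K ω (a :: q) := by
        intro ω a
        unfold FQ
        rw [if_neg (by rw [List.length_cons]; omega)]
        rfl
      have e1 : ω' q * FU K m (ww K ω') q y - ω q * FU K m (ww K ω) q y =
          (ω' q - ω q) * (dt (dir m q.length) (y q) + cc m * rr m y q) +
          rp m * ∑ a, (FQ K ω' (a :: q) - FQ K ω (a :: q)) * rr m y (a :: q) := by
        unfold FU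
        rw [if_pos hlt, if_pos hlt]
        simp only [hFQ, sub_mul, Finset.sum_sub_distrib, mul_assoc]
        rw [← Finset.mul_sum, ← Finset.mul_sum]
        ring
      rw [e1]
      have hr := abs_rr_le' m y q
      have b1 : |(ω' q - ω q) * (dt (dir m q.length) (y q) + cc m * rr m y q)| ≤
          2 * rp m * D1 q * ‖y q‖ + rp m * (N : ℝ)⁻¹ * D1 q * ‖y q.tail‖ := by
        rw [abs_mul]
        have c1 : |dt (dir m q.length) (y q) + cc m * rr m y q| ≤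
            ‖y q‖ + rp m * (‖y q‖ + (N : ℝ)⁻¹ * ‖y q.tail‖) := by
          refine (abs_add_le _ _).trans (add_le_add hdt ?_)
          rw [abs_mul]
          exact mul_le_mul hcc hr (abs_nonneg _) (by linarith)
        have c2 : ‖y q‖ ≤ rp m * ‖y q‖ := by
          have := mul_le_mul_of_nonneg_right hrp (norm_nonneg (y q))
          linarith
        have c3 : |dt (dir m q.length) (y q) + cc m * rr m y q| ≤
            2 * rp m * ‖y q‖ + rp m * (N : ℝ)⁻¹ * ‖y q.tail‖ := by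
          nlinarith
        have c4 := mul_le_mul_of_nonneg_left c3 (D1n q)
        have c5 : D1 q = |ω' q - ω q| := by rw [hD1]
        rw [← c5]
        nlinarith
      have b2 : |rp m * ∑ a, (FQ K ω' (a :: q) - FQ K ω (a :: q)) * rr m y (a :: q)| ≤
          (∑ a, rp m * D2 (a :: q) * ‖y (a :: q)‖) + ∑ a, rp m * (N : ℝ)⁻¹ * D2 (a :: q) * ‖y q‖ := by
        rw [abs_mul, abs_of_nonneg (by linarith : (0 : ℝ) ≤ rp m), ← Finset.sum_add_distrib]
        calc rp m * |∑ a, (FQ K ω' (a :: q) - FQ K ω (a :: q)) * rr m y (a :: q)|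
            ≤ rp m * ∑ a, D2 (a :: q) * (‖y (a :: q)‖ + (N : ℝ)⁻¹ * ‖y q‖) := by
              apply mul_le_mul_of_nonneg_left _ (by linarith)
              refine (Finset.abs_sum_le_sum_abs _ _).trans (Finset.sum_le_sum fun a _ => ?_)
              rw [abs_mul, hD2]
              exact mul_le_mul_of_nonneg_left (abs_rr_le' m y (a :: q)) (abs_nonneg _)
          _ = ∑ a, (rp m * D2 (a :: q) * ‖y (a :: q)‖ + rp m * (N : ℝ)⁻¹ * D2 (a :: q) * ‖y q‖) := by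
              rw [Finset.mul_sum]
              exact Finset.sum_congr rfl fun a _ => by ring
      exact (abs_add_le _ _).trans (add_le_add b1 b2)
    · have hmem : ∀ a : Fin N, ¬ (a :: q) ∈ nds N K := fun a ha => by
        have := (mem_nds.1 ha).2
        rw [List.length_cons] at this
        omega
      simp only [hmem, if_false, Finset.sum_const_zero, add_zero]
      have e1 : ω' q * FU K m (ww K ω') q y - ω q * FU K m (ww K ω) q y =
          (ω' q - ω q) * dt (dir m q.length) (y q) := by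
        unfold FU
        rw [if_neg hlt, if_neg hlt]
        ring
      rw [e1, abs_mul]
      have c5 : D1 q = |ω' q - ω q| := by rw [hD1]
      rw [← c5]
      have c1 := mul_le_mul_of_nonneg_left hdt (D1n q)
      have c2 : D1 q * ‖y q‖ ≤ 2 * rp m * D1 q * ‖y q‖ := by
        have := mul_nonneg (D1n q) (norm_nonneg (y q))
        nlinarith
      linarith
  have hfin := Finset.sum_le_sum hterm
  rw [Finset.sum_add_distrib, Finset.sum_add_distrib, Finset.sum_add_distrib] at hfin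
  -- the four sums
  have s2 : ∑ q ∈ (nds N K).filter (fun q => q ∉ M), rp m * (N : ℝ)⁻¹ * D1 q * ‖y q.tail‖ ≤
      ∑ q ∈ insert [] (nds N K), ∑ a, if (a :: q) ∈ nds N K then
        rp m * (N : ℝ)⁻¹ * D1 (a :: q) * ‖y q‖ else 0 := by
    have h1 := sum_insert_children (N := N) (K := K)
      (fun q => rp m * (N : ℝ)⁻¹ * D1 q * ‖y q.tail‖)
    simp only [List.tail_cons] at h1
    rw [h1]
    refine Finset.sum_le_sum_of_subset_of_nonneg (Finset.filter_subset _ _) fun q _ _ => ?_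
    exact mul_nonneg (mul_nonneg (mul_nonneg (by linarith) hNi) (D1n q)) (norm_nonneg _)
  have s3 : ∑ q ∈ (nds N K).filter (fun q => q ∉ M), (∑ a, if (a :: q) ∈ nds N K then
      rp m * D2 (a :: q) * ‖y (a :: q)‖ else 0) ≤
      ∑ q ∈ (nds N K).filter (fun q => q ∉ M), rp m * D2 q * ‖y q‖ := by
    have h1 := sum_insert_children (N := N) (K := K)
      (fun q => if q ∉ M then rp m * D2 q * ‖y q‖ else 0)
    rw [Finset.sum_filter (s := nds N K) (p := fun q => q ∉ M) (f := fun q => rp m * D2 q * ‖y q‖), ← h1]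
    have h2 : ∀ q ∈ (nds N K).filter (fun q => q ∉ M), (∑ a, if (a :: q) ∈ nds N K then
        rp m * D2 (a :: q) * ‖y (a :: q)‖ else 0) =
        ∑ a, if (a :: q) ∈ nds N K then (if (a :: q) ∉ M then
          rp m * D2 (a :: q) * ‖y (a :: q)‖ else 0) else 0 := by
      intro q hq
      refine Finset.sum_congr rfl fun a _ => ?_
      have h3 : (a :: q) ∉ M := fun h4 => (Finset.mem_filter.mp hq).2 (hM.2 _ h4)
      rw [if_pos h3]
    rw [Finset.sum_congr rfl h2]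
    refine Finset.sum_le_sum_of_subset_of_nonneg
      ((Finset.filter_subset _ _).trans (Finset.subset_insert _ _)) fun q _ _ =>
        Finset.sum_nonneg fun a _ => ?_
    have z1 : 0 ≤ rp m * D2 (a :: q) * ‖y (a :: q)‖ :=
      mul_nonneg (mul_nonneg (by linarith) (D2n _)) (norm_nonneg _)
    split_ifs
    all_goals first | exact z1 | exact le_refl _
  have s4 : ∑ q ∈ (nds N K).filter (fun q => q ∉ M), (∑ a, if (a :: q) ∈ nds N K then
      rp m * (N : ℝ)⁻¹ * D2 (a :: q) * ‖y q‖ else 0) ≤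
      ∑ q ∈ insert [] (nds N K), ∑ a, if (a :: q) ∈ nds N K then
        rp m * (N : ℝ)⁻¹ * D2 (a :: q) * ‖y q‖ else 0 := by
    refine Finset.sum_le_sum_of_subset_of_nonneg
      ((Finset.filter_subset _ _).trans (Finset.subset_insert _ _)) fun q _ _ =>
        Finset.sum_nonneg fun a _ => ?_
    split_ifs
    · exact mul_nonneg (mul_nonneg (mul_nonneg (by linarith) hNi) (D2n _)) (norm_nonneg _)
    · exact le_refl _
  have t1 : ∑ q ∈ (nds N K).filter (fun q => q ∉ M), 2 * rp m * D1 q * ‖y q‖ +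
      ∑ q ∈ (nds N K).filter (fun q => q ∉ M), rp m * D2 q * ‖y q‖ ≤
      ∑ q ∈ (nds N K).filter (fun q => q ∉ M), bb K m ω ω' q * ‖y q‖ := by
    rw [← Finset.sum_add_distrib]
    refine Finset.sum_le_sum fun q _ => ?_
    unfold bb
    have c1 : D1 q = |ω' q - ω q| := by rw [hD1]
    have c2 : D2 q = |FQ K ω' q - FQ K ω q| := by rw [hD2]
    rw [← c1, ← c2]
    have c3 : 0 ≤ rp m * D2 q * ‖y q‖ := mul_nonneg (mul_nonneg (by linarith) (D2n _)) (norm_nonneg _)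
    nlinarith
  have t2 : (∑ q ∈ insert [] (nds N K), ∑ a, if (a :: q) ∈ nds N K then
        rp m * (N : ℝ)⁻¹ * D1 (a :: q) * ‖y q‖ else 0) +
      (∑ q ∈ insert [] (nds N K), ∑ a, if (a :: q) ∈ nds N K then
        rp m * (N : ℝ)⁻¹ * D2 (a :: q) * ‖y q‖ else 0) =
      ∑ q ∈ insert [] (nds N K), bbN K m ω ω' q * ‖y q‖ := by
    rw [← Finset.sum_add_distrib]
    refine Finset.sum_congr rfl fun q _ => ?_
    unfold bbN
    rw [← Finset.sum_add_distrib, Finset.mul_sum, Finset.sum_mul]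
    refine Finset.sum_congr rfl fun a _ => ?_
    rw [hD1, hD2]
    simp only
    split_ifs
    · ring
    · ring
  have u1 : |∑ p ∈ (nds N K).filter (fun p => p ∈ M), (ω' p - ω p) * FF K m L ε M v p y| ≤
      ∑ p ∈ (nds N K).filter (fun p => p ∈ M), |ω' p - ω p| * |FF K m L ε M v p y| := by
    refine (Finset.abs_sum_le_sum_abs _ _).trans (le_of_eq ?_)
    exact Finset.sum_congr rfl fun p _ => abs_mul _ _
  have u2 := Finset.abs_sum_le_sum_abs (fun q => ω' q * FU K m (ww K ω') q y -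
    ω q * FU K m (ww K ω) q y) ((nds N K).filter (fun q => q ∉ M))
  rw [hsplit]
  refine (abs_add_le _ _).trans ?_
  linarith

end H50RC
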