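import Pool.Agent.H50.RC.Ctv
import Pool.Agent.H83.RC.Wd

/-!
S05864 [H50 RC CPT]: translation of a cell with a weight into a phase tree (`PTr`).
-/

set_option autoImplicit false

namespace H50RC

variable {N K m : ℕ}

open Classical in
/-- the window of a node with weight `W` -/
noncomputable def wdq (K m i d : ℕ) (sub : ℕ → Bool → Cell N) (ψ : ℕ → Y N) (ν : Om N) (ν0 om : ℕ → Om N) (W : ℝ) : Wd N where
  lv := i
  d := d
  W := W
  ex := (Finset.range (2 ^ d)).filter (fun x => exq K m d sub W x)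
  w := wq K m d sub W
  S := Sx K m sub
  ψ := ψ
  ν := ν
  ν0 := ν0
  om := om
  y := yq K m d sub W
  yt := ytq K m d sub W

/-- the phase tree of a cell -/
noncomputable def toPTr (K m : ℕ) : Cell N → ℕ → ℝ → Om N → PTr N
  | .leaf Φ, i, W, ν => .leaf i W ν (ze K m Φ)
  | .node d sub ψ ν0 om, i, W, ν => .node (wdq K m i d sub ψ ν ν0 om W) fun x c =>
      toPTr K m (sub x c) (i + 1) (Wq K m d sub W x c) (if c then nu1 ν0 om x else ν0 x)

theorem win_wdq (i d : ℕ) (sub : ℕ → Bool → Cell N) (ψ : ℕ → Y N) (ν : Om N) (ν0 om : ℕ → Om N) (W : ℝ) :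
    (wdq K m i d sub ψ ν ν0 om W).win K m = Winq K m d ψ ν ν0 om (yq K m d sub W) (ytq K m d sub W) := by
  simp [Wd.win, Winq, wdq, Wd.nu]

theorem cpt_al_inv_smul {d : ℕ} {y : Y N} (h : al K m y = 0) : al K m (((2 : ℝ) ^ d)⁻¹ • y) = 0 := by
  rw [al_smul, h, mul_zero]

theorem cpt_PhL_zero (Q : Cell N) (h : al K m Q.tot = 0) : PhL K m Q 0 = 0 := by
  cases Q with
  | leaf Φ =>
    rw [PhL]
    exact ze_eq_zero h
  | node d sub ψ ν0 om =>
    rw [tot_node] at h
    rw [PhL_node]
    refine Finset.sum_eq_zero fun x _ => ?_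
    rw [ytq, if_pos]
    · exact ze_eq_zero (cpt_al_inv_smul h)
    · rw [exq, zero_div, mul_zero]
      exact Sx_nonneg sub x

theorem wdq_OK {i d : ℕ} {sub : ℕ → Bool → Cell N} {ψ : ℕ → Y N} {ν : Om N} {ν0 om : ℕ → Om N}
    (h : (Cell.node d sub ψ ν0 om).WF K m i ν) {W : ℝ} (hW : al K m (tt d sub) / 2 ≤ W) (hW' : W ≤ al K m (tt d sub)) :
    (wdq K m i d sub ψ ν ν0 om W).OK K m := by
  classical
  have hWF := h
  rw [Cell.WF] at hWF
  obtain ⟨hν, hid, h0, hlast, hnu, hom, hψ, havg, hr1, hr0, hsub⟩ := hWF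
  have hW0 : 0 ≤ W := le_trans (div_nonneg (al_nonneg _) (by norm_num)) hW
  have hmemex : ∀ x, x ∈ (wdq K m i d sub ψ ν ν0 om W).ex ↔ x < 2 ^ d ∧ exq K m d sub W x := by
    intro x
    show x ∈ (Finset.range (2 ^ d)).filter (fun x => exq K m d sub W x) ↔ _
    rw [Finset.mem_filter, Finset.mem_range]
  have hnex : ∀ x, x < 2 ^ d → x ∉ (wdq K m i d sub ψ ν ν0 om W).ex → ¬ exq K m d sub W x := by
    intro x hx hn he
    exact hn ((hmemex x).2 ⟨hx, he⟩)
  refine
    { W_nonneg := hW0
      W_zero := ?_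
      lv_le := hid
      ex_sub := ?_
      ν_BB := hν
      nu_BB := ?_
      om_BB := hom
      om_zero := h0
      om_last := hlast
      avg := havg
      w_nonneg := fun x c => wq_nonneg d sub W x c
      w_sum := fun x => wq_add d sub W x
      S_nonneg := fun x => Sx_nonneg sub x
      ψ_mem := hψ
      y_mem := fun x hx c => (yq_main h hW hW' hx c).1
      yt_mem := fun x hx => (ytq_main h hW hW' hx).1
      rel1 := ?_
      rel0 := ?_
      yt_rel := ?_
      yt_eq := ?_
      yt_le := fun x hx => (ytq_main h hW hW' hx).2.2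
      y_le := ?_
      y_zero := ?_
      y_ex := ?_
      ex_le := ?_
      tv_le := ?_ }
  · intro hz
    have hz' : W = 0 := hz
    ext x
    rw [hmemex, Finset.mem_range]
    show _ ↔ x < 2 ^ d
    constructor
    · exact fun hx => hx.1
    · intro hx
      refine ⟨hx, ?_⟩
      rw [exq, hz', zero_div, mul_zero]
      exact Sx_nonneg sub x
  · exact Finset.filter_subset _ _
  · intro x hx c
    cases c with
    | false => exact (hnu x hx).1
    | true => exact (hnu x hx).2
  · intro x hx
    have hx' : x < 2 ^ d := by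
      have : x + 1 < 2 ^ d := hx
      omega
    have e1 := hr1 x hx
    have e2 := (yq_main h hW hW' hx' true).2.1
    have e3 := (yq_main h hW hW' hx true).2.1
    have e4 := (Xs N K m).add_mem ((Xs N K m).sub_mem e1 e2) e3
    have e5 : ψ (x + 1) + (sub x true).tot - (sub (x + 1) true).tot -
        ((sub x true).tot - yq K m d sub W x true) + ((sub (x + 1) true).tot - yq K m d sub W (x + 1) true) =
        ψ (x + 1) + yq K m d sub W x true - yq K m d sub W (x + 1) true := by abel
    rw [e5] at e4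
    exact e4
  · intro x hx
    have hx' : x < 2 ^ d := by
      have : x + 1 < 2 ^ d := hx
      omega
    have e1 := hr0 x hx
    have e2 := (yq_main h hW hW' hx' false).2.1
    have e3 := (yq_main h hW hW' hx false).2.1
    have e4 := (Xs N K m).add_mem ((Xs N K m).sub_mem e1 e2) e3
    have e5 : -ψ (x + 1) + (sub x false).tot - (sub (x + 1) false).tot -
        ((sub x false).tot - yq K m d sub W x false) + ((sub (x + 1) false).tot - yq K m d sub W (x + 1) false) =
        -ψ (x + 1) + yq K m d sub W x false - yq K m d sub W (x + 1) false := by abel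
    rw [e5] at e4
    exact e4
  · intro x hx
    have e1 := (ytq_main h hW hW' hx).2.1
    have e2 := cls_const h hx
    have e3 := (yq_main h hW hW' hx false).2.1
    have e4 := (yq_main h hW hW' hx true).2.1
    have e5 := (Xs N K m).add_mem ((Xs N K m).add_mem ((Xs N K m).sub_mem e2 e1) e3) e4
    have e6 : ((2 : ℝ) ^ d)⁻¹ • tt d sub - ((sub x false).tot + (sub x true).tot) -
        (((2 : ℝ) ^ d)⁻¹ • tt d sub - ytq K m d sub W x) + ((sub x false).tot - yq K m d sub W x false) +
        ((sub x true).tot - yq K m d sub W x true) =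
        ytq K m d sub W x - (yq K m d sub W x false + yq K m d sub W x true) := by abel
    rw [e6] at e5
    exact e5
  · intro x hx hn
    exact ytq_nonexit (hnex x hx hn)
  · intro x hx hn c
    exact (yq_main h hW hW' hx c).2.2.2.2 (hnex x hx hn)
  · intro x hx hn c hw
    have hex := hnex x hx hn
    obtain ⟨hWp, hSp, -, hwq, -, -⟩ := wq_nonexit h hW0 hW' hx hex c
    have hw' : wq K m d sub W x c = 0 := hw
    have hal : alx K m sub x c = 0 := by
      rw [hwq] at hw'
      rcases div_eq_zero_iff.1 hw' with h1 | h1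
      · exact h1
      · exact absurd h1 hSp.ne'
    show yq K m d sub W x c = 0
    rw [yq, if_neg hex, Wq, hw', mul_zero]
    exact cpt_PhL_zero (sub x c) hal
  · intro x hx
    have hx' := (hmemex x).1 hx
    have e1 := (yq_main h hW hW' hx'.1 false).2.2.2.1 hx'.2
    have e2 := (yq_main h hW hW' hx'.1 true).2.2.2.1 hx'.2
    show nr K (yq K m d sub W x false) + nr K (yq K m d sub W x true) ≤ 2 * Sx K m sub x
    rw [Sx]
    linarith
  · intro x hx
    exact ((hmemex x).1 hx).2
  · have e1 := tv_le h hW0 hW'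
    have e2 : (wdq K m i d sub ψ ν ν0 om W).TV =
        ∑ x ∈ Finset.range (2 ^ d - 1), |w1q K m d sub W (x + 1) - w1q K m d sub W x| := by
      show ∑ x ∈ Finset.Ico 1 (2 ^ d), |wq K m d sub W x true - wq K m d sub W (x - 1) true| = _
      rw [Finset.sum_Ico_eq_sum_range]
      refine Finset.sum_congr rfl fun x _ => ?_
      have e3 : 1 + x - 1 = x := by omega
      rw [e3, Nat.add_comm 1 x]
      rfl
    rw [e2]
    exact e1

theorem toPTr_W (Q : Cell N) (i : ℕ) (W : ℝ) (ν : Om N) : (toPTr K m Q i W ν).W = W := by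
  cases Q <;> rfl

theorem toPTr_lv (Q : Cell N) (i : ℕ) (W : ℝ) (ν : Om N) : (toPTr K m Q i W ν).lv = i := by
  cases Q <;> rfl

theorem toPTr_ν (Q : Cell N) (i : ℕ) (W : ℝ) (ν : Om N) : (toPTr K m Q i W ν).ν = ν := by
  cases Q <;> rfl

theorem toPTr_val (Q : Cell N) (i : ℕ) (W : ℝ) (ν : Om N) : (toPTr K m Q i W ν).val = PhL K m Q W := by
  cases Q with
  | leaf Φ => simp [toPTr, PTr.val, PhL]
  | node d sub ψ ν0 om => simp [toPTr, PTr.val, PhL_node, wdq]

theorem toPTr_OK (Q : Cell N) : ∀ (i : ℕ) (ν : Om N) (W : ℝ), Q.WF K m i ν → 0 < W → al K m Q.tot / 2 ≤ W →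
    W ≤ al K m Q.tot → (toPTr K m Q i W ν).OK K m := by
  classical
  induction Q with
  | leaf Φ =>
    intro i ν W h hW h1 h2
    rw [Cell.WF] at h
    rw [toPTr, PTr.OK]
    refine ⟨hW, h.1, ze_mem h.2, ?_⟩
    have e1 := nr_ze_le (K := K) (m := m) Φ
    have e2 : al K m Φ / 2 ≤ W := h1
    linarith
  | node d sub ψ ν0 om ih =>
    intro i ν W h hW h1 h2
    rw [tot_node] at h1 h2
    rw [toPTr, PTr.OK]
    refine ⟨wdq_OK h h1 h2, ?_⟩
    intro x hx hn c hw
    have hx' : x < 2 ^ d := hx
    have hex : ¬ exq K m d sub W x := by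
      intro he
      apply hn
      show x ∈ (Finset.range (2 ^ d)).filter (fun x => exq K m d sub W x)
      rw [Finset.mem_filter, Finset.mem_range]
      exact ⟨hx', he⟩
    have hWF := h
    rw [Cell.WF] at hWF
    obtain ⟨-, -, -, -, -, -, -, -, -, -, hsub⟩ := hWF
    obtain ⟨-, hSp, -, hwq, hb1, hb2⟩ := wq_nonexit h hW.le h2 hx' hex c
    have hw' : wq K m d sub W x c ≠ 0 := hw
    have hWq : 0 < Wq K m d sub W x c := by
      rw [Wq]
      exact mul_pos (by positivity) (lt_of_le_of_ne (wq_nonneg d sub W x c) (Ne.symm hw'))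
    have hchild : (sub x c).WF K m (i + 1) (if c then nu1 ν0 om x else ν0 x) := by
      cases c with
      | false => exact (hsub x hx').1
      | true => exact (hsub x hx').2
    refine ⟨ih x c (i + 1) _ _ hchild hWq hb1 hb2, toPTr_lv _ _ _ _, toPTr_W _ _ _ _, toPTr_ν _ _ _ _, ?_⟩
    rw [toPTr_val]
    show _ = yq K m d sub W x c
    rw [yq, if_neg hex]

end H50RC
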