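import Pool.Agent.H50.RC.Cph

/-!
S05864 [H50 RC CTV]: (TV) and the window of a cell with `al = 0`.
`tv_le`: for every `x` with `x + 1 < 2^d`: if `x + 1` is an exit the weights agree; if `x`, `x+1` are non-exits then with `a = α_(x,1), S = S_x, a' = α_(x+1,1), S' = S_(x+1)`, `δ = nr ψ (x+1)`: `|a - a'| ≤ δ`, `|S - S'| ≤ 2δ`, `|a'/S' - a/S| ≤ |a'-a|/S' + (a/S)|S - S'|/S' ≤ 3δ/S'`, and `W/D ≤ S'`;
if `x` is an exit and `x + 1` is not: `|dw| ≤ 1` and `W/D ≤ S_x/2 ≤ S_x`. Sum over `x` (shift `x + 1 ∈ Ico 1 (2^d)`).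
`zero_window`: `al (tt) = 0`, `W = 0`: every `x` is an exit (`0 ≤ S_x`), `ytq x = ze (D⁻¹ tt) = 0` (`al (D⁻¹ tt) = 0`, `ze_eq_zero`), `yq x c = ze (tot (x,c))`. Summation by parts (`om 0 = om (2^d) = 0`):
`∑_x pr (om (x+1) - om x) (y x 1) = ∑_{x=1}^{D-1} pr (om x) (y (x-1) 1 - y x 1)`, so `Winq = ∑_x pr (ν0 x) (y x 0 + y x 1) + ∑_{x=1}^{D-1} pr (om x) (ψ x + y (x-1) 1 - y x 1)`. Both arguments are in `X`: `y x 0 + y x 1` has the class of `tot(x,0) + tot(x,1)`, that is of `D⁻¹ tt ∈ X` (`al_eq_zero`, `cls_const`);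
the second by the relations. By the hypothesis `hM1`: `≤ C1 ∑ 2 S_x + C1 ∑ (nr ψ + 2 α_(x-1,1) + 2 α_(x,1)) ≤ C1 (6 ∑ S_x + ∑ nr ψ)`.
-/

set_option autoImplicit false

namespace H50RC

variable {N K m : ℕ}

private theorem ctv_rat {a S a' S' δ : ℝ} (ha : 0 ≤ a) (haS : a ≤ S) (hS : 0 < S) (hS' : 0 < S')
    (h1 : |a - a'| ≤ δ) (h2 : |S - S'| ≤ 2 * δ) : |a' / S' - a / S| ≤ 3 * δ / S' := by
  have e1 : a' / S' - a / S = ((a' - a) + (a / S) * (S - S')) / S' := by
    field_simp
    ring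
  rw [e1, abs_div, abs_of_pos hS']
  apply div_le_div_of_nonneg_right _ hS'.le
  have e2 : |a / S| ≤ 1 := by
    rw [abs_of_nonneg (div_nonneg ha hS.le), div_le_one hS]
    exact haS
  calc |(a' - a) + (a / S) * (S - S')| ≤ |a' - a| + |(a / S) * (S - S')| := abs_add_le _ _
    _ = |a - a'| + |a / S| * |S - S'| := by rw [abs_mul, abs_sub_comm a']
    _ ≤ δ + 1 * (2 * δ) := by
        apply add_le_add h1
        exact mul_le_mul e2 h2 (abs_nonneg _) zero_le_one
    _ = 3 * δ := by ring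

private theorem ctv_w1 {d : ℕ} {sub : ℕ → Bool → Cell N} {W : ℝ} {x : ℕ}
    (hex : ¬ exq K m d sub W x) : w1q K m d sub W x = alx K m sub x true / Sx K m sub x := by
  cases x with
  | zero => simp [w1q, hex]
  | succ x => simp [w1q, hex]

open Classical in
theorem tv_le {d : ℕ} {sub : ℕ → Bool → Cell N} {ψ : ℕ → Y N} {ν0 om : ℕ → Om N} {i : ℕ} {ν : Om N}
    (h : (Cell.node d sub ψ ν0 om).WF K m i ν) {W : ℝ} (hW0 : 0 ≤ W) (hW' : W ≤ al K m (tt d sub)) :
    W / 2 ^ d * ∑ x ∈ Finset.range (2 ^ d - 1), |w1q K m d sub W (x + 1) - w1q K m d sub W x| ≤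
      3 * ∑ x ∈ Finset.Ico 1 (2 ^ d), nr K (ψ x) +
        ∑ x ∈ (Finset.range (2 ^ d)).filter (fun x => exq K m d sub W x), Sx K m sub x := by
  have hWD : 0 ≤ W / 2 ^ d := div_nonneg hW0 (by positivity)
  have hlow : ∀ x, x < 2 ^ d → W / 2 ^ d ≤ Sx K m sub x := by
    intro x hx
    refine le_trans ?_ (al_tt_le h hx)
    exact div_le_div_of_nonneg_right hW' (by positivity)
  have hpos : ∀ x, x < 2 ^ d → ¬ exq K m d sub W x → 0 < Sx K m sub x := by
    intro x hx hex
    unfold exq at hex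
    push Not at hex
    have h1 := hlow x hx
    have h2 := Sx_nonneg (K := K) (m := m) sub x
    linarith
  have hterm : ∀ x, x + 1 < 2 ^ d →
      W / 2 ^ d * |w1q K m d sub W (x + 1) - w1q K m d sub W x| ≤
        3 * nr K (ψ (x + 1)) + (if exq K m d sub W x then Sx K m sub x else 0) := by
    intro x hx
    have hδ : 0 ≤ nr K (ψ (x + 1)) := nr_nonneg _
    have hSx := Sx_nonneg (K := K) (m := m) sub x
    by_cases he1 : exq K m d sub W (x + 1)
    · have e1 : w1q K m d sub W (x + 1) = w1q K m d sub W x := by simp [w1q, he1]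
      rw [e1, sub_self, abs_zero, mul_zero]
      have : 0 ≤ (if exq K m d sub W x then Sx K m sub x else 0) := by
        split_ifs
        · exact hSx
        · exact le_rfl
      linarith
    · by_cases he0 : exq K m d sub W x
      · rw [if_pos he0]
        have m1 := w1q_mem (K := K) (m := m) d sub W (x + 1)
        have m0 := w1q_mem (K := K) (m := m) d sub W x
        have h1 : |w1q K m d sub W (x + 1) - w1q K m d sub W x| ≤ 1 := by
          rw [abs_le]
          constructor <;> linarith [m1.1, m1.2, m0.1, m0.2]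
        have h2 : W / 2 ^ d * |w1q K m d sub W (x + 1) - w1q K m d sub W x| ≤ W / 2 ^ d * 1 :=
          mul_le_mul_of_nonneg_left h1 hWD
        have h3 : 2 * (W / 2 ^ d) ≤ Sx K m sub x := he0
        linarith
      · rw [if_neg he0, ctv_w1 he1, ctv_w1 he0, add_zero]
        have hS := hpos x (by omega) he0
        have hS' := hpos (x + 1) hx he1
        have d0 := alx_diff h hx false
        have d1 := alx_diff h hx true
        have a0 := alx_nonneg (K := K) (m := m) sub x false
        have a1 := alx_nonneg (K := K) (m := m) sub x true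
        have h1 := ctv_rat (a := alx K m sub x true) (S := Sx K m sub x)
          (a' := alx K m sub (x + 1) true) (S' := Sx K m sub (x + 1)) (δ := nr K (ψ (x + 1))) a1
          (by unfold Sx; linarith) hS hS' d1 (by
            have : Sx K m sub x - Sx K m sub (x + 1) =
                (alx K m sub x false - alx K m sub (x + 1) false) +
                (alx K m sub x true - alx K m sub (x + 1) true) := by
              unfold Sx
              ring
            rw [this]
            refine (abs_add_le _ _).trans ?_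
            linarith)
        have h2 := hlow (x + 1) hx
        calc W / 2 ^ d * |alx K m sub (x + 1) true / Sx K m sub (x + 1) -
              alx K m sub x true / Sx K m sub x| ≤
              Sx K m sub (x + 1) * (3 * nr K (ψ (x + 1)) / Sx K m sub (x + 1)) :=
              mul_le_mul h2 h1 (abs_nonneg _) hS'.le
          _ = 3 * nr K (ψ (x + 1)) := by field_simp
  rw [Finset.mul_sum]
  have h1 : ∑ x ∈ Finset.range (2 ^ d - 1),
      W / 2 ^ d * |w1q K m d sub W (x + 1) - w1q K m d sub W x| ≤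
      ∑ x ∈ Finset.range (2 ^ d - 1),
        (3 * nr K (ψ (x + 1)) + (if exq K m d sub W x then Sx K m sub x else 0)) := by
    apply Finset.sum_le_sum
    intro x hx
    apply hterm
    have := Finset.mem_range.1 hx
    omega
  refine h1.trans ?_
  rw [Finset.sum_add_distrib, ← Finset.mul_sum]
  apply add_le_add
  · apply le_of_eq
    rw [Finset.sum_Ico_eq_sum_range]
    congr 1
    apply Finset.sum_congr rfl
    intro x _
    rw [add_comm]
  · rw [Finset.sum_filter]
    apply Finset.sum_le_sum_of_subset_of_nonneg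
    · intro x hx
      rw [Finset.mem_range] at hx ⊢
      omega
    · intro x _ _
      split_ifs
      · exact Sx_nonneg _ _
      · exact le_rfl

private theorem ctv_parts (D : ℕ) (hD : 1 ≤ D) (A B : ℕ → ℝ) (C : ℕ → ℝ)
    (h0 : A 0 = 0) (hl : C (D - 1) = 0) (hAC : ∀ x, 1 ≤ x → x < D → C (x - 1) - A x = B x) :
    ∑ x ∈ Finset.range D, (C x - A x) = ∑ x ∈ Finset.Ico 1 D, B x := by
  obtain ⟨n, rfl⟩ : ∃ n, D = n + 1 := ⟨D - 1, by omega⟩
  rw [Finset.sum_sub_distrib, Finset.sum_range_succ C, Finset.sum_range_succ' A, h0]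
  have h1 : C n = 0 := by simpa using hl
  rw [h1, add_zero, add_zero, ← Finset.sum_sub_distrib, Finset.sum_Ico_eq_sum_range]
  apply Finset.sum_congr rfl
  intro x hx
  rw [Finset.mem_range] at hx
  have := hAC (x + 1) (by omega) (by omega)
  rw [add_comm 1 x, ← this]
  simp

theorem zero_window {d : ℕ} {sub : ℕ → Bool → Cell N} {ψ : ℕ → Y N} {ν0 om : ℕ → Om N} {i : ℕ} {ν : Om N}
    (h : (Cell.node d sub ψ ν0 om).WF K m i ν) (h0 : al K m (tt d sub) = 0) {C1 : ℝ} (hC1 : 0 ≤ C1)
    (hM1 : ∀ ω : Om N, BB K 1 ω → ∀ χ ∈ Xs N K m, |pr K m ω χ| ≤ C1 * nr K χ) :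
    |Winq K m d ψ ν ν0 om (yq K m d sub 0) (ytq K m d sub 0)| ≤
      C1 * (6 * ∑ x ∈ Finset.range (2 ^ d), Sx K m sub x + ∑ x ∈ Finset.Ico 1 (2 ^ d), nr K (ψ x)) := by
  have hD : 1 ≤ 2 ^ d := Nat.one_le_two_pow
  obtain ⟨D, hDd⟩ : ∃ D, D = 2 ^ d := ⟨_, rfl⟩
  have hWF := h
  simp only [Cell.WF] at hWF
  obtain ⟨-, -, hom0, homD, hν, hom, -, -, hrel, -, hsub⟩ := hWF
  have hex : ∀ x, exq K m d sub 0 x := by
    intro x
    unfold exq
    rw [zero_div, mul_zero]
    exact Sx_nonneg _ _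
  have hy : ∀ x c, yq K m d sub 0 x c = ze K m (sub x c).tot := by
    intro x c
    simp [yq, hex x]
  have hDz : al K m (((2 : ℝ) ^ d)⁻¹ • tt d sub) = 0 := by
    rw [al_smul, h0, mul_zero]
  have hyt : ∀ x, ytq K m d sub 0 x = 0 := by
    intro x
    simp [ytq, hex x, ze_eq_zero hDz]
  have htotV : ∀ x, x < 2 ^ d → ∀ c, (sub x c).tot ∈ Vs N K := by
    intro x hx c
    cases c
    · exact WF_tot_mem _ _ _ (hsub x hx).1
    · exact WF_tot_mem _ _ _ (hsub x hx).2
  have hze : ∀ x, x < 2 ^ d → ∀ c, (sub x c).tot - yq K m d sub 0 x c ∈ Xs N K m := by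
    intro x hx c
    rw [hy]
    exact ze_sub_mem (htotV x hx c)
  have hnr : ∀ x c, nr K (yq K m d sub 0 x c) ≤ 2 * alx K m sub x c := by
    intro x c
    rw [hy]
    exact nr_ze_le _
  have hAX : ∀ x, x < 2 ^ d → yq K m d sub 0 x false + yq K m d sub 0 x true ∈ Xs N K m := by
    intro x hx
    have h1 := cls_const h hx
    have h2 : ((2 : ℝ) ^ d)⁻¹ • tt d sub ∈ Xs N K m := by
      apply al_eq_zero _ hDz
      apply (Vs N K).smul_mem
      exact (tot_node d sub ψ ν0 om) ▸ WF_tot_mem _ _ _ h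
    have h3 := hze x hx false
    have h4 := hze x hx true
    have h5 := (Xs N K m).sub_mem ((Xs N K m).sub_mem ((Xs N K m).sub_mem h2 h1) h3) h4
    have h6 : ((2 : ℝ) ^ d)⁻¹ • tt d sub - (((2 : ℝ) ^ d)⁻¹ • tt d sub -
        ((sub x false).tot + (sub x true).tot)) - ((sub x false).tot - yq K m d sub 0 x false) -
        ((sub x true).tot - yq K m d sub 0 x true) =
        yq K m d sub 0 x false + yq K m d sub 0 x true := by abel
    rw [h6] at h5
    exact h5
  have hBX : ∀ x, 1 ≤ x → x < 2 ^ d →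
      ψ x + yq K m d sub 0 (x - 1) true - yq K m d sub 0 x true ∈ Xs N K m := by
    intro x hx1 hx
    have h1 := hrel (x - 1) (by omega)
    have h1' : x - 1 + 1 = x := by omega
    rw [h1'] at h1
    have h3 := hze (x - 1) (by omega) true
    have h4 := hze x hx true
    have h5 := (Xs N K m).add_mem ((Xs N K m).sub_mem h1 h3) h4
    have h6 : ψ x + (sub (x - 1) true).tot - (sub x true).tot -
        ((sub (x - 1) true).tot - yq K m d sub 0 (x - 1) true) +
        ((sub x true).tot - yq K m d sub 0 x true) =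
        ψ x + yq K m d sub 0 (x - 1) true - yq K m d sub 0 x true := by abel
    rw [h6] at h5
    exact h5
  have hWin : Winq K m d ψ ν ν0 om (yq K m d sub 0) (ytq K m d sub 0) =
      ∑ x ∈ Finset.range (2 ^ d), pr K m (ν0 x) (yq K m d sub 0 x false + yq K m d sub 0 x true) +
      ∑ x ∈ Finset.Ico 1 (2 ^ d), pr K m (om x)
        (ψ x + yq K m d sub 0 (x - 1) true - yq K m d sub 0 x true) := by
    unfold Winq
    have e1 : ∑ x ∈ Finset.range (2 ^ d), ytq K m d sub 0 x = 0 :=
      Finset.sum_eq_zero (fun x _ => hyt x)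
    rw [e1, pr_zero_right, sub_zero]
    have e2 : ∑ x ∈ Finset.range (2 ^ d), (pr K m (ν0 x) (yq K m d sub 0 x false) +
        pr K m (nu1 ν0 om x) (yq K m d sub 0 x true)) =
        ∑ x ∈ Finset.range (2 ^ d), pr K m (ν0 x)
          (yq K m d sub 0 x false + yq K m d sub 0 x true) +
        ∑ x ∈ Finset.range (2 ^ d), (pr K m (om (x + 1)) (yq K m d sub 0 x true) -
          pr K m (om x) (yq K m d sub 0 x true)) := by
      rw [← Finset.sum_add_distrib]
      apply Finset.sum_congr rfl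
      intro x _
      unfold nu1
      rw [pr_add_right, pr_add_left, pr_sub_left]
      ring
    rw [e2, ctv_parts (2 ^ d) hD (fun x => pr K m (om x) (yq K m d sub 0 x true))
      (fun x => pr K m (om x) (yq K m d sub 0 (x - 1) true - yq K m d sub 0 x true))
      (fun x => pr K m (om (x + 1)) (yq K m d sub 0 x true)) (by simp [hom0, pr_zero_left])
      (by
        have : 2 ^ d - 1 + 1 = 2 ^ d := by omega
        simp only [this, homD, pr_zero_left])
      (by
        intro x hx1 _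
        have : x - 1 + 1 = x := by omega
        simp only [this, pr_sub_right]), add_assoc, ← Finset.sum_add_distrib]
    congr 1
    apply Finset.sum_congr rfl
    intro x _
    rw [← pr_add_right]
    congr 1
    abel
  rw [hWin]
  have hS0 : ∀ x, 0 ≤ alx K m sub x true := fun x => alx_nonneg _ _ _
  have b1 : ∀ x ∈ Finset.range (2 ^ d), |pr K m (ν0 x)
      (yq K m d sub 0 x false + yq K m d sub 0 x true)| ≤ C1 * (2 * Sx K m sub x) := by
    intro x hx
    rw [Finset.mem_range] at hx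
    refine (hM1 _ (hν x hx).1 _ (hAX x hx)).trans ?_
    apply mul_le_mul_of_nonneg_left _ hC1
    refine (nr_add_le _ _).trans ?_
    have e1 := hnr x false
    have e2 := hnr x true
    unfold Sx
    linarith
  have b2 : ∀ x ∈ Finset.Ico 1 (2 ^ d), |pr K m (om x)
      (ψ x + yq K m d sub 0 (x - 1) true - yq K m d sub 0 x true)| ≤
      C1 * (nr K (ψ x) + 2 * Sx K m sub (x - 1) + 2 * Sx K m sub x) := by
    intro x hx
    rw [Finset.mem_Ico] at hx
    refine (hM1 _ (hom x hx.2.le) _ (hBX x hx.1 hx.2)).trans ?_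
    apply mul_le_mul_of_nonneg_left _ hC1
    have e1 := hnr (x - 1) true
    have e2 := hnr x true
    have e3 := nr_sub_le (K := K) (ψ x + yq K m d sub 0 (x - 1) true) (yq K m d sub 0 x true)
    have e4 := nr_add_le (K := K) (ψ x) (yq K m d sub 0 (x - 1) true)
    have e5 := alx_nonneg (K := K) (m := m) sub (x - 1) false
    have e6 := alx_nonneg (K := K) (m := m) sub x false
    unfold Sx
    linarith
  refine (abs_add_le _ _).trans ?_
  have c1 := (Finset.abs_sum_le_sum_abs (fun x => pr K m (ν0 x)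
      (yq K m d sub 0 x false + yq K m d sub 0 x true)) (Finset.range (2 ^ d))).trans
    (Finset.sum_le_sum b1)
  have c2 := (Finset.abs_sum_le_sum_abs (fun x => pr K m (om x)
      (ψ x + yq K m d sub 0 (x - 1) true - yq K m d sub 0 x true)) (Finset.Ico 1 (2 ^ d))).trans
    (Finset.sum_le_sum b2)
  rw [← Finset.mul_sum, ← Finset.mul_sum] at c1
  rw [← Finset.mul_sum, Finset.sum_add_distrib, Finset.sum_add_distrib, ← Finset.mul_sum,
    ← Finset.mul_sum] at c2
  have s1 : ∑ x ∈ Finset.Ico 1 (2 ^ d), Sx K m sub x ≤ ∑ x ∈ Finset.range (2 ^ d), Sx K m sub x := by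
    apply Finset.sum_le_sum_of_subset_of_nonneg
    · intro x hx
      rw [Finset.mem_Ico] at hx
      rw [Finset.mem_range]
      exact hx.2
    · intro x _ _
      exact Sx_nonneg _ _
  have s2 : ∑ x ∈ Finset.Ico 1 (2 ^ d), Sx K m sub (x - 1) ≤
      ∑ x ∈ Finset.range (2 ^ d), Sx K m sub x := by
    rw [Finset.sum_Ico_eq_sum_range]
    have e1 : ∑ x ∈ Finset.range (2 ^ d - 1), Sx K m sub (1 + x - 1) =
        ∑ x ∈ Finset.range (2 ^ d - 1), Sx K m sub x := by
      apply Finset.sum_congr rfl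
      intro x _
      rw [Nat.add_sub_cancel_left]
    rw [e1]
    apply Finset.sum_le_sum_of_subset_of_nonneg
    · intro x hx
      rw [Finset.mem_range] at hx ⊢
      omega
    · intro x _ _
      exact Sx_nonneg _ _
  have hfin : C1 * (∑ x ∈ Finset.Ico 1 (2 ^ d), nr K (ψ x) +
      2 * ∑ x ∈ Finset.Ico 1 (2 ^ d), Sx K m sub (x - 1) +
      2 * ∑ x ∈ Finset.Ico 1 (2 ^ d), Sx K m sub x) ≤
      C1 * (∑ x ∈ Finset.Ico 1 (2 ^ d), nr K (ψ x) +
      2 * ∑ x ∈ Finset.range (2 ^ d), Sx K m sub x +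
      2 * ∑ x ∈ Finset.range (2 ^ d), Sx K m sub x) := by
    apply mul_le_mul_of_nonneg_left _ hC1
    linarith
  calc _ ≤ C1 * (2 * ∑ x ∈ Finset.range (2 ^ d), Sx K m sub x) +
      C1 * (∑ x ∈ Finset.Ico 1 (2 ^ d), nr K (ψ x) +
      2 * ∑ x ∈ Finset.range (2 ^ d), Sx K m sub x +
      2 * ∑ x ∈ Finset.range (2 ^ d), Sx K m sub x) := add_le_add c1 (c2.trans hfin)
    _ = _ := by ring

end H50RC
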