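import Mathlib

/-!
S05864 (MP_b365ef_an): definitions. Paper proof: table proofs, row 322. Nodes are words over `Fin N`, written
backwards: the children of `w` are `a :: w`, the parent is `w.tail`, `p` is an ancestor of `q` (or `q` itself) iff
`p <:+ q`. A vector measure on the leaves (words of length `K`) is represented by the function `y` of all nodes
with `y w = ∑ a, y (a :: w)` for `w.length < K`.
-/

set_option autoImplicit false

namespace H50RC

/-- nodes of the tree -/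
abbrev Nd (N : ℕ) := List (Fin N)

/-- the embedding `(a, w) ↦ a :: w` -/
def consEmb (N : ℕ) : Fin N × Nd N ↪ Nd N :=
  ⟨fun p => p.1 :: p.2, fun p q h => by
    rcases p with ⟨a, w⟩
    rcases q with ⟨b, v⟩
    simp only [List.cons.injEq] at h
    rw [h.1, h.2]⟩

/-- the words of length `k` -/
def lev (N : ℕ) : ℕ → Finset (Nd N)
  | 0 => {[]}
  | k + 1 => (Finset.univ ×ˢ lev N k).map (consEmb N)

/-- the nodes of the levels `1, …, K` -/
def nds (N K : ℕ) : Finset (Nd N) := (Finset.range K).biUnion fun k => lev N (k + 1)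

/-- complex functions of the nodes -/
abbrev Y (N : ℕ) := Nd N → ℂ

/-- real functions of the nodes -/
abbrev Om (N : ℕ) := Nd N → ℝ

/-- the real inner product of the plane -/
def dt (u v : ℂ) : ℝ := u.re * v.re + u.im * v.im

/-- the direction `e^(iπk/m)` -/
noncomputable def dir (m k : ℕ) : ℂ := Complex.exp (Complex.I * (Real.pi * k / m : ℝ))

/-- the additive functions (vector measures on the leaves) -/
def Vs (N K : ℕ) : Submodule ℝ (Y N) where
  carrier := {y | ∀ w : Nd N, w.length < K → y w = ∑ a, y (a :: w)}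
  add_mem' := by
    intro y z hy hz w hw
    simp only [Pi.add_apply]
    rw [hy w hw, hz w hw, ← Finset.sum_add_distrib]
  zero_mem' := by
    intro w _
    simp
  smul_mem' := by
    intro c y hy w hw
    simp only [Pi.smul_apply]
    rw [hy w hw, Finset.smul_sum]

/-- `ℓ_1` norm -/
noncomputable def nr {N : ℕ} (K : ℕ) (y : Y N) : ℝ := ∑ w ∈ lev N K, ‖y w‖

/-- the defect `r_w(y) = J n_w . (y(w) - y(w^-)/N)` -/
noncomputable def rr {N : ℕ} (m : ℕ) (y : Y N) (w : Nd N) : ℝ :=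
  dt (Complex.I * dir m w.length) (y w - (N : ℝ)⁻¹ • y w.tail)

/-- the space `X` -/
def Xs (N K m : ℕ) : Submodule ℝ (Y N) where
  carrier := {y | y ∈ Vs N K ∧ ∀ w ∈ nds N K, rr m y w = 0}
  add_mem' := by
    rintro y z ⟨hy, hy'⟩ ⟨hz, hz'⟩
    refine ⟨(Vs N K).add_mem hy hz, fun w hw => ?_⟩
    have h1 := hy' w hw
    have h2 := hz' w hw
    simp only [rr, dt, Pi.add_apply, Complex.sub_re, Complex.sub_im, Complex.add_re, Complex.add_im,
      Complex.real_smul, Complex.mul_re, Complex.mul_im, Complex.ofReal_re, Complex.ofReal_im] at h1 h2 ⊢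
    linear_combination h1 + h2
  zero_mem' := by
    refine ⟨(Vs N K).zero_mem, fun w _ => ?_⟩
    simp [rr, dt]
  smul_mem' := by
    rintro c y ⟨hy, hy'⟩
    refine ⟨(Vs N K).smul_mem c hy, fun w hw => ?_⟩
    have h1 := hy' w hw
    simp only [rr, dt, Pi.smul_apply, Complex.sub_re, Complex.sub_im,
      Complex.real_smul, Complex.mul_re, Complex.mul_im, Complex.ofReal_re, Complex.ofReal_im] at h1 ⊢
    linear_combination c * h1

/-- the pairing `⟨ω, y⟩` -/
noncomputable def pr {N : ℕ} (K m : ℕ) (ω : Om N) (y : Y N) : ℝ :=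
  ∑ w ∈ nds N K, ω w * dt (dir m w.length) (y w)

/-- `ω ∈ BB(c)`: the sum over every level is at most `c` -/
def BB {N : ℕ} (K : ℕ) (c : ℝ) (ω : Om N) : Prop := ∀ k < K, ∑ w ∈ lev N (k + 1), |ω w| ≤ c

/-- the additive function of the measure with values `Φ` on the leaves -/
noncomputable def ofLeaf {N : ℕ} (K : ℕ) (Φ : Y N) : Y N :=
  fun w => ∑ g ∈ lev N (K - w.length), Φ (g ++ w)

/-- the function `h_w = (1_w - (1/N) 1_(w^-)) n_w` -/
noncomputable def hh {N : ℕ} (K m : ℕ) (w : Nd N) : Y N :=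
  ofLeaf K fun g => (((if w <:+ g then (1 : ℝ) else 0) - (N : ℝ)⁻¹ * (if w.tail <:+ g then 1 else 0) : ℝ) : ℂ) *
    dir m w.length

/-- the trace functional -/
noncomputable def tau {N : ℕ} (K m : ℕ) (S : Y N → Y N) : ℝ :=
  ((N : ℝ) ^ K)⁻¹ * ∑ w ∈ nds N K, dt (dir m w.length) (S (hh K m w) w)

/-- cells -/
inductive Cell (N : ℕ) : Type
  | leaf (Φ : Y N) : Cell N
  | node (d : ℕ) (sub : ℕ → Bool → Cell N) (ψ : ℕ → Y N) (ν0 : ℕ → Om N) (om : ℕ → Om N) : Cell N

/-- total flow of a cell -/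
noncomputable def Cell.tot {N : ℕ} : Cell N → Y N
  | .leaf Φ => Φ
  | .node d sub _ _ _ => ∑ x ∈ Finset.range (2 ^ d), ((sub x false).tot + (sub x true).tot)

/-- mass of a cell -/
noncomputable def Cell.mass {N : ℕ} (K : ℕ) : Cell N → ℝ
  | .leaf Φ => nr K Φ
  | .node d sub ψ _ _ => ∑ x ∈ Finset.range (2 ^ d), ((sub x false).mass K + (sub x true).mass K) +
      ∑ x ∈ Finset.Ico 1 (2 ^ d), nr K (ψ x)

/-- the slope of the upper line -/
def nu1 {N : ℕ} (ν0 om : ℕ → Om N) (x : ℕ) : Om N := ν0 x + (om (x + 1) - om x)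

/-- the total pairing -/
noncomputable def Cell.Tot {N : ℕ} (K m : ℕ) : Cell N → Om N → ℝ
  | .leaf Φ, ν => pr K m ν Φ
  | .node d sub ψ ν0 om, _ =>
      ∑ x ∈ Finset.range (2 ^ d), ((sub x false).Tot K m (ν0 x) + (sub x true).Tot K m (nu1 ν0 om x)) +
      ∑ x ∈ Finset.Ico 1 (2 ^ d), pr K m (om x) (ψ x)

/-- well formed cells of level `i` -/
def Cell.WF {N : ℕ} (K m : ℕ) : Cell N → ℕ → Om N → Prop
  | .leaf Φ, _, ν => BB K 1 ν ∧ Φ ∈ Vs N K
  | .node d sub ψ ν0 om, i, ν => BB K 1 ν ∧ i ≤ d ∧ om 0 = 0 ∧ om (2 ^ d) = 0 ∧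
      (∀ x, x < 2 ^ d → BB K 1 (ν0 x) ∧ BB K 1 (nu1 ν0 om x)) ∧
      (∀ x, x ≤ 2 ^ d → BB K 1 (om x)) ∧
      (∀ x, 1 ≤ x → x < 2 ^ d → ψ x ∈ Vs N K) ∧
      ((2 : ℝ) ^ d) • ν = ∑ x ∈ Finset.range (2 ^ d), ν0 x ∧
      (∀ x, x + 1 < 2 ^ d → ψ (x + 1) + (sub x true).tot - (sub (x + 1) true).tot ∈ Xs N K m) ∧
      (∀ x, x + 1 < 2 ^ d → -ψ (x + 1) + (sub x false).tot - (sub (x + 1) false).tot ∈ Xs N K m) ∧
      (∀ x, x < 2 ^ d → (sub x false).WF K m (i + 1) (ν0 x) ∧ (sub x true).WF K m (i + 1) (nu1 ν0 om x))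

end H50RC
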