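import Pool.Agent.H50.RC.ADef

/-!
S05864 [H50 RC DYN]: invariants of the states and the Dynkin principle.
`okh_PC`, `okh_len`: induction on the history (`[] ∈ M`; the new mark has its parent in the old set; `[].tail = []`).
`add_cases`: unfold. `adds_mono`: induction on the list with `add_cases`.
`inv_note`: if `(core ∪ a).card ≤ R0`: the list `clo c` contains all suffixes of the elements of `c`, for every `q ∈ c` in the order `[], …, q` (`List.tails`, reversed: increasing length); adding them one after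
the other marks all of them: invariant: after processing the reversed tails of `q` all suffixes of `q` are marked (induction on `q` from `q.tails.reverse = q.tail.tails.reverse ++ [q]` for `q ≠ []`), marks are never removed.
New marks are suffixes of elements of `core ∪ a`; all lengths `≤ K` since `core ∪ a ⊆ nds N K`. `cardM`: the marks are in the union of `{[]}` and the nonempty suffixes (at most `K` each) of the elements of the core set:
`card ≤ 1 + K R0`. If `(core ∪ a).card > R0` the history is unchanged, `coreM` is vacuous, `subM` stays true since the core set grows, `cardM` unchanged.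
`dynkin`: induction on the process. note: `hnote` and the induction hypothesis (`inv_note`). jump: `hjump`, and for every `i` the induction hypothesis for `t i` at `(s, y' i)`, multiplied by `p i ≥ 0` and summed.
`dynkinS`: from `dynkin` with `adds_mono` for the note step.
-/

set_option autoImplicit false

namespace H50RC

variable {N K R0 : ℕ} {B : ℝ}

theorem okh_PC {σ : St N} (h : OKh K B σ) : PC σ.M := by
  induction σ with
  | nil =>
    refine ⟨Finset.mem_singleton_self _, fun q hq => ?_⟩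
    have hq' : q ∈ ({[]} : Finset (Nd N)) := hq
    rw [Finset.mem_singleton] at hq'
    subst hq'
    exact Finset.mem_singleton_self _
  | cons x σ ih =>
    have h1 := ih h.2.2.2.2.2
    refine ⟨Finset.mem_insert_of_mem h1.1, fun q hq => ?_⟩
    have hq' : q ∈ insert x.1 (St.M σ) := hq
    rcases Finset.mem_insert.1 hq' with h2 | h2
    · rw [h2]
      exact Finset.mem_insert_of_mem h.2.1
    · exact Finset.mem_insert_of_mem (h1.2 q h2)

theorem okh_len {σ : St N} (h : OKh K B σ) : ∀ q ∈ σ.M, q.length ≤ K := by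
  induction σ with
  | nil =>
    intro q hq
    have hq' : q ∈ ({[]} : Finset (Nd N)) := hq
    rw [Finset.mem_singleton] at hq'
    subst hq'
    exact Nat.zero_le _
  | cons x σ ih =>
    intro q hq
    have hq' : q ∈ insert x.1 (St.M σ) := hq
    rcases Finset.mem_insert.1 hq' with h2 | h2
    · rw [h2]
      exact h.2.2.1
    · exact ih h.2.2.2.2.2 q h2

theorem add_cases (σ : St N) (y : Y N) (q : Nd N) :
    σ.add y q = σ ∨ (q ∉ σ.M ∧ q.tail ∈ σ.M ∧ σ.add y q = (q, y) :: σ) := by
  unfold St.add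
  split_ifs with h
  · exact Or.inl rfl
  · push Not at h
    exact Or.inr ⟨h.1, h.2, rfl⟩

theorem adds_mono (Ψ : St N → ℝ) {y : Y N} (hy : y ∈ Vs N K) (hB : nr K y ≤ B)
    (hadd : ∀ (σ : St N) (q : Nd N), OKh K B σ → q ∉ σ.M → q.tail ∈ σ.M → q.length ≤ K → Ψ σ ≤ Ψ ((q, y) :: σ))
    {σ : St N} (hσ : OKh K B σ) (l : List (Nd N)) (hl : ∀ q ∈ l, q.length ≤ K) :
    Ψ σ ≤ Ψ (σ.adds y l) ∧ OKh K B (σ.adds y l) := by
  induction l generalizing σ with
  | nil => exact ⟨le_rfl, hσ⟩
  | cons q l ih =>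
    have e1 : σ.adds y (q :: l) = (σ.add y q).adds y l := rfl
    rw [e1]
    have hl' : ∀ q' ∈ l, q'.length ≤ K := fun q' hq' => hl q' (List.mem_cons_of_mem _ hq')
    have hq := hl q List.mem_cons_self
    rcases add_cases σ y q with h | ⟨h1, h2, h3⟩
    · rw [h]
      exact ih hσ hl'
    · rw [h3]
      have h4 : OKh K B ((q, y) :: σ) := ⟨h1, h2, hq, hy, hB, hσ⟩
      have h5 := ih h4 hl'
      exact ⟨(hadd σ q hσ h1 h2 hq).trans h5.1, h5.2⟩

theorem inv_init : Inv K B R0 (S.init N) := by
  refine ⟨trivial, Finset.empty_subset _, fun _ => Finset.empty_subset _, fun q hq => ?_, ?_⟩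
  · have hq' : q ∈ ({[]} : Finset (Nd N)) := hq
    exact Or.inl (Finset.mem_singleton.1 hq')
  · have h1 : (S.init N).σ.M.card = 1 := Finset.card_singleton _
    rw [h1]
    omega

private theorem dyn_nil_mem (σ : St N) : ([] : Nd N) ∈ σ.M := by
  induction σ with
  | nil => exact Finset.mem_singleton_self _
  | cons x σ ih => exact Finset.mem_insert_of_mem ih

private theorem dyn_add_mono (σ : St N) (y : Y N) (q : Nd N) : σ.M ⊆ (σ.add y q).M := by
  rcases add_cases σ y q with h | ⟨_, _, h⟩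
  · rw [h]
  · rw [h]
    exact Finset.subset_insert _ _

private theorem dyn_adds_mono (σ : St N) (y : Y N) (l : List (Nd N)) : σ.M ⊆ (σ.adds y l).M := by
  induction l generalizing σ with
  | nil => exact Finset.Subset.refl _
  | cons q l ih => exact (dyn_add_mono σ y q).trans (ih (σ.add y q))

private theorem dyn_adds_append (σ : St N) (y : Y N) (l l' : List (Nd N)) :
    σ.adds y (l ++ l') = (σ.adds y l).adds y l' := by
  unfold St.adds
  rw [List.foldl_append]

private theorem dyn_add_mem (σ : St N) (y : Y N) (q : Nd N) (h : q.tail ∈ σ.M) : q ∈ (σ.add y q).M := by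
  unfold St.add
  split_ifs with h1
  · rcases h1 with h2 | h2
    · exact h2
    · exact absurd h h2
  · exact Finset.mem_insert_self _ _

private theorem dyn_tails (σ : St N) (y : Y N) (q : Nd N) : q ∈ (σ.adds y q.tails.reverse).M := by
  induction q with
  | nil => exact dyn_adds_mono σ y _ (dyn_nil_mem σ)
  | cons a w ih =>
    have e1 : (a :: w).tails.reverse = w.tails.reverse ++ [a :: w] := by
      rw [List.tails_cons, List.reverse_cons]
    rw [e1, dyn_adds_append]
    exact dyn_add_mem _ y (a :: w) ih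

private theorem dyn_flat (σ : St N) (y : Y N) (cs : List (Nd N)) : ∀ q ∈ cs,
    q ∈ (σ.adds y (cs.flatMap fun q => q.tails.reverse)).M := by
  induction cs generalizing σ with
  | nil =>
    intro q hq
    simp at hq
  | cons c cs ih =>
    intro q hq
    rw [List.flatMap_cons, dyn_adds_append]
    rcases List.mem_cons.1 hq with h | h
    · rw [h]
      exact dyn_adds_mono _ y _ (dyn_tails σ y c)
    · exact ih _ q h

private theorem dyn_adds_sub (σ : St N) (y : Y N) (l : List (Nd N)) : ∀ q ∈ (σ.adds y l).M, q ∈ σ.M ∨ q ∈ l := by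
  induction l generalizing σ with
  | nil => exact fun q hq => Or.inl hq
  | cons a l ih =>
    intro q hq
    rcases ih (σ.add y a) q hq with h | h
    · rcases add_cases σ y a with h1 | ⟨_, _, h1⟩
      · rw [h1] at h
        exact Or.inl h
      · rw [h1] at h
        have h' : q ∈ insert a (St.M σ) := h
        rcases Finset.mem_insert.1 h' with h2 | h2
        · exact Or.inr (h2 ▸ List.mem_cons_self)
        · exact Or.inl h2
    · exact Or.inr (List.mem_cons_of_mem _ h)

private theorem dyn_mem_clo {c : Finset (Nd N)} {q : Nd N} (h : q ∈ clo c) : ∃ x ∈ c, q <:+ x := by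
  unfold clo at h
  rw [List.mem_flatMap] at h
  obtain ⟨x, hx, hq⟩ := h
  rw [List.mem_reverse, List.mem_tails] at hq
  exact ⟨x, Finset.mem_toList.1 hx, hq⟩

theorem inv_note {s : S N} (h : Inv K B R0 s) {y : Y N} (hy : y ∈ Vs N K) (hB : nr K y ≤ B) {a : Finset (Nd N)}
    (ha : a ⊆ nds N K) : Inv K B R0 (s.note R0 y a) := by
  classical
  have hc : s.core ∪ a ⊆ nds N K := Finset.union_subset h.core_nds ha
  by_cases hcard : (s.core ∪ a).card ≤ R0
  · have e1 : s.note R0 y a = ⟨s.σ.adds y (clo (s.core ∪ a)), s.core ∪ a⟩ := by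
      unfold S.note
      rw [if_pos hcard]
    rw [e1]
    have hlen : ∀ q ∈ clo (s.core ∪ a), q.length ≤ K := by
      intro q hq
      obtain ⟨x, hx, hqx⟩ := dyn_mem_clo hq
      have h1 := (mem_nds.1 (hc hx)).2
      have h2 := hqx.length_le
      omega
    have hsub : ∀ q ∈ (s.σ.adds y (clo (s.core ∪ a))).M, q = [] ∨ ∃ c ∈ s.core ∪ a, q <:+ c := by
      intro q hq
      rcases dyn_adds_sub _ y _ q hq with h1 | h1
      · rcases h.subM q h1 with h2 | ⟨c, hc1, hc2⟩
        · exact Or.inl h2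
        · exact Or.inr ⟨c, Finset.mem_union_left _ hc1, hc2⟩
      · exact Or.inr (dyn_mem_clo h1)
    refine ⟨?_, hc, fun _ => ?_, hsub, ?_⟩
    · exact (adds_mono (fun _ => 0) hy hB (fun _ _ _ _ _ _ => le_rfl) h.ok _ hlen).2
    · intro q hq
      exact dyn_flat s.σ y _ q (Finset.mem_toList.2 hq)
    · have h1 : (s.σ.adds y (clo (s.core ∪ a))).M ⊆
          insert [] ((s.core ∪ a).biUnion fun c => c.tails.toFinset) := by
        intro q hq
        rcases hsub q hq with h2 | ⟨c, hc1, hc2⟩
        · rw [h2]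
          exact Finset.mem_insert_self _ _
        · refine Finset.mem_insert_of_mem (Finset.mem_biUnion.2 ⟨c, hc1, ?_⟩)
          rw [List.mem_toFinset, List.mem_tails]
          exact hc2
      have h2 : ((s.core ∪ a).biUnion fun c => c.tails.toFinset).card ≤ (s.core ∪ a).card * (K + 1) := by
        refine Finset.card_biUnion_le_card_mul _ _ _ fun c hc1 => ?_
        refine (List.toFinset_card_le _).trans ?_
        rw [List.length_tails]
        have := (mem_nds.1 (hc hc1)).2
        omega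
      have h3 : (s.core ∪ a).card * (K + 1) ≤ R0 * (K + 1) := Nat.mul_le_mul_right _ hcard
      have h4 := (Finset.card_le_card h1).trans (Finset.card_insert_le _ _)
      show (s.σ.adds y (clo (s.core ∪ a))).M.card ≤ (K + 1) * R0 + 1
      rw [Nat.mul_comm (K + 1) R0]
      omega
  · have e1 : s.note R0 y a = ⟨s.σ, s.core ∪ a⟩ := by
      unfold S.note
      rw [if_neg hcard]
    rw [e1]
    refine ⟨h.ok, hc, fun h1 => absurd h1 hcard, fun q hq => ?_, h.cardM⟩
    rcases h.subM q hq with h2 | ⟨c, hc1, hc2⟩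
    · exact Or.inl h2
    · exact Or.inr ⟨c, Finset.mem_union_left _ hc1, hc2⟩

theorem dynkin (Ψ : S N → Y N → ℝ) (e : S N → Y N → Y N → ℝ)
    (hnote : ∀ (s : S N) (y : Y N) (a : Finset (Nd N)), Inv K B R0 s → y ∈ Vs N K → nr K y ≤ B → a ⊆ nds N K →
      Ψ s y ≤ Ψ (s.note R0 y a) y)
    (hjump : ∀ (s : S N) (y : Y N) (ι : Type) [Fintype ι] (p : ι → ℝ) (y' : ι → Y N), Inv K B R0 s → y ∈ Vs N K →
      nr K y ≤ B → Jmp K B y p y' → Ψ s y + ∑ i, p i * e s y (y' i) ≤ ∑ i, p i * Ψ s (y' i)) :
    ∀ (t : PT N) (s : S N) (y : Y N), t.WFP K B y → Inv K B R0 s → y ∈ Vs N K → nr K y ≤ B →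
      Ψ s y + t.ES R0 e s y ≤ t.EX R0 Ψ s y := by
  intro t
  induction t with
  | nil =>
    intro s y _ _ _ _
    simp only [PT.ES, PT.EX, add_zero, le_refl]
  | note a t ih =>
    intro s y ht hs hy hB
    simp only [PT.ES, PT.EX]
    have h1 := ih (s.note R0 y a) y ht.2 (inv_note hs hy hB ht.1) hy hB
    have h2 := hnote s y a hs hy hB ht.1
    linarith
  | jump ι hι p y' t ih =>
    intro s y ht hs hy hB
    simp only [PT.ES, PT.EX]
    have hj := ht.1
    have h1 := hjump s y ι p y' hs hy hB hj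
    have h2 : ∑ i, p i * (Ψ s (y' i) + (t i).ES R0 e s (y' i)) ≤ ∑ i, p i * (t i).EX R0 Ψ s (y' i) :=
      Finset.sum_le_sum fun i _ => mul_le_mul_of_nonneg_left
        (ih i s (y' i) (ht.2 i) hs (hj.mem i) (hj.bd i)) (hj.nn i)
    simp only [mul_add, Finset.sum_add_distrib] at h2 ⊢
    linarith

theorem dynkinS (Ψ : St N → Y N → ℝ) (e : St N → Y N → Y N → ℝ)
    (hadd : ∀ (σ : St N) (y : Y N) (q : Nd N), OKh K B σ → y ∈ Vs N K → nr K y ≤ B → q ∉ σ.M → q.tail ∈ σ.M →
      q.length ≤ K → Ψ σ y ≤ Ψ ((q, y) :: σ) y)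
    (hjump : ∀ (σ : St N) (y : Y N) (ι : Type) [Fintype ι] (p : ι → ℝ) (y' : ι → Y N), OKh K B σ → y ∈ Vs N K →
      nr K y ≤ B → Jmp K B y p y' → Ψ σ y + ∑ i, p i * e σ y (y' i) ≤ ∑ i, p i * Ψ σ (y' i)) :
    ∀ (t : PT N) (s : S N) (y : Y N), t.WFP K B y → Inv K B R0 s → y ∈ Vs N K → nr K y ≤ B →
      Ψ s.σ y + t.ES R0 (fun s y y' => e s.σ y y') s y ≤ t.EX R0 (fun s y => Ψ s.σ y) s y := by
  refine dynkin (fun s y => Ψ s.σ y) (fun s y y' => e s.σ y y') (fun s y a hs hy hB ha => ?_)
    (fun s y ι _ p y' hs hy hB hj => hjump s.σ y ι p y' hs.ok hy hB hj)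
  show Ψ s.σ y ≤ Ψ (s.note R0 y a).σ y
  unfold S.note
  by_cases hcard : (s.core ∪ a).card ≤ R0
  · rw [if_pos hcard]
    refine (adds_mono (fun σ => Ψ σ y) hy hB (fun σ q hσ h1 h2 h3 => hadd σ y q hσ hy hB h1 h2 h3)
      hs.ok _ fun q hq => ?_).1
    obtain ⟨x, hx, hqx⟩ := dyn_mem_clo hq
    have h1 := (mem_nds.1 ((Finset.union_subset hs.core_nds ha) hx)).2
    have h2 := hqx.length_le
    omega
  · rw [if_neg hcard]

private theorem dyn_ES_zero (t : PT N) (s : S N) (y : Y N) : t.ES R0 (fun _ _ _ => 0) s y = 0 := by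
  induction t generalizing s y with
  | nil => simp only [PT.ES]
  | note a t ih =>
    simp only [PT.ES]
    exact ih _ _
  | jump ι hι p y' t ih =>
    simp only [PT.ES]
    refine Finset.sum_eq_zero fun i _ => ?_
    rw [ih i, add_zero, mul_zero]

/-- without energies -/
theorem submart (Ψ : St N → Y N → ℝ)
    (hadd : ∀ (σ : St N) (y : Y N) (q : Nd N), OKh K B σ → y ∈ Vs N K → nr K y ≤ B → q ∉ σ.M → q.tail ∈ σ.M →
      q.length ≤ K → Ψ σ y ≤ Ψ ((q, y) :: σ) y)
    (hjump : ∀ (σ : St N) (y : Y N) (ι : Type) [Fintype ι] (p : ι → ℝ) (y' : ι → Y N), OKh K B σ → y ∈ Vs N K →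
      nr K y ≤ B → Jmp K B y p y' → Ψ σ y ≤ ∑ i, p i * Ψ σ (y' i))
    (t : PT N) (s : S N) (y : Y N) (ht : t.WFP K B y) (hs : Inv K B R0 s) (hy : y ∈ Vs N K) (hB : nr K y ≤ B) :
    Ψ s.σ y ≤ t.EX R0 (fun s y => Ψ s.σ y) s y := by
  have h := dynkinS (K := K) (R0 := R0) (B := B) Ψ (fun _ _ _ => 0) hadd
    (fun σ y ι _ p y' h1 h2 h3 h4 => by
      have h5 := hjump σ y ι p y' h1 h2 h3 h4
      simpa using h5) t s y ht hs hy hB
  rw [dyn_ES_zero, add_zero] at h
  exact h

end H50RC
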