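import Pool.Agent.H50.RC.Lu

/-!
S05864 [H50 RC L2]: (L1), (L2) and (M1).
(L1): on `X` all `rr m χ w`, `w ∈ nds`, vanish (`FF_X`, the children of a node of length `< K` are in `nds`), so both sums together are `∑_{w ∈ nds} ω w dt n_w (χ w)`.
(L2): `marked_le` with `c = 4`, `unmarked_le`: `4(2L/ε + L + 1/4) + 9 rp + 5 ≤ C1c`. (M1): `M = {[]}`, `L = m`, `ε = 1`: no marked nodes in `nds`; by (L1) and `unmarked_le`.
-/

set_option autoImplicit false

namespace H50RC

variable {N K m L R : ℕ} {ε : ℝ}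

private theorem rr_add2 (y z : Y N) (w : Nd N) : rr m (y + z) w = rr m y w + rr m z w := by
  unfold rr
  rw [← dt_add_right]
  congr 1
  rw [Pi.add_apply, Pi.add_apply, smul_add]
  abel

private theorem rr_smul2 (c : ℝ) (y : Y N) (w : Nd N) : rr m (c • y) w = c * rr m y w := by
  unfold rr
  rw [← dt_smul_right]
  congr 1
  rw [Pi.smul_apply, Pi.smul_apply, smul_sub, smul_comm]

private theorem FU_add2 (w : Nd N → ℝ) (q : Nd N) (y z : Y N) :
    FU K m w q (y + z) = FU K m w q y + FU K m w q z := by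
  unfold FU
  split_ifs
  · simp only [rr_add2, Pi.add_apply, dt_add_right, mul_add, Finset.sum_add_distrib]
    ring
  · rw [Pi.add_apply, dt_add_right]

private theorem FU_smul2 (w : Nd N → ℝ) (q : Nd N) (c : ℝ) (y : Y N) :
    FU K m w q (c • y) = c * FU K m w q y := by
  unfold FU
  split_ifs
  · have h1 : ∑ a, w (a :: q) * rr m (c • y) (a :: q) = c * ∑ a, w (a :: q) * rr m y (a :: q) := by
      rw [Finset.mul_sum]
      refine Finset.sum_congr rfl fun a _ => ?_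
      rw [rr_smul2]
      ring
    rw [h1, rr_smul2, Pi.smul_apply, dt_smul_right]
    ring
  · rw [Pi.smul_apply, dt_smul_right]

private theorem FU_X2 (w : Nd N → ℝ) {q : Nd N} (hq : q ∈ nds N K) {χ : Y N} (hχ : χ ∈ Xs N K m) :
    FU K m w q χ = dt (dir m q.length) (χ q) := by
  have hχ' : χ ∈ Vs N K ∧ ∀ w ∈ nds N K, rr m χ w = 0 := hχ
  unfold FU
  split_ifs with h
  · have h1 : ∑ a, w (a :: q) * rr m χ (a :: q) = 0 := by
      refine Finset.sum_eq_zero fun a _ => ?_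
      rw [hχ'.2 (a :: q) (mem_nds.2 ⟨List.cons_ne_nil _ _, by rw [List.length_cons]; omega⟩), mul_zero]
    rw [h1, hχ'.2 q hq]
    ring
  · rfl

theorem Lam_X {M : Finset (Nd N)} (hM' : ∀ q ∈ M, q.length ≤ K) (v : Nd N → ℂ) (ω : Om N) {χ : Y N}
    (hχ : χ ∈ Xs N K m) : Lam K m L ε M v ω χ = pr K m ω χ := by
  classical
  unfold Lam pr
  rw [← Finset.sum_filter_add_sum_filter_not (nds N K) (fun p => p ∈ M)]
  congr 1
  · refine Finset.sum_congr rfl fun p hp => ?_
    rw [FF_X M hM' v (Finset.mem_filter.1 hp).2 hχ]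
  · refine Finset.sum_congr rfl fun q hq => ?_
    rw [FU_X2 _ (Finset.mem_filter.1 hq).1 hχ]

theorem abs_Lam_le (hK : 1 ≤ K) (hm : 2 ≤ m) (hL : 0 < L) (hmL : m ∣ L) (hε : 0 < ε) (hε1 : ε ≤ 1)
    (hN : bigN K R m ε ≤ N) {y : Y N} (hy : y ∈ Vs N K) {M : Finset (Nd N)} (hM : PC M)
    (hM' : ∀ q ∈ M, q.length ≤ K) (hR : M.card ≤ R + 1) (v : Nd N → ℂ) {ω : Om N} (hω : BB K 4 ω) : |Lam K m L ε M v ω y| ≤ C1c m L ε * nr K y := by
  have h1 := marked_le hm hL hmL hε hε1 hN hy M hM hM' hR v (c := 4) (by norm_num)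
    (fun w hw => hω.abs_le hw)
  have h2 := unmarked_le hK hm hε hε1 hN hy ((nds N K).filter (fun q => q ∉ M))
    (Finset.filter_subset _ _) hω
  have h3 : |∑ p ∈ (nds N K).filter (fun p => p ∈ M), ω p * FF K m L ε M v p y| ≤
      ∑ p ∈ (nds N K).filter (fun p => p ∈ M), |ω p| * |FF K m L ε M v p y| := by
    refine (Finset.abs_sum_le_sum_abs _ _).trans (Finset.sum_le_sum fun p _ => ?_)
    rw [abs_mul]
  have h4 : |∑ q ∈ (nds N K).filter (fun q => q ∉ M), ω q * FU K m (ww K ω) q y| ≤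
      ∑ q ∈ (nds N K).filter (fun q => q ∉ M), |ω q| * |FU K m (ww K ω) q y| := by
    refine (Finset.abs_sum_le_sum_abs _ _).trans (Finset.sum_le_sum fun p _ => ?_)
    rw [abs_mul]
  have h5 : |Lam K m L ε M v ω y| ≤ 4 * (2 * L / ε + L + 1 / 4) * nr K y + (9 * rp m + 5) * nr K y := by
    unfold Lam
    exact (abs_add_le _ _).trans (add_le_add (h3.trans h1) (h4.trans h2))
  refine h5.trans ?_
  rw [← add_mul]
  refine mul_le_mul_of_nonneg_right ?_ (nr_nonneg y)
  unfold C1c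
  have h6 : 4 * (2 * (L : ℝ) / ε) = 8 * L / ε := by ring
  linarith

theorem M1 (hK : 1 ≤ K) (hm : 2 ≤ m) (hN : bigN K 0 m 1 ≤ N) {ω : Om N} (hω : BB K 4 ω) {χ : Y N}
    (hχ : χ ∈ Xs N K m) : |pr K m ω χ| ≤ (9 * rp m + 5) * nr K χ := by
  classical
  have h1 := Lam_X (L := 1) (ε := 1) (M := ∅) (fun q hq => absurd hq (Finset.notMem_empty q)) (fun _ => 0) ω hχ
  have h2 := unmarked_le hK hm one_pos le_rfl hN (show χ ∈ Vs N K from hχ.1)
    ((nds N K).filter (fun q => q ∉ (∅ : Finset (Nd N)))) (Finset.filter_subset _ _) hω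
  rw [← h1]
  refine le_trans ?_ h2
  unfold Lam
  have h3 : (nds N K).filter (fun p => p ∈ (∅ : Finset (Nd N))) = ∅ := by
    ext p
    simp
  rw [h3, Finset.sum_empty, zero_add]
  refine (Finset.abs_sum_le_sum_abs _ _).trans (Finset.sum_le_sum fun p _ => ?_)
  rw [abs_mul]

theorem Lam_add (M : Finset (Nd N)) (v : Nd N → ℂ) (ω : Om N) (y z : Y N) :
    Lam K m L ε M v ω (y + z) = Lam K m L ε M v ω y + Lam K m L ε M v ω z := by
  unfold Lam
  simp only [FF_add, FU_add2, mul_add, Finset.sum_add_distrib]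
  ring

theorem Lam_smul (M : Finset (Nd N)) (v : Nd N → ℂ) (ω : Om N) (c : ℝ) (y : Y N) :
    Lam K m L ε M v ω (c • y) = c * Lam K m L ε M v ω y := by
  unfold Lam
  rw [mul_add, Finset.mul_sum, Finset.mul_sum]
  congr 1
  · refine Finset.sum_congr rfl fun p _ => ?_
    rw [FF_smul]
    ring
  · refine Finset.sum_congr rfl fun p _ => ?_
    rw [FU_smul2]
    ring

theorem Lam_zero (M : Finset (Nd N)) (v : Nd N → ℂ) (y : Y N) : Lam K m L ε M v 0 y = 0 := by
  simp [Lam]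

end H50RC
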