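import Pool.Agent.H50.RC.Nrm

/-!
S05864: marks and the functionals `Λ(ω; M)`: definitions (PART C1 of proofs 322).
-/

set_option autoImplicit false

namespace H50RC

/-- parent-closed sets of marks -/
def PC {N : ℕ} (M : Finset (Nd N)) : Prop := [] ∈ M ∧ ∀ q ∈ M, q.tail ∈ M

/-- mass leaving the marks at `q` -/
noncomputable def zz {N : ℕ} (M : Finset (Nd N)) (y : Y N) (q : Nd N) : ℂ :=
  y q - ∑ a, if (a :: q) ∈ M then y (a :: q) else 0

/-- direction of a stored vector -/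
noncomputable def uu (v : ℂ) : ℂ := if v = 0 then 1 else (‖v‖⁻¹ : ℝ) • v

/-- `p` is good (`k` its level, `v` the stored vector) -/
def Good (m : ℕ) (ε : ℝ) (k : ℕ) (v : ℂ) : Prop := ε ≤ |dt (Complex.I * uu v) (dir m k)|

open Classical in
/-- the vector `l_p` -/
noncomputable def ll (m : ℕ) (ε : ℝ) (k : ℕ) (v : ℂ) : ℂ :=
  if Good m ε k v then (dt (Complex.I * uu v) (dir m k))⁻¹ • (Complex.I * uu v) else dir m k

/-- the vectors `l^(i)` -/
noncomputable def lI (m L : ℕ) (l : ℂ) (k i : ℕ) : ℂ :=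
  (2 / L : ℝ) • ∑ j ∈ Finset.Ico (k + i) (k + L + 1), dt l (Complex.I * dir m j) • (Complex.I * dir m j)

/-- the functional `F_p` of a marked node -/
noncomputable def FF {N : ℕ} (K m L : ℕ) (ε : ℝ) (M : Finset (Nd N)) (v : Nd N → ℂ) (p : Nd N) (y : Y N) : ℝ :=
  if p ≠ [] ∧ p.length + L ≤ K then
    dt (dir m p.length) (y p) +
      dt (ll m ε p.length (v p)) (Complex.I * dir m p.length) * rr m y p +
      ∑ q ∈ M.filter (fun q => p <:+ q ∧ p.length < q.length ∧ q.length ≤ p.length + L),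
        (-(2 / L : ℝ) * dt (ll m ε p.length (v p)) (Complex.I * dir m q.length)) * rr m y q
  else dt (dir m p.length) (y p)

/-- the functional `f_p = ∑ l^(i) . z(q)` -/
noncomputable def XX {N : ℕ} (m L : ℕ) (ε : ℝ) (M : Finset (Nd N)) (v : Nd N → ℂ) (p : Nd N) (y : Y N) : ℝ :=
  ∑ q ∈ M.filter (fun q => p <:+ q ∧ q.length < p.length + L),
    dt (lI m L (ll m ε p.length (v p)) p.length (q.length - p.length + 1)) (zz M y q)

/-- `c = -cot(π/m)` -/
noncomputable def cc (m : ℕ) : ℝ := -(Real.cos (Real.pi / m) / Real.sin (Real.pi / m))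

/-- `ρ' = 1/sin(π/m)` -/
noncomputable def rp (m : ℕ) : ℝ := (Real.sin (Real.pi / m))⁻¹

/-- the functional of an unmarked node -/
noncomputable def FU {N : ℕ} (K m : ℕ) (w : Nd N → ℝ) (q : Nd N) (y : Y N) : ℝ :=
  if q.length < K then
    dt (dir m q.length) (y q) + cc m * rr m y q + rp m * ∑ a, w (a :: q) * rr m y (a :: q)
  else dt (dir m q.length) (y q)

/-- `S_q = ∑ ω(w)²` over the nodes below `q` (incl. `q`) -/
noncomputable def SS {N : ℕ} (K : ℕ) (ω : Om N) (q : Nd N) : ℝ :=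
  ∑ w ∈ (nds N K).filter (fun w => q <:+ w), ω w ^ 2

/-- `w_q = S_q/(S_q + t²)`, `t = K^(-2)` -/
noncomputable def ww {N : ℕ} (K : ℕ) (ω : Om N) (q : Nd N) : ℝ :=
  SS K ω q / (SS K ω q + ((K : ℝ) ^ 4)⁻¹)

/-- the functional `Λ(ω; M)` -/
noncomputable def Lam {N : ℕ} (K m L : ℕ) (ε : ℝ) (M : Finset (Nd N)) (v : Nd N → ℂ) (ω : Om N) (y : Y N) : ℝ :=
  ∑ p ∈ (nds N K).filter (fun p => p ∈ M), ω p * FF K m L ε M v p y +
    ∑ q ∈ (nds N K).filter (fun q => q ∉ M), ω q * FU K m (ww K ω) q y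

/-- `F_q(ω) = ω(q^-) w_q(ω)` -/
noncomputable def FQ {N : ℕ} (K : ℕ) (ω : Om N) (q : Nd N) : ℝ :=
  if q.length ≤ 1 then 0 else ω q.tail * ww K ω q

/-- the constant of (L2), (M1) -/
noncomputable def C1c (m L : ℕ) (ε : ℝ) : ℝ := 8 * L / ε + 4 * L + 9 * rp m + 8

/-- the required size of `N` -/
noncomputable def bigN (K R m : ℕ) (ε : ℝ) : ℝ := 10 ^ 8 * rp m ^ 8 * ((K : ℝ) + 1) ^ 40 * ((R : ℝ) + 1) ^ 4 / ε ^ 4

end H50RC
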