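import Pool.Agent.H50.RC.Lam

/-!
S05864 [H50 RC LL]: the vectors `ll` and `lI`.
`uu v` is a unit vector. `dt (dir m k) (ll m ε k v) = 1`: good case `(dt (I u) n)⁻¹ * dt n (I u)`, nonzero since `ε > 0`; bad case `dt n n = 1`.
`norm_ll_le`: good: `|dt (I u) n|⁻¹ ≤ ε⁻¹`; bad: `1 ≤ ε⁻¹`.
`lI_one`: `L = m * L'`, the sum over `L` consecutive indices consists of `L'` blocks of length `m` (`sum_dir`), each `(m/2) l`.
`lI_top`: empty sum. `lI_step`: one term. `norm_lI_le`: at most `L` terms of norm `≤ ‖l‖`. `abs_dt_lI_le`: the number of terms is `L + 1 - i = a m + b` with `b < m`: full blocks give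
`(2/L) a (m/2) dt l z`, `|.| ≤ |dt l z|` since `a m ≤ L`, the remaining `b ≤ m` terms give `≤ (2/L) m ‖l‖ ‖z‖`.
-/

set_option autoImplicit false

namespace H50RC

private theorem ll_block {m : ℕ} (hm : 2 ≤ m) (k : ℕ) (l : ℂ) (a : ℕ) :
    ∑ j ∈ Finset.range (m * a), dt l (Complex.I * dir m (k + j)) • (Complex.I * dir m (k + j)) =
      ((a : ℝ) * (m / 2)) • l := by
  induction a with
  | zero => simp
  | succ a ih =>
    rw [mul_add, mul_one, Finset.sum_range_add, ih]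
    have h1 : ∀ j, k + (m * a + j) = k + m * a + j := fun j => by ring
    rw [Finset.sum_congr rfl fun j _ => by rw [h1 j], sum_dir hm (k + m * a) l, ← add_smul]
    congr 1
    push_cast
    ring

theorem norm_uu (v : ℂ) : ‖uu v‖ = 1 := by
  unfold uu
  split_ifs with h
  · simp
  · rw [norm_smul, norm_inv, norm_norm, inv_mul_cancel₀ (norm_ne_zero_iff.2 h)]

/-- `‖v‖ u = v` -/
theorem norm_smul_uu (v : ℂ) : ‖v‖ • uu v = v := by
  unfold uu
  split_ifs with h
  · simp [h]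
  · rw [smul_smul, mul_inv_cancel₀ (norm_ne_zero_iff.2 h), one_smul]

theorem dt_uu_self (v : ℂ) : dt (uu v) v = ‖v‖ := by
  unfold uu
  split_ifs with h
  · simp [h, dt]
  · rw [dt_smul_left, dt_self, sq, ← mul_assoc, inv_mul_cancel₀ (norm_ne_zero_iff.2 h), one_mul]

theorem dt_dir_ll {m : ℕ} {ε : ℝ} (hε : 0 < ε) (k : ℕ) (v : ℂ) : dt (dir m k) (ll m ε k v) = 1 := by
  unfold ll
  split_ifs with h
  · rw [dt_smul_right, dt_comm (dir m k)]
    refine inv_mul_cancel₀ fun h0 => ?_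
    unfold Good at h
    rw [h0, abs_zero] at h
    linarith
  · rw [dt_self, norm_dir]
    norm_num

theorem norm_ll_le {m : ℕ} {ε : ℝ} (hε : 0 < ε) (hε1 : ε ≤ 1) (k : ℕ) (v : ℂ) : ‖ll m ε k v‖ ≤ ε⁻¹ := by
  unfold ll
  split_ifs with h
  · rw [norm_smul, norm_mul, Complex.norm_I, one_mul, norm_uu, mul_one, norm_inv,
      Real.norm_eq_abs]
    exact inv_anti₀ hε h
  · rw [norm_dir]
    exact (one_le_inv₀ hε).2 hε1

theorem abs_dt_ll_le {m : ℕ} {ε : ℝ} (hε : 0 < ε) {k : ℕ} {v : ℂ} (h : Good m ε k v) (z : ℂ) :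
    |dt (ll m ε k v) z| ≤ ε⁻¹ * |dt (Complex.I * uu v) z| := by
  have h' : ll m ε k v = (dt (Complex.I * uu v) (dir m k))⁻¹ • (Complex.I * uu v) := by
    simp [ll, h]
  rw [h', dt_smul_left, abs_mul, abs_inv]
  exact mul_le_mul_of_nonneg_right (inv_anti₀ hε h) (abs_nonneg _)

theorem ll_bad {m : ℕ} {ε : ℝ} {k : ℕ} {v : ℂ} (h : ¬ Good m ε k v) : ll m ε k v = dir m k := by
  simp [ll, h]

theorem lI_one {m L : ℕ} (hm : 2 ≤ m) (hL : 0 < L) (hmL : m ∣ L) (l : ℂ) (k : ℕ) : lI m L l k 1 = l := by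
  obtain ⟨L', rfl⟩ := hmL
  unfold lI
  have e1 : k + m * L' + 1 - (k + 1) = m * L' := by omega
  rw [Finset.sum_Ico_eq_sum_range, e1, ll_block hm (k + 1) l L', smul_smul]
  have h1 : (m : ℝ) ≠ 0 := by
    have : m ≠ 0 := by omega
    exact_mod_cast this
  have h2 : (L' : ℝ) ≠ 0 := by
    have : L' ≠ 0 := by
      rintro rfl
      simp at hL
    exact_mod_cast this
  have h3 : (2 / ((m * L' : ℕ) : ℝ)) * ((L' : ℝ) * (m / 2)) = 1 := by
    push_cast
    field_simp
  rw [h3, one_smul]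

theorem lI_top (m L : ℕ) (l : ℂ) (k : ℕ) : lI m L l k (L + 1) = 0 := by
  unfold lI
  rw [show k + (L + 1) = k + L + 1 by ring, Finset.Ico_self, Finset.sum_empty, smul_zero]

theorem lI_step (m L : ℕ) (l : ℂ) (k : ℕ) {i : ℕ} (hi : i ≤ L) : lI m L l k i = lI m L l k (i + 1) +
    (2 / L : ℝ) • (dt l (Complex.I * dir m (k + i)) • (Complex.I * dir m (k + i))) := by
  unfold lI
  rw [Finset.sum_eq_sum_Ico_succ_bot (show k + i < k + L + 1 by omega), smul_add, add_comm,
    show k + i + 1 = k + (i + 1) by ring]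

theorem norm_lI_step_le (m L : ℕ) (l : ℂ) (k : ℕ) {i : ℕ} (hi : i ≤ L) :
    ‖lI m L l k i - lI m L l k (i + 1)‖ ≤ 2 / L * ‖l‖ := by
  rw [lI_step m L l k hi, add_sub_cancel_left, norm_smul, norm_smul, norm_I_dir, mul_one,
    Real.norm_eq_abs, Real.norm_eq_abs, abs_of_nonneg (show (0 : ℝ) ≤ 2 / L by positivity)]
  refine mul_le_mul_of_nonneg_left ?_ (by positivity)
  have := abs_dt_le l (Complex.I * dir m (k + i))
  rwa [norm_I_dir, mul_one] at this

theorem norm_lI_le {m L : ℕ} (hL : 0 < L) (l : ℂ) (k : ℕ) {i : ℕ} (hi : 1 ≤ i) : ‖lI m L l k i‖ ≤ 2 * ‖l‖ := by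
  have hL' : (0 : ℝ) < L := by exact_mod_cast hL
  unfold lI
  rw [norm_smul, Real.norm_eq_abs, abs_of_nonneg (show (0 : ℝ) ≤ 2 / L by positivity)]
  have h1 : ‖∑ j ∈ Finset.Ico (k + i) (k + L + 1), dt l (Complex.I * dir m j) •
      (Complex.I * dir m j)‖ ≤ (L : ℝ) * ‖l‖ := by
    refine (norm_sum_le _ _).trans ?_
    refine (Finset.sum_le_sum (g := fun _ => ‖l‖) fun j _ => ?_).trans ?_
    · rw [norm_smul, norm_I_dir, mul_one, Real.norm_eq_abs]
      have := abs_dt_le l (Complex.I * dir m j)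
      rwa [norm_I_dir, mul_one] at this
    · rw [Finset.sum_const, Nat.card_Ico, nsmul_eq_mul]
      refine mul_le_mul_of_nonneg_right ?_ (norm_nonneg _)
      exact_mod_cast (show k + L + 1 - (k + i) ≤ L by omega)
  calc 2 / (L : ℝ) * ‖∑ j ∈ Finset.Ico (k + i) (k + L + 1), dt l (Complex.I * dir m j) •
      (Complex.I * dir m j)‖ ≤ 2 / (L : ℝ) * ((L : ℝ) * ‖l‖) :=
        mul_le_mul_of_nonneg_left h1 (by positivity)
    _ = 2 * ‖l‖ := by field_simp

theorem abs_dt_lI_le {m L : ℕ} (hm : 2 ≤ m) (hL : 0 < L) (l : ℂ) (k : ℕ) {i : ℕ} (hi : 1 ≤ i) (z : ℂ) :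
    |dt (lI m L l k i) z| ≤ |dt l z| + 2 * m / L * (‖l‖ * ‖z‖) := by
  have hL' : (0 : ℝ) < L := by exact_mod_cast hL
  set n : ℕ := k + L + 1 - (k + i) with hn
  have hnL : n ≤ L := by omega
  have hdiv := Nat.div_add_mod n m
  set a : ℕ := n / m with ha
  set b : ℕ := n % m with hb
  have hbm : b < m := Nat.mod_lt _ (by omega)
  have e1 : lI m L l k i = (2 / L : ℝ) • (((a : ℝ) * (m / 2)) • l +
      ∑ j ∈ Finset.range b, dt l (Complex.I * dir m (k + i + m * a + j)) •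
        (Complex.I * dir m (k + i + m * a + j))) := by
    unfold lI
    rw [Finset.sum_Ico_eq_sum_range, ← hn, ← hdiv, Finset.sum_range_add, ll_block hm (k + i) l a]
    congr 2
    refine Finset.sum_congr rfl fun j _ => ?_
    rw [show k + i + (m * a + j) = k + i + m * a + j by ring]
  rw [e1, dt_smul_left, dt_add_left, dt_smul_left, dt_sum_left, mul_add]
  have hlz : 0 ≤ |dt l z| := abs_nonneg _
  refine (abs_add_le _ _).trans (add_le_add ?_ ?_)
  · rw [abs_mul, abs_mul, abs_of_nonneg (show (0 : ℝ) ≤ 2 / L by positivity),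
      abs_of_nonneg (show (0 : ℝ) ≤ (a : ℝ) * (m / 2) by positivity), ← mul_assoc]
    refine mul_le_of_le_one_left hlz ?_
    have h1 : (a : ℝ) * m ≤ L := by
      have : a * m ≤ L := by
        have : m * a ≤ n := by omega
        rw [mul_comm]
        omega
      exact_mod_cast this
    rw [div_mul_eq_mul_div, div_le_one hL']
    linarith
  · rw [abs_mul, abs_of_nonneg (show (0 : ℝ) ≤ 2 / L by positivity)]
    have h2 : |∑ j ∈ Finset.range b, dt (dt l (Complex.I * dir m (k + i + m * a + j)) •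
        (Complex.I * dir m (k + i + m * a + j))) z| ≤ (m : ℝ) * (‖l‖ * ‖z‖) := by
      refine (Finset.abs_sum_le_sum_abs _ _).trans ?_
      refine (Finset.sum_le_sum (g := fun _ => ‖l‖ * ‖z‖) fun j _ => ?_).trans ?_
      · rw [dt_smul_left, abs_mul]
        have h3 := abs_dt_le l (Complex.I * dir m (k + i + m * a + j))
        have h4 := abs_dt_le (Complex.I * dir m (k + i + m * a + j)) z
        rw [norm_I_dir, mul_one] at h3
        rw [norm_I_dir, one_mul] at h4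
        exact mul_le_mul h3 h4 (abs_nonneg _) (norm_nonneg _)
      · rw [Finset.sum_const, Finset.card_range, nsmul_eq_mul]
        refine mul_le_mul_of_nonneg_right ?_ (by positivity)
        exact_mod_cast hbm.le
    calc 2 / (L : ℝ) * |∑ j ∈ Finset.range b, dt (dt l (Complex.I * dir m (k + i + m * a + j)) •
        (Complex.I * dir m (k + i + m * a + j))) z| ≤ 2 / (L : ℝ) * ((m : ℝ) * (‖l‖ * ‖z‖)) :=
          mul_le_mul_of_nonneg_left h2 (by positivity)
      _ = 2 * m / L * (‖l‖ * ‖z‖) := by ring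

end H50RC
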