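import Pool.Agent.H50.RC.Lz
import Pool.Agent.H50.RC.Ll

/-!
S05864 [H50 RC LF]: formula (1.3): `FF p y` is `XX p y` up to terms with `1/N`.
Let `l = ll m ε k (v p)`, `k = p.length`, `n = dir m k`. Since `dt n l = 1`: `dt n (y p) + dt l (I n) * dt (I n) (y p) = dt l (y p)` (`dt_basis`). Write
`rr m y w = dt (I n_w) (y w) - N⁻¹ dt (I n_w) (y w.tail)`. Without the terms with `N⁻¹`:
`FF = dt l (y p) + ∑_{j=k+1}^{k+L} (-(2/L) dt l (I n_j)) dt (I n_j) (∑_{q ∈ M, p <:+ q, |q| = j} y q)`, and by `sum_zz_cons` the inner sum is `y p - ∑_{q ∈ M, p <:+ q, |q| < j} zz M y q`.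
The coefficient of `y p` is `l - lI 1 = 0` (`lI_one`), and that of `zz M y q` (`|q| < k + L`) is `(2/L) ∑_{j=|q|+1}^{k+L} dt l (I n_j) (I n_j) = lI (|q| - k + 1)`.
The terms with `N⁻¹`: `|dt l (I n)| ‖y p.tail‖ ≤ ε⁻¹ ‖y p.tail‖` and `(2/L) ε⁻¹ ‖y q.tail‖` for every `q`.
`abs_XX_le`: `norm_lI_le`, `norm_ll_le`.
-/

set_option autoImplicit false

namespace H50RC

variable {N K m L : ℕ} {ε : ℝ}

private theorem rr_eq (m : ℕ) (y : Y N) (w : Nd N) :
    rr m y w = dt (Complex.I * dir m w.length) (y w) -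
      (N : ℝ)⁻¹ * dt (Complex.I * dir m w.length) (y w.tail) := by
  unfold rr
  rw [dt_sub_right, dt_smul_right]

private theorem rr_sub (m : ℕ) (y z : Y N) (w : Nd N) : rr m (y - z) w = rr m y w - rr m z w := by
  rw [rr_eq, rr_eq, rr_eq, Pi.sub_apply, Pi.sub_apply, dt_sub_right, dt_sub_right]
  ring

private theorem rr_add (m : ℕ) (y z : Y N) (w : Nd N) : rr m (y + z) w = rr m y w + rr m z w := by
  rw [rr_eq, rr_eq, rr_eq, Pi.add_apply, Pi.add_apply, dt_add_right, dt_add_right]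
  ring

private theorem rr_smul (m : ℕ) (c : ℝ) (y : Y N) (w : Nd N) : rr m (c • y) w = c * rr m y w := by
  rw [rr_eq, rr_eq, Pi.smul_apply, Pi.smul_apply, dt_smul_right, dt_smul_right]
  ring

/-- summation by parts over the levels -/
private theorem lf_parts (M : Finset (Nd N)) (hM : PC M) {p : Nd N} (hp : p ∈ M) (y : Y N)
    (g : ℕ → ℂ) (c : ℕ → ℝ) :
    ∑ q ∈ M.filter (fun q => p <:+ q ∧ p.length < q.length ∧ q.length ≤ p.length + L),
      c q.length * dt (g q.length) (y q) =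
    ∑ j ∈ Finset.Ico (p.length + 1) (p.length + L + 1), c j * dt (g j) (y p) -
    ∑ q ∈ M.filter (fun q => p <:+ q ∧ q.length < p.length + L),
      ∑ j ∈ Finset.Ico (q.length + 1) (p.length + L + 1), c j * dt (g j) (zz M y q) := by
  classical
  have h1 : ∑ q ∈ M.filter (fun q => p <:+ q ∧ p.length < q.length ∧ q.length ≤ p.length + L),
      c q.length * dt (g q.length) (y q) =
      ∑ j ∈ Finset.Ico (p.length + 1) (p.length + L + 1),
        c j * dt (g j) (∑ q ∈ M.filter (fun q => p <:+ q ∧ q.length = j), y q) := by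
    rw [← Finset.sum_fiberwise_of_maps_to (t := Finset.Ico (p.length + 1) (p.length + L + 1))
      (g := fun q : Nd N => q.length) (fun q hq => by
        rw [Finset.mem_filter] at hq
        rw [Finset.mem_Ico]
        omega)]
    refine Finset.sum_congr rfl fun j hj => ?_
    rw [Finset.mem_Ico] at hj
    rw [dt_sum_right, Finset.mul_sum]
    have h2 : (M.filter (fun q => p <:+ q ∧ p.length < q.length ∧ q.length ≤ p.length + L)).filter
        (fun q => q.length = j) = M.filter (fun q => p <:+ q ∧ q.length = j) := by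
      ext q
      simp only [Finset.mem_filter]
      constructor
      · rintro ⟨⟨h1, h2, h3⟩, h4⟩
        exact ⟨h1, h2, h4⟩
      · rintro ⟨h1, h2, h3⟩
        exact ⟨⟨h1, h2, by omega, by omega⟩, h3⟩
    rw [h2]
    refine Finset.sum_congr rfl fun q hq => ?_
    rw [Finset.mem_filter] at hq
    rw [hq.2.2]
  have h3 : ∀ j ∈ Finset.Ico (p.length + 1) (p.length + L + 1),
      c j * dt (g j) (∑ q ∈ M.filter (fun q => p <:+ q ∧ q.length = j), y q) =
      c j * dt (g j) (y p) - ∑ q ∈ M.filter (fun q => p <:+ q ∧ q.length < j), c j * dt (g j) (zz M y q) := by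
    intro j hj
    rw [Finset.mem_Ico] at hj
    have h4 := sum_zz_cons (y := y) M hM hp (j := j) (by omega)
    rw [← h4, dt_add_right, ← Finset.mul_sum, ← dt_sum_right]
    ring
  rw [h1, Finset.sum_congr rfl h3, Finset.sum_sub_distrib]
  congr 1
  refine Finset.sum_comm' fun j q => ?_
  simp only [Finset.mem_filter, Finset.mem_Ico]
  constructor
  · rintro ⟨⟨h1, h2⟩, h3, h4, h5⟩
    exact ⟨⟨by omega, h2⟩, h3, h4, by omega⟩
  · rintro ⟨⟨h1, h2⟩, h3, h4, h5⟩
    have := h4.length_le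
    exact ⟨⟨by omega, h2⟩, h3, h4, by omega⟩

private theorem lf_lI (l : ℂ) (k i : ℕ) (z : ℂ) : dt (lI m L l k i) z =
    ∑ j ∈ Finset.Ico (k + i) (k + L + 1), (2 / L : ℝ) * dt l (Complex.I * dir m j) *
      dt (Complex.I * dir m j) z := by
  unfold lI
  rw [dt_smul_left, dt_sum_left, Finset.mul_sum]
  refine Finset.sum_congr rfl fun j _ => ?_
  rw [dt_smul_left, mul_assoc]

/-- the main identity, without the terms with `1/N` -/
private theorem lf_main (hm : 2 ≤ m) (hL : 0 < L) (hmL : m ∣ L) (hε : 0 < ε) (y : Y N)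
    (M : Finset (Nd N)) (hM : PC M) (v : Nd N → ℂ) {p : Nd N} (hp : p ∈ M) :
    dt (dir m p.length) (y p) + dt (ll m ε p.length (v p)) (Complex.I * dir m p.length) *
      dt (Complex.I * dir m p.length) (y p) +
      ∑ q ∈ M.filter (fun q => p <:+ q ∧ p.length < q.length ∧ q.length ≤ p.length + L),
        (-(2 / L : ℝ) * dt (ll m ε p.length (v p)) (Complex.I * dir m q.length)) *
          dt (Complex.I * dir m q.length) (y q) = XX m L ε M v p y := by
  obtain ⟨l, hl⟩ : ∃ l : ℂ, l = ll m ε p.length (v p) := ⟨_, rfl⟩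
  rw [← hl]
  have h1 := lf_parts (L := L) M hM hp y (fun j => Complex.I * dir m j)
    (fun j => -(2 / L : ℝ) * dt l (Complex.I * dir m j))
  beta_reduce at h1
  rw [h1]
  have h2 : dt (dir m p.length) (y p) + dt l (Complex.I * dir m p.length) *
      dt (Complex.I * dir m p.length) (y p) = dt l (y p) := by
    rw [dt_basis (norm_dir m p.length) l (y p), hl, dt_dir_ll hε, one_mul,
      dt_comm (Complex.I * dir m p.length) (ll m ε p.length (v p))]
  have h3 : ∑ j ∈ Finset.Ico (p.length + 1) (p.length + L + 1),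
      -(2 / L : ℝ) * dt l (Complex.I * dir m j) * dt (Complex.I * dir m j) (y p) = -dt l (y p) := by
    have h4 := lf_lI (m := m) (L := L) l p.length 1 (y p)
    rw [lI_one hm hL hmL] at h4
    rw [h4, ← Finset.sum_neg_distrib]
    refine Finset.sum_congr rfl fun j _ => ?_
    ring
  have h5 : ∑ q ∈ M.filter (fun q => p <:+ q ∧ q.length < p.length + L),
      ∑ j ∈ Finset.Ico (q.length + 1) (p.length + L + 1),
        -(2 / L : ℝ) * dt l (Complex.I * dir m j) * dt (Complex.I * dir m j) (zz M y q) =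
      -XX m L ε M v p y := by
    unfold XX
    rw [← Finset.sum_neg_distrib]
    refine Finset.sum_congr rfl fun q hq => ?_
    rw [Finset.mem_filter] at hq
    have h6 := hq.2.1.length_le
    rw [← hl, lf_lI, ← Finset.sum_neg_distrib]
    have e1 : p.length + (q.length - p.length + 1) = q.length + 1 := by omega
    rw [e1]
    refine Finset.sum_congr rfl fun j _ => ?_
    ring
  rw [h2, h3, h5]
  ring

theorem abs_FF_sub_XX_le (hm : 2 ≤ m) (hL : 0 < L) (hmL : m ∣ L) (hε : 0 < ε) (hε1 : ε ≤ 1) {y : Y N}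
    (hy : y ∈ Vs N K) (M : Finset (Nd N)) (hM : PC M) (v : Nd N → ℂ) {p : Nd N} (hp : p ∈ M) (h1 : p ≠ [])
    (h2 : p.length + L ≤ K) :
    |FF K m L ε M v p y - XX m L ε M v p y| ≤ 2 / (ε * N) * (‖y p.tail‖ + ∑ q ∈ M, ‖y q.tail‖) := by
  rw [← lf_main hm hL hmL hε y M hM v hp]
  unfold FF
  rw [if_pos ⟨h1, h2⟩]
  obtain ⟨l, hl⟩ : ∃ l : ℂ, l = ll m ε p.length (v p) := ⟨_, rfl⟩
  rw [← hl]
  have hln : ‖l‖ ≤ ε⁻¹ := by
    rw [hl]
    exact norm_ll_le hε hε1 _ _
  have hεi : 0 ≤ ε⁻¹ := (inv_pos.2 hε).le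
  have hNi : (0 : ℝ) ≤ (N : ℝ)⁻¹ := inv_nonneg.2 (Nat.cast_nonneg N)
  have hdt : ∀ k : ℕ, |dt l (Complex.I * dir m k)| ≤ ε⁻¹ := fun k => by
    refine (abs_dt_le _ _).trans ?_
    rw [norm_I_dir, mul_one]
    exact hln
  have hdz : ∀ (k : ℕ) (z : ℂ), |dt (Complex.I * dir m k) z| ≤ ‖z‖ := fun k z => by
    refine (abs_dt_le _ _).trans ?_
    rw [norm_I_dir, one_mul]
  have hL1 : (1 : ℝ) ≤ L := by exact_mod_cast hL
  have hLp : (0 : ℝ) < L := by linarith
  have e1 : ∑ q ∈ M.filter (fun q => p <:+ q ∧ p.length < q.length ∧ q.length ≤ p.length + L),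
        (-(2 / L : ℝ) * dt l (Complex.I * dir m q.length)) * rr m y q =
      ∑ q ∈ M.filter (fun q => p <:+ q ∧ p.length < q.length ∧ q.length ≤ p.length + L),
        (-(2 / L : ℝ) * dt l (Complex.I * dir m q.length)) * dt (Complex.I * dir m q.length) (y q) +
      ∑ q ∈ M.filter (fun q => p <:+ q ∧ p.length < q.length ∧ q.length ≤ p.length + L),
        (2 / L : ℝ) * dt l (Complex.I * dir m q.length) *
          ((N : ℝ)⁻¹ * dt (Complex.I * dir m q.length) (y q.tail)) := by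
    rw [← Finset.sum_add_distrib]
    refine Finset.sum_congr rfl fun q _ => ?_
    rw [rr_eq]
    ring
  rw [e1, rr_eq]
  have e2 : ∀ a b c d e f g : ℝ, a + b * (c - d) + (e + f) - (a + b * c + e) = f - b * d := by
    intro a b c d e f g
    ring
  have e3 := e2 (dt (dir m p.length) (y p)) (dt l (Complex.I * dir m p.length))
    (dt (Complex.I * dir m p.length) (y p)) ((N : ℝ)⁻¹ * dt (Complex.I * dir m p.length) (y p.tail))
    (∑ q ∈ M.filter (fun q => p <:+ q ∧ p.length < q.length ∧ q.length ≤ p.length + L),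
        (-(2 / L : ℝ) * dt l (Complex.I * dir m q.length)) * dt (Complex.I * dir m q.length) (y q))
    (∑ q ∈ M.filter (fun q => p <:+ q ∧ p.length < q.length ∧ q.length ≤ p.length + L),
        (2 / L : ℝ) * dt l (Complex.I * dir m q.length) *
          ((N : ℝ)⁻¹ * dt (Complex.I * dir m q.length) (y q.tail))) 0
  rw [e3]
  have h3 : |∑ q ∈ M.filter (fun q => p <:+ q ∧ p.length < q.length ∧ q.length ≤ p.length + L),
        (2 / L : ℝ) * dt l (Complex.I * dir m q.length) *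
          ((N : ℝ)⁻¹ * dt (Complex.I * dir m q.length) (y q.tail))| ≤
      2 * ε⁻¹ * (N : ℝ)⁻¹ * ∑ q ∈ M, ‖y q.tail‖ := by
    refine (Finset.abs_sum_le_sum_abs _ _).trans ?_
    rw [Finset.mul_sum]
    refine (Finset.sum_le_sum_of_subset_of_nonneg (Finset.filter_subset _ M)
      fun q _ _ => abs_nonneg _).trans (Finset.sum_le_sum fun q _ => ?_)
    rw [abs_mul, abs_mul, abs_mul, abs_of_nonneg hNi, abs_of_nonneg (div_nonneg zero_le_two hLp.le)]
    have h4 : (2 / L : ℝ) ≤ 2 := div_le_self zero_le_two hL1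
    calc (2 / L : ℝ) * |dt l (Complex.I * dir m q.length)| *
          ((N : ℝ)⁻¹ * |dt (Complex.I * dir m q.length) (y q.tail)|)
        ≤ 2 * ε⁻¹ * ((N : ℝ)⁻¹ * ‖y q.tail‖) :=
          mul_le_mul (mul_le_mul h4 (hdt _) (abs_nonneg _) zero_le_two)
            (mul_le_mul_of_nonneg_left (hdz _ _) hNi) (by positivity) (by positivity)
      _ = 2 * ε⁻¹ * (N : ℝ)⁻¹ * ‖y q.tail‖ := by ring
  have h4 : |dt l (Complex.I * dir m p.length) *
      ((N : ℝ)⁻¹ * dt (Complex.I * dir m p.length) (y p.tail))| ≤ ε⁻¹ * (N : ℝ)⁻¹ * ‖y p.tail‖ := by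
    rw [abs_mul, abs_mul, abs_of_nonneg hNi]
    calc |dt l (Complex.I * dir m p.length)| *
          ((N : ℝ)⁻¹ * |dt (Complex.I * dir m p.length) (y p.tail)|)
        ≤ ε⁻¹ * ((N : ℝ)⁻¹ * ‖y p.tail‖) :=
          mul_le_mul (hdt _) (mul_le_mul_of_nonneg_left (hdz _ _) hNi) (by positivity) hεi
      _ = ε⁻¹ * (N : ℝ)⁻¹ * ‖y p.tail‖ := by ring
  have e4 : 2 / (ε * N) * (‖y p.tail‖ + ∑ q ∈ M, ‖y q.tail‖) =
      2 * ε⁻¹ * (N : ℝ)⁻¹ * ‖y p.tail‖ + 2 * ε⁻¹ * (N : ℝ)⁻¹ * ∑ q ∈ M, ‖y q.tail‖ := by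
    rw [div_eq_mul_inv, mul_inv]
    ring
  rw [e4]
  refine (abs_sub _ _).trans ?_
  have h5 : 0 ≤ ε⁻¹ * (N : ℝ)⁻¹ * ‖y p.tail‖ := by positivity
  linarith

theorem abs_XX_le (hL : 0 < L) (hε : 0 < ε) (hε1 : ε ≤ 1) (M : Finset (Nd N)) (v : Nd N → ℂ) (p : Nd N) (y : Y N) :
    |XX m L ε M v p y| ≤ 2 / ε * ∑ q ∈ M.filter (fun q => p <:+ q ∧ q.length < p.length + L), ‖zz M y q‖ := by
  unfold XX
  refine (Finset.abs_sum_le_sum_abs _ _).trans ?_
  rw [Finset.mul_sum]
  refine Finset.sum_le_sum fun q _ => ?_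
  refine (abs_dt_le _ _).trans (mul_le_mul_of_nonneg_right ?_ (norm_nonneg _))
  have h1 := norm_lI_le (m := m) hL (ll m ε p.length (v p)) p.length
    (i := q.length - p.length + 1) (by omega)
  have h2 := norm_ll_le (m := m) hε hε1 p.length (v p)
  rw [div_eq_mul_inv]
  linarith

theorem XX_sub (M : Finset (Nd N)) (v : Nd N → ℂ) (p : Nd N) (y z : Y N) :
    XX m L ε M v p (y - z) = XX m L ε M v p y - XX m L ε M v p z := by
  unfold XX
  rw [← Finset.sum_sub_distrib]
  refine Finset.sum_congr rfl fun q _ => ?_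
  rw [zz_sub, dt_sub_right]

theorem FF_sub (M : Finset (Nd N)) (v : Nd N → ℂ) (p : Nd N) (y z : Y N) :
    FF K m L ε M v p (y - z) = FF K m L ε M v p y - FF K m L ε M v p z := by
  unfold FF
  split_ifs
  · simp only [rr_sub, Pi.sub_apply, dt_sub_right, mul_sub, Finset.sum_sub_distrib]
    ring
  · rw [Pi.sub_apply, dt_sub_right]

theorem FF_add (M : Finset (Nd N)) (v : Nd N → ℂ) (p : Nd N) (y z : Y N) :
    FF K m L ε M v p (y + z) = FF K m L ε M v p y + FF K m L ε M v p z := by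
  unfold FF
  split_ifs
  · simp only [rr_add, Pi.add_apply, dt_add_right, mul_add, Finset.sum_add_distrib]
    ring
  · rw [Pi.add_apply, dt_add_right]

theorem FF_smul (M : Finset (Nd N)) (v : Nd N → ℂ) (p : Nd N) (c : ℝ) (y : Y N) :
    FF K m L ε M v p (c • y) = c * FF K m L ε M v p y := by
  unfold FF
  split_ifs
  · rw [mul_add, mul_add, Finset.mul_sum]
    congr 1
    · rw [rr_smul, Pi.smul_apply, dt_smul_right]
      ring
    · refine Finset.sum_congr rfl fun q _ => ?_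
      rw [rr_smul]
      ring
  · rw [Pi.smul_apply, dt_smul_right]

theorem XX_sum (M : Finset (Nd N)) (v : Nd N → ℂ) (p : Nd N) {ι : Type} (s : Finset ι) (c : ι → ℝ) (f : ι → Y N) :
    XX m L ε M v p (∑ i ∈ s, c i • f i) = ∑ i ∈ s, c i * XX m L ε M v p (f i) := by
  unfold XX
  simp only [Finset.mul_sum]
  rw [Finset.sum_comm]
  refine Finset.sum_congr rfl fun q _ => ?_
  rw [zz_sum, dt_sum_right]
  refine Finset.sum_congr rfl fun i _ => ?_
  rw [zz_smul, dt_smul_right]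

/-- on `X` the functional is `n . y(p)` -/
theorem FF_X (M : Finset (Nd N)) (hM' : ∀ q ∈ M, q.length ≤ K) (v : Nd N → ℂ) {p : Nd N} (hp : p ∈ M) {χ : Y N} (hχ : χ ∈ Xs N K m) :
    FF K m L ε M v p χ = dt (dir m p.length) (χ p) := by
  unfold FF
  split_ifs with h
  · have h1 : rr m χ p = 0 := hχ.2 p (mem_nds.2 ⟨h.1, hM' p hp⟩)
    have h2 : ∑ q ∈ M.filter (fun q => p <:+ q ∧ p.length < q.length ∧ q.length ≤ p.length + L),
        (-(2 / L : ℝ) * dt (ll m ε p.length (v p)) (Complex.I * dir m q.length)) * rr m χ q = 0 := by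
      refine Finset.sum_eq_zero fun q hq => ?_
      rw [Finset.mem_filter] at hq
      have h3 : rr m χ q = 0 := hχ.2 q (mem_nds.2 ⟨by
        rintro rfl
        simp at hq, hM' q hq.1⟩)
      rw [h3, mul_zero]
    rw [h1, h2, mul_zero, add_zero, add_zero]
  · rfl

end H50RC
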