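import Pool.Agent.H50.RC.Lam

/-!
S05864 [H50 RC LP]: the path lemma and the sums `SS`, weights `ww`.
`path_lemma`: real numbers `a 0, …, a n`, `x 0, …, x (n-1)` with `a (j+1) ≥ a j + (x j)^2`, `a 0 ≥ t²`, `|x j| ≤ 4`: `∑_{j<n} |x j| t²/a j ≤ 8 + n t`. (`a j` increasing.) Proof by induction of
`∑_{j<n} |x j| t²/a j ≤ n t + 8 (t²/a 0 - t²/a n)`: if `x² ≤ a j` then `|x| t²/a j ≤ t²/√(a j) ≤ t` (`a j ≥ t²`) and `1/a` decreases;
if `x² > a j` then `a (j+1) ≥ 2 a j`, `|x| t²/a j ≤ 4 t²/a j ≤ 8 (t²/a j - t²/a (j+1))`.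
`path_nodes`: for a leaf `g` (length `K`): with `g_k = g.drop (K - k)` the ancestor of level `k`, `∑_{k=1}^{K-1} |ω g_k| (1 - ww ω g_{k+1}) ≤ 8 + K t`, `t = K^(-2)`:
apply the lemma upwards: `j = K - 1 - k`, `a j = SS ω g_{k+1} + t²`, `x j = ω g_k`; `SS ω g_k ≥ SS ω g_{k+1} + ω(g_k)²` (the nodes below `g_{k+1}` and `g_k` itself are below `g_k`); `1 - ww = t²/(SS + t²)`.
`sum_SS_le`: `∑_{q ∈ nds} SS ω q ≤ K ∑ ω²` (every `w` has at most `K` ancestors in `nds`), for the children of one node: `≤ ∑ ω²` (disjoint).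
`sum_ww_le`: `ww ≤ SS / t² = K^4 SS`.
-/

set_option autoImplicit false

namespace H50RC

variable {N K : ℕ}

theorem path_lemma (n : ℕ) (t : ℝ) (ht : 0 < t) (a x : ℕ → ℝ) (h0 : t ^ 2 ≤ a 0)
    (h1 : ∀ j < n, a j + x j ^ 2 ≤ a (j + 1)) (h2 : ∀ j < n, |x j| ≤ 4) :
    ∑ j ∈ Finset.range n, |x j| * (t ^ 2 / a j) ≤ 8 + n * t := by
  have ht2 : 0 < t ^ 2 := by positivity
  have ha : ∀ j ≤ n, t ^ 2 ≤ a j := by
    intro j
    induction j with
    | zero => intro _; exact h0
    | succ j ih =>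
      intro hj
      have := h1 j (by omega)
      have h3 := ih (by omega)
      nlinarith [sq_nonneg (x j)]
  have key : ∀ k ≤ n, ∑ j ∈ Finset.range k, |x j| * (t ^ 2 / a j) ≤
      k * t + 8 * (t ^ 2 / a 0 - t ^ 2 / a k) := by
    intro k
    induction k with
    | zero => intro _; simp
    | succ k ih =>
      intro hk
      rw [Finset.sum_range_succ]
      have h3 := ih (by omega)
      have hA := ha k (by omega)
      have hB := ha (k + 1) hk
      have hAB := h1 k (by omega)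
      have hx := h2 k (by omega)
      have hA0 : 0 < a k := by linarith
      have hB0 : 0 < a (k + 1) := by linarith
      have hx0 : 0 ≤ |x k| := abs_nonneg _
      have hxx : |x k| ^ 2 = x k ^ 2 := sq_abs _
      have h4 : |x k| * (t ^ 2 / a k) ≤ t + 8 * (t ^ 2 / a k - t ^ 2 / a (k + 1)) := by
        rcases le_or_gt (x k ^ 2) (a k) with h | h
        · have e1 : t ^ 2 / a (k + 1) ≤ t ^ 2 / a k :=
            div_le_div_of_nonneg_left ht2.le hA0 (by nlinarith [sq_nonneg (x k)])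
          have e2 : |x k| * t ≤ a k := by
            refine abs_le_of_sq_le_sq' ?_ hA0.le |>.2
            rw [mul_pow, hxx, sq (a k)]
            exact mul_le_mul h hA ht2.le hA0.le
          have e3 : |x k| * (t ^ 2 / a k) ≤ t := by
            rw [← mul_div_assoc, div_le_iff₀ hA0]
            nlinarith
          linarith
        · have e1 : t ^ 2 / a (k + 1) ≤ t ^ 2 / (2 * a k) :=
            div_le_div_of_nonneg_left ht2.le (by linarith) (by linarith)
          have e2 : t ^ 2 / (2 * a k) = (t ^ 2 / a k) / 2 := by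
            rw [mul_comm, div_mul_eq_div_div]
          have e3 : 0 ≤ t ^ 2 / a k := by positivity
          have e4 : |x k| * (t ^ 2 / a k) ≤ 4 * (t ^ 2 / a k) := mul_le_mul_of_nonneg_right hx e3
          rw [e2] at e1
          linarith
      push_cast
      linarith
  have h5 := key n le_rfl
  have h6 : t ^ 2 / a 0 ≤ 1 := (div_le_one (by linarith)).2 h0
  have h7 : 0 ≤ t ^ 2 / a n := div_nonneg ht2.le (by linarith [ha n le_rfl])
  linarith

theorem SS_nonneg (ω : Om N) (q : Nd N) : 0 ≤ SS K ω q :=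
  Finset.sum_nonneg fun _ _ => sq_nonneg _

theorem SS_le (ω : Om N) (q : Nd N) : SS K ω q ≤ ∑ w ∈ nds N K, ω w ^ 2 := by
  exact Finset.sum_le_sum_of_subset_of_nonneg (Finset.filter_subset _ _) fun _ _ _ => sq_nonneg _

theorem SS_child (ω : Om N) {q : Nd N} (hq : q ∈ nds N K) (a : Fin N) : SS K ω (a :: q) + ω q ^ 2 ≤ SS K ω q := by
  classical
  unfold SS
  have h1 : q ∉ (nds N K).filter (fun w => (a :: q) <:+ w) := by
    intro h
    have := (Finset.mem_filter.1 h).2.length_le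
    simp at this
  rw [add_comm, ← Finset.sum_insert (f := fun w => ω w ^ 2) h1]
  refine Finset.sum_le_sum_of_subset_of_nonneg ?_ fun _ _ _ => sq_nonneg _
  intro w hw
  rcases Finset.mem_insert.1 hw with rfl | hw
  · exact Finset.mem_filter.2 ⟨hq, List.suffix_refl _⟩
  · obtain ⟨h2, h3⟩ := Finset.mem_filter.1 hw
    exact Finset.mem_filter.2 ⟨h2, (List.suffix_cons a q).trans h3⟩

theorem ww_nonneg (ω : Om N) (q : Nd N) : 0 ≤ ww K ω q := by
  exact div_nonneg (SS_nonneg ω q) (add_nonneg (SS_nonneg ω q) (by positivity))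

theorem ww_le_one (ω : Om N) (q : Nd N) : ww K ω q ≤ 1 := by
  exact div_le_one_of_le₀ (le_add_of_nonneg_right (by positivity))
    (add_nonneg (SS_nonneg ω q) (by positivity))

theorem path_nodes (hK : 1 ≤ K) {ω : Om N} (hω : ∀ w ∈ nds N K, |ω w| ≤ 4) {g : Nd N} (hg : g ∈ lev N K) :
    ∑ k ∈ Finset.Ico 1 K, |ω (g.drop (K - k))| * (1 - ww K ω (g.drop (K - (k + 1)))) ≤ 9 := by
  have hK0 : (0 : ℝ) < K := by exact_mod_cast hK
  have hK1 : (1 : ℝ) ≤ K := by exact_mod_cast hK
  have hlen : g.length = K := mem_lev.1 hg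
  have e1 : ∑ k ∈ Finset.Ico 1 K, |ω (g.drop (K - k))| * (1 - ww K ω (g.drop (K - (k + 1)))) =
      ∑ j ∈ Finset.range (K - 1), |ω (g.drop (j + 1))| *
        ((((K : ℝ) ^ 2)⁻¹) ^ 2 / (SS K ω (g.drop j) + (((K : ℝ) ^ 2)⁻¹) ^ 2)) := by
    refine Finset.sum_bij' (fun k _ => K - 1 - k) (fun j _ => K - 1 - j) ?_ ?_ ?_ ?_ ?_
    · intro k hk
      have := Finset.mem_Ico.1 hk
      exact Finset.mem_range.2 (by omega)
    · intro j hj
      have := Finset.mem_range.1 hj
      exact Finset.mem_Ico.2 (by omega)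
    · intro k hk
      have := Finset.mem_Ico.1 hk
      show K - 1 - (K - 1 - k) = k
      omega
    · intro j hj
      have := Finset.mem_range.1 hj
      show K - 1 - (K - 1 - j) = j
      omega
    · intro k hk
      have hk' := Finset.mem_Ico.1 hk
      show _ = |ω (g.drop (K - 1 - k + 1))| * ((((K : ℝ) ^ 2)⁻¹) ^ 2 /
        (SS K ω (g.drop (K - 1 - k)) + (((K : ℝ) ^ 2)⁻¹) ^ 2))
      rw [show K - 1 - k + 1 = K - k by omega, show K - (k + 1) = K - 1 - k by omega]
      congr 1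
      have e2 : (((K : ℝ) ^ 2)⁻¹) ^ 2 = ((K : ℝ) ^ 4)⁻¹ := by
        rw [inv_pow, ← pow_mul]
      have e3 : 0 < SS K ω (g.drop (K - 1 - k)) + ((K : ℝ) ^ 4)⁻¹ :=
        add_pos_of_nonneg_of_pos (SS_nonneg _ _) (by positivity)
      unfold ww
      rw [e2, eq_div_iff e3.ne', sub_mul, div_mul_cancel₀ _ e3.ne']
      ring
  rw [e1]
  have h := path_lemma (K - 1) (((K : ℝ) ^ 2)⁻¹) (by positivity)
    (fun j => SS K ω (g.drop j) + (((K : ℝ) ^ 2)⁻¹) ^ 2) (fun j => ω (g.drop (j + 1)))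
    (by
      have := SS_nonneg (K := K) ω (g.drop 0)
      show (((K : ℝ) ^ 2)⁻¹) ^ 2 ≤ SS K ω (g.drop 0) + (((K : ℝ) ^ 2)⁻¹) ^ 2
      linarith)
    (by
      intro j hj
      have hjl : j < g.length := by omega
      have e4 : g.drop j = g[j] :: g.drop (j + 1) := List.drop_eq_getElem_cons hjl
      have e5 : g.drop (j + 1) ∈ nds N K := by
        rw [mem_nds]
        constructor
        · intro h0
          have := congrArg List.length h0
          rw [List.length_drop, List.length_nil] at this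
          omega
        · rw [List.length_drop]
          omega
      have e6 := SS_child ω e5 (g[j])
      rw [← e4] at e6
      show SS K ω (g.drop j) + (((K : ℝ) ^ 2)⁻¹) ^ 2 + ω (g.drop (j + 1)) ^ 2 ≤
        SS K ω (g.drop (j + 1)) + (((K : ℝ) ^ 2)⁻¹) ^ 2
      linarith)
    (by
      intro j hj
      refine hω _ ?_
      rw [mem_nds]
      constructor
      · intro h0
        have := congrArg List.length h0
        rw [List.length_drop, List.length_nil] at this
        omega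
      · rw [List.length_drop]
        omega)
  refine h.trans ?_
  have h8 : ((K - 1 : ℕ) : ℝ) ≤ K := by exact_mod_cast Nat.sub_le K 1
  have h9 : ((K - 1 : ℕ) : ℝ) * ((K : ℝ) ^ 2)⁻¹ ≤ 1 := by
    calc ((K - 1 : ℕ) : ℝ) * ((K : ℝ) ^ 2)⁻¹ ≤ (K : ℝ) * ((K : ℝ) ^ 2)⁻¹ :=
          mul_le_mul_of_nonneg_right h8 (by positivity)
      _ = (K : ℝ)⁻¹ := by
          rw [sq, mul_inv, ← mul_assoc, mul_inv_cancel₀ hK0.ne', one_mul]
      _ ≤ 1 := inv_le_one_of_one_le₀ hK1
  linarith

theorem sum_SS_le (ω : Om N) : ∑ q ∈ nds N K, SS K ω q ≤ K * ∑ w ∈ nds N K, ω w ^ 2 := by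
  classical
  have e1 : ∑ q ∈ nds N K, SS K ω q =
      ∑ w ∈ nds N K, ∑ q ∈ nds N K, if q <:+ w then ω w ^ 2 else 0 := by
    rw [Finset.sum_comm]
    exact Finset.sum_congr rfl fun q _ => Finset.sum_filter _ _
  rw [e1, Finset.mul_sum]
  refine Finset.sum_le_sum fun w _ => ?_
  rw [← Finset.sum_filter, Finset.sum_const, nsmul_eq_mul]
  refine mul_le_mul_of_nonneg_right ?_ (sq_nonneg _)
  have h1 : ((nds N K).filter (fun q => q <:+ w)).card ≤ (Finset.Icc 1 K).card := by
    refine Finset.card_le_card_of_injOn List.length ?_ ?_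
    · intro q hq
      have h2 := mem_nds.1 (Finset.mem_filter.1 hq).1
      refine Finset.mem_coe.2 (Finset.mem_Icc.2 ⟨?_, h2.2⟩)
      exact List.length_pos_iff.2 h2.1
    · intro q hq q' hq' h
      have h2 := (Finset.mem_filter.1 hq).2
      have h3 := (Finset.mem_filter.1 hq').2
      exact (List.suffix_of_suffix_length_le h2 h3 h.le).eq_of_length h
  rw [Nat.card_Icc, Nat.add_sub_cancel] at h1
  exact_mod_cast h1

theorem sum_children_SS_le (ω : Om N) (q : Nd N) : ∑ a, SS K ω (a :: q) ≤ ∑ w ∈ nds N K, ω w ^ 2 := by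
  classical
  have e1 : ∑ a, SS K ω (a :: q) =
      ∑ w ∈ nds N K, ∑ a : Fin N, if (a :: q) <:+ w then ω w ^ 2 else 0 := by
    rw [Finset.sum_comm]
    exact Finset.sum_congr rfl fun a _ => Finset.sum_filter _ _
  rw [e1]
  refine Finset.sum_le_sum fun w _ => ?_
  rw [← Finset.sum_filter, Finset.sum_const, nsmul_eq_mul]
  refine mul_le_of_le_one_left (sq_nonneg _) ?_
  have h1 : (Finset.univ.filter (fun a : Fin N => (a :: q) <:+ w)).card ≤ 1 := by
    rw [Finset.card_le_one]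
    intro a ha b hb
    have h2 := (Finset.mem_filter.1 ha).2
    have h3 := (Finset.mem_filter.1 hb).2
    have h4 := (List.suffix_of_suffix_length_le h2 h3 (by simp)).eq_of_length (by simp)
    exact (List.cons.inj h4).1
  exact_mod_cast h1

theorem sum_children_ww_le (ω : Om N) (q : Nd N) :
    ∑ a, ww K ω (a :: q) ≤ (K : ℝ) ^ 4 * ∑ w ∈ nds N K, ω w ^ 2 := by
  have h1 : ∀ p : Nd N, ww K ω p ≤ (K : ℝ) ^ 4 * SS K ω p := by
    intro p
    rcases Nat.eq_zero_or_pos K with h0 | h0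
    · subst h0
      have : SS 0 ω p = 0 := by simp [SS, nds]
      simp [ww, this]
    · have hK : (0 : ℝ) < (K : ℝ) ^ 4 := by
        have : (0 : ℝ) < K := by exact_mod_cast h0
        positivity
      have hS := SS_nonneg (K := K) ω p
      have hd : 0 < SS K ω p + ((K : ℝ) ^ 4)⁻¹ := add_pos_of_nonneg_of_pos hS (by positivity)
      unfold ww
      have e7 : (K : ℝ) ^ 4 * SS K ω p * ((K : ℝ) ^ 4)⁻¹ = SS K ω p := by
        rw [mul_right_comm, mul_inv_cancel₀ hK.ne', one_mul]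
      rw [div_le_iff₀ hd, mul_add, e7]
      have : 0 ≤ (K : ℝ) ^ 4 * SS K ω p * SS K ω p := by positivity
      linarith
  calc ∑ a, ww K ω (a :: q) ≤ ∑ a, (K : ℝ) ^ 4 * SS K ω (a :: q) :=
        Finset.sum_le_sum fun a _ => h1 _
    _ = (K : ℝ) ^ 4 * ∑ a, SS K ω (a :: q) := by rw [Finset.mul_sum]
    _ ≤ _ := mul_le_mul_of_nonneg_left (sum_children_SS_le ω q) (by positivity)

end H50RC
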