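import Pool.Agent.H50.RC.Lp
import Pool.Agent.H50.RC.Lm

/-!
S05864 [H50 RC LU]: the unmarked part of `Λ`.
`FU_eq`: for `1 ≤ k = |q| < K`: `FU w q y = -(rp m) dt (I n_{k+1}) (y q - ∑ w(a::q) y(a::q)) - (cc m/N) dt (I n_k) (y q.tail) - (rp m/N) (∑ w(a::q)) dt (I n_{k+1}) (y q)`:
from `dir_succ` (multiplied by `rp m = 1/sin`): `n_k + cc (I n_k) + rp (I n_{k+1}) = 0`, and `rr m y (a :: q) = dt (I n_{k+1}) (y (a::q)) - N⁻¹ dt (I n_{k+1}) (y q)`.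
`unmarked_le`: main part: for `y ∈ Vs`, `y q = ∑ y(a::q)`, so `‖y q - ∑ w y(a::q)‖ ≤ ∑_a (1 - w(a::q)) ‖y(a::q)‖ ≤ ∑_a (1 - w(a::q)) var K y (a::q)`; sum over `q` of level `k`, `1 ≤ k < K`:
`∑_{k=1}^{K-1} ∑_{q' ∈ lev (k+1)} |ω q'.tail| (1 - ww ω q') var K y q' = ∑_{g ∈ lev K} ‖y g‖ ∑_{k=1}^{K-1} |ω g_k| (1 - ww ω g_{k+1}) ≤ 9 nr y` (`path_nodes`, `sum_lev_add`/`sum_below`: a leaf `g` is below exactly one `q'` of level `k+1`).
All nodes of `nds` may be taken (not only the unmarked ones) since the terms are `≥ 0`. Level `K`: `∑ |ω q| ‖y q‖ ≤ 4 nr y`.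
Terms with `1/N`: `∑_q |ω q| |cc| ‖y q.tail‖/N ≤ (rp/N) 4K nr y`; `(rp/N) ∑_q |ω q| (∑_a ww(a::q)) ‖y q‖ ≤ (rp/N) K^4 16K · 4K nr y`; both together `≤ 1/4 nr y` by `bigN` (`|ω| ≤ 4`, `∑ω² ≤ 16K`, level sums `∑|ω| ≤ 4`).
-/

set_option autoImplicit false

namespace H50RC

variable {N K m R : ℕ} {ε : ℝ}

private theorem lu_sin_pos (hm : 2 ≤ m) : 0 < Real.sin (Real.pi / m) := by
  have hm2 : (2 : ℝ) ≤ m := by exact_mod_cast hm
  apply Real.sin_pos_of_pos_of_lt_pi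
  · have := Real.pi_pos
    positivity
  · rw [div_lt_iff₀ (by linarith)]
    have := Real.pi_pos
    nlinarith

private theorem lu_dir (hm : 2 ≤ m) (k : ℕ) (z : ℂ) : dt (dir m k) z =
    -(cc m * dt (Complex.I * dir m k) z) - rp m * dt (Complex.I * dir m (k + 1)) z := by
  have hs := (lu_sin_pos hm).ne'
  have h1 : dt (Complex.I * dir m (k + 1)) z = Real.cos (Real.pi / m) * dt (Complex.I * dir m k) z -
      Real.sin (Real.pi / m) * dt (dir m k) z := by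
    rw [dir_succ, sub_eq_add_neg, dt_add_left, ← neg_smul, dt_smul_left, dt_smul_left]
    ring
  rw [h1]
  unfold cc rp
  field_simp
  ring

theorem FU_eq (hm : 2 ≤ m) (w : Nd N → ℝ) {q : Nd N} (h2 : q.length < K) (y : Y N) :
    FU K m w q y = -(rp m) * dt (Complex.I * dir m (q.length + 1)) (y q - ∑ a, w (a :: q) • y (a :: q)) -
      cc m * ((N : ℝ)⁻¹ * dt (Complex.I * dir m q.length) (y q.tail)) -
      rp m * ((N : ℝ)⁻¹ * (∑ a, w (a :: q)) * dt (Complex.I * dir m (q.length + 1)) (y q)) := by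
  unfold FU
  rw [if_pos h2]
  have h3 : ∑ a, w (a :: q) * rr m y (a :: q) =
      dt (Complex.I * dir m (q.length + 1)) (∑ a, w (a :: q) • y (a :: q)) -
      (N : ℝ)⁻¹ * (∑ a, w (a :: q)) * dt (Complex.I * dir m (q.length + 1)) (y q) := by
    rw [dt_sum_right, mul_assoc, Finset.sum_mul, Finset.mul_sum, ← Finset.sum_sub_distrib]
    refine Finset.sum_congr rfl fun a _ => ?_
    unfold rr
    rw [dt_sub_right, dt_smul_right, dt_smul_right, List.length_cons, List.tail_cons]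
    ring
  rw [h3, lu_dir hm q.length (y q), dt_sub_right]
  unfold rr
  rw [dt_sub_right, dt_smul_right]
  ring

/-- pointwise bound -/
private theorem lu_abs (hm : 2 ≤ m) (hrp : 1 ≤ rp m) (hcc : |cc m| ≤ rp m) {y : Y N} (hy : y ∈ Vs N K)
    (ω : Om N) {q : Nd N} (h2 : q.length < K) :
    |FU K m (ww K ω) q y| ≤ rp m * ∑ a, (1 - ww K ω (a :: q)) * var K y (a :: q) +
      rp m * (N : ℝ)⁻¹ * ‖y q.tail‖ + rp m * (N : ℝ)⁻¹ * (∑ a, ww K ω (a :: q)) * ‖y q‖ := by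
  have hNi : (0 : ℝ) ≤ (N : ℝ)⁻¹ := inv_nonneg.2 (Nat.cast_nonneg N)
  have hrp0 : 0 ≤ rp m := by linarith
  have hdz : ∀ (k : ℕ) (z : ℂ), |dt (Complex.I * dir m k) z| ≤ ‖z‖ := fun k z => by
    refine (abs_dt_le _ _).trans ?_
    rw [norm_I_dir, one_mul]
  rw [FU_eq hm (ww K ω) h2 y]
  have h3 : ‖y q - ∑ a, ww K ω (a :: q) • y (a :: q)‖ ≤ ∑ a, (1 - ww K ω (a :: q)) * var K y (a :: q) := by
    rw [hy q h2, ← Finset.sum_sub_distrib]
    refine (norm_sum_le _ _).trans (Finset.sum_le_sum fun a _ => ?_)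
    have e1 : y (a :: q) - ww K ω (a :: q) • y (a :: q) = (1 - ww K ω (a :: q)) • y (a :: q) := by
      rw [sub_smul, one_smul]
    have h4 : 0 ≤ 1 - ww K ω (a :: q) := by
      have := ww_le_one (K := K) ω (a :: q)
      linarith
    rw [e1, norm_smul, Real.norm_eq_abs, abs_of_nonneg h4]
    exact mul_le_mul_of_nonneg_left (norm_le_var hy (by rw [List.length_cons]; omega)) h4
  have hW : 0 ≤ ∑ a, ww K ω (a :: q) := Finset.sum_nonneg fun a _ => ww_nonneg ω _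
  have h4 : |(-(rp m) * dt (Complex.I * dir m (q.length + 1)) (y q - ∑ a, ww K ω (a :: q) • y (a :: q)))| ≤
      rp m * ∑ a, (1 - ww K ω (a :: q)) * var K y (a :: q) := by
    rw [abs_mul, abs_neg, abs_of_nonneg hrp0]
    exact mul_le_mul_of_nonneg_left ((hdz _ _).trans h3) hrp0
  have h5 : |cc m * ((N : ℝ)⁻¹ * dt (Complex.I * dir m q.length) (y q.tail))| ≤
      rp m * (N : ℝ)⁻¹ * ‖y q.tail‖ := by
    rw [abs_mul, abs_mul, abs_of_nonneg hNi, mul_assoc]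
    exact mul_le_mul hcc (mul_le_mul_of_nonneg_left (hdz _ _) hNi) (by positivity) hrp0
  have h6 : |rp m * ((N : ℝ)⁻¹ * (∑ a, ww K ω (a :: q)) * dt (Complex.I * dir m (q.length + 1)) (y q))| ≤
      rp m * (N : ℝ)⁻¹ * (∑ a, ww K ω (a :: q)) * ‖y q‖ := by
    rw [abs_mul, abs_mul, abs_mul, abs_of_nonneg hNi, abs_of_nonneg hrp0, abs_of_nonneg hW]
    have h7 := mul_le_mul_of_nonneg_left (hdz (q.length + 1) (y q))
      (mul_nonneg hrp0 (mul_nonneg hNi hW))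
    calc rp m * ((N : ℝ)⁻¹ * (∑ a, ww K ω (a :: q)) * |dt (Complex.I * dir m (q.length + 1)) (y q)|)
        = rp m * ((N : ℝ)⁻¹ * (∑ a, ww K ω (a :: q))) * |dt (Complex.I * dir m (q.length + 1)) (y q)| := by
          ring
      _ ≤ rp m * ((N : ℝ)⁻¹ * (∑ a, ww K ω (a :: q))) * ‖y q‖ := h7
      _ = rp m * (N : ℝ)⁻¹ * (∑ a, ww K ω (a :: q)) * ‖y q‖ := by ring
  refine (abs_sub _ _).trans (add_le_add ((abs_sub _ _).trans (add_le_add h4 h5)) h6)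

/-- the main part: one level -/
private theorem lu_level (y : Y N) (ω : Om N) {k : ℕ} (hk1 : 1 ≤ k) (hk : k < K) :
    ∑ q ∈ lev N k, |ω q| * ∑ a, (1 - ww K ω (a :: q)) * var K y (a :: q) =
      ∑ g ∈ lev N K, ‖y g‖ * (|ω (g.drop (K - k))| * (1 - ww K ω (g.drop (K - (k + 1))))) := by
  have h1 : ∑ q ∈ lev N k, |ω q| * ∑ a, (1 - ww K ω (a :: q)) * var K y (a :: q) =
      ∑ q ∈ lev N (k + 1), |ω q.tail| * ((1 - ww K ω q) * var K y q) := by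
    rw [sum_lev_succ]
    refine Finset.sum_congr rfl fun q _ => ?_
    rw [Finset.mul_sum]
    rfl
  have h2 : K = (K - (k + 1)) + (k + 1) := by omega
  rw [h1]
  conv_rhs => rw [show lev N K = lev N ((K - (k + 1)) + (k + 1)) by rw [← h2]]
  rw [sum_lev_add (j := K - (k + 1)) (k := k + 1)]
  refine Finset.sum_congr rfl fun q hq => ?_
  have hql := mem_lev.1 hq
  unfold var
  rw [Finset.mul_sum, Finset.mul_sum, hql]
  refine Finset.sum_congr rfl fun g hg => ?_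
  have hgl := mem_lev.1 hg
  have e1 : (g ++ q).drop (K - (k + 1)) = q := by
    rw [← hgl]
    exact List.drop_left
  have e2 : (g ++ q).drop (K - k) = q.tail := by
    have h3 : K - k = (K - (k + 1)) + 1 := by omega
    rw [h3, ← List.drop_drop, e1, List.drop_one]
  rw [e1, e2]
  ring

theorem unmarked_le (hK : 1 ≤ K) (hm : 2 ≤ m) (hε : 0 < ε) (hε1 : ε ≤ 1) (hN : bigN K R m ε ≤ N)
    {y : Y N} (hy : y ∈ Vs N K) (U : Finset (Nd N)) (hU : U ⊆ nds N K) {ω : Om N} (hω : BB K 4 ω) :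
    ∑ q ∈ U, |ω q| * |FU K m (ww K ω) q y| ≤ (9 * rp m + 5) * nr K y := by
  classical
  have hrp := one_le_rp hm
  have hcc := abs_cc_le hm
  have hrp0 : 0 ≤ rp m := by linarith
  have hn := nr_nonneg (K := K) y
  have hNi : (0 : ℝ) ≤ (N : ℝ)⁻¹ := inv_nonneg.2 (Nat.cast_nonneg N)
  have hω4 : ∀ w ∈ nds N K, |ω w| ≤ 4 := fun w hw => hω.abs_le hw
  have hKr : (1 : ℝ) ≤ K := by exact_mod_cast hK
  have hsq : ∑ w ∈ nds N K, ω w ^ 2 ≤ 16 * K := by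
    have := hω.sq_le
    linarith
  have hsum : ∑ w ∈ nds N K, |ω w| ≤ 4 * K := hω.sum_le
  -- size of N
  have hNbig : rp m * (4 * K + 64 * K ^ 6) ≤ N := by
    refine le_trans ?_ hN
    unfold bigN
    have h1 : (1 : ℝ) ≤ rp m ^ 7 := one_le_pow₀ hrp
    have h2 : (1 : ℝ) ≤ ((R : ℝ) + 1) ^ 4 := one_le_pow₀ (by
      have : (0 : ℝ) ≤ R := Nat.cast_nonneg R
      linarith)
    have h3 : (K : ℝ) ^ 6 ≤ ((K : ℝ) + 1) ^ 40 := by
      calc (K : ℝ) ^ 6 ≤ ((K : ℝ) + 1) ^ 6 := pow_le_pow_left₀ (by linarith) (by linarith) 6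
        _ ≤ ((K : ℝ) + 1) ^ 40 := pow_le_pow_right₀ (by linarith) (by norm_num)
    have h4 : (K : ℝ) ≤ (K : ℝ) ^ 6 := by
      calc (K : ℝ) = (K : ℝ) ^ 1 := (pow_one _).symm
        _ ≤ (K : ℝ) ^ 6 := pow_le_pow_right₀ hKr (by norm_num)
    have hK40 : (0 : ℝ) ≤ ((K : ℝ) + 1) ^ 40 := by positivity
    have h5 : 4 * (K : ℝ) + 64 * (K : ℝ) ^ 6 ≤ 10 ^ 8 * ((K : ℝ) + 1) ^ 40 := by linarith
    have h6 : (1 : ℝ) ≤ rp m ^ 7 * ((R : ℝ) + 1) ^ 4 := one_le_mul_of_one_le_of_one_le h1 h2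
    have hε4 : ε ^ 4 ≤ 1 := pow_le_one₀ hε.le hε1
    have hε4p : 0 < ε ^ 4 := by positivity
    rw [le_div_iff₀ hε4p]
    calc rp m * (4 * K + 64 * K ^ 6) * ε ^ 4 ≤ rp m * (4 * K + 64 * K ^ 6) * 1 :=
          mul_le_mul_of_nonneg_left hε4 (by positivity)
      _ = rp m * (4 * K + 64 * K ^ 6) := mul_one _
      _ ≤ rp m * (10 ^ 8 * ((K : ℝ) + 1) ^ 40) := mul_le_mul_of_nonneg_left h5 hrp0
      _ = rp m * (10 ^ 8 * ((K : ℝ) + 1) ^ 40) * 1 := (mul_one _).symm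
      _ ≤ rp m * (10 ^ 8 * ((K : ℝ) + 1) ^ 40) * (rp m ^ 7 * ((R : ℝ) + 1) ^ 4) :=
          mul_le_mul_of_nonneg_left h6 (by positivity)
      _ = 10 ^ 8 * rp m ^ 8 * ((K : ℝ) + 1) ^ 40 * ((R : ℝ) + 1) ^ 4 := by ring
  have hNpos : (0 : ℝ) < N := by
    refine lt_of_lt_of_le ?_ hNbig
    have : 0 < rp m := by linarith
    positivity
  -- enlarge to all nodes
  have h1 : ∑ q ∈ U, |ω q| * |FU K m (ww K ω) q y| ≤ ∑ q ∈ nds N K, |ω q| * |FU K m (ww K ω) q y| :=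
    Finset.sum_le_sum_of_subset_of_nonneg hU fun q _ _ => mul_nonneg (abs_nonneg _) (abs_nonneg _)
  refine h1.trans ?_
  obtain ⟨K', rfl⟩ : ∃ K', K = K' + 1 := ⟨K - 1, by omega⟩
  rw [sum_nds, Finset.sum_range_succ]
  -- the last level
  have h2 : ∑ w ∈ lev N (K' + 1), |ω w| * |FU (K' + 1) m (ww (K' + 1) ω) w y| ≤ 4 * nr (K' + 1) y := by
    unfold nr
    rw [Finset.mul_sum]
    refine Finset.sum_le_sum fun w hw => ?_
    have hwl := mem_lev.1 hw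
    have h3 : w ∈ nds N (K' + 1) := mem_nds.2 ⟨by
      rintro rfl
      simp at hwl, by omega⟩
    refine mul_le_mul (hω4 w h3) ?_ (abs_nonneg _) (by norm_num)
    unfold FU
    rw [if_neg (by omega)]
    refine (abs_dt_le _ _).trans ?_
    rw [norm_dir, one_mul]
  -- the other levels
  have h3 : ∀ k ∈ Finset.range K', ∑ w ∈ lev N (k + 1), |ω w| * |FU (K' + 1) m (ww (K' + 1) ω) w y| ≤
      rp m * ∑ g ∈ lev N (K' + 1), ‖y g‖ * (|ω (g.drop ((K' + 1) - (k + 1)))| *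
        (1 - ww (K' + 1) ω (g.drop ((K' + 1) - ((k + 1) + 1))))) +
      (∑ w ∈ lev N (k + 1), |ω w|) * (rp m * (N : ℝ)⁻¹ * (1 + 16 * ((K' + 1 : ℕ) : ℝ) ^ 5) *
        nr (K' + 1) y) := by
    intro k hk
    rw [Finset.mem_range] at hk
    rw [← lu_level y ω (by omega) (by omega : k + 1 < K' + 1), Finset.mul_sum, Finset.sum_mul,
      ← Finset.sum_add_distrib]
    refine Finset.sum_le_sum fun q hq => ?_
    have hql := mem_lev.1 hq
    have h4 := lu_abs hm hrp hcc hy ω (q := q) (by omega)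
    have h5 : ‖y q.tail‖ ≤ nr (K' + 1) y := norm_le_nr hy (by rw [List.length_tail]; omega)
    have h6 : ‖y q‖ ≤ nr (K' + 1) y := norm_le_nr hy (by omega)
    have h7 : ∑ a, ww (K' + 1) ω (a :: q) ≤ 16 * ((K' + 1 : ℕ) : ℝ) ^ 5 := by
      refine (sum_children_ww_le ω q).trans ?_
      calc ((K' + 1 : ℕ) : ℝ) ^ 4 * ∑ w ∈ nds N (K' + 1), ω w ^ 2
          ≤ ((K' + 1 : ℕ) : ℝ) ^ 4 * (16 * ((K' + 1 : ℕ) : ℝ)) :=
            mul_le_mul_of_nonneg_left hsq (by positivity)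
        _ = 16 * ((K' + 1 : ℕ) : ℝ) ^ 5 := by ring
    have hc0 : 0 ≤ rp m * (N : ℝ)⁻¹ := mul_nonneg hrp0 hNi
    have h8 : rp m * (N : ℝ)⁻¹ * ‖y q.tail‖ + rp m * (N : ℝ)⁻¹ * (∑ a, ww (K' + 1) ω (a :: q)) * ‖y q‖ ≤
        rp m * (N : ℝ)⁻¹ * (1 + 16 * ((K' + 1 : ℕ) : ℝ) ^ 5) * nr (K' + 1) y := by
      have h9 : rp m * (N : ℝ)⁻¹ * ‖y q.tail‖ ≤ rp m * (N : ℝ)⁻¹ * nr (K' + 1) y :=
        mul_le_mul_of_nonneg_left h5 hc0
      have h10 : rp m * (N : ℝ)⁻¹ * (∑ a, ww (K' + 1) ω (a :: q)) * ‖y q‖ ≤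
          rp m * (N : ℝ)⁻¹ * (16 * ((K' + 1 : ℕ) : ℝ) ^ 5) * nr (K' + 1) y :=
        mul_le_mul (mul_le_mul_of_nonneg_left h7 hc0) h6 (norm_nonneg _) (by positivity)
      calc _ ≤ rp m * (N : ℝ)⁻¹ * nr (K' + 1) y +
            rp m * (N : ℝ)⁻¹ * (16 * ((K' + 1 : ℕ) : ℝ) ^ 5) * nr (K' + 1) y := add_le_add h9 h10
        _ = _ := by ring
    calc |ω q| * |FU (K' + 1) m (ww (K' + 1) ω) q y|
        ≤ |ω q| * (rp m * ∑ a, (1 - ww (K' + 1) ω (a :: q)) * var (K' + 1) y (a :: q) +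
          rp m * (N : ℝ)⁻¹ * (1 + 16 * ((K' + 1 : ℕ) : ℝ) ^ 5) * nr (K' + 1) y) := by
          refine mul_le_mul_of_nonneg_left (h4.trans ?_) (abs_nonneg _)
          rw [add_assoc]
          exact add_le_add le_rfl h8
      _ = _ := by ring
  have h4 := Finset.sum_le_sum h3
  rw [Finset.sum_add_distrib, ← Finset.mul_sum, ← Finset.sum_mul] at h4
  -- main part
  have h5 : ∑ k ∈ Finset.range K', ∑ g ∈ lev N (K' + 1), ‖y g‖ * (|ω (g.drop ((K' + 1) - (k + 1)))| *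
        (1 - ww (K' + 1) ω (g.drop ((K' + 1) - ((k + 1) + 1))))) ≤ 9 * nr (K' + 1) y := by
    rw [Finset.sum_comm]
    unfold nr
    rw [Finset.mul_sum]
    refine Finset.sum_le_sum fun g hg => ?_
    rw [← Finset.mul_sum, mul_comm (9 : ℝ)]
    refine mul_le_mul_of_nonneg_left ?_ (norm_nonneg _)
    have h6 := path_nodes hK hω4 hg
    rw [Finset.sum_Ico_eq_sum_range] at h6
    have e1 : K' + 1 - 1 = K' := by omega
    rw [e1] at h6
    refine le_trans (le_of_eq ?_) h6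
    refine Finset.sum_congr rfl fun k _ => ?_
    rw [add_comm 1 k]
  -- the terms with 1/N
  have h6 : (∑ k ∈ Finset.range K', ∑ w ∈ lev N (k + 1), |ω w|) ≤ 4 * ((K' + 1 : ℕ) : ℝ) := by
    refine le_trans ?_ hsum
    rw [sum_nds, Finset.sum_range_succ]
    have : 0 ≤ ∑ w ∈ lev N (K' + 1), |ω w| := Finset.sum_nonneg fun _ _ => abs_nonneg _
    linarith
  have h7 : (∑ k ∈ Finset.range K', ∑ w ∈ lev N (k + 1), |ω w|) *
      (rp m * (N : ℝ)⁻¹ * (1 + 16 * ((K' + 1 : ℕ) : ℝ) ^ 5) * nr (K' + 1) y) ≤ nr (K' + 1) y := by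
    have h8 : 0 ≤ rp m * (N : ℝ)⁻¹ * (1 + 16 * ((K' + 1 : ℕ) : ℝ) ^ 5) * nr (K' + 1) y := by positivity
    refine (mul_le_mul_of_nonneg_right h6 h8).trans ?_
    have e1 : 4 * ((K' + 1 : ℕ) : ℝ) * (rp m * (N : ℝ)⁻¹ * (1 + 16 * ((K' + 1 : ℕ) : ℝ) ^ 5) * nr (K' + 1) y) =
        (rp m * (4 * ((K' + 1 : ℕ) : ℝ) + 64 * ((K' + 1 : ℕ) : ℝ) ^ 6)) / N * nr (K' + 1) y := by
      rw [div_eq_mul_inv]
      ring
    rw [e1]
    exact mul_le_of_le_one_left hn ((div_le_one hNpos).2 hNbig)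
  have h8 := mul_le_mul_of_nonneg_left h5 hrp0
  calc _ ≤ rp m * (9 * nr (K' + 1) y) + nr (K' + 1) y + 4 * nr (K' + 1) y := by
        refine add_le_add (h4.trans (add_le_add h8 h7)) h2
    _ = _ := by ring

end H50RC
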