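import Pool.Agent.H50.RC.Lam

/-!
S05864 [H50 RC LZ]: the masses `zz M y q` leaving the marks.
`norm_zz_le`: `y q = ∑ a, y (a :: q)`, so `zz M y q = ∑ a, if (a :: q) ∈ M then 0 else y (a :: q)`, `‖y (a :: q)‖ ≤ var` (`norm_le_var`), `var_children`.
`sum_zz_cons`: induction on `j` from `j = p.length` (then the first sum is empty and the second is `y p`, the only `q` with `p <:+ q`, same length, is `p`):
the nodes `q ∈ M` of level `j + 1` below `p` are the children `a :: q'` in `M` of the nodes `q' ∈ M` of level `j` below `p` (parent-closed; `p <:+ a :: q'` iff `p = a :: q'` or `p <:+ q'`),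
and `zz M y q' + ∑_a [a :: q' ∈ M] y (a :: q') = y q'`.
`sum_zz_norm_le`: the same induction with `norm_zz_le`: `∑_{q ∈ M, p <:+ q, |q| < j} ‖zz‖ + ∑_{q ∈ M, p <:+ q, |q| = j} var K y q ≤ var K y p`.
-/

set_option autoImplicit false

namespace H50RC

variable {N K : ℕ}

theorem zz_add (M : Finset (Nd N)) (y z : Y N) (q : Nd N) : zz M (y + z) q = zz M y q + zz M z q := by
  unfold zz
  have h : ∑ a, (if (a :: q) ∈ M then (y + z) (a :: q) else 0) =
      ∑ a, (if (a :: q) ∈ M then y (a :: q) else 0) + ∑ a, (if (a :: q) ∈ M then z (a :: q) else 0) := by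
    rw [← Finset.sum_add_distrib]
    refine Finset.sum_congr rfl fun a _ => ?_
    split_ifs
    · rfl
    · rw [add_zero]
  rw [h, Pi.add_apply]
  ring

theorem zz_sub (M : Finset (Nd N)) (y z : Y N) (q : Nd N) : zz M (y - z) q = zz M y q - zz M z q := by
  unfold zz
  have h : ∑ a, (if (a :: q) ∈ M then (y - z) (a :: q) else 0) =
      ∑ a, (if (a :: q) ∈ M then y (a :: q) else 0) - ∑ a, (if (a :: q) ∈ M then z (a :: q) else 0) := by
    rw [← Finset.sum_sub_distrib]
    refine Finset.sum_congr rfl fun a _ => ?_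
    split_ifs
    · rfl
    · rw [sub_zero]
  rw [h, Pi.sub_apply]
  ring

theorem zz_smul (M : Finset (Nd N)) (c : ℝ) (y : Y N) (q : Nd N) : zz M (c • y) q = c • zz M y q := by
  unfold zz
  have h : ∑ a, (if (a :: q) ∈ M then (c • y) (a :: q) else 0) =
      c • ∑ a, (if (a :: q) ∈ M then y (a :: q) else 0) := by
    rw [Finset.smul_sum]
    refine Finset.sum_congr rfl fun a _ => ?_
    split_ifs
    · rfl
    · rw [smul_zero]
  rw [h, Pi.smul_apply, smul_sub]

theorem zz_sum (M : Finset (Nd N)) {ι : Type} (s : Finset ι) (f : ι → Y N) (q : Nd N) :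
    zz M (∑ i ∈ s, f i) q = ∑ i ∈ s, zz M (f i) q := by
  classical
  induction s using Finset.induction_on with
  | empty =>
    rw [Finset.sum_empty, Finset.sum_empty]
    simp [zz]
  | insert a s ha ih => rw [Finset.sum_insert ha, Finset.sum_insert ha, zz_add, ih]

theorem norm_zz_le {y : Y N} (hy : y ∈ Vs N K) (M : Finset (Nd N)) {q : Nd N} (hq : q.length < K) :
    ‖zz M y q‖ ≤ var K y q - ∑ a, if (a :: q) ∈ M then var K y (a :: q) else 0 := by
  have h1 : zz M y q = ∑ a, if (a :: q) ∈ M then 0 else y (a :: q) := by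
    unfold zz
    rw [hy q hq, ← Finset.sum_sub_distrib]
    refine Finset.sum_congr rfl fun a _ => ?_
    split_ifs
    · rw [sub_self]
    · rw [sub_zero]
  rw [h1, var_children y hq, ← Finset.sum_sub_distrib]
  refine (norm_sum_le _ _).trans (Finset.sum_le_sum fun a _ => ?_)
  split_ifs
  · rw [norm_zero, sub_self]
  · rw [sub_zero]
    exact norm_le_var hy (by rw [List.length_cons]; omega)

/-- regrouping of the children in `M` -/
private theorem lz_key {E : Type} [AddCommMonoid E] (M : Finset (Nd N)) (hM : PC M) {p : Nd N} {j : ℕ}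
    (h1 : p.length ≤ j) (f : Nd N → E) :
    ∑ q ∈ M.filter (fun q => p <:+ q ∧ q.length = j), ∑ a, (if (a :: q) ∈ M then f (a :: q) else 0) =
      ∑ q ∈ M.filter (fun q => p <:+ q ∧ q.length = j + 1), f q := by
  classical
  rw [← Finset.sum_fiberwise_of_maps_to (s := M.filter (fun q => p <:+ q ∧ q.length = j + 1))
    (t := M.filter (fun q => p <:+ q ∧ q.length = j)) (g := fun q => q.tail) (fun q hq => ?_) f]
  · refine Finset.sum_congr rfl fun q hq => ?_
    rw [Finset.mem_filter] at hq
    obtain ⟨hqM, hpq, hql⟩ := hq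
    rw [← Finset.sum_filter]
    have h2 : (M.filter (fun q => p <:+ q ∧ q.length = j + 1)).filter (fun x => x.tail = q) =
        (Finset.univ.filter (fun a => (a :: q) ∈ M)).image (fun a => a :: q) := by
      ext x
      simp only [Finset.mem_filter, Finset.mem_image, Finset.mem_univ, true_and]
      constructor
      · rintro ⟨⟨hx, hpx, hxl⟩, hxt⟩
        cases x with
        | nil => simp at hxl
        | cons b x' =>
          rw [List.tail_cons] at hxt
          subst hxt
          exact ⟨b, hx, rfl⟩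
      · rintro ⟨a, ha, rfl⟩
        refine ⟨⟨ha, hpq.trans (List.suffix_cons a q), ?_⟩, rfl⟩
        rw [List.length_cons, hql]
    rw [h2, Finset.sum_image]
    intro a _ b _ hab
    simpa using hab
  · rw [Finset.mem_filter] at hq ⊢
    obtain ⟨hqM, hpq, hql⟩ := hq
    cases q with
    | nil => simp at hql
    | cons b q' =>
      rw [List.length_cons] at hql
      refine ⟨hM.2 _ hqM, ?_, ?_⟩
      · rw [List.tail_cons]
        rcases List.suffix_cons_iff.1 hpq with h | h
        · rw [h, List.length_cons] at h1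
          omega
        · exact h
      · rw [List.tail_cons]
        omega

private theorem lz_split {E : Type} [AddCommMonoid E] (M : Finset (Nd N)) (p : Nd N) (j : ℕ) (f : Nd N → E) :
    ∑ q ∈ M.filter (fun q => p <:+ q ∧ q.length < j + 1), f q =
      ∑ q ∈ M.filter (fun q => p <:+ q ∧ q.length < j), f q +
      ∑ q ∈ M.filter (fun q => p <:+ q ∧ q.length = j), f q := by
  classical
  rw [← Finset.sum_union]
  · refine Finset.sum_congr ?_ fun _ _ => rfl
    ext q
    simp only [Finset.mem_filter, Finset.mem_union]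
    constructor
    · rintro ⟨h1, h2, h3⟩
      rcases Nat.lt_or_ge q.length j with h | h
      · exact Or.inl ⟨h1, h2, h⟩
      · exact Or.inr ⟨h1, h2, by omega⟩
    · rintro (⟨h1, h2, h3⟩ | ⟨h1, h2, h3⟩)
      · exact ⟨h1, h2, by omega⟩
      · exact ⟨h1, h2, by omega⟩
  · rw [Finset.disjoint_left]
    intro q h1 h2
    rw [Finset.mem_filter] at h1 h2
    omega

private theorem lz_base1 (M : Finset (Nd N)) (p : Nd N) :
    M.filter (fun q => p <:+ q ∧ q.length < p.length) = ∅ := by
  rw [Finset.filter_eq_empty_iff]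
  rintro q _ ⟨h1, h2⟩
  have := h1.length_le
  omega

private theorem lz_base2 (M : Finset (Nd N)) {p : Nd N} (hp : p ∈ M) :
    M.filter (fun q => p <:+ q ∧ q.length = p.length) = {p} := by
  ext q
  rw [Finset.mem_filter, Finset.mem_singleton]
  constructor
  · rintro ⟨_, h1, h2⟩
    exact (h1.eq_of_length h2.symm).symm
  · rintro rfl
    exact ⟨hp, List.suffix_refl _, rfl⟩

theorem sum_zz_cons {y : Y N} (M : Finset (Nd N)) (hM : PC M) {p : Nd N} (hp : p ∈ M) {j : ℕ}
    (h1 : p.length ≤ j) :
    ∑ q ∈ M.filter (fun q => p <:+ q ∧ q.length < j), zz M y q +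
      ∑ q ∈ M.filter (fun q => p <:+ q ∧ q.length = j), y q = y p := by
  induction j, h1 using Nat.le_induction with
  | base => rw [lz_base1, lz_base2 M hp, Finset.sum_empty, Finset.sum_singleton, zero_add]
  | succ j hj ih =>
    rw [lz_split, ← lz_key M hM hj, add_assoc, ← Finset.sum_add_distrib]
    rw [← ih]
    congr 1
    refine Finset.sum_congr rfl fun q _ => ?_
    unfold zz
    rw [sub_add_cancel]

private theorem lz_var {y : Y N} (hy : y ∈ Vs N K) (M : Finset (Nd N)) (hM : PC M) {p : Nd N} (hp : p ∈ M)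
    {j : ℕ} (h1 : p.length ≤ j) (h2 : j ≤ K) :
    ∑ q ∈ M.filter (fun q => p <:+ q ∧ q.length < j), ‖zz M y q‖ +
      ∑ q ∈ M.filter (fun q => p <:+ q ∧ q.length = j), var K y q ≤ var K y p := by
  induction j, h1 using Nat.le_induction with
  | base => rw [lz_base1, lz_base2 M hp, Finset.sum_empty, Finset.sum_singleton, zero_add]
  | succ j hj ih =>
    refine le_trans ?_ (ih (by omega))
    rw [lz_split, ← lz_key M hM hj, add_assoc, ← Finset.sum_add_distrib]
    refine add_le_add le_rfl (Finset.sum_le_sum fun q hq => ?_)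
    rw [Finset.mem_filter] at hq
    have h3 := norm_zz_le hy M (q := q) (by omega)
    linarith

theorem sum_zz_norm_le {y : Y N} (hy : y ∈ Vs N K) (M : Finset (Nd N)) (hM : PC M) {p : Nd N} (hp : p ∈ M) {j : ℕ}
    (h1 : p.length ≤ j) (h2 : j ≤ K) :
    ∑ q ∈ M.filter (fun q => p <:+ q ∧ q.length < j), ‖zz M y q‖ +
      ∑ q ∈ M.filter (fun q => p <:+ q ∧ q.length = j), ‖y q‖ ≤ var K y p := by
  refine le_trans (add_le_add le_rfl (Finset.sum_le_sum fun q hq => ?_)) (lz_var hy M hM hp h1 h2)
  rw [Finset.mem_filter] at hq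
  exact norm_le_var hy (by omega)

/-- the case `p = []` -/
theorem sum_zz_norm_le_nr {y : Y N} (hy : y ∈ Vs N K) (M : Finset (Nd N)) (hM : PC M) {j : ℕ} (h2 : j ≤ K) :
    ∑ q ∈ M.filter (fun q => q.length < j), ‖zz M y q‖ +
      ∑ q ∈ M.filter (fun q => q.length = j), ‖y q‖ ≤ nr K y := by
  have h := sum_zz_norm_le hy M hM hM.1 (j := j) (Nat.zero_le _) h2
  rw [var_nil] at h
  simpa only [List.nil_suffix, true_and] using h

/-- summed over the marked nodes `p` of level `k`: -/
theorem sum_lev_zz_norm_le {y : Y N} (hy : y ∈ Vs N K) (M : Finset (Nd N)) (hM : PC M) {k j : ℕ}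
    (h1 : k ≤ j) (h2 : j ≤ K) :
    ∑ p ∈ M.filter (fun p => p.length = k), (∑ q ∈ M.filter (fun q => p <:+ q ∧ q.length < j), ‖zz M y q‖ +
      ∑ q ∈ M.filter (fun q => p <:+ q ∧ q.length = j), ‖y q‖) ≤ nr K y := by
  calc ∑ p ∈ M.filter (fun p => p.length = k), (∑ q ∈ M.filter (fun q => p <:+ q ∧ q.length < j), ‖zz M y q‖ +
      ∑ q ∈ M.filter (fun q => p <:+ q ∧ q.length = j), ‖y q‖)
      ≤ ∑ p ∈ M.filter (fun p => p.length = k), var K y p := by
        refine Finset.sum_le_sum fun p hp => ?_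
        rw [Finset.mem_filter] at hp
        exact sum_zz_norm_le hy M hM hp.1 (by omega) h2
    _ ≤ ∑ p ∈ lev N k, var K y p := by
        refine Finset.sum_le_sum_of_subset_of_nonneg (fun p hp => ?_) fun p _ _ => var_nonneg y p
        rw [Finset.mem_filter] at hp
        exact mem_lev.2 hp.2
    _ = nr K y := sum_var_lev y (h1.trans h2)

end H50RC
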