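import Pool.Agent.H50.RC.EF

/-!
S05864: the Cantor set `cA` is uncountable.
-/

set_option autoImplicit false

namespace H50RC

theorem aa_pos (i : ℕ) : 0 < aa i := by
  unfold aa
  positivity

theorem aa_succ (i : ℕ) : aa (i + 1) = aa i * (2 : ℝ)⁻¹ ^ (i + 1) := by
  unfold aa
  rw [← pow_add]
  congr 1
  have h1 : (i + 1) * (i + 1 + 1) = i * (i + 1) + (i + 1) * 2 := by ring
  rw [h1, Nat.add_mul_div_right _ _ (by norm_num)]

theorem aa_le (n j : ℕ) : aa (n + 1 + j) ≤ aa (n + 1) * (1 / 4 : ℝ) ^ j := by
  induction j with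
  | zero => simp
  | succ j ih =>
    have h1 : aa (n + 1 + (j + 1)) = aa (n + 1 + j) * (2 : ℝ)⁻¹ ^ (n + 1 + j + 1) := by
      rw [← add_assoc, aa_succ]
    rw [h1, pow_succ (1 / 4 : ℝ) j, ← mul_assoc]
    have h2 : (2 : ℝ)⁻¹ ^ (n + 1 + j + 1) ≤ 1 / 4 := by
      have : (2 : ℝ)⁻¹ ^ (n + 1 + j + 1) ≤ (2 : ℝ)⁻¹ ^ 2 :=
        pow_le_pow_of_le_one (by norm_num) (by norm_num) (by omega)
      refine this.trans (by norm_num)
    exact mul_le_mul ih h2 (by positivity) (mul_nonneg (aa_pos _).le (by positivity))

theorem aa_summable : Summable fun i => aa (i + 1) := by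
  have h : Summable fun i : ℕ => aa 1 * (1 / 4 : ℝ) ^ i :=
    (summable_geometric_of_lt_one (by norm_num) (by norm_num)).mul_left _
  refine Summable.of_nonneg_of_le (fun i => (aa_pos _).le) (fun i => ?_) h
  have := aa_le 0 i
  simpa [add_comm] using this

/-- the point of `cA` with the digits `e` -/
noncomputable def cpt (e : ℕ → Bool) : ℝ := ∑' i, if e i then aa (i + 1) else 0

theorem cpt_summable (e : ℕ → Bool) : Summable fun i => if e i then aa (i + 1) else 0 := by
  refine Summable.of_nonneg_of_le (fun i => ?_) (fun i => ?_) aa_summable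
  · split_ifs
    · exact (aa_pos _).le
    · exact le_rfl
  · split_ifs
    · exact le_rfl
    · exact (aa_pos _).le

theorem cpt_lt (e e' : ℕ → Bool) (n : ℕ) (h : ∀ i < n, e i = e' i) (h1 : e n = true) (h2 : e' n = false) :
    cpt e' < cpt e := by
  have a1 := (cpt_summable e).sum_add_tsum_nat_add (n + 1)
  have a2 := (cpt_summable e').sum_add_tsum_nat_add (n + 1)
  have b1 : 0 ≤ ∑' i, (if e (i + (n + 1)) then aa (i + (n + 1) + 1) else 0) := by
    refine tsum_nonneg fun i => ?_
    split_ifs
    · exact (aa_pos _).le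
    · exact le_rfl
  have hg : Summable fun i : ℕ => aa (n + 1) * (1 / 4 : ℝ) ^ (i + 1) := by
    have : Summable fun i : ℕ => (aa (n + 1) * (1 / 4 : ℝ)) * (1 / 4 : ℝ) ^ i :=
      (summable_geometric_of_lt_one (by norm_num) (by norm_num)).mul_left _
    refine this.congr fun i => ?_
    rw [pow_succ]
    ring
  have hs : Summable fun i => (if e' (i + (n + 1)) then aa (i + (n + 1) + 1) else 0) :=
    (summable_nat_add_iff (f := fun i => if e' i then aa (i + 1) else 0) (n + 1)).2 (cpt_summable e')
  have b2 : ∑' i, (if e' (i + (n + 1)) then aa (i + (n + 1) + 1) else 0) ≤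
      ∑' i : ℕ, aa (n + 1) * (1 / 4 : ℝ) ^ (i + 1) := by
    refine Summable.tsum_le_tsum (fun i => ?_) hs hg
    have h5 := aa_le n (i + 1)
    have h6 : n + 1 + (i + 1) = i + (n + 1) + 1 := by ring
    rw [h6] at h5
    split_ifs
    · exact h5
    · exact mul_nonneg (aa_pos _).le (by positivity)
  have b3 : ∑' i : ℕ, aa (n + 1) * (1 / 4 : ℝ) ^ (i + 1) = aa (n + 1) * (1 / 3) := by
    have : (fun i : ℕ => aa (n + 1) * (1 / 4 : ℝ) ^ (i + 1)) =
        fun i : ℕ => (aa (n + 1) * (1 / 4 : ℝ)) * (1 / 4 : ℝ) ^ i := by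
      funext i
      rw [pow_succ]
      ring
    rw [this, tsum_mul_left, tsum_geometric_of_lt_one (by norm_num) (by norm_num)]
    ring
  rw [Finset.sum_range_succ] at a1 a2
  have c1 : ∑ i ∈ Finset.range n, (if e i then aa (i + 1) else 0) =
      ∑ i ∈ Finset.range n, (if e' i then aa (i + 1) else 0) := by
    refine Finset.sum_congr rfl fun i hi => ?_
    rw [h i (Finset.mem_range.1 hi)]
  rw [h1, c1] at a1
  rw [h2] at a2
  simp only [if_true] at a1
  have hp := aa_pos (n + 1)
  unfold cpt
  simp only [Bool.false_eq_true, if_false] at a2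
  linarith

theorem cpt_injective : Function.Injective cpt := by
  intro e e' hee
  by_contra hne
  have hex : ∃ n, e n ≠ e' n := by
    by_contra h
    push Not at h
    exact hne (funext h)
  classical
  have h1 := Nat.find_spec hex
  have h2 : ∀ i < Nat.find hex, e i = e' i := fun i hi => by
    have := Nat.find_min hex hi
    simpa using this
  rcases hb : e (Nat.find hex) with _ | _
  · have hb' : e' (Nat.find hex) = true := by
      rw [hb] at h1
      cases h3 : e' (Nat.find hex) with
      | false => exact absurd h3.symm h1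
      | true => rfl
    have := cpt_lt e' e _ (fun i hi => (h2 i hi).symm) hb' hb
    rw [hee] at this
    exact lt_irrefl _ this
  · have hb' : e' (Nat.find hex) = false := by
      rw [hb] at h1
      cases h3 : e' (Nat.find hex) with
      | false => rfl
      | true => exact absurd h3.symm h1
    have := cpt_lt e e' _ h2 hb hb'
    rw [hee] at this
    exact lt_irrefl _ this

/-- the Cantor set is uncountable -/
theorem cA_unc : ¬ cA.Countable := by
  intro h
  have h1 : (Set.range cpt).Countable := by
    refine h.mono ?_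
    rintro t ⟨e, rfl⟩
    exact ⟨e, rfl⟩
  have h2 : Countable (ℕ → Bool) := by
    have : Countable (Set.range cpt) := h1.to_subtype
    exact Function.Injective.countable (f := fun e => (⟨cpt e, e, rfl⟩ : Set.range cpt))
      (fun a b hab => cpt_injective (congrArg Subtype.val hab))
  obtain ⟨f, hf⟩ := exists_surjective_nat (ℕ → Bool)
  obtain ⟨n, hn⟩ := hf fun n => !(f n n)
  have h3 := congrFun hn n
  simp at h3

end H50RC
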