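import Pool.Agent.H50.RC.Core
import Pool.Agent.H80.RC.Mst
import Pool.Agent.H63.LE.Emb
import Pool.Agent.H46.RF.Red
import Pool.Agent.H50.RC.Unc2
import Pool.Agent.H50.RC.Conv
import Pool.Agent.H50.LP.Fin1
import Pool.Agent.H50.LP.NotIso
import Pool.Agent.H50.LP.Unc
import Pool.Agent.H50.LP.Lip0

/-!
S05864: assembly from the three blocks.
-/

set_option autoImplicit false

namespace H50RC

open H50LP

/-- E: embedding -/
theorem embMain (N K m : ℕ) (hN : 4 ≤ N) : EmbStatement N K m :=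
  H63LE.embMain' N K m hN

/-- F: reduction -/
theorem redMain : ∃ CF : ℝ, 0 ≤ CF ∧ RedStatement CF :=
  H46RF.red_main

/-- C: core -/
theorem coreMain (κ : ℝ) (hκ : 0 < κ) : ∃ m : ℕ, 1 ≤ m ∧ ∃ C1 : ℝ, ∃ K0 : ℕ, ∀ K, K0 ≤ K → ∃ N : ℕ, 4 ≤ N ∧
    CoreStatement N K m (κ * K) ∧ PairStatement N K m C1 :=
  core_final mainStatement κ hκ

theorem not_iso_plane : ¬ Iso (LX cA cA0) (LX Set.univ o1) := by
  rintro ⟨T, C, hT, hT'⟩
  obtain ⟨CF, hCF, hF⟩ := redMain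
  set C' : ℝ := max C 0 with hC'
  have hC0 : 0 ≤ C' := le_max_right _ _
  -- κ with 12 C'^2 CF κ ≤ 1/8
  obtain ⟨κ, hκ, hκ'⟩ : ∃ κ : ℝ, 0 < κ ∧ (6 * C') * (C' * 2) * CF * κ ≤ 1 / 8 := by
    refine ⟨1 / (8 * ((6 * C') * (C' * 2) * CF + 1)), by positivity, ?_⟩
    rw [mul_one_div, div_le_div_iff₀ (by positivity) (by norm_num)]
    nlinarith [mul_nonneg (mul_nonneg hC0 hC0) hCF]
  obtain ⟨m, hm, C1, K0, h⟩ := coreMain κ hκ
  obtain ⟨K1, hK1⟩ := exists_nat_gt (8 * ((6 * C') * (C' * 2) * CF * |C1|) + 1)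
  obtain ⟨N, hN, hcore, hpair⟩ := h (max K0 K1) (le_max_left _ _)
  set K := max K0 K1 with hK
  obtain ⟨j, π, h1, h2, h3, h4⟩ := embMain N K m hN
  have hb : ∀ F ∈ Xs N K m, ∀ c : ℝ, 0 ≤ c → (∀ g ∈ lev N K, ‖F g‖ ≤ c) →
      lipB ((C' * 2) * c) (((T.symm : LX Set.univ o1 →ₗ[ℝ] LX cA cA0).comp j) F).1 := by
    intro F hF c hc h5
    have h6 : bd (C * (2 * c)) (T.symm (j F)) := hT' (2 * c) (j F) (h2 F hF c hc h5)
    have h7 : lipB (C * (2 * c)) (T.symm (j F)).1 := h6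
    refine h7.mono ?_
    rw [mul_assoc]
    exact mul_le_mul_of_nonneg_right (le_max_left _ _) (by positivity)
  have ha : ∀ (f : LX cA cA0) (c : ℝ), lipB c f.1 → ∀ g ∈ lev N K,
      ‖((π.comp (T : LX cA cA0 →ₗ[ℝ] LX Set.univ o1)) f) g‖ ≤ (6 * C') * c := by
    intro f c hf g hg
    have h6 : bd (C * c) (T f) := hT c f hf
    have h7 := h3 (T f) (C * c) h6 g hg
    refine h7.trans ?_
    rw [mul_assoc]
    exact mul_le_mul_of_nonneg_left (mul_le_mul_of_nonneg_right (le_max_left _ _) hf.1) (by norm_num)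
  have h8 := hF N K m (κ * K) C1 (by omega) hm hcore hpair
    ((T.symm : LX Set.univ o1 →ₗ[ℝ] LX cA cA0).comp j) (π.comp (T : LX cA cA0 →ₗ[ℝ] LX Set.univ o1))
    (6 * C') (C' * 2) (by positivity) (by positivity) (fun f => h1 _) hb ha
  have h9 : (fun y : Y N => (π.comp (T : LX cA cA0 →ₗ[ℝ] LX Set.univ o1))
      (((T.symm : LX Set.univ o1 →ₗ[ℝ] LX cA cA0).comp j) y)) = fun y => π (j y) := by
    funext y
    simp
  rw [h9] at h8
  have h10 := (le_abs_self _).trans h8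
  have h11 := h4.trans h10
  have h12 : (6 * C') * (C' * 2) * CF * (κ * K + C1) ≤ 1 / 8 * K + (6 * C') * (C' * 2) * CF * |C1| := by
    have e1 : (6 * C') * (C' * 2) * CF * (κ * K) ≤ 1 / 8 * K := by
      have := mul_le_mul_of_nonneg_right hκ' (Nat.cast_nonneg (α := ℝ) K)
      linarith
    have e2 : (6 * C') * (C' * 2) * CF * C1 ≤ (6 * C') * (C' * 2) * CF * |C1| :=
      mul_le_mul_of_nonneg_left (le_abs_self _) (by positivity)
    linarith
  have h13 : (K1 : ℝ) ≤ K := by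
    rw [hK]
    exact_mod_cast le_max_right K0 K1
  linarith

/-- the two alternatives fail for `strip cA` -/
theorem not_lipIso_plane (p : strip cA) : ¬ LipIso (strip cA) (EuclideanSpace ℝ (Fin 2)) p 0 := by
  intro h
  exact not_iso_plane ((iso_strip cA p cA0).symm.trans (((lipIso_iff _ _ _ _).1 h).trans iso_plane))

theorem not_lipIso_line (p : strip cA) : ¬ LipIso (strip cA) ℝ p 0 := by
  intro h
  have h2 : Iso (LX cA cA0) Ell :=
    (iso_strip cA p cA0).symm.trans (((lipIso_iff _ _ _ _).1 h).trans (iso_line.trans iso_L1_ell))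
  obtain ⟨C, -, hC⟩ := h2.cpl
  exact not_cpl cA cA0 (fun K => fat_of_uncountable K cA cA_unc) C hC

end H50RC
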