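import Pool.Agent.H50.RC.Lf

/-!
S05864: processes with marks: definitions (PART C2 of proofs 322). A state is the history of the marks (most recent
first: the marked node and the function `y` at the moment of marking) together with the core set.
-/

set_option autoImplicit false

namespace H50RC

/-- history of the marks -/
abbrev St (N : ℕ) := List (Nd N × Y N)

/-- the set of the marked nodes -/
def St.M {N : ℕ} : St N → Finset (Nd N)
  | [] => {[]}
  | x :: σ => insert x.1 (St.M σ)

/-- the stored vectors -/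
def St.v {N : ℕ} : St N → Nd N → ℂ
  | [] => fun _ => 0
  | x :: σ => fun p => if p = x.1 then x.2 x.1 else St.v σ p

/-- add the mark `q` (only if its parent is marked and `q` is not) -/
def St.add {N : ℕ} (σ : St N) (y : Y N) (q : Nd N) : St N :=
  if q ∈ σ.M ∨ q.tail ∉ σ.M then σ else (q, y) :: σ

/-- add the marks of a list one after the other -/
def St.adds {N : ℕ} (σ : St N) (y : Y N) (l : List (Nd N)) : St N := l.foldl (fun s q => s.add y q) σ

/-- all ancestors of the nodes of `c`, ancestors first -/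
noncomputable def clo {N : ℕ} (c : Finset (Nd N)) : List (Nd N) := c.toList.flatMap fun q => q.tails.reverse

/-- states -/
structure S (N : ℕ) where
  /-- history -/
  σ : St N
  /-- core set -/
  core : Finset (Nd N)

/-- the initial state -/
def S.init (N : ℕ) : S N := ⟨[], ∅⟩

/-- extend the core set by `a`; if it has at most `R0` elements then all ancestors are marked -/
noncomputable def S.note {N : ℕ} (R0 : ℕ) (s : S N) (y : Y N) (a : Finset (Nd N)) : S N :=
  ⟨if (s.core ∪ a).card ≤ R0 then s.σ.adds y (clo (s.core ∪ a)) else s.σ, s.core ∪ a⟩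

/-- processes: finite trees with jumps and notes -/
inductive PT (N : ℕ) : Type 1
  | nil : PT N
  | note (a : Finset (Nd N)) (t : PT N) : PT N
  | jump (ι : Type) (hι : Fintype ι) (p : ι → ℝ) (y : ι → Y N) (t : ι → PT N) : PT N

/-- expectation of a function of the final state -/
noncomputable def PT.EX {N : ℕ} (R0 : ℕ) (f : S N → Y N → ℝ) : PT N → S N → Y N → ℝ
  | .nil, s, y => f s y
  | .note a t, s, y => t.EX R0 f (s.note R0 y a) y
  | .jump _ _ p y' t, s, _ => ∑ i, p i * (t i).EX R0 f s (y' i)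

/-- expectation of the sum over the jumps -/
noncomputable def PT.ES {N : ℕ} (R0 : ℕ) (e : S N → Y N → Y N → ℝ) : PT N → S N → Y N → ℝ
  | .nil, _, _ => 0
  | .note a t, s, y => t.ES R0 e (s.note R0 y a) y
  | .jump _ _ p y' t, s, y => ∑ i, p i * (e s y (y' i) + (t i).ES R0 e s (y' i))

/-- admissible jumps from `y` -/
structure Jmp {N : ℕ} (K : ℕ) (B : ℝ) {ι : Type} [Fintype ι] (y : Y N) (p : ι → ℝ) (y' : ι → Y N) : Prop where
  nn : ∀ i, 0 ≤ p i
  one : ∑ i, p i = 1
  mean : ∑ i, p i • y' i = y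
  mem : ∀ i, y' i ∈ Vs N K
  bd : ∀ i, nr K (y' i) ≤ B

/-- well formed processes -/
def PT.WFP {N : ℕ} (K : ℕ) (B : ℝ) : PT N → Y N → Prop
  | .nil, _ => True
  | .note a t, y => a ⊆ nds N K ∧ t.WFP K B y
  | .jump _ _ p y' t, y => Jmp K B y p y' ∧ ∀ i, (t i).WFP K B (y' i)

/-- mean of `‖y q‖` after the next jump -/
noncomputable def PT.nx {N : ℕ} (q : Nd N) : PT N → ℝ
  | .nil => 0
  | .note _ _ => 0
  | .jump _ _ p y' _ => ∑ i, p i * ‖y' i q‖

/-- every noted node has size at least `g` now or in the mean after the jump which follows -/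
def PT.Thr {N : ℕ} (g : ℝ) : PT N → Y N → Prop
  | .nil, _ => True
  | .note a t, y => (∀ q ∈ a, g ≤ ‖y q‖ ∨ g ≤ t.nx q) ∧ t.Thr g y
  | .jump _ _ _ y' t, _ => ∀ i, (t i).Thr g (y' i)

/-- valid histories -/
def OKh {N : ℕ} (K : ℕ) (B : ℝ) : St N → Prop
  | [] => True
  | x :: σ => x.1 ∉ St.M σ ∧ x.1.tail ∈ St.M σ ∧ x.1.length ≤ K ∧ x.2 ∈ Vs N K ∧ nr K x.2 ≤ B ∧ OKh K B σ

/-- valid states -/
structure Inv {N : ℕ} (K : ℕ) (B : ℝ) (R0 : ℕ) (s : S N) : Prop where
  ok : OKh K B s.σ
  core_nds : s.core ⊆ nds N K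
  coreM : s.core.card ≤ R0 → s.core ⊆ s.σ.M
  subM : ∀ q ∈ s.σ.M, q = [] ∨ ∃ c ∈ s.core, q <:+ c
  cardM : s.σ.M.card ≤ (K + 1) * R0 + 1

end H50RC
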